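import Pool.Agent.BPM.Defs

/-!
# States as words of bits

`dec M w` is the state whose value at `k` is the number of `true` in the block `k` of length `M` of the word `w`.

PROOFS. `dec_le`: a block has at most `M` bits. `exists_enc`: the word made of the blocks
`List.replicate (a k) true ++ List.replicate (M - a k) false`, `k < n`. `dec_setB`, `length_setB`: the block `k` is replaced.
-/

set_option autoImplicit false

namespace Pool.Agent.BPM

/-- The state of a word. -/
def dec (M : ℕ) (w : List Bool) : Nd := fun k => (((w.drop (k * M)).take M).filter id).length

/-- Replace the block `k` by the number `v`. -/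
def setB (M k v : ℕ) (w : List Bool) : List Bool :=
  w.take (k * M) ++ (List.replicate v true ++ (List.replicate (M - v) false ++
    w.drop ((k + 1) * M)))

theorem dec_le (M : ℕ) (w : List Bool) (k : ℕ) : dec M w k ≤ M := by
  unfold dec
  exact (List.length_filter_le _ _).trans (by rw [List.length_take]; exact min_le_left _ _)

/-- A block. -/
private def bk (M v : ℕ) : List Bool := List.replicate v true ++ List.replicate (M - v) false

private theorem length_bk {M v : ℕ} (hv : v ≤ M) : (bk M v).length = M := by
  unfold bk
  rw [List.length_append, List.length_replicate, List.length_replicate]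
  omega

private theorem filter_bk (M v : ℕ) : ((bk M v).filter id).length = v := by
  unfold bk
  rw [List.filter_append, List.filter_replicate, List.filter_replicate]
  simp

/-- The block of the left part. -/
private theorem dec_left {M n k : ℕ} {w r : List Bool} (hw : w.length = n * M) (hk : k < n) :
    dec M (w ++ r) k = dec M w k := by
  have h1 : k * M + M ≤ n * M := by
    have := Nat.mul_le_mul_right M (show k + 1 ≤ n by omega)
    rwa [Nat.add_mul, Nat.one_mul] at this
  unfold dec
  rw [List.drop_append_of_le_length (by omega), List.take_append_of_le_length]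
  rw [List.length_drop]
  omega

/-- The block of the right part. -/
private theorem dec_right {M n : ℕ} {w r : List Bool} (hw : w.length = n * M) (k : ℕ) :
    dec M (w ++ r) (n + k) = dec M r k := by
  unfold dec
  rw [show (n + k) * M = n * M + k * M by ring, ← List.drop_drop, List.drop_left' hw]

private theorem dec_bk {M v : ℕ} (hv : v ≤ M) (r : List Bool) : dec M (bk M v ++ r) 0 = v := by
  unfold dec
  rw [Nat.zero_mul, List.drop_zero, List.take_left' (length_bk hv), filter_bk]

theorem exists_enc (M n : ℕ) (a : Nd) (h : ∀ k < n, a k ≤ M) :
    ∃ w : List Bool, w.length = n * M ∧ ∀ k < n, dec M w k = a k := by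
  induction n with
  | zero => exact ⟨[], by simp, fun k hk => by omega⟩
  | succ n ih =>
    obtain ⟨w, hw, hd⟩ := ih fun k hk => h k (by omega)
    have hn := h n (by omega)
    refine ⟨w ++ bk M (a n), ?_, fun k hk => ?_⟩
    · rw [List.length_append, hw, length_bk hn]
      ring
    · rcases Nat.lt_or_ge k n with h1 | h1
      · rw [dec_left hw h1, hd k h1]
      · have h2 : k = n + 0 := by omega
        rw [h2, dec_right hw]
        have := dec_bk hn []
        rw [List.append_nil] at this
        simpa using this

private theorem setB_eq (M k v : ℕ) (w : List Bool) :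
    setB M k v w = w.take (k * M) ++ (bk M v ++ w.drop ((k + 1) * M)) := by
  unfold setB bk
  simp only [List.append_assoc]

private theorem length_take' {M k n : ℕ} {w : List Bool} (hw : w.length = n * M) (hk : k < n) :
    (w.take (k * M)).length = k * M := by
  rw [List.length_take, hw]
  exact min_eq_left (Nat.mul_le_mul_right M hk.le)

theorem length_setB {M k v n : ℕ} {w : List Bool} (hw : w.length = n * M) (hk : k < n)
    (hv : v ≤ M) : (setB M k v w).length = n * M := by
  have h1 : k * M + M ≤ n * M := by
    have := Nat.mul_le_mul_right M (show k + 1 ≤ n by omega)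
    rwa [Nat.add_mul, Nat.one_mul] at this
  rw [setB_eq, List.length_append, List.length_append, length_take' hw hk, length_bk hv,
    List.length_drop, hw, Nat.add_mul, Nat.one_mul]
  omega

theorem dec_setB {M k v n : ℕ} {w : List Bool} (hw : w.length = n * M) (hk : k < n)
    (hv : v ≤ M) (j : ℕ) : dec M (setB M k v w) j = if j = k then v else dec M w j := by
  have hl := length_take' hw hk
  have hb : (bk M v).length = 1 * M := by rw [length_bk hv, Nat.one_mul]
  rw [setB_eq]
  rcases lt_trichotomy j k with h1 | h1 | h1
  · rw [if_neg h1.ne, dec_left hl h1, ← dec_left (r := w.drop (k * M)) hl h1, List.take_append_drop]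
  · subst h1
    rw [if_pos rfl]
    exact (dec_right (r := bk M v ++ w.drop ((j + 1) * M)) hl 0).trans (dec_bk hv _)
  · obtain ⟨m, rfl⟩ := Nat.exists_eq_add_of_lt h1
    rw [if_neg (by omega)]
    have h2 := dec_right (r := bk M v ++ w.drop ((k + 1) * M)) hl (1 + m)
    rw [show k + m + 1 = k + (1 + m) by ring, h2, dec_right hb]
    unfold dec
    rw [List.drop_drop, show (k + 1) * M + m * M = (k + (1 + m)) * M by ring]

end Pool.Agent.BPM
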