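import Pool.Agent.BPM.Bits

/-!
# Chains of words and chains of states

PROOFS. `reach_dec`: a chain of words gives a
chain of states (induction or `Relation.ReflTransGen.lift`), with `dec_le`. `reach_enc_ex`: choose words for the states
of the chain (`exists_enc`), by induction on the chain (at the end). `reach_enc`: if the chain of states has no step then
`a = b`, the second alternative. Otherwise let `a' → b` be the last step: `reach_enc_ex` for the chain `a → a'` gives a word
`x` for `a'`, and `R (dec M x) (dec M v)` by `hR`.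
-/

set_option autoImplicit false

namespace Pool.Agent.BPM

/-- `R` depends only on the values at `k < n`. -/
def Loc2 (n : ℕ) (R : Nd → Nd → Prop) : Prop :=
  ∀ a a' b b' : Nd, (∀ k < n, a k = a' k) → (∀ k < n, b k = b' k) → (R a b → R a' b')

theorem reach_dec {n M : ℕ} {R : Nd → Nd → Prop} {u v : List Bool}
    (h : Relation.ReflTransGen (fun x y : List Bool => R (dec M x) (dec M y) ∧
      y.length = n * M) u v) :
    Relation.ReflTransGen (fun a b => R a b ∧ ∀ k < n, b k ≤ M) (dec M u) (dec M v) :=
  h.lift (dec M) fun _ y hxy => ⟨hxy.1, fun k _ => dec_le M y k⟩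

theorem reach_enc_ex {n M : ℕ} {R : Nd → Nd → Prop} (hR : Loc2 n R) {a b : Nd}
    (h : Relation.ReflTransGen (fun a b => R a b ∧ ∀ k < n, b k ≤ M) a b) {u : List Bool}
    (hu : u.length = n * M) (hu' : ∀ k < n, dec M u k = a k) :
    ∃ v : List Bool, v.length = n * M ∧ (∀ k < n, dec M v k = b k) ∧
      Relation.ReflTransGen (fun x y : List Bool => R (dec M x) (dec M y) ∧
        y.length = n * M) u v := by
  induction h with
  | refl => exact ⟨u, hu, hu', Relation.ReflTransGen.refl⟩
  | @tail b' c' _ hstep ih =>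
    obtain ⟨v, hv, hv', hch⟩ := ih
    obtain ⟨w, hw, hw'⟩ := exists_enc M n c' hstep.2
    exact ⟨w, hw, hw', hch.tail ⟨hR _ _ _ _ (fun k hk => (hv' k hk).symm)
      (fun k hk => (hw' k hk).symm) hstep.1, hw⟩⟩

theorem reach_enc {n M : ℕ} {R : Nd → Nd → Prop} (hR : Loc2 n R) {a b : Nd}
    (h : Relation.ReflTransGen (fun a b => R a b ∧ ∀ k < n, b k ≤ M) a b) {u v : List Bool}
    (hu : u.length = n * M) (hu' : ∀ k < n, dec M u k = a k) (hv : v.length = n * M)
    (hv' : ∀ k < n, dec M v k = b k) :
    Relation.ReflTransGen (fun x y : List Bool => R (dec M x) (dec M y) ∧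
      y.length = n * M) u v ∨ a = b := by
  rcases Relation.ReflTransGen.cases_tail h with h1 | ⟨c, hc, hstep⟩
  · exact Or.inr h1.symm
  · obtain ⟨x, -, hx', hch⟩ := reach_enc_ex hR hc hu hu'
    exact Or.inl (hch.tail ⟨hR _ _ _ _ (fun k hk => (hx' k hk).symm)
      (fun k hk => (hv' k hk).symm) hstep.1, hv⟩)

end Pool.Agent.BPM
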