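import Pool.Agent.BPM.Defs
import Pool.Agent.BPD.CloA

/-!
# Few sites are enough if the left side is unstable

PROOF of `admP_of_un`. Let `g > 0` be the greatest common divisor of the coordinates of `p`,
`p = (q₁ g, q₂ g)`. The points of the line `dt x p = 0` are the points `(-(k q₂), k q₁)`
(`bndLine`). Let `X` be the rule of `Un 1 U p` and `Z` the set of these points with `0 ≤ k < b`.
All points with `0 ≤ k` are infected (strong induction): for `y ∈ X` with `dt y p < 0` the site is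
in `halfZ p`, and the other `y ∈ X` are points of the line with `- b ≤ k < 0`.
`finChk_bound`: the same `y`; `perp z ≠ 0` because the origin is not in a rule.
-/

set_option autoImplicit false

namespace Pool.Agent.BPM

open Pool.Agent.BPD Set

/-- The points of the line `dt x p = 0`. -/
private theorem bndLine {p : ℤ × ℤ} (hp : p ≠ 0) : ∃ g q₁ q₂ : ℤ, 0 < g ∧ p.1 = q₁ * g ∧
    p.2 = q₂ * g ∧ 0 < q₁ ^ 2 + q₂ ^ 2 ∧
    ∀ x : ℤ × ℤ, dt x p = 0 → ∃ k : ℤ, x.1 = -(k * q₂) ∧ x.2 = k * q₁ := by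
  have hg : 0 < Int.gcd p.1 p.2 := by
    rw [Nat.pos_iff_ne_zero]
    intro h0
    rw [Int.gcd_eq_zero_iff] at h0
    exact hp (Prod.ext h0.1 h0.2)
  obtain ⟨q₁, q₂, h1, h2, h3⟩ := Int.exists_gcd_one hg
  have hg' : (0 : ℤ) < (Int.gcd p.1 p.2 : ℤ) := by exact_mod_cast hg
  refine ⟨(Int.gcd p.1 p.2 : ℤ), q₁, q₂, hg', h2, h3, ?_, ?_⟩
  · rcases (add_nonneg (sq_nonneg q₁) (sq_nonneg q₂)).lt_or_eq with h | h
    · exact h
    · exfalso
      have e1 : q₁ = 0 := by nlinarith [sq_nonneg q₁, sq_nonneg q₂]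
      have e2 : q₂ = 0 := by nlinarith [sq_nonneg q₁, sq_nonneg q₂]
      rw [e1, e2] at h1
      simp at h1
  · intro x hx
    obtain ⟨a, c, hac⟩ := Int.isCoprime_iff_gcd_eq_one.2 h1
    generalize (Int.gcd p.1 p.2 : ℤ) = g at hg' h2 h3
    have h4 : x.1 * q₁ + x.2 * q₂ = 0 := by
      have h5 : (x.1 * q₁ + x.2 * q₂) * g = 0 := by
        have h6 : x.1 * p.1 + x.2 * p.2 = 0 := hx
        rw [h2, h3] at h6
        linarith
      exact (mul_eq_zero.1 h5).resolve_right hg'.ne'
    refine ⟨a * x.2 - c * x.1, ?_, ?_⟩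
    · linear_combination (-x.1) * hac + a * h4
    · linear_combination (-x.2) * hac + c * h4

theorem admP_of_un {U : Fam} {p : ℤ × ℤ} (hp : p ≠ 0) (h : Un 1 U p) {b : ℕ} (hb : Bd b U) :
    AdmP U p b := by
  obtain ⟨g, q₁, q₂, hg, h1, h2, hq, hl⟩ := bndLine hp
  obtain ⟨X, hX, hXy⟩ := h
  have hdt : ∀ k : ℤ, dt (-(k * q₂), k * q₁) p = 0 := by
    intro k
    simp only [dt, h1, h2]
    ring
  have hnh : ∀ k : ℤ, (-(k * q₂), k * q₁) ∉ halfZ p := by
    intro k hk
    have h3 : dt (-(k * q₂), k * q₁) p < 0 := hk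
    rw [hdt k] at h3
    exact lt_irrefl _ h3
  have key : ∀ n : ℕ, ((-((n : ℤ) * q₂), (n : ℤ) * q₁) : ℤ × ℤ) ∈
      clo U (halfZ p ∪ (fun k : ℕ => ((-((k : ℤ) * q₂), (k : ℤ) * q₁) : ℤ × ℤ)) ''
        ((Finset.range b : Finset ℕ) : Set ℕ)) := by
    intro n
    induction n using Nat.strong_induction_on with
    | _ n ih =>
      rcases lt_or_ge n b with hn | hn
      · refine subset_clo _ _ (Or.inr ⟨n, ?_, rfl⟩)
        exact_mod_cast Finset.mem_range.2 hn
      · refine clo_rule hX fun y hy => ?_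
        rcases hXy y hy with h3 | ⟨h3, h4⟩
        · refine subset_clo _ _ (Or.inl ?_)
          have h5 := hdt (n : ℤ)
          have h6 : dt ((-((n : ℤ) * q₂), (n : ℤ) * q₁) + y) p =
              dt (-((n : ℤ) * q₂), (n : ℤ) * q₁) p + dt y p := by
            simp only [dt, Prod.fst_add, Prod.snd_add]
            ring
          have h7 : dt ((-((n : ℤ) * q₂), (n : ℤ) * q₁) + y) p < 0 := by
            rw [h6, h5]
            linarith
          exact h7
        · obtain ⟨k, e1, e2⟩ := hl y h3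
          have h5 : g * k * (q₁ ^ 2 + q₂ ^ 2) < 0 := by
            have h6 : 1 * (p.1 * y.2 - p.2 * y.1) < 0 := h4
            rw [h1, h2, e1, e2] at h6
            linarith
          have hk : k < 0 := by
            by_contra hk
            have h6 : 0 ≤ k := not_lt.1 hk
            have h7 : 0 ≤ g * k * (q₁ ^ 2 + q₂ ^ 2) := by positivity
            linarith
          have hkb : -k ≤ b := by
            obtain ⟨b1, b2⟩ := hb X hX y hy
            have hz : q₁ ≠ 0 ∨ q₂ ≠ 0 := by
              by_contra hz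
              rw [not_or, not_not, not_not] at hz
              rw [hz.1, hz.2] at hq
              simp at hq
            have hk' : |k| = -k := abs_of_neg hk
            rcases hz with hz | hz
            · have h6 : 1 ≤ |q₁| := Int.one_le_abs hz
              rw [e2, abs_mul, hk'] at b2
              nlinarith
            · have h6 : 1 ≤ |q₂| := Int.one_le_abs hz
              rw [e1, abs_neg, abs_mul, hk'] at b1
              nlinarith
          obtain ⟨m, hm⟩ : ∃ m : ℕ, (m : ℤ) = n + k := by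
            refine ⟨((n : ℤ) + k).toNat, Int.toNat_of_nonneg ?_⟩
            have : (b : ℤ) ≤ n := by exact_mod_cast hn
            linarith
          have hmn : m < n := by
            have : (m : ℤ) < n := by linarith
            exact_mod_cast this
          have h8 : ((-((n : ℤ) * q₂), (n : ℤ) * q₁) : ℤ × ℤ) + y =
              (-((m : ℤ) * q₂), (m : ℤ) * q₁) := by
            refine Prod.ext ?_ ?_
            · simp only [Prod.fst_add, e1, hm]
              ring
            · simp only [Prod.snd_add, e2, hm]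
              ring
          rw [h8]
          exact ih m hmn
  refine ⟨(fun k : ℕ => ((-((k : ℤ) * q₂), (k : ℤ) * q₁) : ℤ × ℤ)) ''
        ((Finset.range b : Finset ℕ) : Set ℕ), ?_, ?_, ?_⟩
  · refine (Set.encard_image_le _ _).trans ?_
    rw [Set.encard_coe_eq_coe_finsetCard, Finset.card_range]
  · rw [Set.disjoint_left]
    rintro x ⟨k, -, rfl⟩
    exact hnh k
  · refine Set.infinite_of_injective_forall_mem
      (f := fun n : ℕ => ((-((n : ℤ) * q₂), (n : ℤ) * q₁) : ℤ × ℤ)) ?_ fun n => ⟨key n, hnh n⟩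
    intro m n hmn
    have e1 : -((m : ℤ) * q₂) = -((n : ℤ) * q₂) := congrArg Prod.fst hmn
    have e2 : (m : ℤ) * q₁ = (n : ℤ) * q₁ := congrArg Prod.snd hmn
    have h3 : ((m : ℤ) - n) * (q₁ ^ 2 + q₂ ^ 2) = 0 := by
      linear_combination q₁ * e2 - q₂ * e1
    have h4 : (m : ℤ) - n = 0 := (mul_eq_zero.1 h3).resolve_right hq.ne'
    have h5 : (m : ℤ) = n := by linarith
    exact_mod_cast h5

theorem finChk_bound {U : Fam} {K B : ℕ} (hB : Bd B U) (h0 : ∀ X ∈ U, ((0 : ℤ), (0 : ℤ)) ∉ X)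
    (h : FinChk U K) : FinChk U B := by
  obtain ⟨y, hy, h1⟩ := h
  refine ⟨y, hy, fun z hz => ⟨fun h2 => ?_, (h1 z hz).2⟩⟩
  rcases (h1 z hz).1 h2 with h3 | ⟨h3, h4, -⟩
  · exact Or.inl h3
  · refine Or.inr ⟨h3, h4, admP_of_un ?_ h3 hB⟩
    intro h5
    have e1 : -z.2 = 0 := congrArg Prod.fst h5
    have e2 : z.1 = 0 := congrArg Prod.snd h5
    have e3 : z = ((0 : ℤ), (0 : ℤ)) := Prod.ext e2 (neg_eq_zero.1 e1)
    obtain ⟨X, hX, h6 | h6⟩ := hz
    · rw [e3] at h6
      exact h0 X hX h6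
    · rw [e3] at h6
      exact h0 X hX (by simpa using h6)

/-- `AdmP` is monotone in the number of sites. -/
theorem AdmP.mono {U : Fam} {p : ℤ × ℤ} {K L : ℕ} (h : AdmP U p K) (hKL : K ≤ L) : AdmP U p L := by
  obtain ⟨Z, h1, h2, h3⟩ := h
  exact ⟨Z, h1.trans (by exact_mod_cast hKL), h2, h3⟩

end Pool.Agent.BPM
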