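import Pool.Agent.BPM.WinC

/-!
# The canonical states of a set with infection times

`A` is the set of infected cells, `t` the infection times. The rank of a cell of `A` in the window `i` is
one plus the number of cells of `A` in the window with a smaller time.

PROOFS. `cs_cell`: `exists_cell`/`ix_inj`: the cell with number `ix H i x` is `x` itself (`Classical.choose`).
The comparison lemma `cs_lt`: for `x, y ∈ A` in the window: `rank x < rank y ↔ t x < t y` (the sets
`{z | t z < t x}`, `{z | t z < t y}` are nested; `x` itself is in the second one, not in the first one if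
`t x < t y`). The same with cells not in `A` (rank `0`, all ranks of `A` are positive). `cs_con`: by
`exists_cell2` the common cells have the numbers `k + 2 H` and `k`; both comparisons are equivalent to the
comparison of the times (and of membership in `A`). `cs_cut`: `rank x ≤ #{y | t y ≤ θ} ↔ t x ≤ θ`: if
`t x ≤ θ` then `{t y < t x} ∪ {x} ⊆ {t y ≤ θ}`; if `θ < t x` then `{t y ≤ θ} ⊆ {t y < t x}`, so
`rank x ≥ 1 + #..`. `cs_le`: the ranks and the cut are at most the number of cells `nQ` (`card_win`; for the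
rank: `x` itself is not in `{t y < t x}`).
-/

set_option autoImplicit false

namespace Pool.Agent.BPM

open Pool.Agent.BPD Set

open Classical in
/-- The canonical state of the window `i`: ranks, cut `θ` (number of the infected cells with time at most
`θ`), counter `κ`. -/
noncomputable def cs (B H i : ℕ) (A : Set (ℤ × ℤ)) (t : ℤ × ℤ → ℕ) (θ κ : ℕ) : Nd := fun k =>
  if hk : k < nQ B H then
    (if (exists_cell i hk).choose ∈ A then
      1 + ((win B H i).filter fun y => y ∈ A ∧ t y < t (exists_cell i hk).choose).card else 0)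
  else if k = nQ B H then ((win B H i).filter fun y => y ∈ A ∧ t y ≤ θ).card else κ

open Classical in
theorem cs_cell {B H i : ℕ} (A : Set (ℤ × ℤ)) (t : ℤ × ℤ → ℕ) (θ κ : ℕ) {x : ℤ × ℤ}
    (hx : InW B H i x) : cs B H i A t θ κ (ix H i x) =
      if x ∈ A then 1 + ((win B H i).filter fun y => y ∈ A ∧ t y < t x).card else 0 := by
  have hk : ix H i x < nQ B H := ix_lt hx
  have hc : (exists_cell (B := B) i hk).choose = x :=
    ix_inj (exists_cell i hk).choose_spec.1 hx (exists_cell i hk).choose_spec.2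
  unfold cs
  rw [dif_pos hk, hc]

open Classical in
private theorem cs_in {B H i : ℕ} {A : Set (ℤ × ℤ)} {t : ℤ × ℤ → ℕ} {θ κ : ℕ} {x : ℤ × ℤ}
    (hx : InW B H i x) (hA : x ∈ A) : cs B H i A t θ κ (ix H i x) =
      1 + ((win B H i).filter fun y => y ∈ A ∧ t y < t x).card := by
  rw [cs_cell A t θ κ hx, if_pos hA]

private theorem cs_out {B H i : ℕ} {A : Set (ℤ × ℤ)} {t : ℤ × ℤ → ℕ} {θ κ : ℕ} {x : ℤ × ℤ}
    (hx : InW B H i x) (hA : x ∉ A) : cs B H i A t θ κ (ix H i x) = 0 := by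
  rw [cs_cell A t θ κ hx, if_neg hA]

open Classical in
private theorem cs_nQ (B H i : ℕ) (A : Set (ℤ × ℤ)) (t : ℤ × ℤ → ℕ) (θ κ : ℕ) :
    cs B H i A t θ κ (nQ B H) = ((win B H i).filter fun y => y ∈ A ∧ t y ≤ θ).card := by
  unfold cs
  rw [dif_neg (lt_irrefl _), if_pos rfl]

open Classical in
private theorem card_lt_iff {B H i : ℕ} {A : Set (ℤ × ℤ)} {t : ℤ × ℤ → ℕ} {x y : ℤ × ℤ}
    (hx : InW B H i x) (hA : x ∈ A) :
    ((win B H i).filter fun z => z ∈ A ∧ t z < t x).card <
      ((win B H i).filter fun z => z ∈ A ∧ t z < t y).card ↔ t x < t y := by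
  constructor
  · intro h
    by_contra hn
    refine absurd h (not_lt.2 (Finset.card_le_card fun z hz => ?_))
    rw [Finset.mem_filter] at hz ⊢
    exact ⟨hz.1, hz.2.1, by have := hz.2.2; omega⟩
  · intro h
    refine Finset.card_lt_card (Finset.ssubset_iff_subset_ne.2 ⟨fun z hz => ?_, fun he => ?_⟩)
    · rw [Finset.mem_filter] at hz ⊢
      exact ⟨hz.1, hz.2.1, hz.2.2.trans h⟩
    · have h1 : x ∈ (win B H i).filter fun z => z ∈ A ∧ t z < t y :=
        Finset.mem_filter.2 ⟨mem_win.2 hx, hA, h⟩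
      rw [← he, Finset.mem_filter] at h1
      exact absurd h1.2.2 (lt_irrefl _)

open Classical in
private theorem card_cut_iff {B H i : ℕ} {A : Set (ℤ × ℤ)} {t : ℤ × ℤ → ℕ} {θ : ℕ} {x : ℤ × ℤ}
    (hx : InW B H i x) (hA : x ∈ A) :
    1 + ((win B H i).filter fun z => z ∈ A ∧ t z < t x).card ≤
      ((win B H i).filter fun z => z ∈ A ∧ t z ≤ θ).card ↔ t x ≤ θ := by
  constructor
  · intro h
    by_contra hn
    have h1 : ((win B H i).filter fun z => z ∈ A ∧ t z ≤ θ).card ≤
        ((win B H i).filter fun z => z ∈ A ∧ t z < t x).card := by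
      refine Finset.card_le_card fun z hz => ?_
      rw [Finset.mem_filter] at hz ⊢
      exact ⟨hz.1, hz.2.1, by have := hz.2.2; omega⟩
    omega
  · intro h
    have h1 : ((win B H i).filter fun z => z ∈ A ∧ t z < t x).card <
        ((win B H i).filter fun z => z ∈ A ∧ t z ≤ θ).card := by
      refine Finset.card_lt_card (Finset.ssubset_iff_subset_ne.2 ⟨fun z hz => ?_, fun he => ?_⟩)
      · rw [Finset.mem_filter] at hz ⊢
        exact ⟨hz.1, hz.2.1, by have := hz.2.2; omega⟩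
      · have h1 : x ∈ (win B H i).filter fun z => z ∈ A ∧ t z ≤ θ :=
          Finset.mem_filter.2 ⟨mem_win.2 hx, hA, h⟩
        rw [← he, Finset.mem_filter] at h1
        exact absurd h1.2.2 (lt_irrefl _)
    omega

theorem cs_pos {B H i : ℕ} {A : Set (ℤ × ℤ)} {t : ℤ × ℤ → ℕ} {θ κ : ℕ} {x : ℤ × ℤ}
    (hx : InW B H i x) : 0 < cs B H i A t θ κ (ix H i x) ↔ x ∈ A := by
  by_cases hA : x ∈ A
  · rw [cs_in hx hA]
    exact ⟨fun _ => hA, fun _ => by omega⟩
  · rw [cs_out hx hA]
    exact ⟨fun h => absurd h (lt_irrefl _), fun h => absurd h hA⟩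

theorem cs_lt {B H i : ℕ} {A : Set (ℤ × ℤ)} {t : ℤ × ℤ → ℕ} {θ κ : ℕ} {x y : ℤ × ℤ}
    (hx : InW B H i x) (hy : InW B H i y) (hyA : y ∈ A) :
    cs B H i A t θ κ (ix H i x) < cs B H i A t θ κ (ix H i y) ↔ (x ∈ A → t x < t y) := by
  by_cases hA : x ∈ A
  · rw [cs_in hx hA, cs_in hy hyA, Nat.add_lt_add_iff_left, card_lt_iff hx hA]
    exact ⟨fun h _ => h, fun h => h hA⟩
  · rw [cs_out hx hA, cs_pos hy]
    exact ⟨fun _ h => absurd h hA, fun _ => hyA⟩

theorem cs_con {B H : ℕ} (i : ℕ) (A : Set (ℤ × ℤ)) (t : ℤ × ℤ → ℕ) (θ θ' κ κ' : ℕ) :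
    Con B H (cs B H i A t θ κ) (cs B H (i + 1) A t θ' κ') := by
  constructor
  · intro k hk
    obtain ⟨x, hx, hx', e1, e2⟩ := exists_cell2 i hk
    rw [← e2, ← e1]
    have h1 := cs_pos (A := A) (t := t) (θ := θ) (κ := κ) hx
    have h2 := cs_pos (A := A) (t := t) (θ := θ') (κ := κ') hx'
    have h3 := h1.trans h2.symm
    omega
  · intro k hk l hl
    obtain ⟨x, hx, hx', e1, e2⟩ := exists_cell2 i hk
    obtain ⟨y, hy, hy', g1, g2⟩ := exists_cell2 i hl
    rw [← e2, ← e1, ← g2, ← g1]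
    by_cases hA : y ∈ A
    · rw [cs_lt hx hy hA, cs_lt hx' hy' hA]
    · rw [cs_out hy hA, cs_out hy' hA]
      exact ⟨fun h => absurd h (Nat.not_lt_zero _), fun h => absurd h (Nat.not_lt_zero _)⟩

theorem cs_cut {B H : ℕ} (i : ℕ) (A : Set (ℤ × ℤ)) (t : ℤ × ℤ → ℕ) (θ κ κ' : ℕ) :
    Cut B H (cs B H i A t θ κ) (cs B H (i + 1) A t θ κ') := by
  intro k hk h0
  obtain ⟨x, hx, hx', e1, e2⟩ := exists_cell2 i hk
  rw [← e1] at h0
  have hA : x ∈ A := (cs_pos hx').1 (Nat.pos_of_ne_zero h0)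
  rw [← e2, ← e1, cs_nQ, cs_nQ, cs_in hx hA, cs_in hx' hA, card_cut_iff hx hA,
    card_cut_iff hx' hA]

theorem cs_le {B H i : ℕ} {A : Set (ℤ × ℤ)} {t : ℤ × ℤ → ℕ} {θ κ k : ℕ} (hk : k ≤ nQ B H) :
    cs B H i A t θ κ k ≤ nQ B H := by
  classical
  rcases Nat.lt_or_ge k (nQ B H) with h | h
  · obtain ⟨x, hx, he⟩ := exists_cell i h
    rw [← he]
    by_cases hA : x ∈ A
    · rw [cs_in hx hA]
      have h1 : ((win B H i).filter fun z => z ∈ A ∧ t z < t x).card < (win B H i).card := by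
        refine Finset.card_lt_card (Finset.ssubset_iff_subset_ne.2
          ⟨Finset.filter_subset _ _, fun h2 => ?_⟩)
        have h3 : x ∈ win B H i := mem_win.2 hx
        rw [← h2, Finset.mem_filter] at h3
        exact absurd h3.2.2 (lt_irrefl _)
      rw [card_win] at h1
      omega
    · rw [cs_out hx hA]
      exact Nat.zero_le _
  · have h1 : k = nQ B H := le_antisymm hk h
    rw [h1, cs_nQ]
    exact (Finset.card_filter_le _ _).trans (card_win B H i).le

theorem cs_cnt {B H i : ℕ} {A : Set (ℤ × ℤ)} {t : ℤ × ℤ → ℕ} {θ κ : ℕ} :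
    cs B H i A t θ κ (nQ B H + 1) = κ := by
  unfold cs
  rw [dif_neg (by omega), if_neg (by omega)]

/-- All infected cells of the window are not later than `θ`: the cut is at least all ranks. -/
theorem cs_top {B H i : ℕ} {A : Set (ℤ × ℤ)} {t : ℤ × ℤ → ℕ} {θ κ : ℕ}
    (h : ∀ x ∈ A, InW B H i x → t x ≤ θ) : ∀ k < nQ B H,
      cs B H i A t θ κ k ≤ cs B H i A t θ κ (nQ B H) := by
  intro k hk
  obtain ⟨x, hx, he⟩ := exists_cell i hk
  rw [← he]
  by_cases hA : x ∈ A
  · rw [cs_in hx hA, cs_nQ, card_cut_iff hx hA]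
    exact h x hA hx
  · rw [cs_out hx hA]
    exact Nat.zero_le _

/-- All infected cells of the window are later than `θ`: the cut is zero. -/
theorem cs_bot {B H i : ℕ} {A : Set (ℤ × ℤ)} {t : ℤ × ℤ → ℕ} {θ κ : ℕ}
    (h : ∀ x ∈ A, InW B H i x → θ < t x) : cs B H i A t θ κ (nQ B H) = 0 := by
  classical
  rw [cs_nQ, Finset.card_eq_zero, Finset.filter_eq_empty_iff]
  rintro x hx ⟨hA, h1⟩
  exact absurd (h x hA (mem_win.1 hx)) (not_lt.2 h1)

end Pool.Agent.BPM
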