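import Pool.Agent.BPM.Canon

/-!
# The unsupported cells of the canonical states are seeds

Here `A` is a set of cells of the strip, `t` are times, such that every cell of `A` outside `Z` has a rule
whose sites are below the strip or in `A` with smaller time (`Sp`).

PROOFS. `sup_of_ini`: let `x ∈ ini B H`, `x ∈ A`, `x ∉ Z`, and let `X` be the rule of `Sp`. For `y ∈ X`: if
`(x + y).2 < 0` nothing is to show; otherwise `x + y ∈ A`, so `(x + y).2 < H`, and `x + y` is in the window `0`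
(`fold_add_le`), so by `cs_pos`, `cs_lt` its rank is positive and smaller than the rank of `x`.
`sup_of_lay`: let `x ∈ A`, `x ∉ Z`, `fold x.1 = i + B`; then the cell `(unf B (side x.1), x.2)` is supported in
`cs B H i ..`: the same with `ix_nbr` (also for `y = 0`: `ix H 0 (unf B (side x.1), x.2) = ix H i x`).

`unsup_ini_le`: the unsupported cells of `ini` (with `0 < a (ix H 0 x)`, so `x ∈ A` by `cs_pos`) are in `Z`
and have fold at most `B`. `unsup_lay_le`: the map `x' ↦ (unf (i + B) (side x'.1), x'.2)` maps the unsupported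
cells of `lay B H` injectively into the elements of `Z` with fold `i + B`.
-/

set_option autoImplicit false

namespace Pool.Agent.BPM

open Pool.Agent.BPD Set

/-- Every cell of `A` outside `Z` has support; the cells of `A` are in the strip. -/
def Sp (U : Fam) (H : ℕ) (A : Set (ℤ × ℤ)) (t : ℤ × ℤ → ℕ) (Z : Finset (ℤ × ℤ)) : Prop :=
  (∀ x ∈ A, 0 ≤ x.2 ∧ x.2 < H) ∧
    ∀ x ∈ A, x ∉ Z → ∃ X ∈ U, ∀ y ∈ X, (x + y).2 < 0 ∨ (x + y ∈ A ∧ t (x + y) < t x)

private theorem inw_zero {U : Fam} {B H : ℕ} (hb : Bd B U) {x y : ℤ × ℤ} {X : Finset (ℤ × ℤ)}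
    (hX : X ∈ U) (hy : y ∈ X) (hx : fold x.1 ≤ B) (h0 : 0 ≤ (x + y).2) (h1 : (x + y).2 < H) :
    InW B H 0 (x + y) := by
  have h2 : fold (x + y).1 ≤ fold x.1 + B := fold_add_le x.1 y.1 B (hb X hX y hy).1
  exact ⟨Nat.zero_le _, by omega, h0, h1⟩

theorem unsup_ini_le {U : Fam} {B H : ℕ} (hb : Bd B U) {A : Set (ℤ × ℤ)} {t : ℤ × ℤ → ℕ}
    {Z : Finset (ℤ × ℤ)} (h : Sp U H A t Z) (θ κ : ℕ) :
    unsup U H (ini B H) (cs B H 0 A t θ κ) ≤ (Z.filter fun x => fold x.1 ≤ B).card := by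
  classical
  unfold unsup
  refine Finset.card_le_card (fun x hx => ?_)
  obtain ⟨hx1, hx2, hx3⟩ := Finset.mem_filter.1 hx
  obtain ⟨h1, h2, h3⟩ := mem_ini.1 hx1
  have hw : InW B H 0 x := ⟨Nat.zero_le _, by omega, h2, h3⟩
  have hA : x ∈ A := (cs_pos hw).1 hx2
  refine Finset.mem_filter.2 ⟨?_, h1⟩
  by_contra hZ
  obtain ⟨X, hX, hs⟩ := h.2 x hA hZ
  refine hx3 ⟨X, hX, fun y hy => ?_⟩
  rcases hs y hy with h4 | ⟨h4, h5⟩
  · exact Or.inl h4
  · have h6 := h.1 _ h4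
    have h7 : InW B H 0 (x + y) := inw_zero hb hX hy h1 h6.1 h6.2
    exact Or.inr ⟨h6.2, (cs_pos h7).2 h4, (cs_lt h7 hw hA).2 fun _ => h5⟩

theorem unsup_lay_le {U : Fam} {B H : ℕ} (hb : Bd B U) {A : Set (ℤ × ℤ)} {t : ℤ × ℤ → ℕ}
    {Z : Finset (ℤ × ℤ)} (h : Sp U H A t Z) (i θ κ : ℕ) :
    unsup U H (lay B H) (cs B H i A t θ κ) ≤ (Z.filter fun x => fold x.1 = i + B).card := by
  classical
  have key : ∀ x' ∈ lay B H, 0 < cs B H i A t θ κ (ix H 0 x') →
      ¬ Sup U H (cs B H i A t θ κ) x' →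
      ((unf (i + B) (side x'.1), x'.2) : ℤ × ℤ) ∈ Z := by
    intro x' h1 h2 h3
    obtain ⟨g1, g2, g3⟩ := mem_lay.1 h1
    have e1 : fold (unf (i + B) (side x'.1)) = i + B := fold_unf _ _
    have e2 : side (unf (i + B) (side x'.1)) = side x'.1 := side_unf _ _ (side_lt _)
    have e3 : ((unf B (side (unf (i + B) (side x'.1))), x'.2) : ℤ × ℤ) = x' := by
      rw [e2, ← g1, unf_fold]
    have e4 : ∀ y : ℤ × ℤ, |y.1| ≤ B →
        ix H 0 (x' + y) = ix H i ((unf (i + B) (side x'.1), x'.2) + y) ∧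
        i ≤ fold ((unf (i + B) (side x'.1), x'.2) + y).1 ∧
        fold ((unf (i + B) (side x'.1), x'.2) + y).1 < i + (2 * B + 1) := by
      intro y hy
      have h4 := ix_nbr (H := H) (x := (unf (i + B) (side x'.1), x'.2)) (y := y) e1 hy
      have h5 : ((unf B (side ((unf (i + B) (side x'.1), x'.2) : ℤ × ℤ).1),
        ((unf (i + B) (side x'.1), x'.2) : ℤ × ℤ).2) : ℤ × ℤ) = x' := e3
      rw [h5] at h4
      exact h4
    obtain ⟨f1, f2, f3⟩ := e4 0 (by simp)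
    rw [add_zero, add_zero] at f1
    rw [add_zero] at f2 f3
    generalize hxx : ((unf (i + B) (side x'.1), x'.2) : ℤ × ℤ) = x at *
    have hx2 : x.2 = x'.2 := by rw [← hxx]
    have hw : InW B H i x := ⟨f2, f3, by omega, by omega⟩
    rw [f1] at h2
    have hA : x ∈ A := (cs_pos hw).1 h2
    by_contra hZ
    obtain ⟨X, hX, hs⟩ := h.2 x hA hZ
    refine h3 ⟨X, hX, fun y hy => ?_⟩
    obtain ⟨k1, k2, k3⟩ := e4 y (hb X hX y hy).1
    have k4 : (x' + y).2 = (x + y).2 := by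
      show x'.2 + y.2 = x.2 + y.2
      rw [hx2]
    rw [k1, f1, k4]
    rcases hs y hy with h4 | ⟨h4, h5⟩
    · exact Or.inl h4
    · have h6 := h.1 _ h4
      have h7 : InW B H i (x + y) := ⟨k2, k3, h6.1, h6.2⟩
      exact Or.inr ⟨h6.2, (cs_pos h7).2 h4, (cs_lt h7 hw hA).2 fun _ => h5⟩
  unfold unsup
  refine Finset.card_le_card_of_injOn (fun x' => ((unf (i + B) (side x'.1), x'.2) : ℤ × ℤ))
    (fun x' hx => ?_) (fun x' hx z' hz he => ?_)
  · obtain ⟨h1, h2, h3⟩ := Finset.mem_filter.1 hx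
    exact Finset.mem_coe.2 (Finset.mem_filter.2 ⟨key x' h1 h2 h3, fold_unf _ _⟩)
  · have h1 := (mem_lay.1 (Finset.mem_filter.1 hx).1).1
    have h2 := (mem_lay.1 (Finset.mem_filter.1 hz).1).1
    obtain ⟨h3, h4⟩ := Prod.mk.inj he
    have h5 : side x'.1 = side z'.1 := by
      rw [← side_unf (i + B) _ (side_lt x'.1), ← side_unf (i + B) _ (side_lt z'.1), h3]
    refine Prod.ext ?_ h4
    rw [← unf_fold x'.1, ← unf_fold z'.1, h1, h2, h5]

/-- The number of unsupported cells does not depend on the cut and on the counter. -/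
theorem unsup_congr {U : Fam} {B H : ℕ} (hb : Bd B U) {S : Finset (ℤ × ℤ)}
    (hS : ∀ x ∈ S, fold x.1 ≤ B ∧ 0 ≤ x.2 ∧ x.2 < H) {a b : Nd} (h : ∀ k < nQ B H, a k = b k) :
    unsup U H S a = unsup U H S b := by
  classical
  have key : ∀ {a b : Nd}, (∀ k < nQ B H, a k = b k) → ∀ x ∈ S, Sup U H a x → Sup U H b x := by
    rintro a b hab x hx ⟨X, hX, hs⟩
    obtain ⟨h1, h2, h3⟩ := hS x hx
    have hw : InW B H 0 x := ⟨Nat.zero_le _, by omega, h2, h3⟩
    refine ⟨X, hX, fun y hy => ?_⟩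
    rcases hs y hy with h4 | ⟨h4, h5, h6⟩
    · exact Or.inl h4
    · rcases lt_or_ge (x + y).2 0 with h7 | h7
      · exact Or.inl h7
      · have h8 : InW B H 0 (x + y) := inw_zero hb hX hy h1 h7 h4
        rw [hab _ (ix_lt h8)] at h5 h6
        rw [hab _ (ix_lt hw)] at h6
        exact Or.inr ⟨h4, h5, h6⟩
  unfold unsup
  refine congrArg Finset.card (Finset.filter_congr fun x hx => ?_)
  obtain ⟨h1, h2, h3⟩ := hS x hx
  have hw : InW B H 0 x := ⟨Nat.zero_le _, by omega, h2, h3⟩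
  rw [h _ (ix_lt hw)]
  exact and_congr_right fun _ => not_congr
    ⟨key h x hx, key (fun k hk => (h k hk).symm) x hx⟩

end Pool.Agent.BPM
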