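import Pool.Agent.BPM.BitsR
import Pool.Agent.BPM.Seeds

/-!
# Certificates as words of bits

PROOFS. `R0`, `R1` depend only on the values at `k < nQ B H + 2` (`Con`, `Cut`: the indices are `<
nQ B H + 1`, as `4 B H + 2 H = nQ B H`; `unsup`: `unsup_congr` with `mem_lay`), so `Loc2 (nQ B H +
2)`. `BN B H M a` is `∀ k < nQ B H + 2, a k ≤ M`.

`cert_iff_bits`. `→`: let `a`, `c` be given. Take a word `u` for `a` (`exists_enc`), then `v` for
`c` (`reach_enc_ex`), and `reach_enc` for `R1` with the words `setB M (nQ) (nQ) v`, `setB M (nQ) 0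
v` (`dec_setB`, `length_setB`): the alternative `a = b` is impossible as the values at `nQ` are `nQ
≠ 0` and `0`. The counter conditions: same values (`unsup_congr`, `mem_ini`). `←`: `a = dec M u`, `c
= dec M v`, `reach_dec`; for the second chain the states are `dec M (setB ..)`, which are equal to
`Function.update c ..` as functions, by `dec_setB`. -/

set_option autoImplicit false

namespace Pool.Agent.BPM

open Pool.Agent.BPD Set

theorem nQ_eq (B H : ℕ) : nQ B H = 4 * B * H + 2 * H := by
  unfold nQ; ring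

theorem con_congr {B H : ℕ} {a a' b b' : Nd} (ha : ∀ k < nQ B H + 2, a k = a' k)
    (hb : ∀ k < nQ B H + 2, b k = b' k) (h : Con B H a b) : Con B H a' b' := by
  have hn := nQ_eq B H
  refine ⟨fun k hk => ?_, fun k hk l hl => ?_⟩
  · rw [← ha (k + 2 * H) (by omega), ← hb k (by omega)]
    exact h.1 k hk
  · rw [← ha (k + 2 * H) (by omega), ← ha (l + 2 * H) (by omega), ← hb k (by omega),
      ← hb l (by omega)]
    exact h.2 k hk l hl

theorem unsup_lay_congr {U : Fam} {B H : ℕ} (hb : Bd B U) {a b : Nd}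
    (h : ∀ k < nQ B H + 2, a k = b k) : unsup U H (lay B H) a = unsup U H (lay B H) b := by
  refine unsup_congr hb (fun x hx => ?_) fun k hk => h k (by omega)
  rw [mem_lay] at hx
  exact ⟨hx.1.le, hx.2.1, hx.2.2⟩

theorem unsup_ini_congr {U : Fam} {B H : ℕ} (hb : Bd B U) {a b : Nd}
    (h : ∀ k < nQ B H + 2, a k = b k) : unsup U H (ini B H) a = unsup U H (ini B H) b := by
  refine unsup_congr hb (fun x hx => ?_) fun k hk => h k (by omega)
  rwa [mem_ini] at hx

theorem loc_R0 {U : Fam} {B H : ℕ} (hb : Bd B U) : Loc2 (nQ B H + 2) (R0 U B H) := by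
  intro a a' b b' ha hb' h
  refine ⟨con_congr ha hb' h.1, ?_⟩
  rw [← ha (nQ B H + 1) (by omega), ← hb' (nQ B H + 1) (by omega), ← unsup_lay_congr hb hb']
  exact h.2

theorem loc_R1 {U : Fam} {B H : ℕ} (hb : Bd B U) : Loc2 (nQ B H + 2) (R1 U B H) := by
  intro a a' b b' ha hb' h
  refine ⟨con_congr ha hb' h.1, fun k hk hk0 => ?_, ?_⟩
  · have hn := nQ_eq B H
    rw [← hb' k (by omega)] at hk0
    rw [← ha (k + 2 * H) (by omega), ← ha (nQ B H) (by omega), ← hb' k (by omega),
      ← hb' (nQ B H) (by omega)]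
    exact h.2.1 k hk hk0
  · rw [← unsup_lay_congr hb hb']
    exact h.2.2

/-- The length of the words. -/
def lw (B H M : ℕ) : ℕ := (nQ B H + 2) * M

theorem dec_setB_update {B H M v : ℕ} {w : List Bool} (hw : w.length = lw B H M) (hv : v ≤ M) :
    dec M (setB M (nQ B H) v w) = Function.update (dec M w) (nQ B H) v := by
  funext j
  rw [dec_setB hw (by omega : nQ B H < nQ B H + 2) hv j, Function.update_apply]

theorem cert_iff_bits {U : Fam} {B H K M : ℕ} (hb : Bd B U) (hM : nQ B H + K ≤ M) :
    Cert U B H K M ↔ ∃ u v : List Bool, u.length = lw B H M ∧ v.length = lw B H M ∧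
      dec M u (nQ B H + 1) = unsup U H (ini B H) (dec M u) ∧
      dec M v (nQ B H + 1) ≤ K ∧ (∃ k < nQ B H, 0 < dec M v k) ∧
      (∀ k < nQ B H, dec M v k ≤ nQ B H) ∧
      Relation.ReflTransGen (fun x y : List Bool => R0 U B H (dec M x) (dec M y) ∧
        y.length = lw B H M) u v ∧
      Relation.ReflTransGen (fun x y : List Bool => R1 U B H (dec M x) (dec M y) ∧
        y.length = lw B H M) (setB M (nQ B H) (nQ B H) v) (setB M (nQ B H) 0 v) := by
  have hM1 : nQ B H ≤ M := by omega
  constructor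
  · rintro ⟨a, c, ha, hcnt, hch, hK, ⟨k0, hk0, hk0'⟩, hle, hch1⟩
    obtain ⟨u, hu, hu'⟩ := exists_enc M (nQ B H + 2) a ha
    obtain ⟨v, hv, hv', huv⟩ := reach_enc_ex (loc_R0 hb) hch hu hu'
    refine ⟨u, v, hu, hv, ?_, ?_, ⟨k0, hk0, ?_⟩, fun k hk => ?_, huv, ?_⟩
    · rw [hu' (nQ B H + 1) (by omega), hcnt]
      exact unsup_ini_congr hb fun k hk => (hu' k hk).symm
    · rw [hv' (nQ B H + 1) (by omega)]
      exact hK
    · rw [hv' k0 (by omega)]
      exact hk0'
    · rw [hv' k (by omega)]
      exact hle k hk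
    · have key : ∀ w : ℕ, w ≤ M → ∀ k < nQ B H + 2,
          dec M (setB M (nQ B H) w v) k = Function.update c (nQ B H) w k := by
        intro w hw k hk
        rw [dec_setB_update hv hw, Function.update_apply, Function.update_apply]
        by_cases hkn : k = nQ B H
        · rw [if_pos hkn, if_pos hkn]
        · rw [if_neg hkn, if_neg hkn]
          exact hv' k hk
      have hl : ∀ w : ℕ, w ≤ M → (setB M (nQ B H) w v).length = (nQ B H + 2) * M :=
        fun w hw => length_setB hv (by omega) hw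
      rcases reach_enc (loc_R1 hb) hch1 (hl _ hM1) (key _ hM1) (hl 0 (Nat.zero_le _))
        (key 0 (Nat.zero_le _)) with h | h
      · exact h
      · exfalso
        have h1 := congrFun h (nQ B H)
        rw [Function.update_self, Function.update_self] at h1
        omega
  · rintro ⟨u, v, hu, hv, hcnt, hK, hpos, hle, hch, hch1⟩
    refine ⟨dec M u, dec M v, fun k _ => dec_le M u k, hcnt, reach_dec hch, hK, hpos, hle, ?_⟩
    have h := reach_dec hch1
    rw [dec_setB_update hv hM1, dec_setB_update hv (Nat.zero_le M)] at h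
    exact h

end Pool.Agent.BPM
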