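import Pool.Agent.BPM.Defs
import Pool.Agent.BPD.CloA

/-!
# Gaps between the heights of the sites

`halfZ (0, 1) = {x | x.2 < 0}` (`dt x (0, 1) = x.2`).

PROOFS. `clo_rows`: `clo_least` with `{x | x.2 < a}`: if `(x + y).2 < a` for all `y ∈ X`, take the `y` with
`0 ≤ y.2` (`hs`). `clo_gap`: let `T₁ = clo U (halfZ (0, 1) ∪ Zl)`, `T₂ = clo U Zu`. `T₁ ⊆ {x | x.2 < a}`
(`clo_rows`). `T₁ ∪ T₂` contains the set and is closed: let `x + y ∈ T₁ ∪ T₂` for all `y ∈ X`. The
heights of the `x + y` differ by at most `2 B`, but heights in `T₁` are `≤ a - 1` and heights in `T₂`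
are `≥ a + 2 B + 1`; so all are in `T₁` or all are in `T₂` (`clo_rule`). `clo_translate`: `clo_least` for the
preimage, twice (or one inclusion and its inverse). `clo_height`: as `clo_rows`.
-/

set_option autoImplicit false

namespace Pool.Agent.BPM

open Pool.Agent.BPD Set

theorem mem_half01 {x : ℤ × ℤ} : x ∈ halfZ (0, 1) ↔ x.2 < 0 := by
  unfold halfZ dt
  simp

theorem clo_rows {U : Fam} (hs : St U (0, 1)) {A : Set (ℤ × ℤ)} {a : ℤ} (hA : ∀ x ∈ A, x.2 < a) :
    ∀ x ∈ clo U A, x.2 < a := by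
  have h : clo U A ⊆ {x | x.2 < a} := by
    refine clo_least hA ?_
    intro X hX x hx
    obtain ⟨y, hy, h0⟩ := hs X hX
    have h1 : (x + y).2 < a := hx y hy
    have h2 : 0 ≤ y.2 := by simpa [dt] using h0
    have h3 : (x + y).2 = x.2 + y.2 := rfl
    change x.2 < a
    omega
  exact fun x hx => h hx

theorem clo_gap {U : Fam} {B : ℕ} (hb : Bd B U) (hs : St U (0, 1)) {Zl Zu : Set (ℤ × ℤ)} {a : ℤ}
    (ha : 0 ≤ a) (hl : ∀ x ∈ Zl, x.2 < a) (hu : ∀ x ∈ clo U Zu, a + 2 * B + 1 ≤ x.2) :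
    clo U (halfZ (0, 1) ∪ (Zl ∪ Zu)) ⊆ clo U (halfZ (0, 1) ∪ Zl) ∪ clo U Zu := by
  have h1 : ∀ x ∈ clo U (halfZ (0, 1) ∪ Zl), x.2 < a := by
    apply clo_rows hs
    rintro x (hx | hx)
    · have := mem_half01.1 hx
      omega
    · exact hl x hx
  refine clo_least ?_ ?_
  · rintro x (hx | hx | hx)
    · exact Or.inl (subset_clo U _ (Or.inl hx))
    · exact Or.inl (subset_clo U _ (Or.inr hx))
    · exact Or.inr (subset_clo U _ hx)
  · intro X hX x hx
    by_cases h : ∀ y ∈ X, x + y ∈ clo U (halfZ (0, 1) ∪ Zl)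
    · exact Or.inl (clo_rule hX h)
    · right
      push Not at h
      obtain ⟨z, hz, hz1⟩ := h
      have hz2 : a + 2 * B + 1 ≤ (x + z).2 := hu _ ((hx z hz).resolve_left hz1)
      refine clo_rule hX fun y hy => ?_
      rcases hx y hy with h2 | h2
      · exfalso
        have h3 := h1 _ h2
        have h4 := (hb X hX y hy).2
        have h5 := (hb X hX z hz).2
        have h6 : (x + y).2 = x.2 + y.2 := rfl
        have h7 : (x + z).2 = x.2 + z.2 := rfl
        rw [abs_le] at h4 h5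
        omega
      · exact h2

private theorem clo_translate_sub (U : Fam) (A : Set (ℤ × ℤ)) (v : ℤ × ℤ) :
    clo U ((fun x => x + v) '' A) ⊆ (fun x => x + v) '' clo U A := by
  refine clo_least (Set.image_mono (subset_clo U A)) ?_
  intro X hX x hx
  refine ⟨x - v, clo_rule hX fun y hy => ?_, sub_add_cancel x v⟩
  obtain ⟨z, hz, hz1⟩ := hx y hy
  have h1 : z + v = x + y := hz1
  have h2 : x - v + y = z := by
    rw [sub_add_eq_add_sub, ← h1, add_sub_cancel_right]
  rw [h2]
  exact hz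

theorem clo_translate (U : Fam) (A : Set (ℤ × ℤ)) (v : ℤ × ℤ) :
    clo U ((fun x => x + v) '' A) = (fun x => x + v) '' clo U A := by
  refine (clo_translate_sub U A v).antisymm ?_
  have h := clo_translate_sub U ((fun x => x + v) '' A) (-v)
  have h1 : (fun x : ℤ × ℤ => x + -v) '' ((fun x => x + v) '' A) = A := by
    rw [← Set.image_comp]
    have h2 : ((fun x : ℤ × ℤ => x + -v) ∘ fun x => x + v) = id := by
      funext x
      simp
    rw [h2, Set.image_id]
  rw [h1] at h
  rintro _ ⟨x, hx, rfl⟩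
  obtain ⟨z, hz, hz1⟩ := h hx
  have h3 : z + -v = x := hz1
  have h4 : x + v = z := by
    rw [← h3]
    simp
  change x + v ∈ _
  rw [h4]
  exact hz

end Pool.Agent.BPM
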