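import Pool.Agent.BPM.Defs
import Pool.Agent.BPD.CloA

/-!
# Infection times

PROOF. `tm U A x` is the least `n` with `x ∈ (upd U)^[n] A` (`0` if there is none). If `x ∈ clo U A`, `x ∉ A` then
`n = tm U A x ≥ 1`, `x ∈ (upd U)^[n] A = upd U ((upd U)^[n - 1] A)` (`Function.iterate_succ_apply'`), `x` is not in
`(upd U)^[n - 1] A`, so there is a rule `X` with `x + y ∈ (upd U)^[n - 1] A` for all `y ∈ X`: these are in
the closure and have `tm ≤ n - 1`.

`finite_early`: by induction on `n` the set `(upd U)^[n] (halfZ (0, 1) ∪ Z) \ halfZ (0, 1)` is finite (`Z` finite):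
a new element `x` of the step `n + 1` has `0 ≤ x.2` and `x + y` in the set of step `n` for all
`y ∈ X`; for the `y ∈ X` with `0 ≤ y.2` (`hs`) the site `x + y` is not in `halfZ (0, 1)`, so
`x = s - y` for one of finitely many `s` and one of the finitely many `y`. And `tm U A x ≤ m`, `x ∈ clo U A`
implies `x ∈ (upd U)^[m] A` (the iterates increase).
-/

set_option autoImplicit false

namespace Pool.Agent.BPM

open Pool.Agent.BPD Set

open Classical in
/-- The infection time. -/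
noncomputable def tm (U : Fam) (A : Set (ℤ × ℤ)) (x : ℤ × ℤ) : ℕ :=
  if h : ∃ n : ℕ, x ∈ (upd U)^[n] A then Nat.find h else 0

private theorem iter_mono (U : Fam) (A : Set (ℤ × ℤ)) : Monotone fun n : ℕ => (upd U)^[n] A :=
  monotone_nat_of_le_succ fun n => by
    rw [Function.iterate_succ_apply']
    exact Set.subset_union_left

private theorem mem_clo {U : Fam} {A : Set (ℤ × ℤ)} {x : ℤ × ℤ} :
    x ∈ clo U A ↔ ∃ n : ℕ, x ∈ (upd U)^[n] A := by
  unfold clo
  exact Set.mem_iUnion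

private theorem tm_spec {U : Fam} {A : Set (ℤ × ℤ)} {x : ℤ × ℤ} (hx : x ∈ clo U A) :
    x ∈ (upd U)^[tm U A x] A := by
  classical
  have h := mem_clo.1 hx
  unfold tm
  rw [dif_pos h]
  exact Nat.find_spec h

private theorem tm_le {U : Fam} {A : Set (ℤ × ℤ)} {x : ℤ × ℤ} {n : ℕ}
    (hx : x ∈ (upd U)^[n] A) : tm U A x ≤ n := by
  classical
  have h : ∃ n : ℕ, x ∈ (upd U)^[n] A := ⟨n, hx⟩
  unfold tm
  rw [dif_pos h]
  exact Nat.find_min' h hx

theorem tm_rule {U : Fam} {A : Set (ℤ × ℤ)} {x : ℤ × ℤ} (hx : x ∈ clo U A) (hxA : x ∉ A) :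
    ∃ X ∈ U, ∀ y ∈ X, x + y ∈ clo U A ∧ tm U A (x + y) < tm U A x := by
  have h1 := tm_spec hx
  obtain ⟨m, hm⟩ : ∃ m, tm U A x = m + 1 := by
    refine Nat.exists_eq_succ_of_ne_zero fun h0 => hxA ?_
    rw [h0] at h1
    exact h1
  rw [hm, Function.iterate_succ_apply'] at h1
  rcases h1 with h1 | ⟨X, hX, h1⟩
  · have := tm_le h1
    omega
  · refine ⟨X, hX, fun y hy => ⟨mem_clo.2 ⟨m, h1 y hy⟩, ?_⟩⟩
    have := tm_le (h1 y hy)
    omega

theorem finite_early {U : Fam} (hs : St U (0, 1)) (Z : Finset (ℤ × ℤ)) (m : ℕ) :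
    {x | x ∈ clo U (halfZ (0, 1) ∪ ↑Z) ∧ x ∉ halfZ (0, 1) ∧
      tm U (halfZ (0, 1) ∪ ↑Z) x ≤ m}.Finite := by
  have hh : ∀ x : ℤ × ℤ, x ∈ halfZ (0, 1) ↔ x.2 < 0 := by
    intro x
    unfold halfZ dt
    simp
  have key : ∀ n : ℕ, ((upd U)^[n] (halfZ (0, 1) ∪ ↑Z) \ halfZ (0, 1)).Finite := by
    intro n
    induction n with
    | zero =>
      refine (Finset.finite_toSet Z).subset ?_
      rintro x ⟨h1 | h1, h2⟩
      · exact absurd h1 h2
      · exact h1
    | succ n ih =>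
      have hfin : (⋃ X ∈ U, ⋃ y ∈ X, (fun s => s - y) ''
          ((upd U)^[n] (halfZ (0, 1) ∪ ↑Z) \ halfZ (0, 1))).Finite :=
        U.finite_toSet.biUnion fun X _ => X.finite_toSet.biUnion fun y _ => ih.image _
      refine (ih.union hfin).subset ?_
      rintro x ⟨h1, h2⟩
      rw [Function.iterate_succ_apply'] at h1
      rcases h1 with h1 | ⟨X, hX, h1⟩
      · exact Or.inl ⟨h1, h2⟩
      · right
        obtain ⟨y, hy, h3⟩ := hs X hX
        have h4 : 0 ≤ y.2 := by simpa [dt] using h3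
        rw [hh] at h2
        refine Set.mem_iUnion₂.2 ⟨X, hX, Set.mem_iUnion₂.2 ⟨y, hy, x + y, ⟨h1 y hy, ?_⟩, ?_⟩⟩
        · rw [hh]
          show ¬ x.2 + y.2 < 0
          omega
        · exact add_sub_cancel_right x y
  refine (key m).subset ?_
  rintro x ⟨h1, h2, h3⟩
  exact ⟨iter_mono U _ h3 (tm_spec h1), h2⟩

end Pool.Agent.BPM
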