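import Pool.Agent.BPM.Seeds
import Pool.Agent.BPM.Time
import Pool.Agent.BPM.Gap

/-!
# Completeness: infinite growth gives a certificate

PROOF of `cert_of_sp`. Write `κ j` for the number of seeds up to the window `j`:
`κ 0 = unsup U H (ini B H) (cs B H 0 A t 0 0)` and `κ (j + 1) = κ j + unsup U H (lay B H) (cs B H (j + 1) A t 0 0)`;
the number `unsup` does not depend on `θ, κ` (`unsup_congr`). By `unsup_ini_le`, `unsup_lay_le`:
`κ j ≤ #{x ∈ Z | fold x.1 ≤ j + B} ≤ Z.card ≤ K`. Let `i₀` be larger than the folds of all elements of `Z`.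

The states `cs B H i A t 0 0` restricted to `k < nQ B H` take only finitely many values (`cs_le`), and for
infinitely many `i` the window `i` contains an element of `A` (`A` is infinite, every window is finite,
rows `< H`: so the folds of the elements of `A` are unbounded; take `i = fold x.1`). So there are one
value `c₀` and infinitely many `i` with this value (`Set.Infinite`-pigeonhole, e.g.
`Set.Infinite.exists_ne_map_eq_of_mapsTo` is not enough: use the infinite fibre
`Finite.exists_infinite_fiber`-like lemmas), all with an element of `A` in the window. Take such an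
`i ≥ i₀`; let `θ` be the largest time of the elements of `A` in the window `i` (a finite set). The set of
the elements of `A` with `t x ≤ θ` is finite (`hfin`), so there is such an `i' > i` such that all elements of
`A` in the window `i'` are later than `θ` (take `i'` larger than all folds of that finite set).

Part one: `a = cs B H 0 A t 0 (κ 0)`, then `cs B H j A t 0 (κ j)`, `j ≤ i`: steps `R0` by `cs_con` and the
definition of `κ`; `BN` by `cs_le`, `κ j ≤ K`, `nQ + K ≤ M`. `c = cs B H i A t 0 (κ i)`; the condition `∃ k < nQ, 0 < c k` by `cs_pos`.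
Part two: the states `cs B H j A t θ (κ i)`, `i ≤ j ≤ i'`, are connected by `R1` (`cs_con`, `cs_cut`, and `unsup = 0`
by `unsup_lay_le` as no element of `Z` has fold `≥ i₀`). The first one agrees with
`update c (nQ) (nQ)` except for the cut; the cut may be replaced by the larger value `nQ`, because all
ranks are at most the cut (`cs_top`): in the first step only the comparisons `a (k + 2 H) ≤ a (nQ)` occur
and they are all true (`a k ≤ nQ` by `cs_le`). The last one is equal to `update c (nQ) 0` for all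
`k < nQ + 2` (`cs_bot`, same ranks, same counter `κ i`), and states are functions: for `k ≥ nQ + 2` the function
`cs` has the value `κ` for all windows, so the functions are equal (`funext`).
-/

set_option autoImplicit false

namespace Pool.Agent.BPM

open Pool.Agent.BPD Set

private theorem cs_congr {B H i : ℕ} (A : Set (ℤ × ℤ)) (t : ℤ × ℤ → ℕ) (θ κ θ' κ' : ℕ) {k : ℕ}
    (hk : k < nQ B H) : cs B H i A t θ κ k = cs B H i A t θ' κ' k := by
  unfold cs
  rw [dif_pos hk, dif_pos hk]

private theorem cs_far {B H i : ℕ} (A : Set (ℤ × ℤ)) (t : ℤ × ℤ → ℕ) (θ κ : ℕ) {k : ℕ}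
    (hk : nQ B H < k) : cs B H i A t θ κ k = κ := by
  unfold cs
  rw [dif_neg (by omega), if_neg (by omega)]

private theorem lay_mem {B H : ℕ} {x : ℤ × ℤ} (hx : x ∈ lay B H) :
    fold x.1 ≤ B ∧ 0 ≤ x.2 ∧ x.2 < H := by
  unfold lay at hx
  rw [Finset.mem_product, Finset.mem_Ico] at hx
  obtain ⟨h1, h2, h3⟩ := hx
  refine ⟨?_, h2, h3⟩
  rw [Finset.mem_insert, Finset.mem_singleton] at h1
  unfold fold
  split_ifs <;> rcases h1 with h1 | h1 <;> omega

private theorem ini_mem {B H : ℕ} {x : ℤ × ℤ} (hx : x ∈ ini B H) :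
    fold x.1 ≤ B ∧ 0 ≤ x.2 ∧ x.2 < H := by
  unfold ini at hx
  rw [Finset.mem_product, Finset.mem_Ico, Finset.mem_Icc] at hx
  obtain ⟨⟨h1, h1'⟩, h2, h3⟩ := hx
  refine ⟨?_, h2, h3⟩
  unfold fold
  split_ifs <;> omega

/-- The number of seeds up to the window `j`. -/
private noncomputable def ka (U : Fam) (B H : ℕ) (A : Set (ℤ × ℤ)) (t : ℤ × ℤ → ℕ) : ℕ → ℕ
  | 0 => unsup U H (ini B H) (cs B H 0 A t 0 0)
  | j + 1 => ka U B H A t j + unsup U H (lay B H) (cs B H (j + 1) A t 0 0)

private theorem ka_le {U : Fam} {B H : ℕ} (hb : Bd B U) {A : Set (ℤ × ℤ)} {t : ℤ × ℤ → ℕ}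
    {Z : Finset (ℤ × ℤ)} (h : Sp U H A t Z) (j : ℕ) :
    ka U B H A t j ≤ (Z.filter fun x => fold x.1 ≤ j + B).card := by
  classical
  induction j with
  | zero =>
    have h1 := unsup_ini_le hb h 0 0
    simpa [ka] using h1
  | succ j ih =>
    have h1 := unsup_lay_le hb h (j + 1) 0 0
    have h2 : Disjoint (Z.filter fun x => fold x.1 ≤ j + B)
        (Z.filter fun x => fold x.1 = j + 1 + B) := by
      rw [Finset.disjoint_filter]
      intro x _ h3 h4
      omega
    calc ka U B H A t (j + 1)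
        = ka U B H A t j + unsup U H (lay B H) (cs B H (j + 1) A t 0 0) := rfl
      _ ≤ (Z.filter fun x => fold x.1 ≤ j + B).card +
          (Z.filter fun x => fold x.1 = j + 1 + B).card := Nat.add_le_add ih h1
      _ = ((Z.filter fun x => fold x.1 ≤ j + B) ∪
          (Z.filter fun x => fold x.1 = j + 1 + B)).card := (Finset.card_union_of_disjoint h2).symm
      _ ≤ (Z.filter fun x => fold x.1 ≤ j + 1 + B).card := by
          refine Finset.card_le_card fun x hx => ?_
          rw [Finset.mem_union, Finset.mem_filter, Finset.mem_filter] at hx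
          rw [Finset.mem_filter]
          rcases hx with ⟨h3, h4⟩ | ⟨h3, h4⟩
          · exact ⟨h3, by omega⟩
          · exact ⟨h3, by omega⟩

/-- Arbitrarily far windows contain elements of `A`. -/
private theorem far_win {U : Fam} {B H : ℕ} {A : Set (ℤ × ℤ)} {t : ℤ × ℤ → ℕ}
    {Z : Finset (ℤ × ℤ)} (h : Sp U H A t Z) (hinf : A.Infinite) :
    {i : ℕ | ∃ x ∈ A, InW B H i x}.Infinite := by
  rw [Set.infinite_iff_exists_gt]
  intro n
  by_contra hcon
  push Not at hcon
  refine hinf ((Set.toFinite (↑(Finset.Icc (-1 - (n : ℤ)) n ×ˢ Finset.Ico (0 : ℤ) H) :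
    Set (ℤ × ℤ))).subset fun x hx => ?_)
  obtain ⟨h1, h2⟩ := h.1 x hx
  have h3 : ¬ n < fold x.1 := by
    intro h3
    have h4 := hcon (fold x.1) ⟨x, hx, le_rfl, by omega, h1, h2⟩
    omega
  rw [Finset.coe_product, Set.mem_prod, Finset.mem_coe, Finset.mem_coe, Finset.mem_Icc,
    Finset.mem_Ico]
  refine ⟨?_, h1, h2⟩
  unfold fold at h3
  split_ifs at h3 <;> omega

/-- Pigeonhole for the windows. -/
private theorem exists_fibre {B H : ℕ} (A : Set (ℤ × ℤ)) (t : ℤ × ℤ → ℕ) {I : Set ℕ}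
    (hI : I.Infinite) : ∃ v : Fin (nQ B H) → ℕ,
      {i : ℕ | i ∈ I ∧ ∀ k : Fin (nQ B H), cs B H i A t 0 0 k = v k}.Infinite := by
  classical
  by_contra hcon
  push Not at hcon
  refine hI ?_
  have h1 : I ⊆ ⋃ v ∈ (Fintype.piFinset fun _ : Fin (nQ B H) => Finset.range (nQ B H + 1) :
      Finset (Fin (nQ B H) → ℕ)),
      {i : ℕ | i ∈ I ∧ ∀ k : Fin (nQ B H), cs B H i A t 0 0 k = v k} := by
    intro i hi
    rw [Set.mem_iUnion₂]
    refine ⟨fun k => cs B H i A t 0 0 k, ?_, hi, fun k => rfl⟩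
    rw [Fintype.mem_piFinset]
    intro k
    rw [Finset.mem_range]
    exact Nat.lt_succ_of_le (cs_le k.2.le)
  exact (Set.Finite.biUnion (Finset.finite_toSet _) fun v _ => hcon v).subset h1

theorem cert_of_sp {U : Fam} {B H K M : ℕ} (hb : Bd B U) (hM : nQ B H + K ≤ M) {A : Set (ℤ × ℤ)} {t : ℤ × ℤ → ℕ}
    {Z : Finset (ℤ × ℤ)} (hZ : Z.card ≤ K) (h : Sp U H A t Z) (hinf : A.Infinite)
    (hfin : ∀ m : ℕ, {x | x ∈ A ∧ t x ≤ m}.Finite) : Cert U B H K M := by
  classical
  have hN : 4 * B * H + 2 * H = nQ B H := by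
    unfold nQ
    ring
  have hka : ∀ j, ka U B H A t j ≤ K := fun j =>
    (ka_le hb h j).trans ((Finset.card_filter_le _ _).trans hZ)
  obtain ⟨v, hv⟩ := exists_fibre (B := B) (H := H) A t (far_win (B := B) h hinf)
  -- the first window
  obtain ⟨i, ⟨⟨x₀, hx₀, hw₀⟩, hiv⟩, hi⟩ := hv.exists_gt (Z.sup fun x => fold x.1)
  have hi₀ : ∀ x ∈ Z, fold x.1 < i := fun x hx =>
    lt_of_le_of_lt (Finset.le_sup (f := fun x : ℤ × ℤ => fold x.1) hx) hi
  set θ : ℕ := (win B H i).sup t with hθ
  have hθ' : ∀ x ∈ A, InW B H i x → t x ≤ θ := fun x _ hx =>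
    Finset.le_sup (f := t) (mem_win.2 hx)
  -- the second window
  obtain ⟨i', ⟨-, hiv'⟩, hi'⟩ := hv.exists_gt (max i ((hfin θ).toFinset.sup fun x => fold x.1))
  have hii : i < i' := lt_of_le_of_lt (le_max_left _ _) hi'
  have hlate : ∀ x ∈ A, InW B H i' x → θ < t x := by
    intro x hx hw
    by_contra hcon
    have h1 : fold x.1 ≤ (hfin θ).toFinset.sup fun x => fold x.1 :=
      Finset.le_sup (f := fun x : ℤ × ℤ => fold x.1)
        ((hfin θ).mem_toFinset.2 ⟨hx, not_lt.1 hcon⟩)
    have h2 := hw.1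
    have h3 := lt_of_le_of_lt (le_max_right _ _) hi'
    omega
  have hsame : ∀ k < nQ B H, cs B H i' A t 0 0 k = cs B H i A t 0 0 k := by
    intro k hk
    rw [hiv ⟨k, hk⟩, hiv' ⟨k, hk⟩]
  -- bounds
  have hBN : ∀ j θ' j', BN B H M (cs B H j A t θ' (ka U B H A t j')) := by
    intro j θ' j' k hk
    rcases Nat.lt_or_ge (nQ B H) k with h1 | h1
    · rw [cs_far A t _ _ h1]
      have := hka j'
      omega
    · exact (cs_le h1).trans (by omega)
  have hlay : ∀ j θ' κ', unsup U H (lay B H) (cs B H j A t θ' κ') =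
      unsup U H (lay B H) (cs B H j A t 0 0) := fun j θ' κ' =>
    unsup_congr hb (fun x hx => lay_mem hx) fun k hk => cs_congr A t _ _ _ _ hk
  -- the first part
  have hfirst : ∀ j, Relation.ReflTransGen (fun a b => R0 U B H a b ∧ BN B H M b)
      (cs B H 0 A t 0 (ka U B H A t 0)) (cs B H j A t 0 (ka U B H A t j)) := by
    intro j
    induction j with
    | zero => exact Relation.ReflTransGen.refl
    | succ j ih =>
      refine ih.tail ⟨⟨cs_con j A t _ _ _ _, ?_⟩, hBN _ _ _⟩
      rw [cs_cnt, cs_cnt, hlay]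
      rfl
  -- the second part
  have hzero : ∀ j θ' κ', i ≤ j → unsup U H (lay B H) (cs B H j A t θ' κ') = 0 := by
    intro j θ' κ' hj
    have h1 := unsup_lay_le hb h j θ' κ'
    have h2 : (Z.filter fun x => fold x.1 = j + B) = ∅ := by
      rw [Finset.filter_eq_empty_iff]
      intro x hx h3
      have := hi₀ x hx
      omega
    rw [h2, Finset.card_empty] at h1
    omega
  set κ : ℕ := ka U B H A t i with hκ
  have hstep : ∀ j, i ≤ j → R1 U B H (cs B H j A t θ κ) (cs B H (j + 1) A t θ κ) :=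
    fun j hj => ⟨cs_con j A t _ _ _ _, cs_cut j A t _ _ _, hzero _ _ _ (by omega)⟩
  have hstart : R1 U B H (Function.update (cs B H i A t 0 κ) (nQ B H) (nQ B H))
      (cs B H (i + 1) A t θ κ) := by
    obtain ⟨h1, h2, h3⟩ := hstep i le_rfl
    have e1 : ∀ k < 4 * B * H, Function.update (cs B H i A t 0 κ) (nQ B H) (nQ B H) (k + 2 * H) =
        cs B H i A t θ κ (k + 2 * H) := by
      intro k hk
      rw [Function.update_of_ne (by omega)]
      exact cs_congr A t _ _ _ _ (by omega)
    refine ⟨⟨fun k hk => ?_, fun k hk l hl => ?_⟩, fun k hk hk0 => ?_, h3⟩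
    · rw [e1 k hk]
      exact h1.1 k hk
    · rw [e1 k hk, e1 l hl]
      exact h1.2 k hk l hl
    · rw [e1 k hk, Function.update_self]
      have h4 := h2 k hk hk0
      have h5 : cs B H i A t θ κ (k + 2 * H) ≤ cs B H i A t θ κ (nQ B H) :=
        cs_top hθ' _ (by omega)
      exact ⟨fun _ => h4.1 h5, fun _ => cs_le (by omega)⟩
  have hsecond : ∀ j, Relation.ReflTransGen (fun a b => R1 U B H a b ∧ BN B H M b)
      (Function.update (cs B H i A t 0 κ) (nQ B H) (nQ B H)) (cs B H (i + 1 + j) A t θ κ) := by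
    intro j
    induction j with
    | zero => exact Relation.ReflTransGen.single ⟨hstart, hBN _ _ _⟩
    | succ j ih => exact ih.tail ⟨hstep _ (by omega), hBN _ _ _⟩
  have hlast : cs B H i' A t θ κ = Function.update (cs B H i A t 0 κ) (nQ B H) 0 := by
    funext k
    by_cases h1 : k = nQ B H
    · subst h1
      rw [Function.update_self]
      exact cs_bot hlate
    · rw [Function.update_of_ne h1]
      rcases Nat.lt_or_ge k (nQ B H) with h2 | h2
      · rw [cs_congr A t θ κ 0 0 h2, cs_congr A t 0 κ 0 0 h2]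
        exact hsame k h2
      · rw [cs_far A t _ _ (by omega), cs_far A t _ _ (by omega)]
  refine ⟨cs B H 0 A t 0 (ka U B H A t 0), cs B H i A t 0 κ, hBN _ _ _, ?_, hfirst i, ?_,
    ⟨ix H i x₀, ix_lt hw₀, (cs_pos hw₀).2 hx₀⟩, fun k hk => cs_le hk.le, ?_⟩
  · rw [cs_cnt]
    exact (unsup_congr hb (fun x hx => ini_mem hx) fun k hk => cs_congr A t _ _ _ _ hk)
  · rw [cs_cnt]
    exact hka i
  · rw [← hlast]
    have h1 := hsecond (i' - (i + 1))
    rwa [show i + 1 + (i' - (i + 1)) = i' by omega] at h1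

/-- Infinite growth from a set of seeds in the strip gives a certificate. -/
theorem cert_of_strip {U : Fam} {B H K M : ℕ} (hb : Bd B U) (hM : nQ B H + K ≤ M)
    (hs : St U (0, 1))
    {Z : Finset (ℤ × ℤ)} (hK : Z.card ≤ K) (hZ : ∀ x ∈ Z, 0 ≤ x.2 ∧ x.2 < H)
    (hinf : (clo U (halfZ (0, 1) ∪ ↑Z) \ halfZ (0, 1)).Infinite) : Cert U B H K M := by
  have hrow := clo_rows hs (A := halfZ (0, 1) ∪ ↑Z) (a := H) (by
    rintro x (hx | hx)
    · exact lt_of_lt_of_le (mem_half01.1 hx) (by positivity)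
    · exact (hZ x hx).2)
  refine cert_of_sp hb hM hK (A := clo U (halfZ (0, 1) ∪ ↑Z) \ halfZ (0, 1))
    (t := tm U (halfZ (0, 1) ∪ ↑Z)) ⟨?_, ?_⟩ hinf ?_
  · rintro x ⟨h1, h2⟩
    rw [mem_half01, not_lt] at h2
    exact ⟨h2, hrow x h1⟩
  · rintro x ⟨h1, h2⟩ h3
    obtain ⟨X, hX, h⟩ := tm_rule h1 (by
      rintro (h4 | h4)
      · exact h2 h4
      · exact h3 h4)
    refine ⟨X, hX, fun y hy => ?_⟩
    by_cases h4 : (x + y).2 < 0
    · exact Or.inl h4
    · exact Or.inr ⟨⟨(h y hy).1, fun h5 => h4 (mem_half01.1 h5)⟩, (h y hy).2⟩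
  · intro m
    refine (finite_early hs Z m).subset ?_
    rintro x ⟨⟨h1, h2⟩, h3⟩
    exact ⟨h1, h2, h3⟩

end Pool.Agent.BPM
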