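import Pool.Agent.BPM.Down
import Pool.Agent.BPM.Gap

/-!
# The seeds can be taken in a low strip

PROOF of `exists_strip`. Let `R = 12 B³ K`, `G = R + 2 B + 1`, so `(K + 1) * G ≤ H`. There are finite sets `Z`
with `Z.card ≤ K`, `0 ≤ x.2` on `Z`, and infinite growth (from `AdmP`: `encard ≤ K` implies finite; disjoint
from the half plane). Take one with the smallest sum of the heights `∑ x ∈ Z, x.2.toNat`. Suppose some
`x₀ ∈ Z` has `H ≤ x₀.2`. The `K + 1` intervals `[j G, (j + 1) G)`, `j = 0, .., K`, contain at most `K - 1`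
heights of the other elements of `Z`, and not the height of `x₀`; so one of them, `[a, a + G)`, contains
no height. Let `Zl = {x ∈ Z | x.2 < a}`, `Zu = {x ∈ Z | a + G ≤ x.2}`, so `Z = Zl ∪ Zu`, `x₀ ∈ Zu`. By
`clo_down` (with `exists_low`), `clo U Zu ⊆ {x | a + G - R ≤ x.2}`, where `a + G - R = a + 2 B + 1`. By
`clo_gap` the infinite set is contained in `(clo U (halfZ ∪ Zl) \ halfZ) ∪ clo U Zu`. Let
`Z' = Zl ∪ (Zu shifted by (0, -1))`. Its heights are `≥ 0`, `Z'.card ≤ K`, the sum of the heights is smaller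
(the sum over a union or image is at most the sum of the sums; every element of `Zu` contributes one
less, and `Zu` is not empty). The closure of `halfZ ∪ Z'` contains `clo U (halfZ ∪ Zl)` and the shifted
`clo U Zu` (`clo_translate`), whose heights are `≥ 0`; one of them has infinitely many elements outside
`halfZ`. Contradiction to the choice of `Z`.
-/

set_option autoImplicit false

namespace Pool.Agent.BPM

open Pool.Agent.BPD Set

private theorem shift_inj : Function.Injective fun x : ℤ × ℤ => x + ((0 : ℤ), (-1 : ℤ)) :=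
  fun _ _ h => add_right_cancel h

/-- Descent: a seed outside the strip can be lowered. -/
private theorem descend {U : Fam} {B K H : ℕ} (hb : Bd B U) (hs : St U (0, 1)) (hn : NSC U)
    (hH : (K + 1) * (12 * B ^ 3 * K + 2 * B + 1) ≤ H) {Z : Finset (ℤ × ℤ)} (hZ : Z.card ≤ K)
    (h0 : ∀ x ∈ Z, 0 ≤ x.2) (hinf : (clo U (halfZ (0, 1) ∪ ↑Z) \ halfZ (0, 1)).Infinite)
    {x₀ : ℤ × ℤ} (hx₀ : x₀ ∈ Z) (hx₀' : (H : ℤ) ≤ x₀.2) :
    ∃ Z' : Finset (ℤ × ℤ), Z'.card ≤ K ∧ (∀ x ∈ Z', 0 ≤ x.2) ∧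
      (clo U (halfZ (0, 1) ∪ ↑Z') \ halfZ (0, 1)).Infinite ∧
      ∑ x ∈ Z', x.2.toNat < ∑ x ∈ Z, x.2.toNat := by
  classical
  set G : ℕ := 12 * B ^ 3 * K + 2 * B + 1 with hG
  have hG1 : 1 ≤ G := by omega
  -- an interval without heights
  obtain ⟨j, hj, hgap⟩ : ∃ j < K + 1, ∀ x ∈ Z, ¬ ((j * G : ℕ) ≤ x.2 ∧ x.2 < (j * G : ℕ) + (G : ℤ)) := by
    by_contra hcon
    push Not at hcon
    choose! f hf using hcon
    have h1 : ∀ j ∈ Finset.range (K + 1), f j ∈ Z := fun j hj => (hf j (Finset.mem_range.1 hj)).1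
    have h2 : Set.InjOn f (Finset.range (K + 1) : Set ℕ) := by
      intro a ha b hb' hab
      rw [Finset.mem_coe, Finset.mem_range] at ha hb'
      obtain ⟨-, a1, a2⟩ := hf a ha
      obtain ⟨-, b1, b2⟩ := hf b hb'
      rw [hab] at a1 a2
      have c1 : a * G < b * G + G := by
        have : ((a * G : ℕ) : ℤ) < (b * G : ℕ) + (G : ℤ) := lt_of_le_of_lt a1 b2
        exact_mod_cast this
      have c2 : b * G < a * G + G := by
        have : ((b * G : ℕ) : ℤ) < (a * G : ℕ) + (G : ℤ) := lt_of_le_of_lt b1 a2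
        exact_mod_cast this
      have c3 : a < b + 1 := by
        by_contra hc
        have := Nat.mul_le_mul_right G (not_lt.1 hc)
        rw [Nat.add_mul, Nat.one_mul] at this
        omega
      have c4 : b < a + 1 := by
        by_contra hc
        have := Nat.mul_le_mul_right G (not_lt.1 hc)
        rw [Nat.add_mul, Nat.one_mul] at this
        omega
      omega
    have h3 := Finset.card_le_card_of_injOn f h1 h2
    rw [Finset.card_range] at h3
    omega
  set a : ℕ := j * G with ha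
  have haH : a + G ≤ H := by
    have h1 : (j + 1) * G ≤ (K + 1) * G := Nat.mul_le_mul_right G (by omega)
    rw [Nat.add_mul, Nat.one_mul] at h1
    exact h1.trans hH
  set Zl : Finset (ℤ × ℤ) := Z.filter fun x => x.2 < (a : ℤ) with hZl
  set Zu : Finset (ℤ × ℤ) := Z.filter fun x => ¬ x.2 < (a : ℤ) with hZu
  have hZe : Zl ∪ Zu = Z := Finset.filter_union_filter_not_eq _ _
  have hcard : Zl.card + Zu.card = Z.card := Finset.card_filter_add_card_filter_not _
  have hsum : ∑ x ∈ Zl, x.2.toNat + ∑ x ∈ Zu, x.2.toNat = ∑ x ∈ Z, x.2.toNat :=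
    Finset.sum_filter_add_sum_filter_not _ _ _
  have hlow : ∀ x ∈ Zl, x.2 < (a : ℤ) := fun x hx => (Finset.mem_filter.1 hx).2
  have hupp : ∀ x ∈ Zu, (a : ℤ) + G ≤ x.2 := by
    intro x hx
    obtain ⟨h1, h2⟩ := Finset.mem_filter.1 hx
    have h3 := hgap x h1
    push Not at h3
    exact h3 (not_lt.1 h2)
  have hx₀u : x₀ ∈ Zu := by
    refine Finset.mem_filter.2 ⟨hx₀, ?_⟩
    have : ((a + G : ℕ) : ℤ) ≤ (H : ℤ) := by exact_mod_cast haH
    push_cast at this
    omega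
  -- the closure of the upper seeds
  have hdown : ∀ x ∈ clo U (↑Zu : Set (ℤ × ℤ)), (a : ℤ) + 2 * B + 1 ≤ x.2 := by
    intro x hx
    have h1 := clo_down hb hs (exists_low hb hn) hupp x hx
    have h2 : 12 * (B : ℤ) ^ 3 * Zu.card ≤ 12 * (B : ℤ) ^ 3 * K := by
      refine mul_le_mul_of_nonneg_left ?_ (by positivity)
      exact_mod_cast (show Zu.card ≤ K by omega)
    have h3 : (G : ℤ) = 12 * (B : ℤ) ^ 3 * K + 2 * B + 1 := by
      rw [hG]
      push_cast
      ring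
    rw [h3] at h1
    omega
  have hsub := clo_gap hb hs (a := a) (by positivity) (Zl := ↑Zl) (Zu := ↑Zu)
    (fun x hx => hlow x (Finset.mem_coe.1 hx)) hdown
  rw [← Finset.coe_union, hZe] at hsub
  -- the new seeds
  set Zs : Finset (ℤ × ℤ) := Zu.image fun x => x + ((0 : ℤ), (-1 : ℤ)) with hZs
  have hZs2 : (↑Zs : Set (ℤ × ℤ)) = (fun x => x + ((0 : ℤ), (-1 : ℤ))) '' (↑Zu : Set (ℤ × ℤ)) := by
    rw [hZs, Finset.coe_image]
  have hsumS : ∑ x ∈ Zs, x.2.toNat < ∑ x ∈ Zu, x.2.toNat := by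
    rw [hZs, Finset.sum_image fun x _ y _ h => shift_inj h]
    refine Finset.sum_lt_sum_of_nonempty ⟨x₀, hx₀u⟩ fun x hx => ?_
    have h1 := hupp x hx
    show (x.2 + -1).toNat < x.2.toNat
    omega
  have hsumT : ∑ x ∈ Zl ∪ Zs, x.2.toNat ≤ ∑ x ∈ Zl, x.2.toNat + ∑ x ∈ Zs, x.2.toNat := by
    have := Finset.sum_union_inter (s₁ := Zl) (s₂ := Zs) (f := fun x : ℤ × ℤ => x.2.toNat)
    omega
  refine ⟨Zl ∪ Zs, ?_, ?_, ?_, by omega⟩
  · have h1 := Finset.card_union_le Zl Zs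
    have h2 : Zs.card ≤ Zu.card := Finset.card_image_le
    omega
  · intro x hx
    rcases Finset.mem_union.1 hx with h1 | h1
    · exact h0 x (Finset.mem_filter.1 h1).1
    · obtain ⟨y, hy, rfl⟩ := Finset.mem_image.1 h1
      have h2 := hupp y hy
      show 0 ≤ y.2 + -1
      omega
  · have hT1 : clo U (halfZ (0, 1) ∪ ↑Zl) ⊆ clo U (halfZ (0, 1) ∪ ↑(Zl ∪ Zs)) := by
      refine clo_mono (Set.union_subset_union_right _ ?_)
      rw [Finset.coe_union]
      exact Set.subset_union_left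
    have hT2 : (fun x => x + ((0 : ℤ), (-1 : ℤ))) '' clo U (↑Zu : Set (ℤ × ℤ)) ⊆
        clo U (halfZ (0, 1) ∪ ↑(Zl ∪ Zs)) := by
      rw [← clo_translate, ← hZs2]
      refine clo_mono ?_
      rw [Finset.coe_union]
      exact Set.subset_union_right.trans Set.subset_union_right
    by_cases hc : (clo U (↑Zu : Set (ℤ × ℤ))).Infinite
    · refine (hc.image shift_inj.injOn).mono fun x hx => ⟨hT2 hx, ?_⟩
      obtain ⟨y, hy, rfl⟩ := hx
      have h2 := hdown y hy
      rw [mem_half01]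
      show ¬ y.2 + -1 < 0
      omega
    · rw [Set.not_infinite] at hc
      have h1 : (clo U (halfZ (0, 1) ∪ ↑Zl) \ halfZ (0, 1)).Infinite := by
        intro hfin
        refine hinf ((hfin.union hc).subset fun x hx => ?_)
        rcases hsub hx.1 with h2 | h2
        · exact Or.inl ⟨h2, hx.2⟩
        · exact Or.inr h2
      exact h1.mono fun x hx => ⟨hT1 hx.1, hx.2⟩

theorem exists_strip {U : Fam} {B K H : ℕ} (hb : Bd B U) (hs : St U (0, 1)) (hn : NSC U)
    (hH : (K + 1) * (12 * B ^ 3 * K + 2 * B + 1) ≤ H) (h : AdmP U (0, 1) K) :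
    ∃ Z : Finset (ℤ × ℤ), Z.card ≤ K ∧ (∀ x ∈ Z, 0 ≤ x.2 ∧ x.2 < H) ∧
      (clo U (halfZ (0, 1) ∪ ↑Z) \ halfZ (0, 1)).Infinite := by
  classical
  have key : ∀ (s : ℕ) (Z : Finset (ℤ × ℤ)), ∑ x ∈ Z, x.2.toNat = s → Z.card ≤ K →
      (∀ x ∈ Z, 0 ≤ x.2) → (clo U (halfZ (0, 1) ∪ ↑Z) \ halfZ (0, 1)).Infinite →
      ∃ Z : Finset (ℤ × ℤ), Z.card ≤ K ∧ (∀ x ∈ Z, 0 ≤ x.2 ∧ x.2 < H) ∧
        (clo U (halfZ (0, 1) ∪ ↑Z) \ halfZ (0, 1)).Infinite := by
    intro s
    induction s using Nat.strong_induction_on with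
    | _ s ih =>
      intro Z hs1 hZ h0 hinf
      by_cases hall : ∀ x ∈ Z, x.2 < (H : ℤ)
      · exact ⟨Z, hZ, fun x hx => ⟨h0 x hx, hall x hx⟩, hinf⟩
      · push Not at hall
        obtain ⟨x₀, hx₀, hx₀'⟩ := hall
        obtain ⟨Z', h1, h2, h3, h4⟩ := descend hb hs hn hH hZ h0 hinf hx₀ hx₀'
        exact ih _ (hs1 ▸ h4) Z' rfl h1 h2 h3
  obtain ⟨Z, hZ, hdis, hinf⟩ := h
  have hfin : Z.Finite := Set.finite_of_encard_le_coe hZ
  have hco : (↑hfin.toFinset : Set (ℤ × ℤ)) = Z := hfin.coe_toFinset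
  refine key _ hfin.toFinset rfl ?_ ?_ ?_
  · have h1 : (hfin.toFinset.card : ℕ∞) ≤ K := by
      rw [← hfin.encard_eq_coe_toFinset_card]
      exact hZ
    exact_mod_cast h1
  · intro x hx
    have h1 : x ∉ halfZ (0, 1) := Set.disjoint_left.1 hdis (hfin.mem_toFinset.1 hx)
    rw [mem_half01] at h1
    omega
  · rw [hco]
    exact hinf

end Pool.Agent.BPM
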