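import Pool.Agent.BPM.Snd
import Pool.Agent.BPM.Compl
import Pool.Agent.BPM.Loc

/-!
# Infinite growth from `K` seeds is equivalent to a certificate
-/

set_option autoImplicit false

namespace Pool.Agent.BPM

open Pool.Agent.BPD Set

theorem admP_iff_cert {U : Fam} {B H K M : ℕ} (hb : Bd B U) (hs : St U (0, 1)) (hn : NSC U)
    (hH : (K + 1) * (12 * B ^ 3 * K + 2 * B + 1) ≤ H) (hM : nQ B H + K ≤ M) :
    AdmP U (0, 1) K ↔ Cert U B H K M := by
  constructor
  · intro h
    obtain ⟨Z, h1, h2, h3⟩ := exists_strip hb hs hn hH h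
    exact cert_of_strip hb hM hs h1 h2 h3
  · intro h
    obtain ⟨S⟩ := exists_seqC (by
      rintro S a b (rfl | rfl) h
      · exact unsup_congr hb (fun x hx => mem_ini.1 hx) h
      · exact unsup_congr hb (fun x hx => ⟨(mem_lay.1 hx).1.le, (mem_lay.1 hx).2⟩) h) h
    exact admP_of_seq hb S

end Pool.Agent.BPM
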