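import Pool.Agent.BPD.SDefs

/-!
# The difficulty of critical families in exponential space: definitions

`St`, `Un` are the stability tests for integer directions, `AdmP U p K` says that `K` sites are enough for
the direction `p`, `FinChk` is the finite criterion for `difficulty U ≤ K`.

The process above the half plane `x.2 < 0`, in the strip of the rows `0, .., H - 1`, is coded by
windows. The strip is folded: the columns `n` and `-1 - n` have the fold `n`. The window number `i`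
consists of the cells with fold `i, .., i + 2 B`. A state is a function `a : ℕ → ℕ`: `a k` for
`k < nQ B H` is the rank of the cell number `k` of the window (`0`: never infected), `a (nQ B H)`
is a threshold (the cut), `a (nQ B H + 1)` is the number of seeds so far.
-/

set_option autoImplicit false

namespace Pool.Agent.BPM

open Pool.Agent.BPD Set

/-! ## Directions -/

/-- Scalar product. -/
def dt (x y : ℤ × ℤ) : ℤ := x.1 * y.1 + x.2 * y.2

/-- Cross product. -/
def cr (x y : ℤ × ℤ) : ℤ := x.1 * y.2 - x.2 * y.1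

/-- Rotation by a right angle. -/
def perp (x : ℤ × ℤ) : ℤ × ℤ := (-x.2, x.1)

/-- The integer half plane of the direction `p`. -/
def halfZ (p : ℤ × ℤ) : Set (ℤ × ℤ) := {x | dt x p < 0}

/-- The direction `p` is stable. -/
def St (U : Fam) (p : ℤ × ℤ) : Prop := ∀ X ∈ U, ∃ y ∈ X, 0 ≤ dt y p

/-- The directions next to `p` on the left (`s > 0`) or on the right (`s < 0`) are unstable. -/
def Un (s : ℤ) (U : Fam) (p : ℤ × ℤ) : Prop :=
  ∃ X ∈ U, ∀ y ∈ X, dt y p < 0 ∨ (dt y p = 0 ∧ s * cr p y < 0)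

/-- `K` sites are enough for infinite growth at the half plane of `p`. -/
def AdmP (U : Fam) (p : ℤ × ℤ) (K : ℕ) : Prop :=
  ∃ Z : Set (ℤ × ℤ), Z.encard ≤ K ∧ Disjoint Z (halfZ p) ∧ (clo U (halfZ p ∪ Z) \ halfZ p).Infinite

/-- The sites which occur in rules, and their negatives. -/
def Dr (U : Fam) (z : ℤ × ℤ) : Prop := ∃ X ∈ U, z ∈ X ∨ -z ∈ X

/-- The finite criterion. -/
def FinChk (U : Fam) (K : ℕ) : Prop :=
  ∃ y, Dr U y ∧ ∀ z, Dr U z →
    (0 < dt (perp z) y → ¬ St U (perp z) ∨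
      (Un 1 U (perp z) ∧ Un (-1) U (perp z) ∧ AdmP U (perp z) K)) ∧
    (dt (perp z) y = 0 → Un (cr (perp z) y) U (perp z))

/-- All coordinates are at most `B`. -/
def Bd (B : ℕ) (U : Fam) : Prop := ∀ X ∈ U, ∀ y ∈ X, |y.1| ≤ B ∧ |y.2| ≤ B

/-- Every real half plane contains a stable direction. -/
def NSC (U : Fam) : Prop := ∀ w : ℝ × ℝ, w ≠ 0 → ∃ v : ℝ × ℝ, 0 < v.1 * w.1 + v.2 * w.2 ∧
  ∀ X ∈ U, ∃ y ∈ X, 0 ≤ (y.1 : ℝ) * v.1 + (y.2 : ℝ) * v.2

/-- The coordinates along the line and above the line. -/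
def psi (p x : ℤ × ℤ) : ℤ × ℤ := (cr p x, dt x p)

/-- The family in these coordinates. -/
def Upsi (p : ℤ × ℤ) (U : Fam) : Fam := U.image fun X => X.image (psi p)

/-! ## Windows -/

/-- The fold of a column. -/
def fold (c : ℤ) : ℕ := if 0 ≤ c then c.toNat else (-1 - c).toNat

/-- The side of a column. -/
def side (c : ℤ) : ℕ := if 0 ≤ c then 0 else 1

/-- The column with fold `n` and side `s`. -/
def unf (n s : ℕ) : ℤ := if s = 0 then (n : ℤ) else -1 - (n : ℤ)

/-- The number of cells of a window. -/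
def nQ (B H : ℕ) : ℕ := 2 * (2 * B + 1) * H

/-- The number of a cell in the window `i`. -/
def ix (H i : ℕ) (x : ℤ × ℤ) : ℕ := ((fold x.1 - i) * 2 + side x.1) * H + x.2.toNat

/-- The cells of the window `i`. -/
def InW (B H i : ℕ) (x : ℤ × ℤ) : Prop :=
  i ≤ fold x.1 ∧ fold x.1 < i + (2 * B + 1) ∧ 0 ≤ x.2 ∧ x.2 < H

/-- States. -/
abbrev Nd : Type := ℕ → ℕ

/-- The cell `x` of the window `0` is infected by a rule, after the sites of the rule. -/
def Sup (U : Fam) (H : ℕ) (a : Nd) (x : ℤ × ℤ) : Prop :=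
  ∃ X ∈ U, ∀ y ∈ X, (x + y).2 < 0 ∨
    ((x + y).2 < H ∧ 0 < a (ix H 0 (x + y)) ∧ a (ix H 0 (x + y)) < a (ix H 0 x))

/-- The cells with fold `B`. -/
noncomputable def lay (B H : ℕ) : Finset (ℤ × ℤ) :=
  ({(B : ℤ), -1 - (B : ℤ)} : Finset ℤ) ×ˢ Finset.Ico (0 : ℤ) H

/-- The cells with fold at most `B`. -/
noncomputable def ini (B H : ℕ) : Finset (ℤ × ℤ) :=
  Finset.Icc (-1 - (B : ℤ)) B ×ˢ Finset.Ico (0 : ℤ) H

open Classical in
/-- The number of infected cells in `S` without support: the seeds. -/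
noncomputable def unsup (U : Fam) (H : ℕ) (S : Finset (ℤ × ℤ)) (a : Nd) : ℕ :=
  (S.filter fun x => 0 < a (ix H 0 x) ∧ ¬ Sup U H a x).card

/-- The states `a`, `b` of two consecutive windows agree on the common cells. -/
def Con (B H : ℕ) (a b : Nd) : Prop :=
  (∀ k < 4 * B * H, (a (k + 2 * H) = 0 ↔ b k = 0)) ∧
  ∀ k < 4 * B * H, ∀ l < 4 * B * H, (a (k + 2 * H) < a (l + 2 * H) ↔ b k < b l)

/-- The cuts of two consecutive windows agree. -/
def Cut (B H : ℕ) (a b : Nd) : Prop :=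
  ∀ k < 4 * B * H, b k ≠ 0 → (a (k + 2 * H) ≤ a (nQ B H) ↔ b k ≤ b (nQ B H))

/-- Steps of the first part. -/
def R0 (U : Fam) (B H : ℕ) (a b : Nd) : Prop :=
  Con B H a b ∧ b (nQ B H + 1) = a (nQ B H + 1) + unsup U H (lay B H) b

/-- Steps of the periodic part. -/
def R1 (U : Fam) (B H : ℕ) (a b : Nd) : Prop :=
  Con B H a b ∧ Cut B H a b ∧ unsup U H (lay B H) b = 0

/-- All relevant values of the state are at most `M`. -/
def BN (B H M : ℕ) (a : Nd) : Prop := ∀ k < nQ B H + 2, a k ≤ M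

/-- The certificates for `AdmP U (0, 1) K`; `M` is a bound for all numbers. -/
def Cert (U : Fam) (B H K M : ℕ) : Prop :=
  ∃ a c : Nd, BN B H M a ∧ a (nQ B H + 1) = unsup U H (ini B H) a ∧
    Relation.ReflTransGen (fun a b => R0 U B H a b ∧ BN B H M b) a c ∧
    c (nQ B H + 1) ≤ K ∧ (∃ k < nQ B H, 0 < c k) ∧ (∀ k < nQ B H, c k ≤ nQ B H) ∧
    Relation.ReflTransGen (fun a b => R1 U B H a b ∧ BN B H M b)
      (Function.update c (nQ B H) (nQ B H)) (Function.update c (nQ B H) 0)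

end Pool.Agent.BPM
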