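import Pool.Agent.BPM.Ext

/-!
# A semicircle whose boundary is orthogonal to a site of a rule

PROOF. If `Bad K` is empty: `U` is not empty (otherwise all directions are stable and `U` is not
critical, as `S1 ∩ semicircle` is infinite), and a rule is not empty, because there is a stable direction
(`U` is not supercritical) and `stable_iff`; take a site `y` of a rule. If `Bad K` is not empty: let
`e = (-v.2, v.1)` and let `b ∈ Bad K` have the largest `⟨b, e⟩` (compactness). For all `b' ∈ Bad K`: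
`⟨b', v⟩ ≤ 0` (as `b' ∉ semi v`), `⟨b', e⟩ ≤ ⟨b, e⟩`, and both are unit vectors, which gives
`⟨b', v*⟩ ≤ 0` for `v* = (b.2, -b.1)`. So no bad direction is in `semi v*`. `b` is orthogonal to a site
`z` of a rule: otherwise all directions near `b` are bad (`bad_near`), also some in `semi v*` (`b` is
orthogonal to `v*`, so it is in the boundary of `semi v*`). Hence `v*` is a positive multiple of `z` or
of `-z` (`z ≠ 0` by `h0`); take it as `y`.
-/

set_option autoImplicit false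

namespace Pool.Agent.BPM

open Pool.Agent.BPD Set

/-- An extreme bad direction. -/
private theorem ExtV_extreme {U : Fam} {K : ℕ} (hne : (Bad U K).Nonempty) {v : ℝ × ℝ} (hv : v ∈ S1)
    (h : ∀ u ∈ semi v, u ∉ Bad U K) :
    ∃ b ∈ Bad U K, ∀ u ∈ Bad U K, u.1 * b.2 - u.2 * b.1 ≤ 0 := by
  obtain ⟨b, hb, hmax⟩ := (bad_compact U K).exists_isMaxOn hne
    (f := fun u : ℝ × ℝ => u.1 * (-v.2) + u.2 * v.1) (by fun_prop)
  refine ⟨b, hb, fun u hub => ?_⟩
  by_contra hx
  push Not at hx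
  have hv1 : v.1 ^ 2 + v.2 ^ 2 = 1 := hv
  have hb1 : b.1 ^ 2 + b.2 ^ 2 = 1 := hb.1
  have hu1 : u.1 ^ 2 + u.2 ^ 2 = 1 := hub.1
  have hbv : b.1 * v.1 + b.2 * v.2 ≤ 0 := by
    by_contra hcon
    exact h b ⟨hb.1, not_le.1 hcon⟩ hb
  have huv : u.1 * v.1 + u.2 * v.2 ≤ 0 := by
    by_contra hcon
    exact h u ⟨hub.1, not_le.1 hcon⟩ hub
  have hm : u.1 * (-v.2) + u.2 * v.1 ≤ b.1 * (-v.2) + b.2 * v.1 := hmax hub
  set c := b.1 * (-v.2) + b.2 * v.1 with hc
  set c' := u.1 * (-v.2) + u.2 * v.1 with hc'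
  set s := -(b.1 * v.1 + b.2 * v.2) with hs
  set s' := -(u.1 * v.1 + u.2 * v.2) with hs'
  have hs0 : 0 ≤ s := by linarith
  have hs0' : 0 ≤ s' := by linarith
  have e1 : c ^ 2 + s ^ 2 = 1 := by
    have : c ^ 2 + s ^ 2 = (b.1 ^ 2 + b.2 ^ 2) * (v.1 ^ 2 + v.2 ^ 2) := by
      rw [hc, hs]; ring
    rw [this, hb1, hv1, one_mul]
  have e2 : c' ^ 2 + s' ^ 2 = 1 := by
    have : c' ^ 2 + s' ^ 2 = (u.1 ^ 2 + u.2 ^ 2) * (v.1 ^ 2 + v.2 ^ 2) := by
      rw [hc', hs']; ring
    rw [this, hu1, hv1, one_mul]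
  have e3 : c * s' - s * c' = -(u.1 * b.2 - u.2 * b.1) := by
    have : c * s' - s * c' = -(u.1 * b.2 - u.2 * b.1) * (v.1 ^ 2 + v.2 ^ 2) := by
      rw [hc, hs, hc', hs']; ring
    rw [this, hv1, mul_one]
  have e4 : c * s' - s * c' < 0 := by rw [e3]; linarith
  rcases le_total 0 c' with h0 | h0
  · have h1 : s ≤ s' := by
      by_contra hcon
      push Not at hcon
      nlinarith
    nlinarith [mul_nonneg h0 hs0, mul_nonneg h0 hs0', mul_le_mul hm h1 hs0 (h0.trans hm)]
  · rcases le_total 0 c with h1 | h1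
    · nlinarith [mul_nonneg h1 hs0', mul_nonneg hs0 (neg_nonneg.2 h0)]
    · have h2 : s' ≤ s := by
        by_contra hcon
        push Not at hcon
        nlinarith
      nlinarith [mul_le_mul (neg_le_neg hm) h2 hs0' (neg_nonneg.2 h0)]

/-- The unit vector with the direction `(cos, sin)` in the frame of `b`, next to `b`. -/
private theorem ExtV_turn {b : ℝ × ℝ} (hb : b ∈ S1) {ε : ℝ} (hε : 0 < ε) :
    ∃ w ∈ S1, dist w b < ε ∧ 0 < w.1 * b.2 - w.2 * b.1 := by
  have hb1 : b.1 ^ 2 + b.2 ^ 2 = 1 := hb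
  have hc : Continuous fun t : ℝ => ((Real.cos t * b.1 + Real.sin t * b.2,
      Real.cos t * b.2 - Real.sin t * b.1) : ℝ × ℝ) := by fun_prop
  obtain ⟨δ, hδ, hd⟩ := Metric.continuous_iff.1 hc 0 ε hε
  set t := min (δ / 2) 1 with ht
  have ht0 : 0 < t := lt_min (by positivity) one_pos
  have ht1 : t < δ := by
    have := min_le_left (δ / 2) 1
    linarith
  have hs : 0 < Real.sin t := by
    refine Real.sin_pos_of_pos_of_lt_pi ht0 ?_
    have h1 := min_le_right (δ / 2) 1
    have h2 := Real.pi_gt_three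
    linarith
  have hcs := Real.cos_sq_add_sin_sq t
  refine ⟨(Real.cos t * b.1 + Real.sin t * b.2, Real.cos t * b.2 - Real.sin t * b.1), ?_, ?_, ?_⟩
  · change (Real.cos t * b.1 + Real.sin t * b.2) ^ 2 +
      (Real.cos t * b.2 - Real.sin t * b.1) ^ 2 = 1
    linear_combination (b.1 ^ 2 + b.2 ^ 2) * hcs + hb1
  · have h1 := hd t (by rw [Real.dist_eq, sub_zero, abs_of_pos ht0]; exact ht1)
    simpa using h1
  · have e : (Real.cos t * b.1 + Real.sin t * b.2) * b.2 -
        (Real.cos t * b.2 - Real.sin t * b.1) * b.1 = Real.sin t * (b.1 ^ 2 + b.2 ^ 2) := by ring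
    change 0 < (Real.cos t * b.1 + Real.sin t * b.2) * b.2 -
        (Real.cos t * b.2 - Real.sin t * b.1) * b.1
    rw [e, hb1, mul_one]
    exact hs

theorem exists_ext {U : Fam} {K : ℕ} {v : ℝ × ℝ} (hv : v ∈ S1) (hK : ∀ u ∈ semi v, diffAt U u ≤ K)
    (hc : Critical U) (h0 : ∀ X ∈ U, ((0 : ℤ), (0 : ℤ)) ∉ X) :
    ∃ y, Dr U y ∧ ∀ u ∈ S1, 0 < u.1 * y.1 + u.2 * y.2 → diffAt U u ≤ K := by
  rcases (Bad U K).eq_empty_or_nonempty with he | hne
  · -- no bad direction: any site will do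
    have hall : ∀ u ∈ S1, diffAt U u ≤ K := by
      intro u hu
      by_contra hcon
      have : u ∈ Bad U K := ⟨hu, hcon⟩
      rw [he] at this
      exact this
    have h1 : ((1, 0) : ℝ × ℝ) ∈ S1 := by simp [S1]
    -- a stable direction
    obtain ⟨w, hw, hws⟩ : ∃ w ∈ semi (1, 0), Stable U w := by
      by_contra hcon
      push Not at hcon
      exact hc.1 ⟨(1, 0), h1, hcon⟩
    -- the family is not empty
    obtain ⟨X, hX⟩ : U.Nonempty := by
      by_contra hcon
      rw [Finset.not_nonempty_iff_eq_empty] at hcon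
      have hst : ∀ u : ℝ × ℝ, Stable U u := by
        intro u
        rw [stable_iff, hcon]
        simp
      obtain ⟨x, hx, hd, hx2⟩ := ExtV_turn (b := (1, 0)) h1 (ε := 1) one_pos
      have h2 := hall (1, 0) h1
      unfold diffAt at h2
      rw [if_pos (hst _)] at h2
      by_cases hi : Isolated U (1, 0)
      · obtain ⟨ρ, hρ, hiso⟩ := hi
        obtain ⟨x, hx, hd, hx2⟩ := ExtV_turn (b := (1, 0)) h1 (ε := ρ) hρ
        have h3 := hiso x hx (hst x) hd
        rw [h3] at hx2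
        norm_num at hx2
      · rw [if_neg hi] at h2
        exact absurd h2 (by simp)
    obtain ⟨y, hy, -⟩ := stable_iff.1 hws X hX
    exact ⟨y, ⟨X, hX, Or.inl hy⟩, fun u hu _ => hall u hu⟩
  · obtain ⟨b, hb, hext⟩ := ExtV_extreme hne hv fun u hu hb => hb.2 (hK u hu)
    have hb1 : b.1 ^ 2 + b.2 ^ 2 = 1 := hb.1
    have hst : Stable U b := by
      by_contra hcon
      refine hb.2 ?_
      unfold diffAt
      rw [if_neg hcon]
      simp
    -- a site which is orthogonal to `b`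
    obtain ⟨X, hX, z, hz, hzb⟩ : ∃ X ∈ U, ∃ z ∈ X, (z.1 : ℝ) * b.1 + (z.2 : ℝ) * b.2 = 0 := by
      by_contra hcon
      push Not at hcon
      obtain ⟨ε, hε, hnear⟩ := bad_near hb.1 hst hcon K
      obtain ⟨w, hw, hd, hw2⟩ := ExtV_turn hb.1 hε
      have := hext w (hnear w hw hd)
      linarith
    set k : ℝ := (z.1 : ℝ) * b.2 - (z.2 : ℝ) * b.1 with hk
    have hz1 : (z.1 : ℝ) = k * b.2 := by
      rw [hk]; linear_combination (-(z.1 : ℝ)) * hb1 + b.1 * hzb
    have hz2 : (z.2 : ℝ) = -(k * b.1) := by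
      rw [hk]; linear_combination (-(z.2 : ℝ)) * hb1 + b.2 * hzb
    have hk0 : k ≠ 0 := by
      intro hk0
      rw [hk0] at hz1 hz2
      have e1 : z.1 = 0 := by
        have : (z.1 : ℝ) = 0 := by linarith
        exact_mod_cast this
      have e2 : z.2 = 0 := by
        have : (z.2 : ℝ) = 0 := by linarith
        exact_mod_cast this
      have e3 : z = ((0 : ℤ), (0 : ℤ)) := Prod.ext e1 e2
      rw [e3] at hz
      exact h0 X hX hz
    have key : ∀ u ∈ S1, 0 < u.1 * b.2 - u.2 * b.1 → diffAt U u ≤ K := by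
      intro u hu hpos
      by_contra hcon
      have := hext u ⟨hu, hcon⟩
      linarith
    rcases lt_or_gt_of_ne hk0 with hneg | hpos
    · refine ⟨-z, ⟨X, hX, Or.inr (by rwa [neg_neg])⟩, fun u hu h => key u hu ?_⟩
      have e : u.1 * ((-z).1 : ℝ) + u.2 * ((-z).2 : ℝ) = -k * (u.1 * b.2 - u.2 * b.1) := by
        simp only [Prod.fst_neg, Prod.snd_neg, Int.cast_neg, hz1, hz2]
        ring
      push_cast at h e
      rw [e] at h
      exact (mul_pos_iff_of_pos_left (by linarith)).1 h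
    · refine ⟨z, ⟨X, hX, Or.inl hz⟩, fun u hu h => key u hu ?_⟩
      have e : u.1 * (z.1 : ℝ) + u.2 * (z.2 : ℝ) = k * (u.1 * b.2 - u.2 * b.1) := by
        rw [hz1, hz2]
        ring
      rw [e] at h
      exact (mul_pos_iff_of_pos_left hpos).1 h

end Pool.Agent.BPM
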