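import Pool.Agent.BPM.Defs

/-!
# The nearest integer direction

PROOF of `exists_near`. Let `cr' a b = a.1 * b.2 - a.2 * b.1` for real vectors. Consider the finite set of the
`z` with `Dr U z` and `0 < cr' u (perp z)` (note `cr' u (perp z) = u.1 z.1 + u.2 z.2`, so this says
`0 < ⟨u, z⟩`). It contains `y`. Choose `z` in it with the largest quotient
`⟨perp z, u⟩ / cr' u (perp z)` (the cotangent of the angle from `u` to `perp z`; here
`⟨perp z, u⟩ = - z.2 u.1 + z.1 u.2`). Let `p = perp z`.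

(1) For every site `x` of a rule with `0 < ⟨x, u⟩` we have `0 ≤ dt x p`, and if `dt x p = 0` then
`0 < (-1) * cr p x`. Suppose `dt x p < 0`. Then `x` is a candidate (`Dr U x`, `0 < ⟨u, x⟩`), and
`⟨perp x, u⟩ / ⟨u, x⟩ > ⟨perp z, u⟩ / ⟨u, z⟩`: this difference is, after multiplication with the positive
denominators, `⟨perp x, u⟩ ⟨u, z⟩ - ⟨perp z, u⟩ ⟨u, x⟩ = - |u|² * dt x (perp z)` up to sign (a polynomial
identity: check the sign by `ring`; `dt x (perp z) = - x.1 z.2 + x.2 z.1`). Contradiction with the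
choice of `z`. If `dt x p = 0` then `x` and `z` are parallel, `0 < ⟨x, u⟩`, `0 < ⟨z, u⟩`, so `x = λ z` with
`λ > 0`, and `cr p x = cr (perp z) x = - dt z x < 0`.

(2) `0 ≤ dt p y`, and `dt p y = 0 → cr p y < 0`: apply (1) with `x = y` (only `Dr U y` was used).

(3) `St U p` and `¬ Un (-1) U p`: every rule `X` contains a site `x` with `0 ≤ ⟨x, u⟩` (`hs`), so
`0 < ⟨x, u⟩` by `hu` (`Dr U x`), and (1) applies.
-/

set_option autoImplicit false

namespace Pool.Agent.BPM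

open Pool.Agent.BPD Set

private theorem near_fin (U : Fam) : {z | Dr U z}.Finite := by
  classical
  refine ((U.biUnion id ∪ (U.biUnion id).image fun z => -z).finite_toSet).subset ?_
  rintro z ⟨X, hX, h | h⟩
  · exact Finset.mem_coe.2 (Finset.mem_union_left _ (Finset.mem_biUnion.2 ⟨X, hX, h⟩))
  · exact Finset.mem_coe.2 (Finset.mem_union_right _ (Finset.mem_image.2
      ⟨-z, Finset.mem_biUnion.2 ⟨X, hX, h⟩, neg_neg z⟩))

theorem exists_near {U : Fam} {u : ℝ × ℝ} {y : ℤ × ℤ} (hy : Dr U y)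
    (huy : 0 < u.1 * y.1 + u.2 * y.2) (hu : ∀ z, Dr U z → u.1 * z.1 + u.2 * z.2 ≠ 0)
    (hs : ∀ X ∈ U, ∃ x ∈ X, 0 ≤ (x.1 : ℝ) * u.1 + (x.2 : ℝ) * u.2) :
    ∃ z, Dr U z ∧ 0 ≤ dt (perp z) y ∧ St U (perp z) ∧ ¬ Un (-1) U (perp z) ∧
      (dt (perp z) y = 0 → cr (perp z) y < 0) := by
  have hu2 : 0 < u.1 ^ 2 + u.2 ^ 2 := by
    by_contra hcon
    have h1 : u.1 = 0 := by nlinarith [sq_nonneg u.1, sq_nonneg u.2]
    have h2 : u.2 = 0 := by nlinarith [sq_nonneg u.1, sq_nonneg u.2]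
    rw [h1, h2] at huy
    simp at huy
  obtain ⟨z, ⟨hz, huz⟩, hmax⟩ := Set.exists_max_image
    {z : ℤ × ℤ | Dr U z ∧ 0 < u.1 * z.1 + u.2 * z.2}
    (fun z => (z.1 * u.2 - z.2 * u.1) / (u.1 * z.1 + u.2 * z.2))
    ((near_fin U).subset fun z h => h.1) ⟨y, hy, huy⟩
  -- the main property
  have key : ∀ x, Dr U x → 0 < u.1 * x.1 + u.2 * x.2 → 0 ≤ dt x (perp z) ∧
      (dt x (perp z) = 0 → cr (perp z) x < 0) := by
    intro x hx hux
    have h1 := hmax x ⟨hx, hux⟩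
    rw [div_le_div_iff₀ hux huz] at h1
    have h2 : (u.1 ^ 2 + u.2 ^ 2) * (((dt x (perp z) : ℤ) : ℝ)) =
        (z.1 * u.2 - z.2 * u.1) * (u.1 * x.1 + u.2 * x.2) -
        (x.1 * u.2 - x.2 * u.1) * (u.1 * z.1 + u.2 * z.2) := by
      simp only [dt, perp]
      push_cast
      ring
    have h3 : (0 : ℝ) ≤ ((dt x (perp z) : ℤ) : ℝ) := by
      by_contra hcon
      push Not at hcon
      have := mul_neg_of_pos_of_neg hu2 hcon
      linarith
    refine ⟨by exact_mod_cast h3, fun h0 => ?_⟩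
    have h4 : ((z.1 : ℝ) ^ 2 + (z.2 : ℝ) ^ 2) * (u.1 * x.1 + u.2 * x.2) =
        ((z.1 : ℝ) * x.1 + z.2 * x.2) * (u.1 * z.1 + u.2 * z.2) +
          ((dt x (perp z) : ℤ) : ℝ) * (z.1 * u.2 - z.2 * u.1) := by
      simp only [dt, perp]
      push_cast
      ring
    rw [h0, Int.cast_zero, zero_mul, add_zero] at h4
    have hz2 : 0 < (z.1 : ℝ) ^ 2 + (z.2 : ℝ) ^ 2 := by
      by_contra hcon
      have e1 : (z.1 : ℝ) = 0 := by nlinarith [sq_nonneg (z.1 : ℝ), sq_nonneg (z.2 : ℝ)]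
      have e2 : (z.2 : ℝ) = 0 := by nlinarith [sq_nonneg (z.1 : ℝ), sq_nonneg (z.2 : ℝ)]
      rw [e1, e2] at huz
      simp at huz
    have h5 : 0 < (z.1 : ℝ) * x.1 + z.2 * x.2 := by
      by_contra hcon
      push Not at hcon
      have e1 := mul_pos hz2 hux
      have e2 := mul_nonneg (neg_nonneg.2 hcon) huz.le
      linarith
    have h6 : 0 < z.1 * x.1 + z.2 * x.2 := by exact_mod_cast h5
    simp only [cr, perp]
    linarith
  have hrule : ∀ X ∈ U, ∃ x ∈ X, 0 ≤ dt x (perp z) ∧ (dt x (perp z) = 0 → cr (perp z) x < 0) := by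
    intro X hX
    obtain ⟨x, hx, h1⟩ := hs X hX
    have hd : Dr U x := ⟨X, hX, Or.inl hx⟩
    have h2 : 0 < u.1 * x.1 + u.2 * x.2 := by
      refine lt_of_le_of_ne ?_ (hu x hd).symm
      linarith
    exact ⟨x, hx, key x hd h2⟩
  obtain ⟨k1, k2⟩ := key y hy huy
  have hsym : dt (perp z) y = dt y (perp z) := by
    simp only [dt]
    ring
  refine ⟨z, hz, by rw [hsym]; exact k1, fun X hX => ?_, ?_, fun h => k2 (by rw [← hsym]; exact h)⟩
  · obtain ⟨x, hx, h1, -⟩ := hrule X hX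
    exact ⟨x, hx, h1⟩
  · rintro ⟨X, hX, h⟩
    obtain ⟨x, hx, h1, h2⟩ := hrule X hX
    rcases h x hx with h3 | ⟨h3, h4⟩
    · omega
    · have := h2 h3
      omega

end Pool.Agent.BPM
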