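import Pool.Agent.BPM.Dirs

/-!
# Directions next to a direction which is not unstable on one side

`pert`: let `D` bound `|s * cr p y|` over all sites (`U` finite), `ε = 1 / (D + 1)`. Let `X ∈ U`.
As `Un s U p` is false, there is `y ∈ X` with `¬ (dt y p < 0)` and
`¬ (dt y p = 0 ∧ s * cr p y < 0)`. If `dt y p = 0` then `0 ≤ s * cr p y`; otherwise `1 ≤ dt y p`.
In both cases `0 ≤ dt y p + t * s * cr p y` for `0 < t < ε`, and
`⟨y, p + t s perp p⟩ = dt y p + t s cr p y`.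

`not_isolated`: if all directions `nrm w_t`, `w_t = toR p + t s toR (perp p)`, `0 < t < ε`, are
stable then none of them is isolated: `w_t'` with `t'` close to `t` is stable, different, and close
to it (continuity of `t ↦ nrm w_t`; `nrm w_t = nrm w_t'` implies `cr = 0`, i.e. `t = t'`).

`bad_of_not_un`: choose `t` small enough that moreover `0 < ⟨w_t, y⟩`, where
`⟨w_t, y⟩ = dt p y + t s dt (perp p) y`. Then `u = nrm w_t` is stable and not isolated, so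
`diffAt U u = ⊤`.
-/

set_option autoImplicit false

namespace Pool.Agent.BPM

open Pool.Agent.BPD Set

/-- The direction `p + t s perp p`. -/
def wt (p : ℤ × ℤ) (s : ℤ) (t : ℝ) : ℝ × ℝ := (p.1 - t * s * p.2, p.2 + t * s * p.1)

private theorem dot_wt (p : ℤ × ℤ) (s : ℤ) (t : ℝ) (y : ℤ × ℤ) :
    (y.1 : ℝ) * (wt p s t).1 + (y.2 : ℝ) * (wt p s t).2 =
      ((dt y p : ℤ) : ℝ) + t * ((s * cr p y : ℤ) : ℝ) := by
  simp only [wt, dt, cr]
  push_cast
  ring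

private theorem sum_sq_pos {p : ℤ × ℤ} (hp : p ≠ 0) : 0 < (p.1 : ℝ) ^ 2 + (p.2 : ℝ) ^ 2 := by
  have h : p.1 ≠ 0 ∨ p.2 ≠ 0 := by
    by_contra hcon
    push Not at hcon
    exact hp (Prod.ext hcon.1 hcon.2)
  rcases h with h | h
  · have : (p.1 : ℝ) ≠ 0 := by exact_mod_cast h
    positivity
  · have : (p.2 : ℝ) ≠ 0 := by exact_mod_cast h
    positivity

private theorem wt_sq (p : ℤ × ℤ) (s : ℤ) (t : ℝ) :
    (wt p s t).1 ^ 2 + (wt p s t).2 ^ 2 =
      ((p.1 : ℝ) ^ 2 + (p.2 : ℝ) ^ 2) * (1 + (t * s) ^ 2) := by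
  simp only [wt]
  ring

private theorem wt_sq_pos {p : ℤ × ℤ} (hp : p ≠ 0) (s : ℤ) (t : ℝ) :
    0 < (wt p s t).1 ^ 2 + (wt p s t).2 ^ 2 := by
  rw [wt_sq]
  have := sum_sq_pos hp
  positivity

private theorem wt_ne {p : ℤ × ℤ} (hp : p ≠ 0) (s : ℤ) (t : ℝ) : wt p s t ≠ 0 := by
  intro h
  have h1 := wt_sq_pos hp s t
  rw [h] at h1
  simp at h1

theorem pert {U : Fam} {p : ℤ × ℤ} {s : ℤ} (h : ¬ Un s U p) :
    ∃ ε : ℝ, 0 < ε ∧ ∀ t : ℝ, 0 < t → t < ε →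
      ∀ X ∈ U, ∃ y ∈ X, 0 ≤ (y.1 : ℝ) * (wt p s t).1 + (y.2 : ℝ) * (wt p s t).2 := by
  classical
  set D : ℝ := ∑ y ∈ U.biUnion id, |((s * cr p y : ℤ) : ℝ)| with hD
  have hD0 : 0 ≤ D := Finset.sum_nonneg fun _ _ => abs_nonneg _
  refine ⟨1 / (D + 1), by positivity, fun t h0 h1 X hX => ?_⟩
  have h2 : ∃ y ∈ X, ¬ (dt y p < 0 ∨ (dt y p = 0 ∧ s * cr p y < 0)) := by
    by_contra hcon
    push Not at hcon
    refine h ⟨X, hX, fun y hy => ?_⟩
    have := hcon y hy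
    by_contra hc2
    push Not at hc2
    rcases this with h3 | h3
    · exact absurd h3 (not_lt.2 hc2.1)
    · exact absurd h3.2 (not_lt.2 (hc2.2 h3.1))
  obtain ⟨y, hy, hny⟩ := h2
  refine ⟨y, hy, ?_⟩
  rw [dot_wt]
  push Not at hny
  obtain ⟨ha, hb⟩ := hny
  rcases ha.lt_or_eq with hc | hc
  · have h3 : (1 : ℝ) ≤ ((dt y p : ℤ) : ℝ) := by exact_mod_cast hc
    have h4 : |((s * cr p y : ℤ) : ℝ)| ≤ D :=
      Finset.single_le_sum (f := fun y => |((s * cr p y : ℤ) : ℝ)|)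
        (fun _ _ => abs_nonneg _) (Finset.mem_biUnion.2 ⟨X, hX, hy⟩)
    have h5 : t * (D + 1) < 1 := by
      rwa [lt_div_iff₀ (by positivity)] at h1
    have h6 : -(t * |((s * cr p y : ℤ) : ℝ)|) ≤ t * ((s * cr p y : ℤ) : ℝ) := by
      rw [← mul_neg]
      exact mul_le_mul_of_nonneg_left (neg_abs_le _) h0.le
    have h7 : t * |((s * cr p y : ℤ) : ℝ)| ≤ t * D := mul_le_mul_of_nonneg_left h4 h0.le
    nlinarith
  · have h3 : (0 : ℝ) ≤ ((s * cr p y : ℤ) : ℝ) := by exact_mod_cast hb hc.symm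
    rw [← hc]
    have := mul_nonneg h0.le h3
    simpa using this

theorem not_isolated {U : Fam} {p : ℤ × ℤ} (hp : p ≠ 0) {s : ℤ} (hs : s ≠ 0) {ε : ℝ} (hε : 0 < ε)
    (h : ∀ t : ℝ, 0 < t → t < ε →
      ∀ X ∈ U, ∃ y ∈ X, 0 ≤ (y.1 : ℝ) * (wt p s t).1 + (y.2 : ℝ) * (wt p s t).2)
    {t : ℝ} (h0 : 0 < t) (h1 : t < ε) : ¬ Isolated U (nrm (wt p s t)) := by
  rintro ⟨ρ, hρ, hiso⟩
  have hpos : ∀ r : ℝ, 0 < Real.sqrt ((wt p s r).1 ^ 2 + (wt p s r).2 ^ 2) := fun r =>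
    Real.sqrt_pos.2 (wt_sq_pos hp s r)
  have hc : Continuous fun r : ℝ => nrm (wt p s r) := by
    have e1 : Continuous fun r : ℝ => wt p s r := by
      unfold wt
      fun_prop
    have e2 : Continuous fun r : ℝ => Real.sqrt ((wt p s r).1 ^ 2 + (wt p s r).2 ^ 2) := by
      fun_prop
    exact ((continuous_fst.comp e1).div e2 fun r => (hpos r).ne').prodMk
      ((continuous_snd.comp e1).div e2 fun r => (hpos r).ne')
  obtain ⟨δ, hδ, hd⟩ := Metric.continuous_iff.1 hc t ρ hρ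
  have hm : 0 < min (ε - t) δ := lt_min (by linarith) hδ
  set r : ℝ := t + min (ε - t) δ / 2 with hr
  have hr0 : t < r := by rw [hr]; linarith
  have hr1 : r < ε := by
    have := min_le_left (ε - t) δ
    rw [hr]; linarith
  have hr2 : r - t < δ := by
    have := min_le_right (ε - t) δ
    rw [hr]; linarith
  have hst : Stable U (nrm (wt p s r)) :=
    (stable_nrm (wt_ne hp s r)).2 (h r (h0.trans hr0) hr1)
  have hdist : dist (nrm (wt p s r)) (nrm (wt p s t)) < ρ :=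
    hd r (by rw [Real.dist_eq, abs_of_pos (by linarith)]; exact hr2)
  have heq := hiso _ (nrm_mem (wt_ne hp s r)) hst hdist
  -- the cross product vanishes
  have a1 : (wt p s r).1 / Real.sqrt ((wt p s r).1 ^ 2 + (wt p s r).2 ^ 2) =
      (wt p s t).1 / Real.sqrt ((wt p s t).1 ^ 2 + (wt p s t).2 ^ 2) := congrArg Prod.fst heq
  have a2 : (wt p s r).2 / Real.sqrt ((wt p s r).1 ^ 2 + (wt p s r).2 ^ 2) =
      (wt p s t).2 / Real.sqrt ((wt p s t).1 ^ 2 + (wt p s t).2 ^ 2) := congrArg Prod.snd heq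
  rw [div_eq_div_iff (hpos r).ne' (hpos t).ne'] at a1 a2
  have hx : ((wt p s r).1 * (wt p s t).2 - (wt p s r).2 * (wt p s t).1) *
      Real.sqrt ((wt p s t).1 ^ 2 + (wt p s t).2 ^ 2) = 0 := by
    linear_combination (wt p s t).2 * a1 - (wt p s t).1 * a2
  have hy : (wt p s r).1 * (wt p s t).2 - (wt p s r).2 * (wt p s t).1 = 0 :=
    (mul_eq_zero.1 hx).resolve_right (hpos t).ne'
  have hz : ((p.1 : ℝ) ^ 2 + (p.2 : ℝ) ^ 2) * (s * (t - r)) = 0 := by
    simp only [wt] at hy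
    linear_combination hy
  have hs' : (s : ℝ) ≠ 0 := by exact_mod_cast hs
  rcases mul_eq_zero.1 hz with h3 | h3
  · exact (sum_sq_pos hp).ne' h3
  · rcases mul_eq_zero.1 h3 with h4 | h4
    · exact hs' h4
    · linarith

theorem bad_of_not_un {U : Fam} {p : ℤ × ℤ} (hp : p ≠ 0) {s : ℤ} (hs : s ≠ 0) (h : ¬ Un s U p)
    {y : ℤ × ℤ} (hy : 0 < dt p y ∨ (dt p y = 0 ∧ 0 < s * dt (perp p) y)) :
    ∃ u ∈ S1, 0 < u.1 * y.1 + u.2 * y.2 ∧ ∀ K : ℕ, ¬ diffAt U u ≤ K := by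
  obtain ⟨ε, hε, hst⟩ := pert h
  have hdot : ∀ t : ℝ, ((y.1 : ℝ), (y.2 : ℝ)).1 * (wt p s t).1 +
      ((y.1 : ℝ), (y.2 : ℝ)).2 * (wt p s t).2 =
      ((dt p y : ℤ) : ℝ) + t * ((s * dt (perp p) y : ℤ) : ℝ) := by
    intro t
    simp only [wt, dt, perp]
    push_cast
    ring
  have hex : ∃ t : ℝ, 0 < t ∧ t < ε ∧
      0 < ((dt p y : ℤ) : ℝ) + t * ((s * dt (perp p) y : ℤ) : ℝ) := by
    rcases hy with hy | ⟨hy, hy'⟩
    · have h3 : (1 : ℝ) ≤ ((dt p y : ℤ) : ℝ) := by exact_mod_cast hy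
      set b : ℝ := ((s * dt (perp p) y : ℤ) : ℝ) with hb
      have hb1 : 0 < 1 / (|b| + 1) := by positivity
      have hm : 0 < min ε (1 / (|b| + 1)) := lt_min hε hb1
      refine ⟨min ε (1 / (|b| + 1)) / 2, by positivity, ?_, ?_⟩
      · have := min_le_left ε (1 / (|b| + 1))
        linarith
      · have h5 : min ε (1 / (|b| + 1)) / 2 < 1 / (|b| + 1) := by
          have := min_le_right ε (1 / (|b| + 1))
          linarith
        set t : ℝ := min ε (1 / (|b| + 1)) / 2 with ht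
        have ht0 : 0 < t := by positivity
        have h6 : t * (|b| + 1) < 1 := by
          rwa [lt_div_iff₀ (by positivity)] at h5
        have h7 : -(t * |b|) ≤ t * b := by
          rw [← mul_neg]
          exact mul_le_mul_of_nonneg_left (neg_abs_le _) ht0.le
        nlinarith
    · refine ⟨ε / 2, by positivity, by linarith, ?_⟩
      have h3 : (0 : ℝ) < ((s * dt (perp p) y : ℤ) : ℝ) := by exact_mod_cast hy'
      rw [hy]
      have := mul_pos (half_pos hε) h3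
      simpa using this
  obtain ⟨t, h0, h1, h2⟩ := hex
  have hne := wt_ne hp s t
  refine ⟨nrm (wt p s t), nrm_mem hne, ?_, fun K hK => ?_⟩
  · have h3 : 0 < ((y.1 : ℝ), (y.2 : ℝ)).1 * (nrm (wt p s t)).1 +
        ((y.1 : ℝ), (y.2 : ℝ)).2 * (nrm (wt p s t)).2 := by
      rw [nrm_pos hne, hdot]
      exact h2
    have e : (nrm (wt p s t)).1 * (y.1 : ℝ) + (nrm (wt p s t)).2 * (y.2 : ℝ) =
        ((y.1 : ℝ), (y.2 : ℝ)).1 * (nrm (wt p s t)).1 +
        ((y.1 : ℝ), (y.2 : ℝ)).2 * (nrm (wt p s t)).2 := by ring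
    rw [e]
    exact h3
  · have hs1 : Stable U (nrm (wt p s t)) := (stable_nrm hne).2 (hst t h0 h1)
    have hni : ¬ Isolated U (nrm (wt p s t)) := not_isolated hp hs hε hst h0 h1
    unfold diffAt at hK
    rw [if_pos hs1, if_neg hni] at hK
    exact absurd hK (by simp)

end Pool.Agent.BPM
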