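import Pool.Agent.BPM.Iso
import Pool.Agent.BPM.Pert
import Pool.Agent.BPM.ExtV
import Pool.Agent.BPM.Near

/-!
# The finite criterion for the difficulty

PROOF of `finChk_of_le`. `difficulty U ≤ K` gives `v ∈ S1` with `diffAt U u ≤ K` for all `u ∈ semi v` (the
infimum in `ℕ∞` is attained: otherwise `K + 1 ≤` every member; `iSup₂_le_iff`). Take `y` of `exists_ext`. Let
`Dr U z`, `p = perp z` (nonzero by `h0`). If `0 < dt p y`: `u = nrm (toR p)` satisfies `diffAt U u ≤ K`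
(`nrm_pos`). If `St U p` then `u` is stable (`stable_iff_St`), so it is isolated with `cost U u ≤ K`
(`diffAt`), and `un_of_iso`, `cost_le_iff` give the second alternative. If `dt p y = 0`: suppose
`¬ Un (cr p y) U p`. `cr p y ≠ 0` (`p` and `y` are nonzero and orthogonal), `dt (perp p) y = cr p y`, so
`bad_of_not_un` with `s = cr p y` contradicts `exists_ext`.

PROOF of `le_of_finChk`. `v = nrm (toR y)` (`y ≠ 0` by `h0`). Let `u ∈ semi v` be stable (otherwise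
`diffAt = 0`); `0 < ⟨u, y⟩`. If `⟨u, z⟩ ≠ 0` for all `z` with `Dr U z`: take `z` of `exists_near`, `p = perp z`.
If `0 < dt p y`, the criterion gives `¬ St U p` or `Un (-1) U p`, both impossible. If `dt p y = 0` it gives
`Un (cr p y) U p` with `cr p y < 0`, i.e. `Un (-1) U p` (`s * cr < 0` for `s < 0` means `0 < cr`).
Otherwise `⟨u, z⟩ = 0` for some `z` with `Dr U z`, and `u = nrm (toR p)`, `p = perp z` or
`p = perp (-z)` (`eq_nrm_perp`; `Dr U (-z)` too). `0 < dt p y` (`nrm_pos`), `St U p`, so the criterion gives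
`Un 1`, `Un (-1)`, `AdmP U p K`: `u` is isolated (`iso_of_un`) and `cost ≤ K` (`cost_le_iff`).
-/

set_option autoImplicit false

namespace Pool.Agent.BPM

open Pool.Agent.BPD Set

private theorem dr_ne {U : Fam} (h0 : ∀ X ∈ U, ((0 : ℤ), (0 : ℤ)) ∉ X) {z : ℤ × ℤ}
    (hz : Dr U z) : z ≠ 0 := by
  rintro rfl
  obtain ⟨X, hX, h | h⟩ := hz
  · exact h0 X hX h
  · rw [neg_zero] at h
    exact h0 X hX h

private theorem perp_ne {z : ℤ × ℤ} (hz : z ≠ 0) : perp z ≠ 0 := by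
  intro h
  have h1 : -z.2 = 0 := congrArg Prod.fst h
  have h2 : z.1 = 0 := congrArg Prod.snd h
  exact hz (Prod.ext h2 (neg_eq_zero.1 h1))

private theorem dr_neg {U : Fam} {z : ℤ × ℤ} (hz : Dr U z) : Dr U (-z) := by
  obtain ⟨X, hX, h | h⟩ := hz
  · exact ⟨X, hX, Or.inr (by rwa [neg_neg])⟩
  · exact ⟨X, hX, Or.inl h⟩

private theorem pos_nrm_iff {p : ℤ × ℤ} (hp : p ≠ 0) (y : ℤ × ℤ) :
    0 < (nrm (toR p)).1 * y.1 + (nrm (toR p)).2 * y.2 ↔ 0 < dt p y := by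
  have h := nrm_pos (toR_ne hp) ((y.1 : ℝ), (y.2 : ℝ))
  have e : (nrm (toR p)).1 * (y.1 : ℝ) + (nrm (toR p)).2 * y.2 =
      (y.1 : ℝ) * (nrm (toR p)).1 + (y.2 : ℝ) * (nrm (toR p)).2 := by ring
  have e2 : (y.1 : ℝ) * (toR p).1 + (y.2 : ℝ) * (toR p).2 = ((dt p y : ℤ) : ℝ) := by
    simp only [toR, dt]
    push_cast
    ring
  rw [e]
  refine h.trans ?_
  rw [e2]
  exact Int.cast_pos

private theorem diffAt_stable {U : Fam} {u : ℝ × ℝ} {K : ℕ} (hs : Stable U u)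
    (h : diffAt U u ≤ K) : Isolated U u ∧ cost U u ≤ K := by
  unfold diffAt at h
  rw [if_pos hs] at h
  by_cases hi : Isolated U u
  · rw [if_pos hi] at h
    exact ⟨hi, h⟩
  · rw [if_neg hi, top_le_iff] at h
    exact absurd h (ENat.natCast_ne_top K)

private theorem exists_v {U : Fam} {K : ℕ} (h : difficulty U ≤ K) :
    ∃ v ∈ S1, ∀ u ∈ semi v, diffAt U u ≤ K := by
  by_contra hcon
  push Not at hcon
  have h1 : ((K : ℕ∞) + 1) ≤ difficulty U := by
    refine le_iInf₂ fun v hv => ?_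
    obtain ⟨u, hu, hlt⟩ := hcon v hv
    exact (Order.add_one_le_of_lt hlt).trans (le_iSup₂ (f := fun u _ => diffAt U u) u hu)
  have h2 : ((K + 1 : ℕ) : ℕ∞) ≤ (K : ℕ∞) := by
    push_cast
    exact h1.trans h
  have h3 : K + 1 ≤ K := by exact_mod_cast h2
  omega

private theorem cr_ne {p y : ℤ × ℤ} (hp : p ≠ 0) (hy : y ≠ 0) (h : dt p y = 0) : cr p y ≠ 0 := by
  intro hc
  have key : (p.1 ^ 2 + p.2 ^ 2) * (y.1 ^ 2 + y.2 ^ 2) = 0 := by
    have h1 : (p.1 ^ 2 + p.2 ^ 2) * (y.1 ^ 2 + y.2 ^ 2) = dt p y ^ 2 + cr p y ^ 2 := by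
      simp only [dt, cr]
      ring
    rw [h1, h, hc]
    norm_num
  have pos : ∀ q : ℤ × ℤ, q ≠ 0 → q.1 ^ 2 + q.2 ^ 2 ≠ 0 := by
    intro q hq h1
    have h2 : q.1 ^ 2 = 0 := by nlinarith [sq_nonneg q.1, sq_nonneg q.2]
    have h3 : q.2 ^ 2 = 0 := by nlinarith [sq_nonneg q.1, sq_nonneg q.2]
    exact hq (Prod.ext (by simpa using h2) (by simpa using h3))
  exact (mul_ne_zero (pos p hp) (pos y hy)) key

private theorem un_neg {U : Fam} {p : ℤ × ℤ} {s : ℤ} (hs : s < 0) (h : Un s U p) :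
    Un (-1) U p := by
  obtain ⟨X, hX, hx⟩ := h
  refine ⟨X, hX, fun y hy => ?_⟩
  rcases hx y hy with h1 | ⟨h1, h2⟩
  · exact Or.inl h1
  · refine Or.inr ⟨h1, ?_⟩
    by_contra hcon
    have h3 : cr p y ≤ 0 := by omega
    exact absurd h2 (not_lt.2 (mul_nonneg_of_nonpos_of_nonpos hs.le h3))

theorem finChk_of_le {U : Fam} {K : ℕ} (hc : Critical U) (h0 : ∀ X ∈ U, ((0 : ℤ), (0 : ℤ)) ∉ X)
    (h : difficulty U ≤ K) : FinChk U K := by
  obtain ⟨v, hv, hK⟩ := exists_v h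
  obtain ⟨y, hy, hext⟩ := exists_ext hv hK hc h0
  refine ⟨y, hy, fun z hz => ?_⟩
  have hp := perp_ne (dr_ne h0 hz)
  refine ⟨fun hpos => ?_, fun hz0 => ?_⟩
  · by_cases hst : St U (perp z)
    · right
      have hu : diffAt U (nrm (toR (perp z))) ≤ K :=
        hext _ (nrm_mem (toR_ne hp)) ((pos_nrm_iff hp y).2 hpos)
      obtain ⟨hi, hcst⟩ := diffAt_stable ((stable_iff_St hp).2 hst) hu
      obtain ⟨a, b⟩ := un_of_iso hp hi
      exact ⟨a, b, (cost_le_iff hp).1 hcst⟩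
    · exact Or.inl hst
  · by_contra hn
    have hcr := cr_ne hp (dr_ne h0 hy) hz0
    have e : dt (perp (perp z)) y = cr (perp z) y := by
      simp only [dt, cr, perp]
      ring
    have hp2 : 0 < cr (perp z) y * dt (perp (perp z)) y := by
      rw [e]
      exact mul_self_pos.2 hcr
    obtain ⟨u, hu, hpos, hbad⟩ := bad_of_not_un hp hcr hn (Or.inr ⟨hz0, hp2⟩)
    exact hbad K (hext u hu hpos)

theorem le_of_finChk {U : Fam} {K : ℕ} (h0 : ∀ X ∈ U, ((0 : ℤ), (0 : ℤ)) ∉ X)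
    (h : FinChk U K) : difficulty U ≤ K := by
  obtain ⟨y, hy, hz⟩ := h
  have hy0 := toR_ne (dr_ne h0 hy)
  refine (iInf₂_le (nrm (toR y)) (nrm_mem hy0)).trans (iSup₂_le fun u hu => ?_)
  by_cases hs : Stable U u
  swap
  · unfold diffAt
    rw [if_neg hs]
    exact bot_le
  have huy : 0 < u.1 * y.1 + u.2 * y.2 := (nrm_pos hy0 u).1 hu.2
  by_cases hall : ∀ z, Dr U z → u.1 * z.1 + u.2 * z.2 ≠ 0
  · exfalso
    obtain ⟨z, hzD, h1, h2, h3, h4⟩ := exists_near hy huy hall (stable_iff.1 hs)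
    rcases h1.lt_or_eq with h5 | h5
    · rcases (hz z hzD).1 h5 with h6 | ⟨_, h6, _⟩
      · exact h6 h2
      · exact h3 h6
    · exact h3 (un_neg (h4 h5.symm) ((hz z hzD).2 h5.symm))
  · push Not at hall
    obtain ⟨z, hzD, hz0⟩ := hall
    obtain ⟨w, hwD, hw⟩ : ∃ w, Dr U w ∧ u = nrm (toR (perp w)) := by
      rcases eq_nrm_perp hu.1 (dr_ne h0 hzD) hz0 with h1 | h1
      · exact ⟨z, hzD, h1⟩
      · exact ⟨-z, dr_neg hzD, h1⟩
    have hp := perp_ne (dr_ne h0 hwD)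
    rw [hw] at hs huy ⊢
    have hst := (stable_iff_St hp).1 hs
    rcases (hz w hwD).1 ((pos_nrm_iff hp y).1 huy) with h1 | ⟨a, b, c⟩
    · exact absurd hst h1
    · unfold diffAt
      rw [if_pos hs, if_pos (iso_of_un hp a b)]
      exact (cost_le_iff hp).2 c

end Pool.Agent.BPM
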