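import Pool.Agent.BPM.Defs
import Pool.Agent.BPD.Dir

/-!
# Unit vectors and integer directions

PROOFS. `nrm w = w / |w|`, so everything about signs is division by the positive number
`√(w.1² + w.2²)` (positive for `w ≠ 0`: one of the squares is positive). `stable_nrm`: `stable_iff`
(`Pool/Agent/BPD/Dir.lean`) and `nrm_nonneg` with the sites `y` cast to the reals. `stable_iff_St`,
`half_nrm`: casts. `cost_le_iff`: `cost` is the infimum (in `ℕ∞`, a well order) of the `Z.encard`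
over the `Z` of `AdmP`: if all of them were `≥ K + 1` then `K + 1 ≤ cost` (see the proof of
`exists_a1` in `Pool/Agent/BPD/CloA.lean`); the other direction is `iInf₂_le`.
-/

set_option autoImplicit false

namespace Pool.Agent.BPM

open Pool.Agent.BPD Set

/-- The unit vector of the direction `w`. -/
noncomputable def nrm (w : ℝ × ℝ) : ℝ × ℝ :=
  (w.1 / Real.sqrt (w.1 ^ 2 + w.2 ^ 2), w.2 / Real.sqrt (w.1 ^ 2 + w.2 ^ 2))

/-- The cast to the reals. -/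
def toR (p : ℤ × ℤ) : ℝ × ℝ := ((p.1 : ℝ), (p.2 : ℝ))

theorem toR_ne {p : ℤ × ℤ} (h : p ≠ 0) : toR p ≠ 0 := by
  intro hp
  apply h
  have h1 : (p.1 : ℝ) = 0 := congrArg Prod.fst hp
  have h2 : (p.2 : ℝ) = 0 := congrArg Prod.snd hp
  exact Prod.ext (by exact_mod_cast h1) (by exact_mod_cast h2)

private theorem dsq_pos {w : ℝ × ℝ} (h : w ≠ 0) : 0 < w.1 ^ 2 + w.2 ^ 2 := by
  by_contra hcon
  apply h
  have h1 : w.1 = 0 := by nlinarith [sq_nonneg w.1, sq_nonneg w.2]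
  have h2 : w.2 = 0 := by nlinarith [sq_nonneg w.1, sq_nonneg w.2]
  exact Prod.ext h1 h2

private theorem dln_pos {w : ℝ × ℝ} (h : w ≠ 0) : 0 < Real.sqrt (w.1 ^ 2 + w.2 ^ 2) :=
  Real.sqrt_pos.2 (dsq_pos h)

theorem nrm_mem {w : ℝ × ℝ} (h : w ≠ 0) : nrm w ∈ S1 := by
  have h0 := dsq_pos h
  change (w.1 / Real.sqrt (w.1 ^ 2 + w.2 ^ 2)) ^ 2 +
    (w.2 / Real.sqrt (w.1 ^ 2 + w.2 ^ 2)) ^ 2 = 1
  rw [div_pow, div_pow, ← add_div, Real.sq_sqrt h0.le, div_self h0.ne']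

theorem nrm_self {u : ℝ × ℝ} (h : u ∈ S1) : nrm u = u := by
  have h1 : u.1 ^ 2 + u.2 ^ 2 = 1 := h
  unfold nrm
  rw [h1, Real.sqrt_one, div_one, div_one]

theorem nrm_smul {w : ℝ × ℝ} {t : ℝ} (ht : 0 < t) : nrm (t * w.1, t * w.2) = nrm w := by
  unfold nrm
  have h1 : (t * w.1) ^ 2 + (t * w.2) ^ 2 = t ^ 2 * (w.1 ^ 2 + w.2 ^ 2) := by ring
  have h2 : Real.sqrt ((t * w.1) ^ 2 + (t * w.2) ^ 2) = t * Real.sqrt (w.1 ^ 2 + w.2 ^ 2) := by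
    rw [h1, Real.sqrt_mul (sq_nonneg t), Real.sqrt_sq ht.le]
  simp only [h2]
  rw [mul_div_mul_left _ _ ht.ne', mul_div_mul_left _ _ ht.ne']

private theorem dnrm_eq (w y : ℝ × ℝ) : y.1 * (nrm w).1 + y.2 * (nrm w).2 =
    (y.1 * w.1 + y.2 * w.2) / Real.sqrt (w.1 ^ 2 + w.2 ^ 2) := by
  simp only [nrm]
  ring

theorem nrm_pos {w : ℝ × ℝ} (h : w ≠ 0) (y : ℝ × ℝ) :
    0 < y.1 * (nrm w).1 + y.2 * (nrm w).2 ↔ 0 < y.1 * w.1 + y.2 * w.2 := by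
  rw [dnrm_eq, lt_div_iff₀ (dln_pos h), zero_mul]

theorem nrm_nonneg {w : ℝ × ℝ} (h : w ≠ 0) (y : ℝ × ℝ) :
    0 ≤ y.1 * (nrm w).1 + y.2 * (nrm w).2 ↔ 0 ≤ y.1 * w.1 + y.2 * w.2 := by
  rw [dnrm_eq, le_div_iff₀ (dln_pos h), zero_mul]

theorem stable_nrm {U : Fam} {w : ℝ × ℝ} (h : w ≠ 0) :
    Stable U (nrm w) ↔ ∀ X ∈ U, ∃ y ∈ X, 0 ≤ (y.1 : ℝ) * w.1 + (y.2 : ℝ) * w.2 := by
  rw [stable_iff]
  have key : ∀ y : ℤ × ℤ, (0 ≤ (y.1 : ℝ) * (nrm w).1 + (y.2 : ℝ) * (nrm w).2 ↔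
      0 ≤ (y.1 : ℝ) * w.1 + (y.2 : ℝ) * w.2) := fun y => nrm_nonneg h (toR y)
  simp only [key]

private theorem dt_cast (y p : ℤ × ℤ) :
    (y.1 : ℝ) * (toR p).1 + (y.2 : ℝ) * (toR p).2 = ((dt y p : ℤ) : ℝ) := by
  simp only [toR, dt]
  push_cast
  ring

theorem stable_iff_St {U : Fam} {p : ℤ × ℤ} (h : p ≠ 0) : Stable U (nrm (toR p)) ↔ St U p := by
  rw [stable_nrm (toR_ne h)]
  simp only [dt_cast, Int.cast_nonneg_iff]
  rfl

theorem half_nrm {p : ℤ × ℤ} (h : p ≠ 0) : half (nrm (toR p)) = halfZ p := by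
  ext x
  change (x.1 : ℝ) * (nrm (toR p)).1 + (x.2 : ℝ) * (nrm (toR p)).2 < 0 ↔ dt x p < 0
  have h1 := nrm_nonneg (toR_ne h) (toR x)
  have h2 : 0 ≤ (toR x).1 * (toR p).1 + (toR x).2 * (toR p).2 ↔ 0 ≤ dt x p := by
    change 0 ≤ (x.1 : ℝ) * (toR p).1 + (x.2 : ℝ) * (toR p).2 ↔ 0 ≤ dt x p
    rw [dt_cast, Int.cast_nonneg_iff]
  rw [h2] at h1
  change 0 ≤ (x.1 : ℝ) * (nrm (toR p)).1 + (x.2 : ℝ) * (nrm (toR p)).2 ↔ 0 ≤ dt x p at h1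
  rw [← not_le, h1, not_le]

theorem cost_le_iff {U : Fam} {p : ℤ × ℤ} (h : p ≠ 0) {K : ℕ} :
    cost U (nrm (toR p)) ≤ K ↔ AdmP U p K := by
  unfold cost
  rw [half_nrm h]
  constructor
  · intro hc
    by_contra hcon
    have h1 : ((K + 1 : ℕ) : ℕ∞) ≤ ⨅ Z ∈ {Z : Set (ℤ × ℤ) | Disjoint Z (halfZ p) ∧
        (clo U (halfZ p ∪ Z) \ halfZ p).Infinite}, Z.encard := by
      refine le_iInf₂ fun Z hZ => ?_
      by_contra hlt
      push Not at hlt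
      apply hcon
      refine ⟨Z, ?_, hZ.1, hZ.2⟩
      have h2 : Z.encard < (K : ℕ∞) + 1 := by exact_mod_cast hlt
      exact Order.le_of_lt_add_one h2
    have h3 : ((K + 1 : ℕ) : ℕ∞) ≤ (K : ℕ∞) := h1.trans hc
    have h4 : K + 1 ≤ K := by exact_mod_cast h3
    omega
  · rintro ⟨Z, hZ, h1, h2⟩
    exact (iInf₂_le Z ⟨h1, h2⟩).trans hZ

/-- A direction of `S1` which is orthogonal to an integer vector `z ≠ 0` is `nrm (perp z)` or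
`nrm (perp (-z))`. -/
theorem eq_nrm_perp {u : ℝ × ℝ} (hu : u ∈ S1) {z : ℤ × ℤ} (hz : z ≠ 0)
    (h : u.1 * z.1 + u.2 * z.2 = 0) : u = nrm (toR (perp z)) ∨ u = nrm (toR (perp (-z))) := by
  have hu1 : u.1 ^ 2 + u.2 ^ 2 = 1 := hu
  have hz0 : 0 < (z.1 : ℝ) ^ 2 + (z.2 : ℝ) ^ 2 := dsq_pos (toR_ne hz)
  set c : ℝ := u.2 * z.1 - u.1 * z.2 with hc
  have hc1 : toR (perp z) = (-(z.2 : ℝ), (z.1 : ℝ)) := by
    simp [toR, perp]
  have hc2 : toR (perp (-z)) = ((z.2 : ℝ), -(z.1 : ℝ)) := by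
    simp [toR, perp]
  have e1 : -(z.2 : ℝ) = c * u.1 := by
    rw [hc]
    linear_combination (z.2 : ℝ) * hu1 - u.2 * h
  have e2 : (z.1 : ℝ) = c * u.2 := by
    rw [hc]
    linear_combination (-(z.1 : ℝ)) * hu1 + u.1 * h
  have hcne : c ≠ 0 := by
    intro h0
    rw [h0, zero_mul] at e1 e2
    have h3 : (z.2 : ℝ) = 0 := by linarith
    rw [e2, h3] at hz0
    norm_num at hz0
  rcases lt_or_gt_of_ne hcne with hneg | hpos
  · right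
    rw [hc2]
    have e : ((z.2 : ℝ), -(z.1 : ℝ)) = ((-c) * u.1, (-c) * u.2) := by
      refine Prod.ext ?_ ?_
      · simp only
        linarith
      · simp only
        linarith
    rw [e, nrm_smul (by linarith), nrm_self hu]
  · left
    rw [hc1]
    have e : (-(z.2 : ℝ), (z.1 : ℝ)) = (c * u.1, c * u.2) := Prod.ext e1 e2
    rw [e, nrm_smul hpos, nrm_self hu]

end Pool.Agent.BPM
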