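import Pool.Agent.BPM.Drop
import Pool.Agent.BPD.CloA

/-!
# The closure of a finite set does not go far down

PROOF of `clo_down`. If `LowA`: the set `{x | t ≤ x.2}` contains `Z` and is closed (`clo_least`): if
`t ≤ (x + y).2` for all `y ∈ X`, take the `y ∈ X` with `0 ≤ dt y (0, -1) = - y.2`. If `LowB`: let `C` be the
set of droplets of `exists_droplets`, `P` the union of the droplets. `P` contains `Z`. `P` is closed: let
`x + y ∈ P` for all `y ∈ X`. `X` is not empty (`hs`). All the `x + y` are in the same droplet: any two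
differ by at most `2 B` in both coordinates (`hb`). Let it be `c`. The directions `(0, 1)`,
`(-a₁, b₁)`, `(a₂, b₂)` are stable: there is `y ∈ X` with `0 ≤ y.2`, so `x.2 ≤ (x + y).2 ≤ c₀`, and so on:
`x` is in `c`. Let `x` be in the droplet `c`, `m = - (a₂ b₁ + a₁ b₂) ≥ 1`. Then
`m x.2 = - a₂ (- a₁ x.1 + b₁ x.2) - a₁ (a₂ x.1 + b₂ x.2) ≥ - a₂ c₁ - a₁ c₂ = m c₀ - sD c`, so
`m (c₀ - x.2) ≤ sD c`, hence `c₀ - x.2 ≤ sD c` (if `c₀ - x.2 ≥ 0` as `m ≥ 1`; otherwise by `0 ≤ sD c`), and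
`sD c ≤ Z.card * 12 B³` by (iii) of `exists_droplets` (all terms are nonnegative). And `t ≤ c₀`.
-/

set_option autoImplicit false

namespace Pool.Agent.BPM

open Pool.Agent.BPD Set

private theorem Down_a {U : Fam} (hA : LowA U) {Z : Finset (ℤ × ℤ)} {t : ℤ}
    (hZ : ∀ x ∈ Z, t ≤ x.2) : ∀ x ∈ clo U (↑Z : Set (ℤ × ℤ)), t ≤ x.2 := by
  have h : clo U (↑Z : Set (ℤ × ℤ)) ⊆ {x : ℤ × ℤ | t ≤ x.2} := by
    refine clo_least (fun x hx => hZ x (Finset.mem_coe.1 hx)) ?_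
    intro X hX x hx
    obtain ⟨y, hy, h0⟩ := hA X hX
    have h1 : t ≤ (x + y).2 := hx y hy
    simp only [dt] at h0
    rw [Prod.snd_add] at h1
    show t ≤ x.2
    omega
  exact fun x hx => h hx

private theorem Down_size {a₁ b₁ a₂ b₂ : ℤ} (h1 : 0 < a₁) (h3 : 0 < a₂)
    (hm : a₂ * b₁ + a₁ * b₂ < 0) {c : ℤ × ℤ × ℤ} {x : ℤ × ℤ} (h : InD a₁ b₁ a₂ b₂ c x) :
    c.1 - x.2 ≤ sD a₁ b₁ a₂ b₂ c := by
  obtain ⟨e0, e1, e2⟩ := h
  have g1 := mul_le_mul_of_nonneg_left e1 h3.le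
  have g2 := mul_le_mul_of_nonneg_left e2 h1.le
  have g3 : 0 ≤ (-(a₂ * b₁ + a₁ * b₂) - 1) * (c.1 - x.2) :=
    mul_nonneg (by omega) (by omega)
  unfold sD
  nlinarith

theorem clo_down {U : Fam} {B : ℕ} (hb : Bd B U) (hs : St U (0, 1)) (hl : LowA U ∨ LowB B U)
    {Z : Finset (ℤ × ℤ)} {t : ℤ} (hZ : ∀ x ∈ Z, t ≤ x.2) :
    ∀ x ∈ clo U (↑Z : Set (ℤ × ℤ)), t - 12 * (B : ℤ) ^ 3 * Z.card ≤ x.2 := by
  have hB0 : (0 : ℤ) ≤ 12 * (B : ℤ) ^ 3 := by positivity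
  have hc0 : (0 : ℤ) ≤ 12 * (B : ℤ) ^ 3 * Z.card := by positivity
  rcases hl with hA | hB
  · intro x hx
    have h := Down_a hA hZ x hx
    omega
  · obtain ⟨a₁, b₁, a₂, b₂, h1, h1', h2, h3, h3', h4, hm, s1, s2⟩ := hB
    obtain ⟨C, hC1, hC2, hC3, hC4⟩ := exists_droplets h1 h1' h2 h3 h3' h4 hm Z t hZ
    have hP : clo U (↑Z : Set (ℤ × ℤ)) ⊆ {x : ℤ × ℤ | ∃ c ∈ C, InD a₁ b₁ a₂ b₂ c x} := by
      refine clo_least (fun x hx => hC1 x (Finset.mem_coe.1 hx)) ?_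
      intro X hX x hx
      obtain ⟨y0, hy0, k0⟩ := hs X hX
      obtain ⟨y1, hy1, k1⟩ := s1 X hX
      obtain ⟨y2, hy2, k2⟩ := s2 X hX
      obtain ⟨c, hc, hcx⟩ := hx y0 hy0
      have hall : ∀ y ∈ X, InD a₁ b₁ a₂ b₂ c (x + y) := by
        intro y hy
        obtain ⟨c', hc', hcx'⟩ := hx y hy
        by_cases hcc : c = c'
        · rw [hcc]
          exact hcx'
        · exfalso
          refine hC4 c hc c' hc' hcc (x + y0) (x + y) hcx hcx' ?_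
          have e1 := hb X hX y hy
          have e2 := hb X hX y0 hy0
          rw [abs_le, abs_le] at e1 e2
          obtain ⟨⟨p1, p2⟩, p3, p4⟩ := e1
          obtain ⟨⟨q1, q2⟩, q3, q4⟩ := e2
          rw [Prod.fst_add, Prod.fst_add, Prod.snd_add, Prod.snd_add, abs_le, abs_le]
          refine ⟨⟨?_, ?_⟩, ?_, ?_⟩ <;> omega
      refine ⟨c, hc, ?_, ?_, ?_⟩
      · have e := (hall y0 hy0).1
        simp only [dt] at k0
        rw [Prod.snd_add] at e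
        omega
      · have e := (hall y1 hy1).2.1
        simp only [dt] at k1
        rw [Prod.snd_add, Prod.fst_add] at e
        nlinarith
      · have e := (hall y2 hy2).2.2
        simp only [dt] at k2
        rw [Prod.snd_add, Prod.fst_add] at e
        nlinarith
    intro x hx
    obtain ⟨c, hc, hcx⟩ := hP hx
    have e1 := Down_size h1 h3 hm hcx
    have e2 := (hC2 c hc).1
    have e3 : sD a₁ b₁ a₂ b₂ c + 12 * (B : ℤ) ^ 3 ≤
        ∑ c ∈ C, (sD a₁ b₁ a₂ b₂ c + 12 * (B : ℤ) ^ 3) :=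
      Finset.single_le_sum (f := fun c => sD a₁ b₁ a₂ b₂ c + 12 * (B : ℤ) ^ 3)
        (fun i hi => add_nonneg (hC2 i hi).2 hB0) hc
    have e4 := e3.trans hC3
    have e5 : (Z.card : ℤ) * (12 * (B : ℤ) ^ 3) = 12 * (B : ℤ) ^ 3 * Z.card := by ring
    rw [e5] at e4
    linarith

end Pool.Agent.BPM
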