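import Pool.Agent.BPM.Low

/-!
# Droplets

A droplet is a triple `c = (c₀, c₁, c₂)`; it contains `x` if `x.2 ≤ c₀`, `- a₁ x.1 + b₁ x.2 ≤ c₁`,
`a₂ x.1 + b₂ x.2 ≤ c₂`. Its size is `sD c = m c₀ + a₂ c₁ + a₁ c₂`, `m = - (a₂ b₁ + a₁ b₂)`.

PROOF of `exists_droplets`. Let `κ = 12 B³`. Consider the finite sets `C` of triples with: (i) every `x ∈ Z` is in
a droplet of `C`; (ii) for `c ∈ C`: `t ≤ c₀`, `0 ≤ sD c`; (iii) `∑ c ∈ C, (sD c + κ) ≤ Z.card * κ`. There is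
one: the image of `Z` under `x ↦ (x.2, - a₁ x.1 + b₁ x.2, a₂ x.1 + b₂ x.2)`, whose size is `0` (`ring`).
Take `C` with the smallest number of elements (`Nat.find` or `Finset.exists_min_image`-like argument via
well-foundedness). Suppose that `c ≠ c'` in `C` contain `x`, `x'` with `|x.1 - x'.1| ≤ 2 B`,
`|x.2 - x'.2| ≤ 2 B`. Let `d = (max c₀ c'₀, max c₁ c'₁, max c₂ c'₂)` and
`C' = insert d ((C.erase c).erase c')`, which is smaller. (i), `t ≤ d₀` clear. `0 ≤ sD d` as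
`sD c ≤ sD d` (coefficients `m, a₂, a₁ > 0`). (iii): `sD d ≤ sD c + sD c' + κ`: as
`max u v = u + v - min u v`, `sD c + sD c' - sD d = m min(c₀, c'₀) + a₂ min(c₁, c'₁) + a₁ min(c₂, c'₂)`, where
`min(c₀, c'₀) ≥ min(x.2, x'.2) ≥ x.2 - 2 B`, `min(c₁, c'₁) ≥ (- a₁ x.1 + b₁ x.2) - 4 B²`,
`min(c₂, c'₂) ≥ (a₂ x.1 + b₂ x.2) - 4 B²`, the sum of the main terms is `0`, and
`m * 2 B + a₂ * 4 B² + a₁ * 4 B² ≤ 12 B³` (`m ≤ 2 B²`). If `d` is already in `C` the sum is even smaller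
(all terms are nonnegative).
-/

set_option autoImplicit false

namespace Pool.Agent.BPM

open Pool.Agent.BPD Set

/-- The point `x` is in the droplet `c`. -/
def InD (a₁ b₁ a₂ b₂ : ℤ) (c : ℤ × ℤ × ℤ) (x : ℤ × ℤ) : Prop :=
  x.2 ≤ c.1 ∧ -a₁ * x.1 + b₁ * x.2 ≤ c.2.1 ∧ a₂ * x.1 + b₂ * x.2 ≤ c.2.2

/-- The size of a droplet. -/
def sD (a₁ b₁ a₂ b₂ : ℤ) (c : ℤ × ℤ × ℤ) : ℤ :=
  -(a₂ * b₁ + a₁ * b₂) * c.1 + a₂ * c.2.1 + a₁ * c.2.2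

private theorem drop_min {u v a b e : ℤ} (hu : a ≤ u) (hv : b ≤ v) (h : |a - b| ≤ e) :
    max u v ≤ u + v - (a - e) := by
  rw [abs_le] at h
  rcases le_total u v with h1 | h1
  · rw [max_eq_right h1]
    omega
  · rw [max_eq_left h1]
    omega

private theorem drop_abs {B : ℕ} {a b p q : ℤ} (ha : |a| ≤ B) (hb : |b| ≤ B) (hp : |p| ≤ 2 * B)
    (hq : |q| ≤ 2 * B) : |a * p + b * q| ≤ 4 * (B : ℤ) ^ 2 := by
  have h1 : |a * p| ≤ (B : ℤ) * (2 * B) := by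
    rw [abs_mul]
    exact mul_le_mul ha hp (abs_nonneg _) (by positivity)
  have h2 : |b * q| ≤ (B : ℤ) * (2 * B) := by
    rw [abs_mul]
    exact mul_le_mul hb hq (abs_nonneg _) (by positivity)
  have h3 := abs_add_le (a * p) (b * q)
  nlinarith

/-- The union of two droplets. -/
private def drJ (c c' : ℤ × ℤ × ℤ) : ℤ × ℤ × ℤ :=
  (max c.1 c'.1, max c.2.1 c'.2.1, max c.2.2 c'.2.2)

private theorem drJ_left {a₁ b₁ a₂ b₂ : ℤ} {c c' : ℤ × ℤ × ℤ} {x : ℤ × ℤ}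
    (h : InD a₁ b₁ a₂ b₂ c x) : InD a₁ b₁ a₂ b₂ (drJ c c') x :=
  ⟨h.1.trans (le_max_left _ _), h.2.1.trans (le_max_left _ _), h.2.2.trans (le_max_left _ _)⟩

private theorem drJ_right {a₁ b₁ a₂ b₂ : ℤ} {c c' : ℤ × ℤ × ℤ} {x : ℤ × ℤ}
    (h : InD a₁ b₁ a₂ b₂ c' x) : InD a₁ b₁ a₂ b₂ (drJ c c') x :=
  ⟨h.1.trans (le_max_right _ _), h.2.1.trans (le_max_right _ _), h.2.2.trans (le_max_right _ _)⟩

private theorem sD_join {B : ℕ} {a₁ b₁ a₂ b₂ : ℤ} (h1 : 0 < a₁) (h1' : a₁ ≤ B) (h2 : |b₁| ≤ B)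
    (h3 : 0 < a₂) (h3' : a₂ ≤ B) (h4 : |b₂| ≤ B) (hm : a₂ * b₁ + a₁ * b₂ < 0)
    {c c' : ℤ × ℤ × ℤ} {x x' : ℤ × ℤ} (hx : InD a₁ b₁ a₂ b₂ c x) (hx' : InD a₁ b₁ a₂ b₂ c' x')
    (hc1 : |x.1 - x'.1| ≤ 2 * B) (hc2 : |x.2 - x'.2| ≤ 2 * B) :
    sD a₁ b₁ a₂ b₂ (drJ c c') ≤
      sD a₁ b₁ a₂ b₂ c + sD a₁ b₁ a₂ b₂ c' + 12 * (B : ℤ) ^ 3 := by
  have hB : (0 : ℤ) ≤ B := by positivity
  have a1 : |(-a₁)| ≤ (B : ℤ) := by
    rw [abs_neg, abs_of_pos h1]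
    exact h1'
  have a2 : |a₂| ≤ (B : ℤ) := by
    rw [abs_of_pos h3]
    exact h3'
  have m1 := drop_min hx.1 hx'.1 hc2
  have m2 : max c.2.1 c'.2.1 ≤ c.2.1 + c'.2.1 - ((-a₁ * x.1 + b₁ * x.2) - 4 * (B : ℤ) ^ 2) := by
    refine drop_min hx.2.1 hx'.2.1 ?_
    rw [show -a₁ * x.1 + b₁ * x.2 - (-a₁ * x'.1 + b₁ * x'.2) =
      -a₁ * (x.1 - x'.1) + b₁ * (x.2 - x'.2) by ring]
    exact drop_abs a1 h2 hc1 hc2
  have m3 : max c.2.2 c'.2.2 ≤ c.2.2 + c'.2.2 - ((a₂ * x.1 + b₂ * x.2) - 4 * (B : ℤ) ^ 2) := by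
    refine drop_min hx.2.2 hx'.2.2 ?_
    rw [show a₂ * x.1 + b₂ * x.2 - (a₂ * x'.1 + b₂ * x'.2) =
      a₂ * (x.1 - x'.1) + b₂ * (x.2 - x'.2) by ring]
    exact drop_abs a2 h4 hc1 hc2
  have k1 := mul_le_mul_of_nonneg_left m1 (show 0 ≤ -(a₂ * b₁ + a₁ * b₂) by omega)
  have k2 := mul_le_mul_of_nonneg_left m2 h3.le
  have k3 := mul_le_mul_of_nonneg_left m3 h1.le
  -- the bound for the coefficients
  have q1 : -(a₂ * b₁ + a₁ * b₂) ≤ 2 * (B : ℤ) ^ 2 := by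
    have e1 : |a₂ * b₁| ≤ (B : ℤ) * B := by
      rw [abs_mul]
      exact mul_le_mul a2 h2 (abs_nonneg _) hB
    have e2 : |a₁ * b₂| ≤ (B : ℤ) * B := by
      rw [abs_mul, abs_of_pos h1]
      exact mul_le_mul h1' h4 (abs_nonneg _) hB
    rw [abs_le] at e1 e2
    nlinarith
  have q2 : -(a₂ * b₁ + a₁ * b₂) * (2 * B) ≤ 2 * (B : ℤ) ^ 2 * (2 * B) :=
    mul_le_mul_of_nonneg_right q1 (by positivity)
  have q3 : a₂ * (4 * (B : ℤ) ^ 2) ≤ B * (4 * (B : ℤ) ^ 2) :=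
    mul_le_mul_of_nonneg_right h3' (by positivity)
  have q4 : a₁ * (4 * (B : ℤ) ^ 2) ≤ B * (4 * (B : ℤ) ^ 2) :=
    mul_le_mul_of_nonneg_right h1' (by positivity)
  unfold sD drJ
  show -(a₂ * b₁ + a₁ * b₂) * max c.1 c'.1 + a₂ * max c.2.1 c'.2.1 + a₁ * max c.2.2 c'.2.2 ≤ _
  nlinarith

private theorem sD_mono {a₁ b₁ a₂ b₂ : ℤ} (h1 : 0 < a₁) (h3 : 0 < a₂)
    (hm : a₂ * b₁ + a₁ * b₂ < 0) (c c' : ℤ × ℤ × ℤ) :
    sD a₁ b₁ a₂ b₂ c ≤ sD a₁ b₁ a₂ b₂ (drJ c c') := by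
  have k1 := mul_le_mul_of_nonneg_left (le_max_left c.1 c'.1)
    (show 0 ≤ -(a₂ * b₁ + a₁ * b₂) by omega)
  have k2 := mul_le_mul_of_nonneg_left (le_max_left c.2.1 c'.2.1) h3.le
  have k3 := mul_le_mul_of_nonneg_left (le_max_left c.2.2 c'.2.2) h1.le
  unfold sD drJ
  show _ ≤ -(a₂ * b₁ + a₁ * b₂) * max c.1 c'.1 + a₂ * max c.2.1 c'.2.1 + a₁ * max c.2.2 c'.2.2
  linarith

theorem exists_droplets {B : ℕ} {a₁ b₁ a₂ b₂ : ℤ} (h1 : 0 < a₁) (h1' : a₁ ≤ B) (h2 : |b₁| ≤ B)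
    (h3 : 0 < a₂) (h3' : a₂ ≤ B) (h4 : |b₂| ≤ B) (hm : a₂ * b₁ + a₁ * b₂ < 0)
    (Z : Finset (ℤ × ℤ)) (t : ℤ) (hZ : ∀ x ∈ Z, t ≤ x.2) :
    ∃ C : Finset (ℤ × ℤ × ℤ), (∀ x ∈ Z, ∃ c ∈ C, InD a₁ b₁ a₂ b₂ c x) ∧
      (∀ c ∈ C, t ≤ c.1 ∧ 0 ≤ sD a₁ b₁ a₂ b₂ c) ∧
      ∑ c ∈ C, (sD a₁ b₁ a₂ b₂ c + 12 * (B : ℤ) ^ 3) ≤ Z.card * (12 * (B : ℤ) ^ 3) ∧
      ∀ c ∈ C, ∀ c' ∈ C, c ≠ c' → ∀ x x' : ℤ × ℤ, InD a₁ b₁ a₂ b₂ c x → InD a₁ b₁ a₂ b₂ c' x' →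
        ¬ (|x.1 - x'.1| ≤ 2 * B ∧ |x.2 - x'.2| ≤ 2 * B) := by
  classical
  have hκ : (0 : ℤ) ≤ 12 * (B : ℤ) ^ 3 := by positivity
  have key : ∀ (n : ℕ) (C : Finset (ℤ × ℤ × ℤ)), C.card = n →
      (∀ x ∈ Z, ∃ c ∈ C, InD a₁ b₁ a₂ b₂ c x) →
      (∀ c ∈ C, t ≤ c.1 ∧ 0 ≤ sD a₁ b₁ a₂ b₂ c) →
      ∑ c ∈ C, (sD a₁ b₁ a₂ b₂ c + 12 * (B : ℤ) ^ 3) ≤ Z.card * (12 * (B : ℤ) ^ 3) →
      ∃ C : Finset (ℤ × ℤ × ℤ), (∀ x ∈ Z, ∃ c ∈ C, InD a₁ b₁ a₂ b₂ c x) ∧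
        (∀ c ∈ C, t ≤ c.1 ∧ 0 ≤ sD a₁ b₁ a₂ b₂ c) ∧
        ∑ c ∈ C, (sD a₁ b₁ a₂ b₂ c + 12 * (B : ℤ) ^ 3) ≤ Z.card * (12 * (B : ℤ) ^ 3) ∧
        ∀ c ∈ C, ∀ c' ∈ C, c ≠ c' → ∀ x x' : ℤ × ℤ, InD a₁ b₁ a₂ b₂ c x →
          InD a₁ b₁ a₂ b₂ c' x' → ¬ (|x.1 - x'.1| ≤ 2 * B ∧ |x.2 - x'.2| ≤ 2 * B) := by
    intro n
    induction n using Nat.strong_induction_on with
    | _ n ih =>
      intro C hn hi hii hiii
      by_cases hall : ∀ c ∈ C, ∀ c' ∈ C, c ≠ c' → ∀ x x' : ℤ × ℤ, InD a₁ b₁ a₂ b₂ c x →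
          InD a₁ b₁ a₂ b₂ c' x' → ¬ (|x.1 - x'.1| ≤ 2 * B ∧ |x.2 - x'.2| ≤ 2 * B)
      · exact ⟨C, hi, hii, hiii, hall⟩
      · push Not at hall
        obtain ⟨c, hc, c', hc', hne, x, x', hx, hx', hc1, hc2⟩ := hall
        set E : Finset (ℤ × ℤ × ℤ) := (C.erase c).erase c' with hE
        have hc'' : c' ∈ C.erase c := Finset.mem_erase.2 ⟨hne.symm, hc'⟩
        have hEcard : E.card + 2 = C.card := by
          have e1 := Finset.card_erase_add_one hc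
          have e2 := Finset.card_erase_add_one hc''
          rw [← hE] at e2
          omega
        have hjoin := sD_join h1 h1' h2 h3 h3' h4 hm hx hx' hc1 hc2
        have hmono := sD_mono h1 h3 hm c c'
        have hd0 : 0 ≤ sD a₁ b₁ a₂ b₂ (drJ c c') := (hii c hc).2.trans hmono
        refine ih (insert (drJ c c') E).card ?_ _ rfl ?_ ?_ ?_
        · have := Finset.card_insert_le (drJ c c') E
          omega
        · intro z hz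
          obtain ⟨e, he, hez⟩ := hi z hz
          by_cases e1 : e = c
          · subst e1
            exact ⟨_, Finset.mem_insert_self _ _, drJ_left hez⟩
          · by_cases e2 : e = c'
            · subst e2
              exact ⟨_, Finset.mem_insert_self _ _, drJ_right hez⟩
            · exact ⟨e, Finset.mem_insert_of_mem
                (Finset.mem_erase.2 ⟨e2, Finset.mem_erase.2 ⟨e1, he⟩⟩), hez⟩
        · intro e he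
          rcases Finset.mem_insert.1 he with rfl | he
          · exact ⟨(hii c hc).1.trans (le_max_left _ _), hd0⟩
          · exact hii e (Finset.mem_of_mem_erase (Finset.mem_of_mem_erase he))
        · have e1 : ∑ e ∈ insert (drJ c c') E, (sD a₁ b₁ a₂ b₂ e + 12 * (B : ℤ) ^ 3) ≤
              (sD a₁ b₁ a₂ b₂ (drJ c c') + 12 * (B : ℤ) ^ 3) +
              ∑ e ∈ E, (sD a₁ b₁ a₂ b₂ e + 12 * (B : ℤ) ^ 3) := by
            by_cases hd : drJ c c' ∈ E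
            · rw [Finset.insert_eq_of_mem hd]
              linarith
            · rw [Finset.sum_insert hd]
          have e2 := Finset.add_sum_erase C (fun e => sD a₁ b₁ a₂ b₂ e + 12 * (B : ℤ) ^ 3) hc
          have e3 := Finset.add_sum_erase (C.erase c)
            (fun e => sD a₁ b₁ a₂ b₂ e + 12 * (B : ℤ) ^ 3) hc''
          rw [← hE] at e3
          linarith
  refine key _ (Z.image fun x => (x.2, -a₁ * x.1 + b₁ * x.2, a₂ * x.1 + b₂ * x.2)) rfl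
    (fun x hx => ⟨_, Finset.mem_image_of_mem _ hx, le_rfl, le_rfl, le_rfl⟩) ?_ ?_
  · intro c hc
    obtain ⟨x, hx, rfl⟩ := Finset.mem_image.1 hc
    refine ⟨hZ x hx, le_of_eq ?_⟩
    unfold sD
    ring
  · have e1 : ∀ c ∈ Z.image fun x : ℤ × ℤ => (x.2, -a₁ * x.1 + b₁ * x.2, a₂ * x.1 + b₂ * x.2),
        sD a₁ b₁ a₂ b₂ c + 12 * (B : ℤ) ^ 3 = 12 * (B : ℤ) ^ 3 := by
      intro c hc
      obtain ⟨x, hx, rfl⟩ := Finset.mem_image.1 hc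
      unfold sD
      ring
    rw [Finset.sum_congr rfl e1, Finset.sum_const, nsmul_eq_mul]
    refine mul_le_mul_of_nonneg_right ?_ hκ
    exact_mod_cast Finset.card_image_le

end Pool.Agent.BPM
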