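import Pool.Agent.BPM.Dirs

/-!
# The directions with difficulty greater than `K`

PROOFS. `Bad K = {u ∈ S1 | ¬ diffAt U u ≤ K}`.

`bad_compact`. Let `u ∈ S1` be not bad. If `u` is unstable, then there is a rule `X` with `⟨y, u⟩ < 0` for all
`y ∈ X` (`stable_iff`), and this is true in a neighbourhood. If `u` is stable then it is isolated (otherwise
`diffAt U u = ⊤`): there is `ε > 0` such that no other stable direction has distance `< ε`; the bad
directions are stable, so `u` is the only candidate in the ball, and it is not bad. So the complement of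
`Bad K` in `S1` is relatively open; `S1` is compact (closed and bounded in `ℝ × ℝ`).

`bad_near`. Let `b ∈ S1` be stable with `⟨z, b⟩ ≠ 0` for all sites `z` of all rules. Then stability is
constant near `b`: there is `ε > 0` such that all `w ∈ S1` with `dist w b < ε` are stable, and (with `ε / 2`)
none of these `w` is isolated. So all `w ∈ S1` near `b` are bad, for every `K`.
-/

set_option autoImplicit false

namespace Pool.Agent.BPM

open Pool.Agent.BPD Set

/-- The directions with difficulty greater than `K`. -/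
def Bad (U : Fam) (K : ℕ) : Set (ℝ × ℝ) := {u | u ∈ S1 ∧ ¬ diffAt U u ≤ K}

private theorem ext_cont (z : ℤ × ℤ) :
    Continuous fun u : ℝ × ℝ => (z.1 : ℝ) * u.1 + (z.2 : ℝ) * u.2 :=
  (continuous_const.mul continuous_fst).add (continuous_const.mul continuous_snd)

private theorem ext_stable_closed (U : Fam) : IsClosed {u : ℝ × ℝ | Stable U u} := by
  have h : {u : ℝ × ℝ | Stable U u} = ⋂ X ∈ U, ⋃ y ∈ X,
      {u : ℝ × ℝ | 0 ≤ (y.1 : ℝ) * u.1 + (y.2 : ℝ) * u.2} := by
    ext u
    simp only [Set.mem_ofPred_eq, Set.mem_iInter, Set.mem_iUnion, stable_iff, exists_prop]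
  rw [h]
  refine isClosed_iInter fun X => isClosed_iInter fun _ => ?_
  refine Set.Finite.isClosed_biUnion X.finite_toSet fun y _ => ?_
  exact isClosed_le continuous_const (ext_cont y)

private theorem ext_S1_closed : IsClosed S1 :=
  isClosed_eq ((continuous_fst.pow 2).add (continuous_snd.pow 2)) continuous_const

private theorem ext_S1_sub : S1 ⊆ Metric.closedBall (0 : ℝ × ℝ) 1 := by
  intro u hu
  have h : u.1 ^ 2 + u.2 ^ 2 = 1 := hu
  rw [Metric.mem_closedBall, dist_zero_right, Prod.norm_def, max_le_iff, Real.norm_eq_abs,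
    Real.norm_eq_abs]
  constructor
  · rw [← sq_le_one_iff_abs_le_one]
    nlinarith [sq_nonneg u.2]
  · rw [← sq_le_one_iff_abs_le_one]
    nlinarith [sq_nonneg u.1]

theorem bad_compact (U : Fam) (K : ℕ) : IsCompact (Bad U K) := by
  have hcl : IsClosed (Bad U K) := by
    rw [← isOpen_compl_iff, Metric.isOpen_iff]
    intro u hu
    by_cases huS : u ∈ S1
    swap
    · obtain ⟨ε, hε, hb⟩ := Metric.isOpen_iff.1 ext_S1_closed.isOpen_compl u huS
      exact ⟨ε, hε, fun w hw hB => hb hw hB.1⟩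
    have hd : diffAt U u ≤ K := by
      by_contra hc
      exact hu ⟨huS, hc⟩
    have hz : ∀ w, ¬ Stable U w → diffAt U w ≤ K := by
      intro w hw
      unfold diffAt
      rw [if_neg hw]
      exact zero_le
    by_cases hs : Stable U u
    swap
    · obtain ⟨ε, hε, hb⟩ := Metric.isOpen_iff.1 (ext_stable_closed U).isOpen_compl u hs
      exact ⟨ε, hε, fun w hw hB => hB.2 (hz w (hb hw))⟩
    · have hi : Isolated U u := by
        by_contra hi
        unfold diffAt at hd
        rw [if_pos hs, if_neg hi, top_le_iff] at hd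
        exact absurd hd (ENat.natCast_ne_top K)
      obtain ⟨ε, hε, hb⟩ := hi
      refine ⟨ε, hε, fun w hw hB => ?_⟩
      have hws : Stable U w := by
        by_contra hws
        exact hB.2 (hz w hws)
      have hwu := hb w hB.1 hws hw
      rw [hwu] at hB
      exact hB.2 hd
  exact (isCompact_closedBall (0 : ℝ × ℝ) 1).of_isClosed_subset hcl
    (fun u hu => ext_S1_sub hu.1)

theorem bad_near {U : Fam} {b : ℝ × ℝ} (hb : b ∈ S1) (hs : Stable U b)
    (h : ∀ X ∈ U, ∀ z ∈ X, (z.1 : ℝ) * b.1 + (z.2 : ℝ) * b.2 ≠ 0) (K : ℕ) :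
    ∃ ε : ℝ, 0 < ε ∧ ∀ w ∈ S1, dist w b < ε → w ∈ Bad U K := by
  have hopen : IsOpen (⋂ X ∈ U, ⋃ y ∈ X,
      {u : ℝ × ℝ | 0 < (y.1 : ℝ) * u.1 + (y.2 : ℝ) * u.2}) := by
    refine U.finite_toSet.isOpen_biInter fun X _ => ?_
    refine isOpen_iUnion fun y => isOpen_iUnion fun _ => ?_
    exact isOpen_lt continuous_const (ext_cont y)
  have hbm : b ∈ ⋂ X ∈ U, ⋃ y ∈ X,
      {u : ℝ × ℝ | 0 < (y.1 : ℝ) * u.1 + (y.2 : ℝ) * u.2} := by
    simp only [Set.mem_iInter, Set.mem_iUnion, exists_prop, Set.mem_ofPred_eq]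
    intro X hX
    obtain ⟨y, hy, hy0⟩ := stable_iff.1 hs X hX
    exact ⟨y, hy, lt_of_le_of_ne hy0 (h X hX y hy).symm⟩
  obtain ⟨ε, hε, hball⟩ := Metric.isOpen_iff.1 hopen b hbm
  have hst : ∀ w, dist w b < ε → Stable U w := by
    intro w hw
    have h1 := hball hw
    simp only [Set.mem_iInter, Set.mem_iUnion, exists_prop, Set.mem_ofPred_eq] at h1
    rw [stable_iff]
    intro X hX
    obtain ⟨y, hy, hy0⟩ := h1 X hX
    exact ⟨y, hy, hy0.le⟩
  refine ⟨ε, hε, fun w hw hwb => ⟨hw, ?_⟩⟩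
  have hni : ¬ Isolated U w := by
    rintro ⟨δ, hδ, hδ'⟩
    let g : ℝ → ℝ × ℝ := fun t =>
      (w.1 * Real.cos t - w.2 * Real.sin t, w.1 * Real.sin t + w.2 * Real.cos t)
    have hg : Continuous g := by
      refine Continuous.prodMk ?_ ?_
      · exact (continuous_const.mul Real.continuous_cos).sub
          (continuous_const.mul Real.continuous_sin)
      · exact (continuous_const.mul Real.continuous_sin).add
          (continuous_const.mul Real.continuous_cos)
    have hg0 : g 0 = w := by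
      change (w.1 * Real.cos 0 - w.2 * Real.sin 0, w.1 * Real.sin 0 + w.2 * Real.cos 0) = w
      rw [Real.cos_zero, Real.sin_zero]
      ext <;> simp
    have hnear : ∀ᶠ t in nhds (0 : ℝ), g t ∈ Metric.ball w δ ∩ Metric.ball b ε ∧
        t ∈ Metric.ball (0 : ℝ) 1 := by
      refine Filter.Eventually.and ?_ (Metric.ball_mem_nhds 0 one_pos)
      refine hg.continuousAt.eventually_mem ?_
      rw [hg0]
      exact (Metric.isOpen_ball.inter Metric.isOpen_ball).mem_nhds
        ⟨Metric.mem_ball_self hδ, hwb⟩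
    have hnear' : ∀ᶠ t in nhdsWithin (0 : ℝ) {0}ᶜ, (g t ∈ Metric.ball w δ ∩ Metric.ball b ε ∧
        t ∈ Metric.ball (0 : ℝ) 1) ∧ t ∈ ({0}ᶜ : Set ℝ) :=
      (hnear.filter_mono nhdsWithin_le_nhds).and self_mem_nhdsWithin
    obtain ⟨t, ⟨⟨ht1, ht2⟩, ht3⟩, ht4⟩ := hnear'.exists
    have hw' : w.1 ^ 2 + w.2 ^ 2 = 1 := hw
    have hgS : g t ∈ S1 := by
      change (w.1 * Real.cos t - w.2 * Real.sin t) ^ 2 +
        (w.1 * Real.sin t + w.2 * Real.cos t) ^ 2 = 1
      have h3 := Real.sin_sq_add_cos_sq t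
      calc _ = (w.1 ^ 2 + w.2 ^ 2) * (Real.sin t ^ 2 + Real.cos t ^ 2) := by ring
        _ = 1 := by rw [hw', h3, mul_one]
    have heq := hδ' (g t) hgS (hst _ ht2) ht1
    have hcos : Real.cos t = 1 := by
      have h4 : w.1 * (g t).1 + w.2 * (g t).2 = (w.1 ^ 2 + w.2 ^ 2) * Real.cos t := by
        change w.1 * (w.1 * Real.cos t - w.2 * Real.sin t) +
          w.2 * (w.1 * Real.sin t + w.2 * Real.cos t) = _
        ring
      rw [heq, hw', one_mul] at h4
      rw [← h4, ← hw']
      ring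
    rw [Metric.mem_ball, Real.dist_eq, sub_zero] at ht3
    have hpi := Real.pi_gt_three
    obtain ⟨h5, h6⟩ := abs_lt.1 ht3
    exact ht4 ((Real.cos_eq_one_iff_of_lt_of_lt (by linarith) (by linarith)).1 hcos)
  unfold diffAt
  rw [if_pos (hst w hwb), if_neg hni, top_le_iff]
  exact ENat.natCast_ne_top K

end Pool.Agent.BPM
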