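import Pool.Agent.BPM.Win

/-!
# Global ranks in the rationals: extension by one value

PROOF. Let `lo` be the maximum of the `g x` with `x ∈ F`, `r x < n` (and of `θ` if `μ < n`), `hi` the minimum
of the `g x` with `x ∈ F`, `n < r x` (and of `θ` if `n ≤ μ`). If `r x₀ = n` for some `x₀ ∈ F` take
`b = g x₀`: all `x ∈ F` with `r x = n` have the same value (neither `<` nor `>`). Otherwise every element of
the lower list is smaller than every element of the upper list (`h`, and `hc` for `θ`), and the
rationals are dense without end points; take `b` between the maximum and the minimum. Possibly easier: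
`Order.PartialIso.exists_across` or a lemma for finite sets `L`, `M` of rationals with `l < m` for all `l ∈ L`,
`m ∈ M` there is `b` with `l < b < m` for all of them.
-/

set_option autoImplicit false

namespace Pool.Agent.BPM

open Pool.Agent.BPD Set

theorem ext_one {F : Finset (ℤ × ℤ)} {r : ℤ × ℤ → ℕ} {g : ℤ × ℤ → ℚ}
    (h : ∀ x ∈ F, ∀ y ∈ F, (r x < r y ↔ g x < g y)) {μ : ℕ} {θ : ℚ}
    (hc : ∀ x ∈ F, (r x ≤ μ → g x < θ) ∧ (μ < r x → θ < g x)) (n : ℕ) :
    ∃ b : ℚ, (∀ x ∈ F, (r x < n ↔ g x < b) ∧ (n < r x ↔ b < g x)) ∧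
      (n ≤ μ → b < θ) ∧ (μ < n → θ < b) := by
  classical
  by_cases hx : ∃ x₀ ∈ F, r x₀ = n
  · obtain ⟨x₀, hx₀, rfl⟩ := hx
    exact ⟨g x₀, fun x hx => ⟨h x hx x₀ hx₀, h x₀ hx₀ x hx⟩, (hc x₀ hx₀).1, (hc x₀ hx₀).2⟩
  · have hne : ∀ x ∈ F, r x ≠ n := fun x hxF hr => hx ⟨x, hxF, hr⟩
    obtain ⟨b, hb1, hb2⟩ := Order.exists_between_finsets
      ((F.filter fun x => r x < n).image g ∪ if μ < n then {θ} else ∅)
      ((F.filter fun x => n < r x).image g ∪ if μ < n then ∅ else {θ}) (by
        intro l hl m hm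
        rw [Finset.mem_union, Finset.mem_image] at hl hm
        rcases hl with ⟨x, hxF, rfl⟩ | hl
        · rw [Finset.mem_filter] at hxF
          rcases hm with ⟨y, hyF, rfl⟩ | hm
          · rw [Finset.mem_filter] at hyF
            exact (h x hxF.1 y hyF.1).1 (hxF.2.trans hyF.2)
          · split_ifs at hm with hμ
            · simp at hm
            · rw [Finset.mem_singleton] at hm
              subst hm
              exact (hc x hxF.1).1 (hxF.2.le.trans (not_lt.1 hμ))
        · split_ifs at hl with hμ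
          · rw [Finset.mem_singleton] at hl
            subst hl
            rcases hm with ⟨y, hyF, rfl⟩ | hm
            · rw [Finset.mem_filter] at hyF
              exact (hc y hyF.1).2 (hμ.trans hyF.2)
            · rw [if_pos hμ] at hm
              simp at hm
          · simp at hl)
    have h1 : ∀ x ∈ F, r x < n → g x < b := fun x hxF hr =>
      hb1 _ (Finset.mem_union_left _ (Finset.mem_image_of_mem g (Finset.mem_filter.2 ⟨hxF, hr⟩)))
    have h2 : ∀ x ∈ F, n < r x → b < g x := fun x hxF hr =>
      hb2 _ (Finset.mem_union_left _ (Finset.mem_image_of_mem g (Finset.mem_filter.2 ⟨hxF, hr⟩)))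
    refine ⟨b, fun x hxF => ⟨⟨h1 x hxF, fun hg => ?_⟩, ⟨h2 x hxF, fun hg => ?_⟩⟩, fun hn => ?_,
      fun hn => ?_⟩
    · by_contra hr
      exact absurd (h2 x hxF (lt_of_le_of_ne (not_lt.1 hr) (hne x hxF).symm)) (not_lt.2 hg.le)
    · by_contra hr
      exact absurd (h1 x hxF (lt_of_le_of_ne (not_lt.1 hr) (hne x hxF))) (not_lt.2 hg.le)
    · apply hb2
      rw [if_neg (not_lt.2 hn)]
      exact Finset.mem_union_right _ (Finset.mem_singleton_self θ)
    · apply hb1
      rw [if_pos hn]
      exact Finset.mem_union_right _ (Finset.mem_singleton_self θ)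

end Pool.Agent.BPM
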