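import Pool.Agent.BPM.ExtO

/-!
# Global ranks in the rationals: extension to the next window

`Rep B H j a μ g θ`: the ranks of the cells of the window `j` in the state `a` are ordered as the
values of `g`, and the cut `μ` of the ranks corresponds to the cut `θ` of the values.

PROOF. The cells of the window `j + 1` which are not in the window `j` have the fold `j + (2 B +
1)`. Show by induction over finite sets `N` of such cells: there is `g'` which agrees with `g`
outside `N`, and such that for the set `F` of the cells `x` with `b (ix H (j + 1) x) > 0` which are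
in `N` or common to both windows, the order of the ranks `r x = b (ix H (j + 1) x)` is the order of
the `g' x`, and the cuts agree. For `N = ∅` this is `Rep` for `a` together with `Con` and `hcut`
(`ix_shift`, `ix_lt4`). Step: `ext_one` for the new cell (if its rank is positive) and
`Function.update`. -/

set_option autoImplicit false

namespace Pool.Agent.BPM

open Pool.Agent.BPD Set

/-- The values `g` represent the state `a` in the window `j`. -/
def Rep (B H j : ℕ) (a : Nd) (μ : ℕ) (g : ℤ × ℤ → ℚ) (θ : ℚ) : Prop :=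
  (∀ x y, InW B H j x → InW B H j y → 0 < a (ix H j x) → 0 < a (ix H j y) →
    (a (ix H j x) < a (ix H j y) ↔ g x < g y)) ∧
  ∀ x, InW B H j x → 0 < a (ix H j x) →
    (a (ix H j x) ≤ μ → g x < θ) ∧ (μ < a (ix H j x) → θ < g x)

/-- The statement of the induction over the set `N` of new cells. -/
def StepQ (B H j : ℕ) (b : Nd) (μ' : ℕ) (g : ℤ × ℤ → ℚ) (θ : ℚ) (N : Finset (ℤ × ℤ)) : Prop :=
  ∃ g' : ℤ × ℤ → ℚ, (∀ x, x ∉ N → g' x = g x) ∧
    (∀ x y, InW B H (j + 1) x → InW B H (j + 1) y → (InW B H j x ∨ x ∈ N) →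
      (InW B H j y ∨ y ∈ N) → 0 < b (ix H (j + 1) x) → 0 < b (ix H (j + 1) y) →
      (b (ix H (j + 1) x) < b (ix H (j + 1) y) ↔ g' x < g' y)) ∧
    ∀ x, InW B H (j + 1) x → (InW B H j x ∨ x ∈ N) → 0 < b (ix H (j + 1) x) →
      (b (ix H (j + 1) x) ≤ μ' → g' x < θ) ∧ (μ' < b (ix H (j + 1) x) → θ < g' x)

theorem stepQ_base {B H j : ℕ} {a b : Nd} {μ μ' : ℕ} {g : ℤ × ℤ → ℚ} {θ : ℚ}
    (hc : Con B H a b) (hcut : ∀ k < 4 * B * H, b k ≠ 0 → (a (k + 2 * H) ≤ μ ↔ b k ≤ μ'))
    (h : Rep B H j a μ g θ) : StepQ B H j b μ' g θ ∅ := by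
  have pos : ∀ x, InW B H j x → InW B H (j + 1) x → 0 < b (ix H (j + 1) x) →
      0 < a (ix H j x) := by
    intro x hx hx' hp
    have h1 := hc.1 _ (ix_lt4 hx hx')
    rw [← ix_shift hx hx'] at h1
    omega
  refine ⟨g, fun x _ => rfl, fun x y hx' hy' hx hy hpx hpy => ?_, fun x hx' hx hpx => ?_⟩
  · have hx := hx.resolve_right (Finset.notMem_empty _)
    have hy := hy.resolve_right (Finset.notMem_empty _)
    have h1 := hc.2 _ (ix_lt4 hx hx') _ (ix_lt4 hy hy')
    rw [← ix_shift hx hx', ← ix_shift hy hy'] at h1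
    rw [← h1]
    exact h.1 x y hx hy (pos x hx hx' hpx) (pos y hy hy' hpy)
  · have hx := hx.resolve_right (Finset.notMem_empty _)
    have h1 := hcut _ (ix_lt4 hx hx') hpx.ne'
    rw [← ix_shift hx hx'] at h1
    have h2 := h.2 x hx (pos x hx hx' hpx)
    refine ⟨fun h3 => h2.1 (h1.2 h3), fun h3 => h2.2 ?_⟩
    by_contra h4
    have h5 := h1.1 (not_lt.1 h4)
    omega

theorem stepQ_insert {B H j : ℕ} {b : Nd} {μ' : ℕ} {g : ℤ × ℤ → ℚ} {θ : ℚ}
    {N : Finset (ℤ × ℤ)} {x₀ : ℤ × ℤ} (h : StepQ B H j b μ' g θ N) :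
    StepQ B H j b μ' g θ (insert x₀ N) := by
  classical
  obtain ⟨g', hg1, hg2, hg3⟩ := h
  have old : ∀ x, x ≠ x₀ → (InW B H j x ∨ x ∈ insert x₀ N) → (InW B H j x ∨ x ∈ N) := by
    rintro x hx (h | h)
    · exact Or.inl h
    · exact Or.inr ((Finset.mem_insert.1 h).resolve_left hx)
  by_cases hr : 0 < b (ix H (j + 1) x₀)
  · obtain ⟨c, hc1, hc2, hc3⟩ := ext_one
      (F := (win B H (j + 1)).filter fun x => 0 < b (ix H (j + 1) x) ∧ (InW B H j x ∨ x ∈ N))
      (r := fun x => b (ix H (j + 1) x)) (g := g')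
      (fun x hx y hy => by
        rw [Finset.mem_filter, mem_win] at hx hy
        exact hg2 x y hx.1 hy.1 hx.2.2 hy.2.2 hx.2.1 hy.2.1)
      (μ := μ') (θ := θ)
      (fun x hx => by
        rw [Finset.mem_filter, mem_win] at hx
        exact hg3 x hx.1 hx.2.2 hx.2.1)
      (b (ix H (j + 1) x₀))
    refine ⟨Function.update g' x₀ c, fun x hx => ?_, fun x y hx' hy' hx hy hpx hpy => ?_,
      fun x hx' hx hpx => ?_⟩
    · rw [Finset.mem_insert, not_or] at hx
      rw [Function.update_of_ne hx.1]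
      exact hg1 x hx.2
    · by_cases hx0 : x = x₀
      · by_cases hy0 : y = x₀
        · rw [hx0, hy0]
          exact ⟨fun h => absurd h (lt_irrefl _), fun h => absurd h (lt_irrefl _)⟩
        · have h1 := (hc1 y (by
            rw [Finset.mem_filter, mem_win]
            exact ⟨hy', hpy, old y hy0 hy⟩)).2
          rw [hx0, Function.update_self, Function.update_of_ne hy0]
          exact h1
      · by_cases hy0 : y = x₀
        · have h1 := (hc1 x (by
            rw [Finset.mem_filter, mem_win]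
            exact ⟨hx', hpx, old x hx0 hx⟩)).1
          rw [hy0, Function.update_self, Function.update_of_ne hx0]
          exact h1
        · rw [Function.update_of_ne hx0, Function.update_of_ne hy0]
          exact hg2 x y hx' hy' (old x hx0 hx) (old y hy0 hy) hpx hpy
    · by_cases hx0 : x = x₀
      · rw [hx0, Function.update_self]
        exact ⟨hc2, hc3⟩
      · rw [Function.update_of_ne hx0]
        exact hg3 x hx' (old x hx0 hx) hpx
  · have old' : ∀ x, 0 < b (ix H (j + 1) x) → (InW B H j x ∨ x ∈ insert x₀ N) →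
        (InW B H j x ∨ x ∈ N) := by
      intro x hp hx
      refine old x (fun h => ?_) hx
      rw [h] at hp
      exact hr hp
    refine ⟨g', fun x hx => hg1 x fun h => hx (Finset.mem_insert_of_mem h),
      fun x y hx' hy' hx hy hpx hpy => hg2 x y hx' hy' (old' x hpx hx) (old' y hpy hy) hpx hpy,
      fun x hx' hx hpx => hg3 x hx' (old' x hpx hx) hpx⟩

theorem ext_step {B H j : ℕ} {a b : Nd} {μ μ' : ℕ} {g : ℤ × ℤ → ℚ} {θ : ℚ} (hc : Con B H a b)
    (hcut : ∀ k < 4 * B * H, b k ≠ 0 → (a (k + 2 * H) ≤ μ ↔ b k ≤ μ'))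
    (h : Rep B H j a μ g θ) :
    ∃ g' : ℤ × ℤ → ℚ, (∀ x, fold x.1 < j + (2 * B + 1) → g' x = g x) ∧
      Rep B H (j + 1) b μ' g' θ := by
  classical
  have key : ∀ N : Finset (ℤ × ℤ), (∀ x ∈ N, InW B H (j + 1) x ∧ ¬ InW B H j x) →
      StepQ B H j b μ' g θ N := by
    intro N
    induction N using Finset.induction_on with
    | empty => exact fun _ => stepQ_base hc hcut h
    | insert x₀ N _ ih =>
      intro hN
      exact stepQ_insert (ih fun x hx => hN x (Finset.mem_insert_of_mem hx))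
  obtain ⟨g', hg1, hg2, hg3⟩ := key ((win B H (j + 1)).filter fun x => ¬ InW B H j x)
    (fun x hx => by
      rw [Finset.mem_filter, mem_win] at hx
      exact hx)
  have all : ∀ x, InW B H (j + 1) x →
      (InW B H j x ∨ x ∈ (win B H (j + 1)).filter fun x => ¬ InW B H j x) := by
    intro x hx
    by_cases h1 : InW B H j x
    · exact Or.inl h1
    · refine Or.inr ?_
      rw [Finset.mem_filter, mem_win]
      exact ⟨hx, h1⟩
  refine ⟨g', fun x hx => hg1 x fun hN => ?_, fun x y hx hy hpx hpy =>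
    hg2 x y hx hy (all x hx) (all y hy) hpx hpy, fun x hx hpx => hg3 x hx (all x hx) hpx⟩
  rw [Finset.mem_filter, mem_win] at hN
  refine hN.2 ⟨?_, hx, hN.1.2.2.1, hN.1.2.2.2⟩
  have h1 := hN.1.1
  omega

end Pool.Agent.BPM
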