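import Pool.Agent.BPD.SDefs

/-!
# The length of the words of critical families
-/

set_option autoImplicit false

namespace Pool.Agent.BPM

open Pool.Agent.PF Pool.Agent.BPD
open Pool.Agent

theorem enc_int_size (z : ℤ) : (enc z : V).size ≤ 4 * z.natAbs.size + 5 := by
  have h1 : (enc z : V).size = (V.bool (decide (z < 0))).size + (enc z.natAbs.bits : V).size + 1 := rfl
  have h2 : (V.bool (decide (z < 0))).size ≤ 3 := by cases decide (z < 0) <;> simp [V.bool, V.size]
  have h3 : ∀ l : List Bool, (enc l : V).size ≤ 4 * l.length + 1 := by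
    intro l
    induction l with
    | nil => exact le_rfl
    | cons a l ih =>
      have h1 : (enc (a :: l) : V).size = (V.bool a).size + (enc l : V).size + 1 := rfl
      have h2 : (V.bool a).size ≤ 3 := by cases a <;> simp [V.bool, V.size]
      rw [h1, List.length_cons]
      omega
  have h4 := h3 z.natAbs.bits
  rw [Nat.size_eq_bits_len] at h4
  omega

theorem size_log {m D : ℕ} (hm : 2 * m ≤ D) (hD : 2 ≤ D) : (m.size : ℝ) * Real.log 2 ≤ Real.log D := by
  have hD' : (0 : ℝ) < D := by
    have : 0 < D := by omega
    exact_mod_cast this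
  rw [← Real.log_pow]
  rcases Nat.eq_zero_or_pos m with rfl | h0
  · simp only [Nat.size_zero, pow_zero, Real.log_one]
    exact Real.log_nonneg (by exact_mod_cast (by omega : 1 ≤ D))
  · refine Real.log_le_log (by positivity) ?_
    have h1 : 2 ^ (m.size - 1) ≤ m := by
      have h2 : m.size - 1 < m.size := by
        have : 0 < m.size := Nat.size_pos.2 h0
        omega
      exact Nat.lt_size.1 h2
    have h3 : 2 ^ m.size ≤ 2 * m := by
      have h2 : m.size = (m.size - 1) + 1 := by
        have : 0 < m.size := Nat.size_pos.2 h0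
        omega
      rw [h2, pow_succ]
      omega
    exact_mod_cast h3.trans hm

private theorem sum_nodup {α : Type} [DecidableEq α] (l : List α) (h : l.Nodup) (f : α → ℝ) :
    ∑ x ∈ l.toFinset, f x = (l.map f).sum := List.sum_toFinset f h

/-- An empty rule makes a family supercritical. -/
theorem empty_not_critical {U : Fam} (h : ∅ ∈ U) : ¬ Critical U := by
  rintro ⟨h1, -⟩
  refine h1 ⟨(1, 0), by simp [S1], fun u _ hs => ?_⟩
  have h2 : ∀ x : ℤ × ℤ, x ∈ clo U (half u) := by
    intro x
    refine Set.mem_iUnion.2 ⟨1, ?_⟩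
    exact Or.inr ⟨∅, h, by simp⟩
  have h3 : half u = Set.univ := by
    rw [← hs]
    exact Set.eq_univ_of_forall h2
  have h4 : ((0 : ℤ), (0 : ℤ)) ∈ half u := by
    rw [h3]
    trivial
  simp [half] at h4

theorem le_diam {U : Fam} {X : Finset (ℤ × ℤ)} {x : ℤ × ℤ} (hX : X ∈ U) (hx : x ∈ X) :
    2 * x.1.natAbs ≤ diam U ∧ 2 * x.2.natAbs ≤ diam U := by
  have h1 : max x.1.natAbs x.2.natAbs ≤ U.sup fun X => X.sup fun x => max x.1.natAbs x.2.natAbs :=
    (Finset.le_sup (f := fun x : ℤ × ℤ => max x.1.natAbs x.2.natAbs) hx).trans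
      (Finset.le_sup (f := fun X : Finset (ℤ × ℤ) => X.sup fun x => max x.1.natAbs x.2.natAbs) hX)
  unfold diam
  omega

/-- The sum of the lengths of the rules. -/
theorem sum_card {c : Code} (hc : Valid c) :
    (∑ X ∈ fam c, (X.card : ℝ)) = (c.map fun X => (X.length : ℝ)).sum := by
  unfold fam
  rw [sum_nodup _ hc.nodup, List.map_map]
  congr 1
  refine List.map_congr_left fun X hX => ?_
  change ((X.toFinset.card : ℕ) : ℝ) = _
  rw [List.toFinset_card_of_nodup (hc.rules X hX).1]

theorem size_nonneg (U : Fam) : 0 ≤ size U := by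
  unfold size
  exact mul_nonneg (Real.log_natCast_nonneg _) (Finset.sum_nonneg fun _ _ => Nat.cast_nonneg _)

/-- **The length of the word is linear in the size.** -/
theorem enc_size_le {c : Code} (hc : Valid c) (hcr : Critical (fam c)) :
    ((enc c : V).size : ℝ) * Real.log 2 ≤ 22 * size (fam c) + Real.log 2 := by
  have hl2 : 0 < Real.log 2 := Real.log_pos (by norm_num)
  have hne : ∀ X ∈ c, 1 ≤ X.length := by
    intro X hX
    by_contra h
    have h0 : X = [] := List.length_eq_zero_iff.1 (by omega)
    subst h0
    refine empty_not_critical (U := fam c) ?_ hcr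
    unfold fam
    rw [List.mem_toFinset, List.mem_map]
    exact ⟨[], hX, rfl⟩
  have hmem : ∀ X ∈ c, X.toFinset ∈ fam c := by
    intro X hX
    unfold fam
    rw [List.mem_toFinset]
    exact List.mem_map_of_mem hX
  have hD : ∀ X ∈ c, 2 ≤ diam (fam c) := by
    intro X hX
    obtain ⟨p, hp⟩ : ∃ p, p ∈ X := List.exists_mem_of_length_pos (hne X hX)
    have h1 := le_diam (hmem X hX) (List.mem_toFinset.2 hp)
    have h2 : p ≠ ((0 : ℤ), (0 : ℤ)) := by
      rintro rfl
      exact (hc.rules X hX).2 hp
    by_contra h3
    have h4 : p.1.natAbs = 0 := by omega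
    have h5 : p.2.natAbs = 0 := by omega
    exact h2 (Prod.ext (Int.natAbs_eq_zero.1 h4) (Int.natAbs_eq_zero.1 h5))
  set L := Real.log (diam (fam c)) with hL
  have hL2 : ∀ X ∈ c, Real.log 2 ≤ L := by
    intro X hX
    refine Real.log_le_log (by norm_num) ?_
    exact_mod_cast hD X hX
  have hpt : ∀ X ∈ c, ∀ p ∈ X, ((enc p : V).size : ℝ) * Real.log 2 ≤ 19 * L := by
    intro X hX p hp
    have h1 := le_diam (hmem X hX) (List.mem_toFinset.2 hp)
    have h2 := size_log h1.1 (hD X hX)
    have h3 := size_log h1.2 (hD X hX)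
    have h4 : (enc p : V).size = (enc p.1 : V).size + (enc p.2 : V).size + 1 := rfl
    have h5 := enc_int_size p.1
    have h6 := enc_int_size p.2
    have h7 : ((enc p : V).size : ℝ) ≤ 4 * p.1.natAbs.size + 4 * p.2.natAbs.size + 11 := by
      have : (enc p : V).size ≤ 4 * p.1.natAbs.size + 4 * p.2.natAbs.size + 11 := by omega
      exact_mod_cast this
    have h8 := hL2 X hX
    nlinarith
  have hlist : ∀ (X : List (ℤ × ℤ)), (∀ p ∈ X, ((enc p : V).size : ℝ) * Real.log 2 ≤ 19 * L) →
      Real.log 2 ≤ L →
      ((enc X : V).size : ℝ) * Real.log 2 ≤ 20 * L * X.length + Real.log 2 := by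
    intro X hX hLL
    induction X with
    | nil =>
      have : (enc ([] : List (ℤ × ℤ)) : V).size = 1 := rfl
      rw [this]
      simp
    | cons p X ih =>
      have h1 : (enc (p :: X) : V).size = (enc p : V).size + (enc X : V).size + 1 := rfl
      have h2 := ih fun q hq => hX q (List.mem_cons_of_mem _ hq)
      have h3 := hX p List.mem_cons_self
      rw [h1, List.length_cons]
      push_cast
      nlinarith
  have hcode : ∀ (d : List (List (ℤ × ℤ))), (∀ X ∈ d, X ∈ c) →
      ((enc d : V).size : ℝ) * Real.log 2 ≤ 22 * L * (d.map fun X => (X.length : ℝ)).sum + Real.log 2 := by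
    intro d hd
    induction d with
    | nil =>
      have : (enc ([] : List (List (ℤ × ℤ))) : V).size = 1 := rfl
      rw [this]
      simp
    | cons X d ih =>
      have h1 : (enc (X :: d) : V).size = (enc X : V).size + (enc d : V).size + 1 := rfl
      have h2 := ih fun q hq => hd q (List.mem_cons_of_mem _ hq)
      have hX := hd X List.mem_cons_self
      have h3 := hlist X (fun p hp => hpt X hX p hp) (hL2 X hX)
      have h4 : (1 : ℝ) ≤ X.length := by exact_mod_cast hne X hX
      have h5 := hL2 X hX
      rw [h1, List.map_cons, List.sum_cons]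
      push_cast
      nlinarith
  have h := hcode c fun _ h => h
  rw [← sum_card hc] at h
  unfold size
  rw [← hL]
  linarith

/-- The diameter is at most exponential in the length of the word. -/
theorem diam_le (c : Code) : diam (fam c) ≤ 2 ^ (enc c : V).size := by
  have key : ∀ X ∈ fam c, ∀ x ∈ X, 2 * max x.1.natAbs x.2.natAbs ≤ 2 ^ (enc c : V).size := by
    intro X hX x hx
    unfold fam at hX
    rw [List.mem_toFinset, List.mem_map] at hX
    obtain ⟨Y, hY, rfl⟩ := hX
    rw [List.mem_toFinset] at hx
    have hmem : ∀ {α : Type} [VEnc α] (l : List α) (a : α), a ∈ l → (enc a : V).size ≤ (enc l : V).size := by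
      intro α _ l a ha
      induction l with
      | nil => simp at ha
      | cons b l ih =>
        have h1 : (enc (b :: l) : V).size = (enc b : V).size + (enc l : V).size + 1 := rfl
        rcases List.mem_cons.1 ha with rfl | ha
        · omega
        · have := ih ha
          omega
    have h1 := hmem c Y hY
    have h2 := hmem Y x hx
    have h3 : (enc x : V).size = (enc x.1 : V).size + (enc x.2 : V).size + 1 := rfl
    have h4 : ∀ z : ℤ, z.natAbs.size + 1 ≤ (enc z : V).size := by
      intro z
      have h5 : (enc z : V).size = (V.bool (decide (z < 0))).size + (enc z.natAbs.bits : V).size + 1 := rfl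
      have h6 : ∀ l : List Bool, l.length ≤ (enc l : V).size := by
        intro l
        induction l with
        | nil => simp
        | cons a l ih =>
          have : (enc (a :: l) : V).size = (V.bool a).size + (enc l : V).size + 1 := rfl
          rw [this, List.length_cons]
          omega
      have h7 := h6 z.natAbs.bits
      rw [Nat.size_eq_bits_len] at h7
      have h8 := V.size_pos (V.bool (decide (z < 0)))
      omega
    have h5 : ∀ z : ℤ, (enc z : V).size ≤ (enc c : V).size → 2 * z.natAbs ≤ 2 ^ (enc c : V).size := by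
      intro z hz
      have h6 := h4 z
      have h7 : z.natAbs < 2 ^ z.natAbs.size := Nat.lt_size_self _
      calc 2 * z.natAbs ≤ 2 ^ (z.natAbs.size + 1) := by rw [pow_succ]; omega
        _ ≤ _ := Nat.pow_le_pow_right (by norm_num) (by omega)
    rcases max_choice x.1.natAbs x.2.natAbs with h | h
    · rw [h]; exact h5 _ (by omega)
    · rw [h]; exact h5 _ (by omega)
  unfold diam
  have h0 : ((fam c).sup fun X => X.sup fun x => max x.1.natAbs x.2.natAbs) ≤
      2 ^ (enc c : V).size / 2 := by
    refine Finset.sup_le fun X hX => Finset.sup_le fun x hx => ?_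
    have := key X hX x hx
    omega
  omega

end Pool.Agent.BPM
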