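import Pool.Agent.BPM.Unpack
import Pool.Agent.BPM.SizeL

/-!
# A fast algorithm for the difficulty if E = ESPACE
-/

set_option autoImplicit false

namespace Pool.Agent.BPM

open Turing Pool.Agent.PF Pool.Agent.PT Pool.Agent.BPD
open Pool.Agent

theorem PF_code {α β : Type} [VEnc α] [VEnc β] {f : α → β} (hf : PF f) :
    PF fun x => (enc (f x) : V).code := by
  obtain ⟨F, hF, h⟩ := hf
  exact ⟨fun v => enc (F v).code, PT.comp code_lin.pt hF, fun a => by simp only [h]⟩

theorem PF_pow {α : Type} [VEnc α] {f : α → ℕ} (hf : PF f) (k : ℕ) : PF fun x => f x ^ k := by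
  induction k with
  | zero =>
    simp only [pow_zero]
    exact PF.const' 1
  | succ k ih =>
    simp only [pow_succ]
    exact PF.mulN ih hf

/-- The word of the question. -/
def wordK (c : Code) (K : ℕ) : List Bool := (enc (c, K.bits) : V).code

theorem parse_wordK (c : Code) (K : ℕ) : parse (wordK c K) = (c, K.bits) := parse_enc c K.bits

/-- The diameter is at most exponential in the length of the question. -/
theorem diam_le_word (c : Code) (K : ℕ) : diam (fam c) ≤ 2 ^ (wordK c K).length := by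
  refine (diam_le c).trans (Nat.pow_le_pow_right (by norm_num) ?_)
  have h : (wordK c K).length = (enc c : V).size + (enc K.bits : V).size + 1 := V.code_length _
  omega

theorem wordK_PF : PF fun q : Code × ℕ => wordK q.1 q.2 := by
  have h0 : PF fun q : Code × ℕ => (q.1, (Bin.mk q.2).val.bits) :=
    PF.prodMk (PF.fst PF.id') (PF.bitsB (PF.ofNatB (PF.snd PF.id')))
  exact PF_code (f := fun q : Code × ℕ => (q.1, (Bin.mk q.2).val.bits)) h0

/-- The test of the number `K`. -/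
private def tst (l : List ℕ) (e : ℕ) (c : Code) (N K : ℕ) : Bool := univ ((l, wordK c K), N ^ e)

private theorem tst_PF (l : List ℕ) (e : ℕ) :
    PF fun q : (Code × ℕ) × ℕ => tst l e q.1.1 q.1.2 q.2 := by
  have h1 : PF fun q : (Code × ℕ) × ℕ => wordK q.1.1 q.2 :=
    PF.comp' (g := fun q : Code × ℕ => wordK q.1 q.2) (f := fun q : (Code × ℕ) × ℕ => (q.1.1, q.2))
      wordK_PF (PF.prodMk (PF.fst (PF.fst PF.id')) (PF.snd PF.id'))
  have h2 : PF fun q : (Code × ℕ) × ℕ => ((l, wordK q.1.1 q.2), q.1.2 ^ e) :=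
    PF.prodMk (PF.prodMk (PF.const' l) h1) (PF_pow (PF.snd (PF.fst PF.id')) e)
  exact PF.comp' (g := univ) (f := fun q : (Code × ℕ) × ℕ => ((l, wordK q.1.1 q.2), q.1.2 ^ e))
    univ_PF h2

/-- The first number for which the answer is yes. -/
private def kk (l : List ℕ) (e : ℕ) (c : Code) (N : ℕ) : ℕ :=
  ((List.range (N + 1)).find? fun K => tst l e c N K).getD 0

private theorem kk_PF (l : List ℕ) (e : ℕ) : PF fun p : Code × ℕ => (Bin.mk (kk l e p.1 p.2)).val.bits := by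
  have h0 : PF fun p : Code × ℕ => List.range (p.2 + 1) := by fun_prop
  have h2 : PF fun p : Code × ℕ => (List.range (p.2 + 1)).find? fun K => tst l e p.1 p.2 K :=
    PF.find (g := fun (p : Code × ℕ) K => tst l e p.1 p.2 K) h0 (tst_PF l e)
  have h3 : PF fun p : Code × ℕ => kk l e p.1 p.2 := PF.optionGetD h2 (PF.const' 0)
  exact PF.bitsB (PF.ofNatB h3)

private theorem len_bits (K s : ℕ) (hK : K ≤ 2 ^ s) : (enc K.bits : V).size ≤ 4 * s + 5 := by
  have h3 : ∀ l : List Bool, (enc l : V).size ≤ 4 * l.length + 1 := by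
    intro l
    induction l with
    | nil => exact le_rfl
    | cons a l ih =>
      have h1 : (enc (a :: l) : V).size = (V.bool a).size + (enc l : V).size + 1 := rfl
      have h2 : (V.bool a).size ≤ 3 := by cases a <;> simp [V.bool, V.size]
      rw [h1, List.length_cons]
      omega
  have h4 := h3 K.bits
  rw [Nat.size_eq_bits_len] at h4
  have h5 : K.size ≤ s + 1 := by
    rw [Nat.size_le, pow_succ]
    have : 0 < 2 ^ s := by positivity
    omega
  omega

private theorem dec_tst {P : Set (List Bool)} [DecidablePred (· ∈ P)] {tm : FinTM2}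
    {e₀ : tm.Γ tm.k₀ ≃ Bool} {e₁ : tm.Γ tm.k₁ ≃ Bool} {c₀ : ℕ}
    (hc₀ : ∀ x : List Bool, Nonempty (TM2OutputsInTime tm (x.map e₀.symm)
      (some ([decide (x ∈ P)].map e₁.symm)) (2 ^ (c₀ * (x.length + 1)))))
    (c : Code) (s K : ℕ) (hs : (enc c : V).size = s) (hK : K ≤ 2 ^ s) :
    tst (desc (tmCD tm e₀ e₁)) (20 * c₀ + bsz tm) c (2 ^ s) K = decide (wordK c K ∈ P) := by
  have hs1 : 1 ≤ s := hs ▸ V.size_pos _
  have h1 := len_bits K s hK
  have h2 : (wordK c K).length = s + (enc K.bits : V).size + 1 := by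
    rw [← hs]
    exact V.code_length _
  have h3 : bsz tm ≤ 2 ^ bsz tm := Nat.lt_two_pow_self.le
  have hT : 2 ^ (c₀ * ((wordK c K).length + 1)) * bsz tm ≤ (2 ^ s) ^ (20 * c₀ + bsz tm) := by
    calc 2 ^ (c₀ * ((wordK c K).length + 1)) * bsz tm
        ≤ 2 ^ (c₀ * (20 * s)) * 2 ^ (bsz tm * s) := by
          refine Nat.mul_le_mul (Nat.pow_le_pow_right (by norm_num)
            (Nat.mul_le_mul_left _ (by omega))) (h3.trans
            (Nat.pow_le_pow_right (by norm_num) (Nat.le_mul_of_pos_right _ hs1)))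
      _ = (2 ^ s) ^ (20 * c₀ + bsz tm) := by
          rw [← pow_add, ← pow_mul]
          congr 1
          ring
  obtain ⟨h4, h5⟩ := final tm e₀ e₁ (hc₀ (wordK c K)) hT
  have h6 := univ_desc (tmCD tm e₀ e₁) (wordK c K) ((2 ^ s) ^ (20 * c₀ + bsz tm))
  rw [h4, h5, Bool.true_and] at h6
  exact h6

private theorem kk_eq {l : List ℕ} {e : ℕ} {c : Code} {N n : ℕ} (hn : n ≤ N)
    (h : ∀ K, K ≤ N → tst l e c N K = decide (n ≤ K)) : kk l e c N = n := by
  have hf : (List.range (N + 1)).find? (fun K => tst l e c N K) = some n := by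
    rw [List.find?_range_eq_some]
    refine ⟨by rw [h n hn]; simp, by rw [List.mem_range]; omega, fun j hj => ?_⟩
    rw [h j (by omega)]
    simp only [Bool.not_eq_true', decide_eq_false_iff_not]
    omega
  unfold kk
  rw [hf]
  rfl

/-- The function on trees, with its running time. -/
private theorem exists_tree (l : List ℕ) (e : ℕ) :
    ∃ (F : V → V) (τ : V → ℕ) (k : ℕ), RunsBy F τ ∧
      (∀ c : Code, F (enc c) = enc (kk l e c (2 ^ (enc c : V).size)).bits) ∧
      ∀ c : Code, τ (enc c) ≤ 2 ^ (k * ((enc c : V).size + 1)) := by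
  have h1 : PF fun c : Code => (Pool.Agent.PF.sz c, c) := by fun_prop
  obtain ⟨F₁, ⟨a, hF₁⟩, hF₁'⟩ := h1
  obtain ⟨b, hF₂⟩ := gen_tw 1
  have h3 : PF fun p : ℕ × Code => (Bin.mk (kk l e p.2 (p.1 / 4))).val.bits :=
    PF.comp' (g := fun p : Code × ℕ => (Bin.mk (kk l e p.1 p.2)).val.bits)
      (f := fun p : ℕ × Code => (p.2, p.1 / 4)) (kk_PF l e)
      (PF.prodMk (PF.snd PF.id') (PF.divN (PF.fst PF.id') (PF.const' 4)))
  obtain ⟨F₃, ⟨c₃, hF₃⟩, hF₃'⟩ := h3
  have hmid : ∀ c : Code, (V.node (V.una (MDF.tw 1 (F₁ (enc c)).hd.spine)) (F₁ (enc c)).tl) =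
      enc (4 * 2 ^ (enc c : V).size, c) := by
    intro c
    rw [hF₁']
    change V.node (V.una (MDF.tw 1 (V.una (enc c : V).size).spine)) (enc c) = _
    rw [V.spine_una, MDF.tw_succ, MDF.tw_zero, pow_add]
    change _ = V.node (V.una (4 * 2 ^ (enc c : V).size)) (enc c)
    congr 2
    ring
  refine ⟨_, _, 4 * (a + b + c₃) + 1 + 6, hF₃.comp (hF₂.comp hF₁), fun c => ?_, fun c => ?_⟩
  · rw [hmid, hF₃']
    change enc (kk l e c (4 * 2 ^ (enc c : V).size / 4)).bits = _
    rw [Nat.mul_div_cancel_left _ (by norm_num)]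
  · have hsz1 : (F₁ (enc c)).size = (2 * (enc c : V).size + 1) + (enc c : V).size + 1 := by
      rw [hF₁']
      change (V.una (enc c : V).size).size + _ + 1 = _
      rw [V.size_una]
    have hsp : (F₁ (enc c)).hd.spine = (enc c : V).size := by
      rw [hF₁']
      change (V.una (enc c : V).size).spine = _
      rw [V.spine_una]
    have hsz2 : (enc (4 * 2 ^ (enc c : V).size, c) : V).size =
        (2 * (4 * 2 ^ (enc c : V).size) + 1) + (enc c : V).size + 1 := by
      change (V.una (4 * 2 ^ (enc c : V).size)).size + _ + 1 = _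
      rw [V.size_una]
    simp only [hmid]
    rw [hsz1, hsp, hsz2, MDF.tw_succ, MDF.tw_zero]
    generalize hs : (enc c : V).size = s
    have hs1 : 1 ≤ s := hs ▸ V.size_pos _
    have hn : s + 1 ≤ 2 ^ s := Nat.lt_two_pow_self
    have hB : 16 * 2 ^ s ≤ 2 ^ (4 * (s + 1)) := by
      have : 16 * 2 ^ s = 2 ^ (s + 4) := by rw [pow_add]; ring
      rw [this]
      exact Nat.pow_le_pow_right (by norm_num) (by omega)
    have h22 : 2 ^ (s + 2) = 4 * 2 ^ s := by rw [pow_add]; ring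
    have key : ∀ (y d : ℕ), y ≤ 16 * 2 ^ s → d ≤ a + b + c₃ →
        y ^ d ≤ 2 ^ ((4 * (a + b + c₃) + 1) * (s + 1)) := by
      intro y d hy hd
      calc y ^ d ≤ (2 ^ (4 * (s + 1))) ^ d := Nat.pow_le_pow_left (hy.trans hB) d
        _ = 2 ^ (4 * (s + 1) * d) := by rw [← pow_mul]
        _ ≤ _ := by
          refine Nat.pow_le_pow_right (by norm_num) ?_
          calc 4 * (s + 1) * d ≤ 4 * (s + 1) * (a + b + c₃) := Nat.mul_le_mul_left _ hd
            _ ≤ (4 * (a + b + c₃) + 1) * (s + 1) := by nlinarith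
    have k1 := key (s + 2) a (by omega) (by omega)
    have k2 := key (2 ^ (s + 2) + ((2 * s + 1) + s + 1) + 2) b (by omega) (by omega)
    have k3 := key ((2 * (4 * 2 ^ s) + 1) + s + 1 + 2) c₃ (by omega) (by omega)
    have k5 : 1 ≤ 2 ^ ((4 * (a + b + c₃) + 1) * (s + 1)) := Nat.one_le_two_pow
    have k6 : 2 ^ ((4 * (a + b + c₃) + 1 + 6) * (s + 1)) =
        2 ^ ((4 * (a + b + c₃) + 1) * (s + 1)) * 2 ^ (6 * (s + 1)) := by
      rw [← pow_add]
      congr 1
      ring
    have k7 : 64 ≤ 2 ^ (6 * (s + 1)) := by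
      calc 64 = 2 ^ 6 := by norm_num
        _ ≤ _ := Nat.pow_le_pow_right (by norm_num) (by omega)
    rw [k6]
    nlinarith [Nat.mul_le_mul_left (2 ^ ((4 * (a + b + c₃) + 1) * (s + 1))) k7]

/-- **A fast algorithm.** If E = ESPACE and the question `difficulty ≤ K` is in ESPACE then the
difficulty can be computed in time `C exp (a size)`. -/
theorem fast_of (hE : ∀ L : Set (List Bool), InESPACE L → InE L) {P : Set (List Bool)}
    (hP : InESPACE P)
    (hspec : ∀ c : Code, Valid c → Critical (fam c) → ∀ n : ℕ, difficulty (fam c) = n →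
      n ≤ diam (fam c) ∧ ∀ K : ℕ, wordK c K ∈ P ↔ n ≤ K) :
    ∃ a : ℝ, FastAlg a := by
  classical
  obtain ⟨tm, e₀, e₁, c₀, hc₀⟩ := hE P hP
  obtain ⟨F, τ, k, hF, hF', hτ⟩ := exists_tree (desc (tmCD tm e₀ e₁)) (20 * c₀ + bsz tm)
  have hkk : ∀ c : Code, Valid c → Critical (fam c) → ∀ n : ℕ, difficulty (fam c) = n →
      kk (desc (tmCD tm e₀ e₁)) (20 * c₀ + bsz tm) c (2 ^ (enc c : V).size) = n := by
    intro c hv hcr n hn
    obtain ⟨hnd, hK⟩ := hspec c hv hcr n hn
    refine kk_eq (hnd.trans (diam_le c)) fun K hK' => ?_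
    rw [dec_tst hc₀ c _ K rfl hK']
    simp only [hK K]
  obtain ⟨tm', f₀, f₁, C, hC⟩ := outputs_bits
    (α := {q : Code × ℕ // Valid q.1 ∧ Critical (fam q.1) ∧ difficulty (fam q.1) = q.2})
    (fun q => enc q.1.1) (fun q => q.1.2.bits) hF (by
      rintro ⟨⟨c, n⟩, hv, hcr, hn⟩
      change F (enc c) = enc n.bits
      rw [hF', hkk c hv hcr n hn])
  refine ⟨22 * (k + 2), tm', f₀, f₁, C * (2 : ℝ) ^ (2 * (k + 2)), fun c hv hcr n hn => ?_⟩
  obtain ⟨h1⟩ := hC ⟨⟨c, n⟩, hv, hcr, hn⟩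
  refine ⟨_, ?_, ⟨h1⟩⟩
  have h2 := hτ c
  have h3 := enc_size_le hv hcr
  change ((C * ((enc c : V).size + τ (enc c) + 1) : ℕ) : ℝ) ≤ _
  set s := (enc c : V).size with hs
  have h4 : s + τ (enc c) + 1 ≤ 2 ^ ((k + 2) * (s + 1)) := by
    have e1 : s + 1 ≤ 2 ^ (s + 1) := Nat.lt_two_pow_self.le
    have e2 : 2 ^ ((k + 2) * (s + 1)) = 2 ^ (k * (s + 1)) * (2 ^ (s + 1) * 2 ^ (s + 1)) := by
      rw [← pow_add, ← pow_add]
      congr 1
      ring
    have e3 : 1 ≤ 2 ^ (k * (s + 1)) := Nat.one_le_two_pow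
    have e4 : 2 ≤ 2 ^ (s + 1) := by
      calc 2 = 2 ^ 1 := by norm_num
        _ ≤ _ := Nat.pow_le_pow_right (by norm_num) (by omega)
    have e5 : 2 * 2 ^ (s + 1) ≤ 2 ^ (s + 1) * 2 ^ (s + 1) := Nat.mul_le_mul_right _ e4
    rw [e2]
    nlinarith [Nat.mul_le_mul_left (2 ^ (k * (s + 1))) e5]
  have h5 : ((2 : ℝ) ^ ((k + 2) * (s + 1))) ≤
      (2 : ℝ) ^ (2 * (k + 2)) * Real.exp (22 * (k + 2) * size (fam c)) := by
    have hl2 : 0 < Real.log 2 := Real.log_pos (by norm_num)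
    have e1 : ((2 : ℝ) ^ ((k + 2) * (s + 1))) = Real.exp (Real.log 2 * ((k + 2) * (s + 1))) := by
      rw [← Real.rpow_natCast, Real.rpow_def_of_pos (by norm_num)]
      push_cast
      rfl
    have e2 : ((2 : ℝ) ^ (2 * (k + 2))) = Real.exp (Real.log 2 * (2 * (k + 2))) := by
      rw [← Real.rpow_natCast, Real.rpow_def_of_pos (by norm_num)]
      push_cast
      rfl
    rw [e1, e2, ← Real.exp_add, Real.exp_le_exp]
    have e3 : (0 : ℝ) ≤ k := Nat.cast_nonneg k
    nlinarith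
  calc ((C * (s + τ (enc c) + 1) : ℕ) : ℝ) ≤ ((C * 2 ^ ((k + 2) * (s + 1)) : ℕ) : ℝ) := by
        exact_mod_cast Nat.mul_le_mul_left C h4
    _ = C * (2 : ℝ) ^ ((k + 2) * (s + 1)) := by push_cast; rfl
    _ ≤ C * ((2 : ℝ) ^ (2 * (k + 2)) * Real.exp (22 * (k + 2) * size (fam c))) :=
        mul_le_mul_of_nonneg_left h5 (Nat.cast_nonneg C)
    _ = _ := by ring

end Pool.Agent.BPM
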