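import Pool.Agent.BPM.Bits

/-!
# Many reachability questions in one graph

The vertices are words of length `gl T l = 3 T + 2 l`: three numbers `i`, `j`, `p` (unary, blocks of `T` bits) and two words
`a`, `s` of length `l`. `i` is a choice which never changes, `j < n` is the number of the question, `p = 0`: nothing is done for
the question `j`; `p = 1`: the first walk, in the word `a`; `p = 2`: the second walk, in the word `a`, and `s` is the end of the
first walk.

PROOFS. `gv_spec`: `dec T w k` for `k = 0, 1, 2` is the number of `true` in the block `k` (`List.drop_append`, `List.take_append`,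
`List.filter_replicate`; the lengths of the blocks are `i + (T - i) = T`). `gx_length`: `List.length_take`, `List.length_drop`.

`graph_iff`, `→`: let `i = gi T u`. By induction on the chain (`Relation.ReflTransGen` from `u`): for every `x` reachable
from `u`: `gi T x = i`, `gj T x ≤ n`, for all `j < gj T x`: `Q i j` (the right side for `j`); if `gp T x = 1` then
`gj T x < n`, `nt i (gj T x) = true` and there is `a` of length `l`, `st (gj T x) a = true`, with a chain of `r0` from `a` to
`ga T l x`; if `gp T x = 2` then the same for `gs T l x` in place of `ga T l x`, `en (gs T l x) = true` and a chain of `r1` from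
`top (gs T l x)` to `ga T l x`. (`gp T x ≤ 2` is not needed.) At `v`: `gj = n`.
`←`: let `i` be given. For `j ≤ n` let `w_j = gv T i j 0 z z`, `z = List.replicate l false`. For every `j < n` there is a chain
from `w_j` to `w_(j+1)`: if `tr i j`, one step. Otherwise: `w_j → gv T i j 1 a z`, then `gv T i j 1 · z` along the chain of `r0`
(`Relation.ReflTransGen` by induction or `lift`; the lengths of all words of the chain are `l`), then
`→ gv T i j 2 (top c) c`, then along the chain of `r1`, then `gv T i j 2 (bot c) c → w_(j+1)`. Every edge is checked with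
`gv_spec` (`simp [gE, gv_spec ..]`).
-/

set_option autoImplicit false

namespace Pool.Agent.BPM

/-- The length of the vertices. -/
def gl (T l : ℕ) : ℕ := 3 * T + 2 * l

/-- The vertex with given data. -/
def gv (T i j p : ℕ) (a s : List Bool) : List Bool :=
  List.replicate i true ++ (List.replicate (T - i) false ++ (List.replicate j true ++
    (List.replicate (T - j) false ++ (List.replicate p true ++ (List.replicate (T - p) false ++
      (a ++ s))))))

/-- The choice. -/
def gi (T : ℕ) (w : List Bool) : ℕ := dec T w 0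

/-- The number of the question. -/
def gj (T : ℕ) (w : List Bool) : ℕ := dec T w 1

/-- The phase. -/
def gp (T : ℕ) (w : List Bool) : ℕ := dec T w 2

/-- The current word. -/
def ga (T l : ℕ) (w : List Bool) : List Bool := (w.drop (3 * T)).take l

/-- The stored word. -/
def gs (T l : ℕ) (w : List Bool) : List Bool := (w.drop (3 * T + l)).take l

/-- A block. -/
private def blk (T i : ℕ) : List Bool := List.replicate i true ++ List.replicate (T - i) false

private theorem length_blk {T i : ℕ} (hi : i ≤ T) : (blk T i).length = T := by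
  unfold blk
  rw [List.length_append, List.length_replicate, List.length_replicate]
  omega

private theorem filter_blk (T i : ℕ) : ((blk T i).filter id).length = i := by
  unfold blk
  rw [List.filter_append, List.filter_replicate, List.filter_replicate]
  simp

private theorem gv_eq (T i j p : ℕ) (a s : List Bool) :
    gv T i j p a s = blk T i ++ (blk T j ++ (blk T p ++ (a ++ s))) := by
  unfold gv blk
  simp only [List.append_assoc]

private theorem dec_zero' {T i : ℕ} (hi : i ≤ T) (r : List Bool) : dec T (blk T i ++ r) 0 = i := by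
  unfold dec
  rw [Nat.zero_mul, List.drop_zero, List.take_left' (length_blk hi), filter_blk]

private theorem drop_blk {T i : ℕ} (hi : i ≤ T) (r : List Bool) (m : ℕ) :
    (blk T i ++ r).drop (T + m) = r.drop m := by
  rw [← List.drop_drop, List.drop_left' (length_blk hi)]

private theorem dec_succ' {T i : ℕ} (hi : i ≤ T) (r : List Bool) (k : ℕ) :
    dec T (blk T i ++ r) (k + 1) = dec T r k := by
  unfold dec
  rw [show (k + 1) * T = T + k * T by ring, drop_blk hi]

theorem gv_spec {T l i j p : ℕ} (hi : i ≤ T) (hj : j ≤ T) (hp : p ≤ T) {a s : List Bool}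
    (ha : a.length = l) (hs : s.length = l) :
    (gv T i j p a s).length = gl T l ∧ gi T (gv T i j p a s) = i ∧ gj T (gv T i j p a s) = j ∧
      gp T (gv T i j p a s) = p ∧ ga T l (gv T i j p a s) = a ∧ gs T l (gv T i j p a s) = s := by
  rw [gv_eq]
  refine ⟨?_, ?_, ?_, ?_, ?_, ?_⟩
  · simp only [List.length_append, length_blk hi, length_blk hj, length_blk hp, ha, hs]
    unfold gl
    ring
  · exact dec_zero' hi _
  · show dec T _ (0 + 1) = j
    rw [dec_succ' hi, dec_zero' hj]
  · show dec T _ (0 + 1 + 1) = p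
    rw [dec_succ' hi, dec_succ' hj, dec_zero' hp]
  · unfold ga
    rw [show 3 * T = T + (T + (T + 0)) by ring, drop_blk hi, drop_blk hj, drop_blk hp,
      List.drop_zero, List.take_left' ha]
  · unfold gs
    rw [show 3 * T + l = T + (T + (T + l)) by ring, drop_blk hi, drop_blk hj, drop_blk hp,
      List.drop_left' ha, List.take_of_length_le hs.le]

theorem gx_length {T l : ℕ} {w : List Bool} (hw : w.length = gl T l) :
    (ga T l w).length = l ∧ (gs T l w).length = l := by
  unfold gl at hw
  unfold ga gs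
  rw [List.length_take, List.length_drop, List.length_take, List.length_drop, hw]
  omega

section graph

variable (T l n : ℕ) (tr nt : ℕ → ℕ → Bool) (st : ℕ → List Bool → Bool) (en : List Bool → Bool)
  (r0 r1 : ℕ → List Bool → List Bool → Bool) (top bot : List Bool → List Bool)

/-- The edges. -/
def gE (x y : List Bool) : Bool :=
  decide (gi T x = gi T y) && (decide (gj T x < n) &&
    ((decide (gp T x = 0) && (decide (gp T y = 0) && (decide (gj T y = gj T x + 1) &&
        tr (gi T x) (gj T x)))) ||
    ((decide (gp T x = 0) && (decide (gp T y = 1) && (decide (gj T y = gj T x) &&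
        (nt (gi T x) (gj T x) && st (gj T x) (ga T l y))))) ||
    ((decide (gp T x = 1) && (decide (gp T y = 1) && (decide (gj T y = gj T x) &&
        r0 (gj T x) (ga T l x) (ga T l y)))) ||
    ((decide (gp T x = 1) && (decide (gp T y = 2) && (decide (gj T y = gj T x) &&
        (en (ga T l x) && (decide (ga T l y = top (ga T l x)) &&
          decide (gs T l y = ga T l x)))))) ||
    ((decide (gp T x = 2) && (decide (gp T y = 2) && (decide (gj T y = gj T x) &&
        (decide (gs T l y = gs T l x) && r1 (gj T x) (ga T l x) (ga T l y))))) ||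
    (decide (gp T x = 2) && (decide (gp T y = 0) && (decide (gj T y = gj T x + 1) &&
        decide (ga T l x = bot (gs T l x)))))))))))

/-- The start and the end. -/
def gB (x y : List Bool) : Bool :=
  decide (gi T x < n) && (decide (gj T x = 0) && (decide (gp T x = 0) &&
    (decide (gj T y = n) && decide (gp T y = 0))))

/-- The answer to the question `j` for the choice `i`. -/
def gQ (i j : ℕ) : Prop :=
  tr i j = true ∨ (nt i j = true ∧ ∃ a c : List Bool, a.length = l ∧ c.length = l ∧
    st j a = true ∧ en c = true ∧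
    Relation.ReflTransGen (fun x y : List Bool => r0 j x y = true ∧ y.length = l) a c ∧
    Relation.ReflTransGen (fun x y : List Bool => r1 j x y = true ∧ y.length = l) (top c) (bot c))

private theorem gE_iff (x y : List Bool) :
    gE T l n tr nt st en r0 r1 top bot x y = true ↔
      gi T x = gi T y ∧ gj T x < n ∧
      ((gp T x = 0 ∧ gp T y = 0 ∧ gj T y = gj T x + 1 ∧ tr (gi T x) (gj T x) = true) ∨
      ((gp T x = 0 ∧ gp T y = 1 ∧ gj T y = gj T x ∧ nt (gi T x) (gj T x) = true ∧
        st (gj T x) (ga T l y) = true) ∨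
      ((gp T x = 1 ∧ gp T y = 1 ∧ gj T y = gj T x ∧
        r0 (gj T x) (ga T l x) (ga T l y) = true) ∨
      ((gp T x = 1 ∧ gp T y = 2 ∧ gj T y = gj T x ∧ en (ga T l x) = true ∧
        ga T l y = top (ga T l x) ∧ gs T l y = ga T l x) ∨
      ((gp T x = 2 ∧ gp T y = 2 ∧ gj T y = gj T x ∧ gs T l y = gs T l x ∧
        r1 (gj T x) (ga T l x) (ga T l y) = true) ∨
      (gp T x = 2 ∧ gp T y = 0 ∧ gj T y = gj T x + 1 ∧ ga T l x = bot (gs T l x))))))) := by
  unfold gE
  simp only [Bool.and_eq_true, Bool.or_eq_true, decide_eq_true_eq]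

/-- The edges as a relation. -/
private def ED (x y : List Bool) : Prop :=
  x.length = gl T l ∧ y.length = gl T l ∧ gE T l n tr nt st en r0 r1 top bot x y = true

/-- The invariant. -/
private def IV (i : ℕ) (x : List Bool) : Prop :=
  gi T x = i ∧ gj T x ≤ n ∧ (∀ j < gj T x, gQ l tr nt st en r0 r1 top bot i j) ∧
  (gp T x = 1 → nt i (gj T x) = true ∧ ∃ a : List Bool, a.length = l ∧ st (gj T x) a = true ∧
    Relation.ReflTransGen (fun x' y' : List Bool => r0 (gj T x) x' y' = true ∧ y'.length = l) a
      (ga T l x)) ∧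
  (gp T x = 2 → nt i (gj T x) = true ∧ ∃ a : List Bool, a.length = l ∧ st (gj T x) a = true ∧
    Relation.ReflTransGen (fun x' y' : List Bool => r0 (gj T x) x' y' = true ∧ y'.length = l) a
      (gs T l x) ∧ en (gs T l x) = true ∧
    Relation.ReflTransGen (fun x' y' : List Bool => r1 (gj T x) x' y' = true ∧ y'.length = l)
      (top (gs T l x)) (ga T l x))

private theorem IV_step {i : ℕ} {x y : List Bool} (h : IV T l n tr nt st en r0 r1 top bot i x)
    (he : ED T l n tr nt st en r0 r1 top bot x y) : IV T l n tr nt st en r0 r1 top bot i y := by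
  obtain ⟨hlx, hly, he⟩ := he
  rw [gE_iff] at he
  obtain ⟨hi, hj, hq, h1, h2⟩ := h
  obtain ⟨e1, e2, he⟩ := he
  have hyi : gi T y = i := e1.symm.trans hi
  obtain ⟨hax, hsx⟩ := gx_length hlx
  obtain ⟨hay, hsy⟩ := gx_length hly
  rcases he with ⟨a1, a2, a3, a4⟩ | ⟨a1, a2, a3, a4, a5⟩ | ⟨a1, a2, a3, a4⟩ |
    ⟨a1, a2, a3, a4, a5, a6⟩ | ⟨a1, a2, a3, a4, a5⟩ | ⟨a1, a2, a3, a4⟩
  · refine ⟨hyi, by omega, fun j hj' => ?_, fun h => by omega, fun h => by omega⟩
    rcases Nat.lt_or_ge j (gj T x) with h3 | h3
    · exact hq j h3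
    · have h4 : j = gj T x := by omega
      subst h4
      exact Or.inl (by rw [← hi]; exact a4)
  · refine ⟨hyi, by omega, fun j hj' => hq j (by omega), fun _ => ?_, fun h => by omega⟩
    rw [a3, ← hi]
    exact ⟨a4, ga T l y, hay, a5, Relation.ReflTransGen.refl⟩
  · refine ⟨hyi, by omega, fun j hj' => hq j (by omega), fun _ => ?_, fun h => by omega⟩
    obtain ⟨b1, a, b2, b3, b4⟩ := h1 a1
    rw [a3]
    exact ⟨b1, a, b2, b3, b4.tail ⟨a4, hay⟩⟩
  · refine ⟨hyi, by omega, fun j hj' => hq j (by omega), fun h => by omega, fun _ => ?_⟩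
    obtain ⟨b1, a, b2, b3, b4⟩ := h1 a1
    rw [a3, a5, a6]
    exact ⟨b1, a, b2, b3, b4, a4, Relation.ReflTransGen.refl⟩
  · refine ⟨hyi, by omega, fun j hj' => hq j (by omega), fun h => by omega, fun _ => ?_⟩
    obtain ⟨b1, a, b2, b3, b4, b5, b6⟩ := h2 a1
    rw [a3, a4]
    exact ⟨b1, a, b2, b3, b4, b5, b6.tail ⟨a5, hay⟩⟩
  · refine ⟨hyi, by omega, fun j hj' => ?_, fun h => by omega, fun h => by omega⟩
    rcases Nat.lt_or_ge j (gj T x) with h3 | h3
    · exact hq j h3
    · have h4 : j = gj T x := by omega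
      subst h4
      obtain ⟨b1, a, b2, b3, b4, b5, b6⟩ := h2 a1
      rw [a4] at b6
      exact Or.inr ⟨b1, a, gs T l x, b2, hsx, b3, b5, b4, b6⟩

/-- One question. -/
private theorem question (hT : 2 ≤ T) (hn : n ≤ T)
    (ht : ∀ c : List Bool, c.length = l → (top c).length = l) {i j : ℕ} (hi : i < n) (hj : j < n)
    (h : gQ l tr nt st en r0 r1 top bot i j) :
    Relation.ReflTransGen (ED T l n tr nt st en r0 r1 top bot)
      (gv T i j 0 (List.replicate l false) (List.replicate l false))
      (gv T i (j + 1) 0 (List.replicate l false) (List.replicate l false)) := by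
  have hz : (List.replicate l false).length = l := List.length_replicate
  have hiT : i ≤ T := by omega
  have hjT : j ≤ T := by omega
  have hjT' : j + 1 ≤ T := by omega
  obtain ⟨s1, s2, s3, s4, s5, s6⟩ := gv_spec hiT hjT (Nat.zero_le T) hz hz
  obtain ⟨t1, t2, t3, t4, t5, t6⟩ := gv_spec hiT hjT' (Nat.zero_le T) hz hz
  rcases h with h | ⟨h1, a, c, ha, hc, h2, h3, h4, h5⟩
  · refine Relation.ReflTransGen.single ⟨s1, t1, (gE_iff _ _ _ _ _ _ _ _ _ _ _ _ _).2 ?_⟩
    rw [s2, s3, s4, t2, t3, t4]
    exact ⟨rfl, hj, Or.inl ⟨rfl, rfl, rfl, h⟩⟩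
  · -- the first walk
    have w1 : ∀ b : List Bool, Relation.ReflTransGen
        (fun x y : List Bool => r0 j x y = true ∧ y.length = l) a b → b.length = l ∧
        Relation.ReflTransGen (ED T l n tr nt st en r0 r1 top bot)
          (gv T i j 0 (List.replicate l false) (List.replicate l false))
          (gv T i j 1 b (List.replicate l false)) := by
      intro b hb
      induction hb with
      | refl =>
        obtain ⟨u1, u2, u3, u4, u5, u6⟩ := gv_spec hiT hjT (show 1 ≤ T by omega) ha hz
        refine ⟨ha, Relation.ReflTransGen.single ⟨s1, u1, (gE_iff _ _ _ _ _ _ _ _ _ _ _ _ _).2 ?_⟩⟩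
        rw [s2, s3, s4, u2, u3, u4, u5]
        exact ⟨rfl, hj, Or.inr (Or.inl ⟨rfl, rfl, rfl, h1, h2⟩)⟩
      | tail _ hstep ih =>
        obtain ⟨ih1, ih2⟩ := ih
        obtain ⟨u1, u2, u3, u4, u5, u6⟩ := gv_spec hiT hjT (show 1 ≤ T by omega) ih1 hz
        obtain ⟨v1, v2, v3, v4, v5, v6⟩ := gv_spec hiT hjT (show 1 ≤ T by omega) hstep.2 hz
        refine ⟨hstep.2, ih2.tail ⟨u1, v1, (gE_iff _ _ _ _ _ _ _ _ _ _ _ _ _).2 ?_⟩⟩
        rw [u2, u3, u4, u5, v2, v3, v4, v5]
        exact ⟨rfl, hj, Or.inr (Or.inr (Or.inl ⟨rfl, rfl, rfl, hstep.1⟩))⟩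
    obtain ⟨-, w1⟩ := w1 c h4
    -- the second walk
    have w2 : ∀ b : List Bool, Relation.ReflTransGen
        (fun x y : List Bool => r1 j x y = true ∧ y.length = l) (top c) b → b.length = l ∧
        Relation.ReflTransGen (ED T l n tr nt st en r0 r1 top bot)
          (gv T i j 1 c (List.replicate l false)) (gv T i j 2 b c) := by
      intro b hb
      induction hb with
      | refl =>
        obtain ⟨u1, u2, u3, u4, u5, u6⟩ := gv_spec hiT hjT (show 1 ≤ T by omega) hc hz
        obtain ⟨v1, v2, v3, v4, v5, v6⟩ := gv_spec hiT hjT (show 2 ≤ T by omega) (ht c hc) hc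
        refine ⟨ht c hc,
          Relation.ReflTransGen.single ⟨u1, v1, (gE_iff _ _ _ _ _ _ _ _ _ _ _ _ _).2 ?_⟩⟩
        rw [u2, u3, u4, u5, v2, v3, v4, v5, v6]
        exact ⟨rfl, hj, Or.inr (Or.inr (Or.inr (Or.inl ⟨rfl, rfl, rfl, h3, rfl, rfl⟩)))⟩
      | tail _ hstep ih =>
        obtain ⟨ih1, ih2⟩ := ih
        obtain ⟨u1, u2, u3, u4, u5, u6⟩ := gv_spec hiT hjT (show 2 ≤ T by omega) ih1 hc
        obtain ⟨v1, v2, v3, v4, v5, v6⟩ := gv_spec hiT hjT (show 2 ≤ T by omega) hstep.2 hc
        refine ⟨hstep.2, ih2.tail ⟨u1, v1, (gE_iff _ _ _ _ _ _ _ _ _ _ _ _ _).2 ?_⟩⟩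
        rw [u2, u3, u4, u5, u6, v2, v3, v4, v5, v6]
        exact ⟨rfl, hj, Or.inr (Or.inr (Or.inr (Or.inr (Or.inl ⟨rfl, rfl, rfl, rfl, hstep.1⟩))))⟩
    obtain ⟨hb, w2⟩ := w2 (bot c) h5
    refine (w1.trans w2).tail ?_
    obtain ⟨u1, u2, u3, u4, u5, u6⟩ := gv_spec hiT hjT (show 2 ≤ T by omega) hb hc
    refine ⟨u1, t1, (gE_iff _ _ _ _ _ _ _ _ _ _ _ _ _).2 ?_⟩
    rw [u2, u3, u4, u5, u6, t2, t3, t4]
    exact ⟨rfl, hj, Or.inr (Or.inr (Or.inr (Or.inr (Or.inr ⟨rfl, rfl, rfl, rfl⟩))))⟩

theorem graph_iff (hT : 2 ≤ T) (hn : n ≤ T)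
    (ht : ∀ c : List Bool, c.length = l → (top c).length = l) :
    (∃ u v : List Bool, u.length = gl T l ∧ v.length = gl T l ∧ gB T n u v = true ∧
      Relation.ReflTransGen (fun x y : List Bool => x.length = gl T l ∧ y.length = gl T l ∧
        gE T l n tr nt st en r0 r1 top bot x y = true) u v) ↔
    ∃ i < n, ∀ j < n, gQ l tr nt st en r0 r1 top bot i j := by
  constructor
  · rintro ⟨u, v, -, -, hB, hch⟩
    unfold gB at hB
    simp only [Bool.and_eq_true, decide_eq_true_eq] at hB
    obtain ⟨b1, b2, b3, b4, b5⟩ := hB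
    have h1 : ∀ x, Relation.ReflTransGen (fun x y : List Bool => x.length = gl T l ∧
        y.length = gl T l ∧ gE T l n tr nt st en r0 r1 top bot x y = true) u x →
        IV T l n tr nt st en r0 r1 top bot (gi T u) x := by
      intro x hx
      induction hx with
      | refl =>
        exact ⟨rfl, by omega, fun j hj => by omega, fun h => by omega, fun h => by omega⟩
      | tail _ he ih => exact IV_step T l n tr nt st en r0 r1 top bot ih he
    obtain ⟨-, -, h2, -, -⟩ := h1 v hch
    exact ⟨gi T u, b1, fun j hj => h2 j (by omega)⟩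
  · rintro ⟨i, hi, hq⟩
    have hz : (List.replicate l false).length = l := List.length_replicate
    have hiT : i ≤ T := by omega
    obtain ⟨s1, s2, s3, s4, s5, s6⟩ := gv_spec hiT (Nat.zero_le T) (Nat.zero_le T) hz hz
    obtain ⟨t1, t2, t3, t4, t5, t6⟩ := gv_spec hiT hn (Nat.zero_le T) hz hz
    refine ⟨_, _, s1, t1, ?_, ?_⟩
    · unfold gB
      rw [s2, s3, s4, t3, t4]
      simp [hi]
    · have h1 : ∀ m ≤ n, Relation.ReflTransGen (ED T l n tr nt st en r0 r1 top bot)
          (gv T i 0 0 (List.replicate l false) (List.replicate l false))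
          (gv T i m 0 (List.replicate l false) (List.replicate l false)) := by
        intro m
        induction m with
        | zero => exact fun _ => Relation.ReflTransGen.refl
        | succ m ih =>
          intro hm
          exact (ih (by omega)).trans
            (question T l n tr nt st en r0 r1 top bot hT hn ht hi (by omega) (hq m (by omega)))
      exact h1 n le_rfl

end graph

end Pool.Agent.BPM
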