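import Pool.Agent.BPM.Bits
import Pool.Agent.PF.Int
import Pool.Agent.PF.List

/-!
# The tests of the certificate as functions of lists: definitions and polynomial time

Integers are coded in binary, so `Int.toNat` is only available up to a bound in unary: `natZ N z = min z.toNat N`.

PROOFS. `natZ_eq`: the filter of `List.range N` by `j < z` has `z.toNat` elements for `z ≤ N`. The `PF` statements by
`fun_prop` (unfold one definition; if it is too slow prove `PF` of the parts first).
-/

set_option autoImplicit false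

namespace Pool.Agent.BPM

open Pool.Agent.BPD Pool.Agent.PF

/-- Clipped conversion. -/
def natZ (N : ℕ) (z : ℤ) : ℕ :=
  ((List.range N).filter fun j : ℕ => decide ((j : ℤ) < z)).length

theorem natZ_eq {N : ℕ} {z : ℤ} (h : z ≤ N) : natZ N z = z.toNat := by
  have key : ∀ n : ℕ, natZ n z = min n z.toNat := by
    intro n
    induction n with
    | zero => simp [natZ]
    | succ n ih =>
      unfold natZ at ih ⊢
      rw [List.range_succ, List.filter_append, List.length_append, ih]
      by_cases h1 : (n : ℤ) < z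
      · rw [List.filter_cons_of_pos (by simpa using h1)]
        simp only [List.filter_nil, List.length_cons, List.length_nil]
        omega
      · rw [List.filter_cons_of_neg (by simpa using h1)]
        simp only [List.filter_nil, List.length_nil]
        omega
  rw [key]
  omega

/-- The number of a cell of the window `0`, clipped. -/
def ixB (N H : ℕ) (x : ℤ × ℤ) : ℕ :=
  (natZ N (if 0 ≤ x.1 then x.1 else -1 - x.1) * 2 + (if 0 ≤ x.1 then 0 else 1)) * H + natZ N x.2

theorem ixB_eq {N H : ℕ} {x : ℤ × ℤ} (h1 : fold x.1 ≤ N) (h2 : x.2 ≤ N) :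
    ixB N H x = ix H 0 x := by
  unfold ixB ix
  rw [natZ_eq h2]
  by_cases h0 : 0 ≤ x.1
  · have h3 : fold x.1 = x.1.toNat := by
      unfold fold
      rw [if_pos h0]
    have h4 : side x.1 = 0 := by
      unfold side
      rw [if_pos h0]
    rw [if_pos h0, if_pos h0, natZ_eq (by omega), h3, h4, Nat.sub_zero]
  · have h3 : fold x.1 = (-1 - x.1).toNat := by
      unfold fold
      rw [if_neg h0]
    have h4 : side x.1 = 1 := by
      unfold side
      rw [if_neg h0]
    rw [if_neg h0, if_neg h0, natZ_eq (by omega), h3, h4, Nat.sub_zero]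

theorem PF_dec {α : Type} [VEnc α] {M k : α → ℕ} {w : α → List Bool} (hM : PF M) (hw : PF w)
    (hk : PF k) : PF (fun x => dec (M x) (w x) (k x)) := by
  have h : PF fun x => ((((w x).drop (k x * M x)).take (M x)).filter fun b => b).length := by
    fun_prop
  exact h

theorem PF_ixB {α : Type} [VEnc α] {N H : α → ℕ} {x : α → ℤ × ℤ} (hN : PF N) (hH : PF H)
    (hx : PF x) : PF (fun a => ixB (N a) (H a) (x a)) := by
  unfold ixB natZ
  fun_prop

/-- Stability of `p`. -/
def stB (c : Code) (p : ℤ × ℤ) : Bool := c.all fun X => X.any fun y => decide (0 ≤ dt y p)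

/-- One-sided instability of `p`. -/
def unB (s : ℤ) (c : Code) (p : ℤ × ℤ) : Bool :=
  c.any fun X => X.all fun y => decide (dt y p < 0) ||
    (decide (dt y p = 0) && decide (s * cr p y < 0))

/-- The transformed rules. -/
def psiC (p : ℤ × ℤ) (c : Code) : Code := c.map fun X => X.map (psi p)

theorem PF_stB : PF fun q : Code × (ℤ × ℤ) => stB q.1 q.2 := by
  unfold stB dt
  fun_prop

theorem PF_unB : PF fun q : ℤ × (Code × (ℤ × ℤ)) => unB q.1 q.2.1 q.2.2 := by
  unfold unB dt cr
  fun_prop

theorem PF_psiC : PF fun q : (ℤ × ℤ) × Code => psiC q.1 q.2 := by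
  unfold psiC psi dt cr
  fun_prop

/-- Parameters: `N`, `B`, `H`, `M`. -/
abbrev Pr : Type := (ℕ × ℕ) × (ℕ × ℕ)

/-- Support of the cell `x` in the state of the word `w`. -/
def supB (c : Code) (q : Pr) (w : List Bool) (x : ℤ × ℤ) : Bool :=
  c.any fun X => X.all fun y => decide ((x + y).2 < 0) ||
    (decide ((x + y).2 < (q.2.1 : ℤ)) && (decide (0 < dec q.2.2 w (ixB q.1.1 q.2.1 (x + y))) &&
      decide (dec q.2.2 w (ixB q.1.1 q.2.1 (x + y)) < dec q.2.2 w (ixB q.1.1 q.2.1 x))))

private theorem addP {α : Type} [VEnc α] {f g : α → ℤ × ℤ} (hf : PF f) (hg : PF g) :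
    PF fun x => f x + g x := by
  have h : PF fun x => ((f x).1 + (g x).1, (f x).2 + (g x).2) := by fun_prop
  exact h

theorem PF_supB : PF fun r : (Code × Pr) × (List Bool × (ℤ × ℤ)) =>
    supB r.1.1 r.1.2 r.2.1 r.2.2 := by
  have h1 := @PF_dec
  have h2 := @PF_ixB
  have h3 := @addP
  unfold supB
  fun_prop

end Pool.Agent.BPM
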