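import Pool.Agent.BPM.Graph
import Pool.Agent.BPM.NatZ

/-!
# The edges of the graph are computed in polynomial time

PROOFS. `PF_eqW`: see `eqL_PF` (private) in `BPM/ReachB.lean`: copy it. `PF_gi`, `PF_ga`: `PF_dec` (`BPM/NatZ.lean`), `fun_prop`. `PF_gE`, `PF_gB`:
unfold, `fun_prop` with these as facts (`have`), or the conjunction and disjunction lemmas `PF.and`, `PF.or`, `PF.comp'` by hand.
-/

set_option autoImplicit false

namespace Pool.Agent.BPM

open Pool.Agent.BPD Pool.Agent.PF

theorem PF_eqW {α : Type} [VEnc α] {f g : α → List Bool} (hf : PF f) (hg : PF g) :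
    PF fun x => decide (f x = g x) := by
  have h : PF fun x => decide ((f x).length = (g x).length) &&
      (List.range (f x).length).all fun i =>
        ((f x).getD i false && (g x).getD i false) || (!((f x).getD i false) && !((g x).getD i false)) := by
    fun_prop
  have e : (fun x => decide (f x = g x)) = fun x => decide ((f x).length = (g x).length) &&
      (List.range (f x).length).all fun i =>
        ((f x).getD i false && (g x).getD i false) ||
          (!((f x).getD i false) && !((g x).getD i false)) := by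
    funext x
    rw [Bool.eq_iff_iff]
    simp only [decide_eq_true_eq, Bool.and_eq_true, List.all_eq_true, List.mem_range]
    constructor
    · rintro h
      rw [h]
      exact ⟨rfl, fun i _ => by cases (g x).getD i false <;> rfl⟩
    · rintro ⟨h1, h2⟩
      refine List.ext_getElem h1 fun i hi hi' => ?_
      have := h2 i hi
      rw [List.getD_eq_getElem _ _ hi, List.getD_eq_getElem _ _ hi'] at this
      revert this
      cases (f x)[i] <;> cases (g x)[i] <;> simp
  rw [e]
  exact h

theorem PF_gi {α : Type} [VEnc α] {T : α → ℕ} {w : α → List Bool} (hT : PF T) (hw : PF w) :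
    PF (fun a => gi (T a) (w a)) ∧ PF (fun a => gj (T a) (w a)) ∧ PF (fun a => gp (T a) (w a)) := by
  refine ⟨?_, ?_, ?_⟩
  · exact PF_dec hT hw (by fun_prop)
  · exact PF_dec hT hw (by fun_prop)
  · exact PF_dec hT hw (by fun_prop)

theorem PF_ga {α : Type} [VEnc α] {T l : α → ℕ} {w : α → List Bool} (hT : PF T) (hl : PF l)
    (hw : PF w) : PF (fun a => ga (T a) (l a) (w a)) ∧ PF (fun a => gs (T a) (l a) (w a)) := by
  unfold ga gs
  constructor <;> fun_prop

theorem PF_gB {α : Type} [VEnc α] {T n : α → ℕ} {x y : α → List Bool} (hT : PF T) (hn : PF n)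
    (hx : PF x) (hy : PF y) : PF fun a => gB (T a) (n a) (x a) (y a) := by
  obtain ⟨h1, h2, h3⟩ := PF_gi hT hx
  obtain ⟨g1, g2, g3⟩ := PF_gi hT hy
  unfold gB
  fun_prop

theorem PF_gE {α : Type} [VEnc α] {T l n : α → ℕ} {tr nt : α × (ℕ × ℕ) → Bool}
    {st : α × (ℕ × List Bool) → Bool} {en : α × List Bool → Bool}
    {r0 r1 : α × (ℕ × (List Bool × List Bool)) → Bool} {top bot : α × List Bool → List Bool}
    {x y : α → List Bool} (hT : PF T) (hl : PF l) (hn : PF n) (htr : PF tr) (hnt : PF nt)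
    (hst : PF st) (hen : PF en) (h0 : PF r0) (h1 : PF r1) (htop : PF top) (hbot : PF bot)
    (hx : PF x) (hy : PF y) :
    PF fun a => gE (T a) (l a) (n a) (fun i j => tr (a, (i, j))) (fun i j => nt (a, (i, j)))
      (fun j w => st (a, (j, w))) (fun w => en (a, w)) (fun j u v => r0 (a, (j, (u, v))))
      (fun j u v => r1 (a, (j, (u, v)))) (fun w => top (a, w)) (fun w => bot (a, w)) (x a) (y a) := by
  obtain ⟨i1, i2, i3⟩ := PF_gi hT hx
  obtain ⟨g1, g2, g3⟩ := PF_gi hT hy
  obtain ⟨a1, a2⟩ := PF_ga hT hl hx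
  obtain ⟨b1, b2⟩ := PF_ga hT hl hy
  have e1 : PF fun a => tr (a, (gi (T a) (x a), gj (T a) (x a))) :=
    PF.comp' htr (PF.id'.prodMk (i1.prodMk i2))
  have e2 : PF fun a => nt (a, (gi (T a) (x a), gj (T a) (x a))) :=
    PF.comp' hnt (PF.id'.prodMk (i1.prodMk i2))
  have e3 : PF fun a => st (a, (gj (T a) (x a), ga (T a) (l a) (y a))) :=
    PF.comp' hst (PF.id'.prodMk (i2.prodMk b1))
  have e4 : PF fun a => r0 (a, (gj (T a) (x a), (ga (T a) (l a) (x a), ga (T a) (l a) (y a)))) :=
    PF.comp' h0 (PF.id'.prodMk (i2.prodMk (a1.prodMk b1)))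
  have e5 : PF fun a => r1 (a, (gj (T a) (x a), (ga (T a) (l a) (x a), ga (T a) (l a) (y a)))) :=
    PF.comp' h1 (PF.id'.prodMk (i2.prodMk (a1.prodMk b1)))
  have e6 : PF fun a => en (a, ga (T a) (l a) (x a)) := PF.comp' hen (PF.id'.prodMk a1)
  have e7 : PF fun a => top (a, ga (T a) (l a) (x a)) := PF.comp' htop (PF.id'.prodMk a1)
  have e8 : PF fun a => bot (a, gs (T a) (l a) (x a)) := PF.comp' hbot (PF.id'.prodMk a2)
  have f1 := PF_eqW b1 e7
  have f2 := PF_eqW b2 a1
  have f3 := PF_eqW b2 a2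
  have f4 := PF_eqW a1 e8
  unfold gE
  fun_prop

end Pool.Agent.BPM
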