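import Pool.Agent.BPM.Dirs

/-!
# Isolated stable directions

PROOFS. The first part (names with `i`) is a copy of the corresponding part of `SemiA`: for
`w ∈ S1` and small `ε > 0` the vector `w + ε s w'`, where `w'` is `w` turned to the left, is
unstable if and only if `iLR w s z` for all sites `z` of some rule (`iNear`). So the direction `w`
is isolated if and only if such rules exist for `s = 1` and `s = -1` (`iIsolated_of`,
`iNot_isolated`). For `w = nrm (toR p)` the products of `z` with `w`, `w'` are the quotients of the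
integers `dt z p`, `cr p z` by the length of `p` (`iLR_iff`).
-/

set_option autoImplicit false

namespace Pool.Agent.BPM

open Pool.Agent.BPD Set

/-- The scalar product. -/
private def iDp (z : ℤ × ℤ) (u : ℝ × ℝ) : ℝ := (z.1 : ℝ) * u.1 + (z.2 : ℝ) * u.2

/-- The direction `u` turned by a right angle to the left. -/
private def iLt (u : ℝ × ℝ) : ℝ × ℝ := (-u.2, u.1)

/-- The vector `w + ε w'`, `w'` the vector `w` turned to the left. -/
private def iTw (w : ℝ × ℝ) (ε : ℝ) : ℝ × ℝ := (w.1 + ε * (iLt w).1, w.2 + ε * (iLt w).2)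

private theorem iDp_tw (z : ℤ × ℤ) (w : ℝ × ℝ) (ε : ℝ) :
    iDp z (iTw w ε) = iDp z w + ε * iDp z (iLt w) := by
  simp only [iDp, iTw, iLt]
  ring

/-- The site `z` is in the half plane for the directions next to `w` on the side `s`. -/
private def iLR (w : ℝ × ℝ) (s : ℝ) (z : ℤ × ℤ) : Prop :=
  iDp z w < 0 ∨ (iDp z w = 0 ∧ s * iDp z (iLt w) < 0)

private theorem iNear_one (a b : ℝ) : ∃ δ > 0, ∀ ε, 0 < ε → ε < δ →
    (a < 0 ∨ (a = 0 ∧ b < 0) → a + ε * b < 0) ∧ (¬ (a < 0 ∨ (a = 0 ∧ b < 0)) → 0 ≤ a + ε * b) := by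
  rcases lt_trichotomy a 0 with ha | ha | ha
  · refine ⟨-a / (|b| + 1), div_pos (by linarith) (by positivity), fun ε h0 h1 => ?_⟩
    have h2 : ε * (|b| + 1) < -a := by
      rwa [lt_div_iff₀ (by positivity)] at h1
    have h3 : ε * b ≤ ε * |b| := mul_le_mul_of_nonneg_left (le_abs_self b) h0.le
    exact ⟨fun _ => by nlinarith, fun h => absurd (Or.inl ha) h⟩
  · subst ha
    refine ⟨1, one_pos, fun ε h0 _ => ⟨?_, ?_⟩⟩
    · rintro (h | ⟨_, h⟩)
      · exact absurd h (lt_irrefl _)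
      · have := mul_neg_of_pos_of_neg h0 h
        linarith
    · intro h
      have h1 : 0 ≤ b := by
        by_contra hb
        exact h (Or.inr ⟨rfl, not_le.1 hb⟩)
      have := mul_nonneg h0.le h1
      linarith
  · refine ⟨a / (|b| + 1), div_pos ha (by positivity), fun ε h0 h1 => ⟨?_, fun _ => ?_⟩⟩
    · rintro (h | ⟨h, _⟩) <;> linarith
    · have h2 : ε * (|b| + 1) < a := by
        rwa [lt_div_iff₀ (by positivity)] at h1
      have h3 : -(ε * |b|) ≤ ε * b := by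
        rw [← mul_neg]
        exact mul_le_mul_of_nonneg_left (neg_abs_le b) h0.le
      nlinarith

private theorem iNear_fin (F : Finset (ℤ × ℤ)) (w : ℝ × ℝ) (s : ℝ) : ∃ δ > 0, ∀ ε, 0 < ε → ε < δ →
    ∀ z ∈ F, (iLR w s z → iDp z (iTw w (ε * s)) < 0) ∧
      (¬ iLR w s z → 0 ≤ iDp z (iTw w (ε * s))) := by
  classical
  induction F using Finset.induction_on with
  | empty => exact ⟨1, one_pos, fun _ _ _ z hz => absurd hz (Finset.notMem_empty z)⟩
  | insert a F _ ih =>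
    obtain ⟨δ, hδ, h⟩ := ih
    obtain ⟨δ', hδ', h'⟩ := iNear_one (iDp a w) (s * iDp a (iLt w))
    refine ⟨min δ δ', lt_min hδ hδ', fun ε h0 h1 z hz => ?_⟩
    rcases Finset.mem_insert.1 hz with rfl | hz
    · have h2 := h' ε h0 (h1.trans_le (min_le_right _ _))
      rw [iDp_tw, mul_assoc]
      exact h2
    · exact h ε h0 (h1.trans_le (min_le_left _ _)) z hz

/-- The rules are in the half planes of the directions next to `w`, or not. -/
private theorem iNear (U : Fam) (w : ℝ × ℝ) (s : ℝ) : ∃ δ > 0, ∀ ε, 0 < ε → ε < δ →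
    ((∃ X ∈ U, ∀ z ∈ X, iLR w s z) ↔ ¬ Stable U (iTw w (ε * s))) := by
  classical
  obtain ⟨δ, hδ, h⟩ := iNear_fin (U.biUnion id) w s
  refine ⟨δ, hδ, fun ε h0 h1 => ?_⟩
  have hm : ∀ X ∈ U, ∀ z ∈ X, z ∈ U.biUnion id := fun X hX z hz =>
    Finset.mem_biUnion.2 ⟨X, hX, hz⟩
  rw [stable_iff]
  constructor
  · rintro ⟨X, hX, hXz⟩ hst
    obtain ⟨y, hy, hy0⟩ := hst X hX
    have := (h ε h0 h1 y (hm X hX y hy)).1 (hXz y hy)
    exact absurd hy0 (not_le.2 this)
  · intro hst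
    push Not at hst
    obtain ⟨X, hX, hXy⟩ := hst
    refine ⟨X, hX, fun z hz => ?_⟩
    by_contra hz'
    have := (h ε h0 h1 z (hm X hX z hz)).2 hz'
    exact absurd (hXy z hz) (not_lt.2 this)

/-- Stability depends only on the direction. -/
private theorem iStable_smul {U : Fam} {u u' : ℝ × ℝ} {c : ℝ} (hc : 0 < c) (h1 : u'.1 = c * u.1)
    (h2 : u'.2 = c * u.2) : Stable U u' ↔ Stable U u := by
  rw [stable_iff, stable_iff]
  have key : ∀ z : ℤ × ℤ, (0 ≤ (z.1 : ℝ) * u'.1 + (z.2 : ℝ) * u'.2 ↔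
      0 ≤ (z.1 : ℝ) * u.1 + (z.2 : ℝ) * u.2) := by
    intro z
    have : (z.1 : ℝ) * u'.1 + (z.2 : ℝ) * u'.2 = c * ((z.1 : ℝ) * u.1 + (z.2 : ℝ) * u.2) := by
      rw [h1, h2]
      ring
    rw [this]
    exact ⟨fun h => nonneg_of_mul_nonneg_right h hc, fun h => mul_nonneg hc.le h⟩
  simp only [key]

/-- The length. -/
private noncomputable def iNm (u : ℝ × ℝ) : ℝ := Real.sqrt (u.1 ^ 2 + u.2 ^ 2)

/-- The unit vector. -/
private noncomputable def iUn (u : ℝ × ℝ) : ℝ × ℝ := (u.1 / iNm u, u.2 / iNm u)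

private theorem iNm_pos {u : ℝ × ℝ} (hu : u.1 ≠ 0 ∨ u.2 ≠ 0) : 0 < iNm u := by
  refine Real.sqrt_pos.2 ?_
  rcases hu with h | h <;> positivity

private theorem iNm_sq (u : ℝ × ℝ) : iNm u ^ 2 = u.1 ^ 2 + u.2 ^ 2 := Real.sq_sqrt (by positivity)

private theorem iUn_S1 {u : ℝ × ℝ} (hu : u.1 ≠ 0 ∨ u.2 ≠ 0) : iUn u ∈ S1 := by
  have h := iNm_pos hu
  change (u.1 / iNm u) ^ 2 + (u.2 / iNm u) ^ 2 = 1
  rw [div_pow, div_pow, ← add_div, iNm_sq, div_self]
  rw [← iNm_sq]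
  positivity

private theorem iStable_un {U : Fam} {u : ℝ × ℝ} (hu : u.1 ≠ 0 ∨ u.2 ≠ 0) :
    Stable U (iUn u) ↔ Stable U u := by
  refine iStable_smul (c := 1 / iNm u) (one_div_pos.2 (iNm_pos hu)) ?_ ?_
  · simp only [iUn]; ring
  · simp only [iUn]; ring

/-- Directions of the unit circle in the iFrame of `w`. -/
private theorem iFrame {w u : ℝ × ℝ} (hw : w ∈ S1) :
    u.1 = (u.1 * w.1 + u.2 * w.2) * w.1 + (u.1 * (iLt w).1 + u.2 * (iLt w).2) * (iLt w).1 ∧
    u.2 = (u.1 * w.1 + u.2 * w.2) * w.2 + (u.1 * (iLt w).1 + u.2 * (iLt w).2) * (iLt w).2 := by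
  have h : w.1 ^ 2 + w.2 ^ 2 = 1 := hw
  simp only [iLt]
  constructor
  · linear_combination (-u.1) * h
  · linear_combination (-u.2) * h

private theorem iTw_ne {w : ℝ × ℝ} (hw : w ∈ S1) (ε : ℝ) : (iTw w ε).1 ≠ 0 ∨ (iTw w ε).2 ≠ 0 := by
  by_contra hcon
  push Not at hcon
  obtain ⟨h1, h2⟩ := hcon
  have h : w.1 ^ 2 + w.2 ^ 2 = 1 := hw
  have h3 : (iTw w ε).1 ^ 2 + (iTw w ε).2 ^ 2 = (1 + ε ^ 2) * (w.1 ^ 2 + w.2 ^ 2) := by
    simp only [iTw, iLt]; ring
  rw [h1, h2, h] at h3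
  nlinarith [sq_nonneg ε]

/-- If the directions next to `w` are stable then `w` is not isolated. -/
private theorem iNot_isolated {U : Fam} {w : ℝ × ℝ} (hw : w ∈ S1) {s : ℝ} (hs : s ≠ 0)
    (h : ¬ ∃ X ∈ U, ∀ z ∈ X, iLR w s z) : ¬ Isolated U w := by
  rintro ⟨ρ, hρ, hiso⟩
  obtain ⟨δ, hδ, hn⟩ := iNear U w s
  have hw1 : w.1 ^ 2 + w.2 ^ 2 = 1 := hw
  -- continuity at zero
  have hc : Continuous fun ε : ℝ => iUn (iTw w (ε * s)) := by
    have h1 : Continuous fun ε : ℝ => iTw w (ε * s) := by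
      unfold iTw iLt
      fun_prop
    have h2 : Continuous fun ε : ℝ => iNm (iTw w (ε * s)) := by
      unfold iNm
      fun_prop
    have h3 : ∀ ε : ℝ, iNm (iTw w (ε * s)) ≠ 0 := fun ε => (iNm_pos (iTw_ne hw _)).ne'
    exact ((continuous_fst.comp h1).div h2 h3).prodMk ((continuous_snd.comp h1).div h2 h3)
  have h0 : iUn (iTw w (0 * s)) = w := by
    have e : iTw w (0 * s) = w := by simp [iTw]
    have e2 : iNm w = 1 := by
      unfold iNm
      rw [hw1, Real.sqrt_one]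
    rw [e]
    simp [iUn, e2]
  obtain ⟨δ', hδ', hd⟩ := Metric.continuous_iff.1 hc 0 ρ hρ
  set ε := min δ δ' / 2 with hε
  have hε0 : 0 < ε := by positivity
  have hε1 : ε < δ := by
    have := min_le_left δ δ'
    have h2 : 0 < min δ δ' := lt_min hδ hδ'
    linarith
  have hε2 : ε < δ' := by
    have := min_le_right δ δ'
    have h2 : 0 < min δ δ' := lt_min hδ hδ'
    linarith
  have hst : Stable U (iUn (iTw w (ε * s))) := by
    rw [iStable_un (iTw_ne hw _)]
    by_contra hcon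
    exact h ((hn ε hε0 hε1).2 hcon)
  have hdist : dist (iUn (iTw w (ε * s))) w < ρ := by
    have := hd ε (by rw [Real.dist_eq, sub_zero, abs_of_pos hε0]; exact hε2)
    rwa [h0] at this
  have heq := hiso _ (iUn_S1 (iTw_ne hw _)) hst hdist
  -- but the product with `iLt w` is not zero
  have h5 : (iUn (iTw w (ε * s))).1 * (iLt w).1 + (iUn (iTw w (ε * s))).2 * (iLt w).2 =
      (ε * s) / iNm (iTw w (ε * s)) := by
    simp only [iUn, iTw, iLt]
    have : (w.1 + ε * s * -w.2) / iNm (w.1 + ε * s * -w.2, w.2 + ε * s * w.1) * -w.2 +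
        (w.2 + ε * s * w.1) / iNm (w.1 + ε * s * -w.2, w.2 + ε * s * w.1) * w.1 =
        (ε * s * (w.1 ^ 2 + w.2 ^ 2)) / iNm (w.1 + ε * s * -w.2, w.2 + ε * s * w.1) := by ring
    rw [this, hw1, mul_one]
  rw [heq] at h5
  have h6 : w.1 * (iLt w).1 + w.2 * (iLt w).2 = 0 := by simp only [iLt]; ring
  rw [h6] at h5
  have h7 : ε * s ≠ 0 := mul_ne_zero hε0.ne' hs
  exact (div_ne_zero h7 (iNm_pos (iTw_ne hw _)).ne') h5.symm

/-- If the directions next to `w` on both sides are unstable then `w` is isolated. -/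
private theorem iIsolated_of {U : Fam} {w : ℝ × ℝ} (hw : w ∈ S1) (h1 : ∃ X ∈ U, ∀ z ∈ X, iLR w 1 z)
    (h2 : ∃ X ∈ U, ∀ z ∈ X, iLR w (-1) z) : Isolated U w := by
  obtain ⟨δ₁, hδ₁, hn₁⟩ := iNear U w 1
  obtain ⟨δ₂, hδ₂, hn₂⟩ := iNear U w (-1)
  have hw1 : w.1 ^ 2 + w.2 ^ 2 = 1 := hw
  refine ⟨min (1 / 4) (min δ₁ δ₂ / 8), by positivity, fun u hu hst hd => ?_⟩
  have hu1 : u.1 ^ 2 + u.2 ^ 2 = 1 := hu
  set δ := min δ₁ δ₂ with hδ
  have hδ0 : 0 < δ := lt_min hδ₁ hδ₂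
  set α := u.1 * w.1 + u.2 * w.2 with hα
  set β := u.1 * (iLt w).1 + u.2 * (iLt w).2 with hβ
  obtain ⟨f1, f2⟩ := iFrame (u := u) hw
  rw [← hα, ← hβ] at f1 f2
  have hd1 : |u.1 - w.1| < min (1 / 4) (δ / 8) := by
    refine lt_of_le_of_lt ?_ hd
    rw [Prod.dist_eq, ← Real.dist_eq]
    exact le_max_left _ _
  have hd2 : |u.2 - w.2| < min (1 / 4) (δ / 8) := by
    refine lt_of_le_of_lt ?_ hd
    rw [Prod.dist_eq, ← Real.dist_eq]
    exact le_max_right _ _
  have hw1' : |w.1| ≤ 1 := by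
    rw [abs_le]
    constructor <;> nlinarith [sq_nonneg w.1, sq_nonneg w.2]
  have hw2' : |w.2| ≤ 1 := by
    rw [abs_le]
    constructor <;> nlinarith [sq_nonneg w.1, sq_nonneg w.2]
  have hβ' : |β| < δ / 4 := by
    have e : β = (u.2 - w.2) * w.1 - (u.1 - w.1) * w.2 := by
      rw [hβ]; simp only [iLt]; ring
    have h3 : |(u.2 - w.2) * w.1| ≤ |u.2 - w.2| := by
      rw [abs_mul]
      exact mul_le_of_le_one_right (abs_nonneg _) hw1'
    have h4 : |(u.1 - w.1) * w.2| ≤ |u.1 - w.1| := by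
      rw [abs_mul]
      exact mul_le_of_le_one_right (abs_nonneg _) hw2'
    have h5 := abs_sub ((u.2 - w.2) * w.1) ((u.1 - w.1) * w.2)
    have h6 := min_le_right (1 / 4) (δ / 8)
    rw [e]
    linarith
  have hα' : 1 / 2 < α := by
    have e : α = 1 + (u.1 - w.1) * w.1 + (u.2 - w.2) * w.2 := by
      rw [hα]; linear_combination hw1
    have h3 : |(u.1 - w.1) * w.1| ≤ |u.1 - w.1| := by
      rw [abs_mul]
      exact mul_le_of_le_one_right (abs_nonneg _) hw1'
    have h4 : |(u.2 - w.2) * w.2| ≤ |u.2 - w.2| := by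
      rw [abs_mul]
      exact mul_le_of_le_one_right (abs_nonneg _) hw2'
    have h5 := neg_abs_le ((u.1 - w.1) * w.1)
    have h6 := neg_abs_le ((u.2 - w.2) * w.2)
    have h7 := min_le_left (1 / 4) (δ / 8)
    rw [e]
    linarith
  have hα0 : 0 < α := by linarith
  rcases lt_trichotomy β 0 with hb | hb | hb
  · exfalso
    have h3 : 0 < -β / α := div_pos (by linarith) hα0
    have h4 : -β / α < δ := by
      rw [div_lt_iff₀ hα0]
      have := neg_abs_le β
      nlinarith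
    have h5 := (hn₂ (-β / α) h3 (h4.trans_le (min_le_right _ _))).1 h2
    refine h5 ((iStable_smul (c := 1 / α) (u := u) (by positivity) ?_ ?_).2 hst)
    · have : (iTw w (-β / α * -1)).1 = 1 / α * (α * w.1 + β * (iLt w).1) := by
        simp only [iTw]
        field_simp
      rw [this, ← f1]
    · have : (iTw w (-β / α * -1)).2 = 1 / α * (α * w.2 + β * (iLt w).2) := by
        simp only [iTw]
        field_simp
      rw [this, ← f2]
  · have h3 : α ^ 2 = 1 := by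
      have e : α ^ 2 + β ^ 2 = (u.1 ^ 2 + u.2 ^ 2) * (w.1 ^ 2 + w.2 ^ 2) := by
        rw [hα, hβ]
        simp only [iLt]
        ring
      rw [hu1, hw1, hb] at e
      linarith
    have h4 : α = 1 := by nlinarith
    rw [h4, hb] at f1 f2
    refine Prod.ext ?_ ?_
    · rw [f1]; ring
    · rw [f2]; ring
  · exfalso
    have h3 : 0 < β / α := div_pos hb hα0
    have h4 : β / α < δ := by
      rw [div_lt_iff₀ hα0]
      have := le_abs_self β
      nlinarith
    have h5 := (hn₁ (β / α) h3 (h4.trans_le (min_le_left _ _))).1 h1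
    refine h5 ((iStable_smul (c := 1 / α) (u := u) (by positivity) ?_ ?_).2 hst)
    · have : (iTw w (β / α * 1)).1 = 1 / α * (α * w.1 + β * (iLt w).1) := by
        simp only [iTw]
        field_simp
      rw [this, ← f1]
    · have : (iTw w (β / α * 1)).2 = 1 / α * (α * w.2 + β * (iLt w).2) := by
        simp only [iTw]
        field_simp
      rw [this, ← f2]

/-- The tests for the integer direction. -/
private theorem iLR_iff {p : ℤ × ℤ} (hp : p ≠ 0) (s : ℤ) (z : ℤ × ℤ) :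
    iLR (nrm (toR p)) s z ↔ dt z p < 0 ∨ (dt z p = 0 ∧ s * cr p z < 0) := by
  have hn : 0 < iNm (toR p) := by
    refine iNm_pos ?_
    by_contra hcon
    rw [not_or, not_not, not_not] at hcon
    have e1 : (p.1 : ℝ) = 0 := hcon.1
    have e2 : (p.2 : ℝ) = 0 := hcon.2
    exact hp (Prod.ext (Int.cast_eq_zero.1 e1) (Int.cast_eq_zero.1 e2))
  have e1 : iDp z (nrm (toR p)) = ((dt z p : ℤ) : ℝ) / iNm (toR p) := by
    simp only [iDp, nrm, iNm, dt, toR]
    push_cast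
    ring
  have e2 : iDp z (iLt (nrm (toR p))) = ((cr p z : ℤ) : ℝ) / iNm (toR p) := by
    simp only [iDp, iLt, nrm, iNm, cr, toR]
    push_cast
    ring
  have e3 : (s : ℝ) * (((cr p z : ℤ) : ℝ) / iNm (toR p)) =
      ((s * cr p z : ℤ) : ℝ) / iNm (toR p) := by
    push_cast
    ring
  unfold iLR
  rw [e1, e2, e3, div_lt_iff₀ hn, div_lt_iff₀ hn, zero_mul, div_eq_zero_iff]
  have hn' : iNm (toR p) ≠ 0 := hn.ne'
  constructor
  · rintro (h | ⟨h, h'⟩)
    · exact Or.inl (by exact_mod_cast h)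
    · refine Or.inr ⟨?_, by exact_mod_cast h'⟩
      have := h.resolve_right hn'
      exact_mod_cast this
  · rintro (h | ⟨h, h'⟩)
    · exact Or.inl (by exact_mod_cast h)
    · exact Or.inr ⟨Or.inl (by exact_mod_cast h), by exact_mod_cast h'⟩

theorem iso_of_un {U : Fam} {p : ℤ × ℤ} (hp : p ≠ 0) (h1 : Un 1 U p) (h2 : Un (-1) U p) :
    Isolated U (nrm (toR p)) := by
  obtain ⟨X, hX, hx⟩ := h1
  obtain ⟨Y, hY, hy⟩ := h2
  refine iIsolated_of (nrm_mem (toR_ne hp)) ⟨X, hX, fun z hz => ?_⟩ ⟨Y, hY, fun z hz => ?_⟩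
  · have := (iLR_iff hp 1 z).2 (hx z hz)
    rwa [Int.cast_one] at this
  · have := (iLR_iff hp (-1) z).2 (hy z hz)
    rwa [Int.cast_neg, Int.cast_one] at this

theorem un_of_iso {U : Fam} {p : ℤ × ℤ} (hp : p ≠ 0) (h : Isolated U (nrm (toR p))) :
    Un 1 U p ∧ Un (-1) U p := by
  have key : ∀ s : ℤ, s ≠ 0 → Un s U p := by
    intro s hs
    by_contra hcon
    refine iNot_isolated (s := (s : ℝ)) (nrm_mem (toR_ne hp)) (by exact_mod_cast hs) ?_ h
    rintro ⟨X, hX, hx⟩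
    exact hcon ⟨X, hX, fun z hz => (iLR_iff hp s z).1 (hx z hz)⟩
  exact ⟨key 1 one_ne_zero, key (-1) (by norm_num)⟩

end Pool.Agent.BPM
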