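import Pool.Agent.BPM.SpaceD
import Pool.Agent.PF.Int

/-!
# Quantified Boolean formulas of exponential length are evaluated in exponential space
-/

set_option autoImplicit false

namespace Pool.Agent.BPM

open Turing Pool.Agent.PF Pool.Agent.PT Pool.Agent.BPD
open Pool.Agent

/-- The value of the quantified formula with matrix `φ`, `n` further variables after the assignment
`l`; the `i`-th variable is quantified existentially if `q i = true` and universally otherwise. -/
def QVal (q : ℕ → Bool) (φ : List Bool → Bool) : ℕ → List Bool → Bool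
  | 0, l => φ l
  | n + 1, l => if q l.length = true then QVal q φ n (l ++ [false]) || QVal q φ n (l ++ [true])
      else QVal q φ n (l ++ [false]) && QVal q φ n (l ++ [true])

theorem QVal_ex (q : ℕ → Bool) (φ : List Bool → Bool) (n m : ℕ) :
    ∀ l : List Bool, (∀ i < n, q (l.length + i) = true) →
      (QVal q φ (n + m) l = true ↔ ∃ w : List Bool, w.length = n ∧ QVal q φ m (l ++ w) = true) := by
  induction n with
  | zero =>
    intro l _
    simp
  | succ n ih =>
    intro l hq
    have e : n + 1 + m = (n + m) + 1 := by ring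
    have h0 : q l.length = true := by simpa using hq 0 (by omega)
    rw [e]
    simp only [QVal, h0, if_true, Bool.or_eq_true]
    have h1 : ∀ b : Bool, QVal q φ (n + m) (l ++ [b]) = true ↔
        ∃ w : List Bool, w.length = n ∧ QVal q φ m (l ++ (b :: w)) = true := by
      intro b
      rw [ih (l ++ [b]) (fun i hi => by
        have := hq (i + 1) (by omega)
        rw [List.length_append, List.length_singleton]
        convert this using 2
        ring)]
      simp
    rw [h1, h1]
    constructor
    · rintro (⟨w, hw, h⟩ | ⟨w, hw, h⟩)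
      · exact ⟨false :: w, by simp [hw], h⟩
      · exact ⟨true :: w, by simp [hw], h⟩
    · rintro ⟨w, hw, h⟩
      rcases w with _ | ⟨b, w⟩
      · simp at hw
      · have hw' : w.length = n := by simpa using hw
        cases b
        · exact Or.inl ⟨w, hw', h⟩
        · exact Or.inr ⟨w, hw', h⟩

theorem QVal_all (q : ℕ → Bool) (φ : List Bool → Bool) (n m : ℕ) :
    ∀ l : List Bool, (∀ i < n, q (l.length + i) = false) →
      (QVal q φ (n + m) l = true ↔ ∀ w : List Bool, w.length = n → QVal q φ m (l ++ w) = true) := by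
  induction n with
  | zero =>
    intro l _
    simp
  | succ n ih =>
    intro l hq
    have e : n + 1 + m = (n + m) + 1 := by ring
    have h0 : q l.length = false := by simpa using hq 0 (by omega)
    rw [e]
    simp only [QVal, h0, Bool.false_eq_true, if_false, Bool.and_eq_true]
    have h1 : ∀ b : Bool, QVal q φ (n + m) (l ++ [b]) = true ↔
        ∀ w : List Bool, w.length = n → QVal q φ m (l ++ (b :: w)) = true := by
      intro b
      rw [ih (l ++ [b]) (fun i hi => by
        have := hq (i + 1) (by omega)
        rw [List.length_append, List.length_singleton]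
        convert this using 2
        ring)]
      simp
    rw [h1, h1]
    constructor
    · rintro ⟨h, h'⟩ w hw
      rcases w with _ | ⟨b, w⟩
      · simp at hw
      · have hw' : w.length = n := by simpa using hw
        cases b
        · exact h w hw'
        · exact h' w hw'
    · intro h
      exact ⟨fun w hw => h _ (by simp [hw]), fun w hw => h _ (by simp [hw])⟩

/-- The states of the evaluation: the input, the number of variables left, the direction, the value,
and the path with the bits and the values of the finished left branches. -/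
private abbrev QS : Type := (List Bool × ℕ) × ℕ × Bool × Bool × List (Bool × Bool)

variable (q : (List Bool × ℕ) × ℕ → Bool) (φ : (List Bool × ℕ) × List Bool → Bool)

/-- One step of the evaluation. -/
private def qstep (s : QS) : QS :=
  if s.2.2.1 = true then
    (if (s.2.2.2.2.headD (false, false)).1 = true then
      (s.1, s.2.1 + 1, true,
        (if q (s.1, s.2.2.2.2.length - 1) = true then
          (s.2.2.2.2.headD (false, false)).2 || s.2.2.2.1 else
          (s.2.2.2.2.headD (false, false)).2 && s.2.2.2.1), s.2.2.2.2.tail)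
    else (s.1, s.2.1, false, false, (true, s.2.2.2.1) :: s.2.2.2.2.tail))
  else
    (if s.2.1 = 0 then
      (s.1, s.2.1, true, φ (s.1, (s.2.2.2.2.map Prod.fst).reverse), s.2.2.2.2)
    else (s.1, s.2.1 - 1, false, false, (false, false) :: s.2.2.2.2))

private theorem qstep_PF {q : (List Bool × ℕ) × ℕ → Bool} {φ : (List Bool × ℕ) × List Bool → Bool}
    (hq : PF q) (hφ : PF φ) : PF (qstep q φ) := by
  unfold qstep
  fun_prop

private def QR (F : QS → QS) (P : QS → Prop) (s s' : QS) : Prop :=
  ∃ k, F^[k] s = s' ∧ ∀ i < k, P (F^[i] s)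

private theorem QR.step {F : QS → QS} {P : QS → Prop} {s s' : QS} (h : P s) (h' : F s = s') :
    QR F P s s' :=
  ⟨1, h', fun i hi => by
    have : i = 0 := by omega
    subst this
    exact h⟩

private theorem QR.trans {F : QS → QS} {P : QS → Prop} {s s' s'' : QS} (h : QR F P s s')
    (h' : QR F P s' s'') : QR F P s s'' := by
  obtain ⟨k, hk, h1⟩ := h
  obtain ⟨k', hk', h2⟩ := h'
  refine ⟨k' + k, by rw [Function.iterate_add_apply, hk, hk'], fun i hi => ?_⟩
  rcases lt_or_ge i k with h3 | h3
  · exact h1 i h3
  · obtain ⟨j, rfl⟩ := Nat.exists_eq_add_of_le h3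
    rw [Nat.add_comm, Function.iterate_add_apply, hk]
    exact h2 j (by omega)

private theorem QR.mono {F : QS → QS} {P P' : QS → Prop} {s s' : QS} (h : QR F P s s')
    (hP : ∀ t, P t → P' t) : QR F P' s s' := by
  obtain ⟨k, hk, h1⟩ := h
  exact ⟨k, hk, fun i hi => hP _ (h1 i hi)⟩

/-- The states on the way: `L` is the number of all variables, and the path is longer than `m` when the
value is returned. -/
private def QG (y : List Bool × ℕ) (L m : ℕ) (s : QS) : Prop :=
  s.1 = y ∧ s.2.1 + s.2.2.2.2.length = L ∧ (s.2.2.1 = false ∨ m < s.2.2.2.2.length)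

private theorem qrun (y : List Bool × ℕ) : ∀ (r : ℕ) (p : List (Bool × Bool)),
    QR (qstep q φ) (QG y (r + p.length) p.length) (y, r, false, false, p)
      (y, r, true, QVal (fun i => q (y, i)) (fun l => φ (y, l)) r (p.map Prod.fst).reverse, p) := by
  intro r
  induction r with
  | zero =>
    intro p
    refine QR.step ⟨rfl, rfl, Or.inl rfl⟩ ?_
    simp [qstep, QVal]
  | succ r ih =>
    intro p
    have hmono : ∀ (c : Bool × Bool) (t : QS), QG y (r + (c :: p).length) (c :: p).length t →
        QG y (r + 1 + p.length) p.length t := by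
      rintro c t ⟨h1, h2, h3⟩
      rw [List.length_cons] at h2 h3
      exact ⟨h1, by omega, h3.imp id (fun h => by omega)⟩
    have a1 : QR (qstep q φ) (QG y (r + 1 + p.length) p.length) (y, r + 1, false, false, p)
        (y, r, false, false, (false, false) :: p) :=
      QR.step ⟨rfl, rfl, Or.inl rfl⟩ (by simp [qstep])
    have a2 := (ih ((false, false) :: p)).mono (hmono _)
    set v0 := QVal (fun i => q (y, i)) (fun l => φ (y, l)) r
      (((false, false) :: p).map Prod.fst).reverse with hv0
    have a3 : QR (qstep q φ) (QG y (r + 1 + p.length) p.length)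
        (y, r, true, v0, (false, false) :: p) (y, r, false, false, (true, v0) :: p) :=
      QR.step ⟨rfl, by simp; omega, Or.inr (by simp)⟩ (by simp [qstep])
    have a4 := (ih ((true, v0) :: p)).mono (hmono _)
    set v1 := QVal (fun i => q (y, i)) (fun l => φ (y, l)) r
      (((true, v0) :: p).map Prod.fst).reverse with hv1
    have a5 : QR (qstep q φ) (QG y (r + 1 + p.length) p.length)
        (y, r, true, v1, (true, v0) :: p) (y, r + 1, true,
          QVal (fun i => q (y, i)) (fun l => φ (y, l)) (r + 1) (p.map Prod.fst).reverse, p) := by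
      refine QR.step ⟨rfl, by simp; omega, Or.inr (by simp)⟩ ?_
      have e0 : (((false, false) :: p).map Prod.fst).reverse =
          (p.map Prod.fst).reverse ++ [false] := by simp
      have e1 : (((true, v0) :: p).map Prod.fst).reverse = (p.map Prod.fst).reverse ++ [true] := by
        simp
      rw [e0] at hv0
      rw [e1] at hv1
      simp only [QVal, ← hv0, ← hv1]
      simp [qstep]
    exact a1.trans (a2.trans (a3.trans (a4.trans a5)))

private theorem Qbf_list_size (p : List (Bool × Bool)) : (enc p : V).size ≤ 8 * p.length + 1 := by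
  induction p with
  | nil => exact le_rfl
  | cons a l ih =>
    have h1 : (enc (a :: l) : V).size = (enc a : V).size + (enc l : V).size + 1 := rfl
    have h2 : (enc a : V).size ≤ 7 := by
      obtain ⟨b, c⟩ := a
      have : (enc (b, c) : V).size = (V.bool b).size + (V.bool c).size + 1 := rfl
      rw [this]
      cases b <;> cases c <;> simp [V.bool, V.size]
    rw [h1, List.length_cons]
    omega

private theorem Qbf_size (s : QS) : sz s ≤ sz s.1 + 2 * s.2.1 + 8 * s.2.2.2.2.length + 12 := by
  obtain ⟨y, r, u, v, p⟩ := s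
  have h1 : sz ((y, r, u, v, p) : QS) = sz y + ((V.una r).size + ((V.bool u).size +
      ((V.bool v).size + (enc p : V).size + 1) + 1) + 1) + 1 := rfl
  have h2 : (V.bool u).size ≤ 3 := by cases u <;> simp [V.bool, V.size]
  have h3 : (V.bool v).size ≤ 3 := by cases v <;> simp [V.bool, V.size]
  have h4 := Qbf_list_size p
  rw [h1, V.size_una]
  change sz y + _ + 1 ≤ sz y + 2 * r + 8 * p.length + 12
  omega

/-- **Evaluation in exponential space.** -/
theorem inESPACE_of_qbf {nv : List Bool × ℕ → ℕ} {q : (List Bool × ℕ) × ℕ → Bool}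
    {φ : (List Bool × ℕ) × List Bool → Bool} (hn : PF nv) (hq : PF q) (hφ : PF φ) :
    InESPACE {x : List Bool | QVal (fun i => q ((x, 2 ^ x.length), i))
      (fun l => φ ((x, 2 ^ x.length), l)) (nv (x, 2 ^ x.length)) [] = true} := by
  obtain ⟨c, hc⟩ := PF.size_le hn
  refine inESPACE_of_loop (S := QS) (init := fun y => (y, nv y, false, false, []))
    (step := qstep q φ) (run := fun s => !s.2.2.1 || !s.2.2.2.2.isEmpty) (ans := fun s => s.2.2.2.1)
    (by fun_prop) (qstep_PF hq hφ) (by fun_prop) (by fun_prop) (8 * (c + 1) + 8) fun x => ?_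
  obtain ⟨k, hk, hG⟩ := qrun q φ (x, 2 ^ x.length) (nv (x, 2 ^ x.length)) []
  refine ⟨k, fun i hi => ?_, ?_, ?_, fun i hi => ?_⟩
  · obtain ⟨h1, h2, h3⟩ := hG i hi
    rcases h3 with h3 | h3
    · simp only [h3, Bool.not_false, Bool.true_or]
    · have : ((qstep q φ)^[i] ((x, 2 ^ x.length), nv (x, 2 ^ x.length), false, false,
          [])).2.2.2.2.isEmpty = false := by
        rw [List.isEmpty_eq_false_iff]
        exact List.ne_nil_of_length_pos (by simpa using h3)
      rw [this]
      simp
  · simp only [hk]
    rfl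
  · simp only [hk]
    rfl
  · have hinv : ((qstep q φ)^[i] ((x, 2 ^ x.length), nv (x, 2 ^ x.length), false, false, [])).1 =
        (x, 2 ^ x.length) ∧ ((qstep q φ)^[i] ((x, 2 ^ x.length), nv (x, 2 ^ x.length), false,
        false, [])).2.1 + ((qstep q φ)^[i] ((x, 2 ^ x.length), nv (x, 2 ^ x.length), false, false,
        [])).2.2.2.2.length = nv (x, 2 ^ x.length) := by
      rcases hi.lt_or_eq with hi | rfl
      · obtain ⟨h1, h2, -⟩ := hG i hi
        exact ⟨h1, h2⟩
      · rw [hk]
        exact ⟨rfl, rfl⟩
    obtain ⟨h1, h2⟩ := hinv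
    have h3 := Qbf_size ((qstep q φ)^[i] ((x, 2 ^ x.length), nv (x, 2 ^ x.length), false, false, []))
    rw [h1] at h3
    refine h3.trans ?_
    have h4 := hc (x, 2 ^ x.length)
    have h5 : sz (nv (x, 2 ^ x.length)) = 2 * nv (x, 2 ^ x.length) + 1 := V.size_una _
    rw [h5] at h4
    have h6 : sz (x, 2 ^ x.length) = (enc x : V).size + (2 * 2 ^ x.length + 1) + 1 := by
      change (enc x : V).size + (V.una (2 ^ x.length)).size + 1 = _
      rw [V.size_una]
    have h7 := size_enc_le x
    have h8 : x.length + 1 ≤ 2 ^ x.length := Nat.lt_two_pow_self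
    set m := x.length + 1 with hm
    have h9 : 2 ^ m = 2 * 2 ^ x.length := by rw [hm, pow_succ]; ring
    have h10 : sz (x, 2 ^ x.length) + 2 ≤ 2 ^ (8 * m) := by
      have e1 : sz (x, 2 ^ x.length) + 2 ≤ 2 ^ m * 8 := by omega
      have e2 : 2 ^ m * 8 ≤ 2 ^ (8 * m) := by
        calc 2 ^ m * 8 = 2 ^ (m + 3) := by ring
          _ ≤ _ := Nat.pow_le_pow_right (by norm_num) (by omega)
      exact e1.trans e2
    have h11 : (sz (x, 2 ^ x.length) + 2) ^ c ≤ 2 ^ (8 * c * m) := by
      calc (sz (x, 2 ^ x.length) + 2) ^ c ≤ (2 ^ (8 * m)) ^ c := Nat.pow_le_pow_left h10 c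
        _ = 2 ^ (8 * c * m) := by rw [← pow_mul]; congr 1; ring
    have h12 : 2 ^ (8 * m) ≤ 2 ^ (8 * (c + 1) * m) :=
      Nat.pow_le_pow_right (by norm_num) (by nlinarith)
    have h13 : 2 ^ (8 * c * m) ≤ 2 ^ (8 * (c + 1) * m) :=
      Nat.pow_le_pow_right (by norm_num) (by nlinarith)
    have h14 : 2 ^ ((8 * (c + 1) + 8) * m) = 2 ^ (8 * (c + 1) * m) * 2 ^ (8 * m) := by
      rw [← pow_add]; congr 1; ring
    have h15 : 256 ≤ 2 ^ (8 * m) := by
      calc 256 = 2 ^ 8 := by norm_num
        _ ≤ _ := Nat.pow_le_pow_right (by norm_num) (by omega)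
    have h16 : 1 ≤ 2 ^ (8 * (c + 1) * m) := Nat.one_le_two_pow
    rw [h14]
    nlinarith [Nat.mul_le_mul_left (2 ^ (8 * (c + 1) * m)) h15]

end Pool.Agent.BPM
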