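import Pool.Agent.BPM.ReachA
import Pool.Agent.BPM.Qbf

/-!
# Reachability in implicit graphs in exponential space (Savitch)
-/

set_option autoImplicit false

namespace Pool.Agent.BPM

open Turing Pool.Agent.PF Pool.Agent.PT Pool.Agent.BPD
open Pool.Agent

section savitch

variable (M : ℕ)

/-- The choice of the half at the level `j`. -/
private def ctl (l : List Bool) (j : ℕ) : Bool := l.getD (2 * M + (M + 1) * j + M) false

/-- The middle vertex at the level `j`. -/
private def mid (l : List Bool) (j : ℕ) : List Bool := (l.drop (2 * M + (M + 1) * j)).take M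

/-- The pair of vertices after `j` levels. -/
private def pr (l : List Bool) : ℕ → List Bool × List Bool
  | 0 => (l.take M, (l.drop M).take M)
  | j + 1 => if ctl M l j = true then (mid M l j, (pr l j).2) else ((pr l j).1, mid M l j)

private theorem pr_append (l w : List Bool) (j : ℕ) (h : 2 * M + (M + 1) * j ≤ l.length) :
    pr M (l ++ w) j = pr M l j := by
  induction j with
  | zero =>
    have h1 : M ≤ l.length := by omega
    have h2 : M ≤ (l.drop M).length := by rw [List.length_drop]; omega
    simp only [pr]
    rw [List.take_append_of_le_length h1, List.drop_append_of_le_length h1,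
      List.take_append_of_le_length h2]
  | succ j ih =>
    have e : (M + 1) * (j + 1) = (M + 1) * j + (M + 1) := by ring
    have h1 : 2 * M + (M + 1) * j ≤ l.length := by omega
    have h2 : M ≤ (l.drop (2 * M + (M + 1) * j)).length := by rw [List.length_drop]; omega
    have h3 : 2 * M + (M + 1) * j + M < l.length := by omega
    have e1 : ctl M (l ++ w) j = ctl M l j := by
      unfold ctl
      exact List.getD_append _ _ _ _ h3
    have e2 : mid M (l ++ w) j = mid M l j := by
      unfold mid
      rw [List.drop_append_of_le_length h1, List.take_append_of_le_length h2]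
    simp only [pr, e1, e2, ih h1]

/-- The quantifiers. -/
private def qq (i : ℕ) : Bool := decide (i < 2 * M ∨ (i - 2 * M) % (M + 1) < M)

variable (E : List Bool → List Bool → Bool) (B : List Bool → List Bool → Bool)

/-- The matrix. -/
private def ph (l : List Bool) : Bool :=
  B (l.take M) ((l.drop M).take M) &&
    (decide ((pr M l M).1 = (pr M l M).2) || E (pr M l M).1 (pr M l M).2)

private theorem QVal_reach (k : ℕ) : ∀ (j : ℕ) (l : List Bool), j + k = M →
    l.length = 2 * M + (M + 1) * j →
    (QVal (qq M) (ph M E B) (k * (M + 1)) l = true ↔ B (l.take M) ((l.drop M).take M) = true ∧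
      RW (fun a b => E a b = true) M k (pr M l j).1 (pr M l j).2) := by
  induction k with
  | zero =>
    intro j l hj hl
    have : j = M := by omega
    subst this
    rw [Nat.zero_mul]
    simp [QVal, ph, RW]
  | succ k ih =>
    intro j l hj hl
    have e : (k + 1) * (M + 1) = M + (1 + k * (M + 1)) := by ring
    have hmod : ∀ t, t < M + 1 → (2 * M + (M + 1) * j + t - 2 * M) % (M + 1) = t := by
      intro t ht
      have : 2 * M + (M + 1) * j + t - 2 * M = t + (M + 1) * j := by omega
      rw [this, Nat.add_mul_mod_self_left, Nat.mod_eq_of_lt ht]
    have q1 : ∀ i < M, qq M (l.length + i) = true := by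
      intro i hi
      simp only [qq, hl, decide_eq_true_eq]
      right
      rw [hmod i (by omega)]
      exact hi
    have q2 : ∀ w : List Bool, w.length = M → ∀ i < 1, qq M ((l ++ w).length + i) = false := by
      intro w hw i hi
      have hi0 : i = 0 := by omega
      subst hi0
      simp only [qq, decide_eq_false_iff_not, List.length_append, hl, hw, Nat.add_zero, not_or]
      refine ⟨by omega, ?_⟩
      rw [hmod M (by omega)]
      omega
    rw [e, QVal_ex _ _ _ _ l q1]
    have hB : ∀ w : List Bool, (l ++ w).take M = l.take M ∧
        ((l ++ w).drop M).take M = (l.drop M).take M := by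
      intro w
      have h1 : M ≤ l.length := by omega
      have h2 : M ≤ (l.drop M).length := by rw [List.length_drop]; omega
      exact ⟨List.take_append_of_le_length h1, by
        rw [List.drop_append_of_le_length h1, List.take_append_of_le_length h2]⟩
    have hstep : ∀ w : List Bool, w.length = M → ∀ c : Bool,
        pr M (l ++ w ++ [c]) (j + 1) = if c = true then (w, (pr M l j).2) else ((pr M l j).1, w) := by
      intro w hw c
      have e1 : ctl M (l ++ w ++ [c]) j = c := by
        unfold ctl
        rw [List.getD_eq_getElem?_getD, List.getElem?_append_right (by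
          rw [List.length_append, hl, hw])]
        simp [hl, hw]
      have e2 : mid M (l ++ w ++ [c]) j = w := by
        unfold mid
        rw [List.append_assoc, ← hl, List.drop_left, ← hw, List.take_left]
      simp only [pr, e1, e2]
      rw [List.append_assoc, pr_append M l (w ++ [c]) j (by omega)]
    constructor
    · rintro ⟨w, hw, h⟩
      rw [QVal_all _ _ _ _ (l ++ w) (q2 w hw)] at h
      have e3 : (M + 1) * (j + 1) = (M + 1) * j + (M + 1) := by ring
      have h1 := h [true] rfl
      have h2 := h [false] rfl
      rw [ih (j + 1) _ (by omega) (by simp [hl, hw]; omega), hstep w hw] at h1 h2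
      rw [List.append_assoc, (hB _).1, (hB _).2] at h1 h2
      exact ⟨h1.1, w, hw, by simpa using h2.2, by simpa using h1.2⟩
    · rintro ⟨hb, w, hw, h1, h2⟩
      refine ⟨w, hw, ?_⟩
      rw [QVal_all _ _ _ _ (l ++ w) (q2 w hw)]
      intro c hc
      have e3 : (M + 1) * (j + 1) = (M + 1) * j + (M + 1) := by ring
      obtain ⟨c, rfl⟩ : ∃ b, c = [b] := by
        rcases c with _ | ⟨b, c⟩
        · simp at hc
        · have : c = [] := by simpa using hc
          exact ⟨b, by rw [this]⟩
      rw [ih (j + 1) _ (by omega) (by simp [hl, hw]; omega), hstep w hw, List.append_assoc,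
        (hB _).1, (hB _).2]
      refine ⟨hb, ?_⟩
      cases c
      · simpa using h1
      · simpa using h2

private theorem QVal_savitch :
    QVal (qq M) (ph M E B) (2 * M + M * (M + 1)) [] = true ↔
      ∃ u v : List Bool, u.length = M ∧ v.length = M ∧ B u v = true ∧
        Relation.ReflTransGen (EM (fun a b => E a b = true) M) u v := by
  rw [QVal_ex _ _ _ _ [] (fun i hi => by
    simp only [qq, decide_eq_true_eq]
    left
    simpa using hi)]
  constructor
  · rintro ⟨w, hw, h⟩
    rw [List.nil_append, QVal_reach M E B M 0 w (by omega) (by rw [hw]; ring)] at h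
    have h1 : (w.take M).length = M := by rw [List.length_take, hw]; omega
    have h2 : ((w.drop M).take M).length = M := by
      rw [List.length_take, List.length_drop, hw]; omega
    exact ⟨w.take M, (w.drop M).take M, h1, h2, h.1, (reach_iff h1 h2).2 h.2⟩
  · rintro ⟨u, v, hu, hv, hb, h⟩
    refine ⟨u ++ v, by rw [List.length_append, hu, hv]; ring, ?_⟩
    rw [List.nil_append, QVal_reach M E B M 0 (u ++ v) (by omega)
      (by rw [List.length_append, hu, hv]; ring)]
    have e1 : (u ++ v).take M = u := by rw [← hu, List.take_left]
    have e2 : ((u ++ v).drop M).take M = v := by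
      rw [← hu, List.drop_left, hu, ← hv, List.take_length]
    rw [e1, e2]
    refine ⟨hb, ?_⟩
    have e3 : pr M (u ++ v) 0 = (u, v) := by
      simp only [pr, e1, e2]
    rw [e3]
    exact (reach_iff hu hv).1 h

private theorem pr_find (l : List Bool) (k : ℕ) :
    pr M l k = (((List.range k).reverse.find? (fun j => ctl M l j)).elim (l.take M) (mid M l),
      ((List.range k).reverse.find? (fun j => !ctl M l j)).elim ((l.drop M).take M) (mid M l)) := by
  induction k with
  | zero => rfl
  | succ k ih =>
    rw [List.range_succ, List.reverse_append, List.reverse_singleton, List.singleton_append,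
      List.find?_cons, List.find?_cons]
    simp only [pr, ih]
    cases ctl M l k <;> simp

end savitch

private theorem eqL_PF {α : Type} [VEnc α] {f g : α → List Bool} (hf : PF f) (hg : PF g) :
    PF fun x => decide (f x = g x) := by
  have h : PF fun x => decide ((f x).length = (g x).length) &&
      (List.range (f x).length).all fun i =>
        ((f x).getD i false && (g x).getD i false) || (!((f x).getD i false) && !((g x).getD i false)) := by
    fun_prop
  have e : (fun x => decide (f x = g x)) = fun x => decide ((f x).length = (g x).length) &&
      (List.range (f x).length).all fun i =>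
        ((f x).getD i false && (g x).getD i false) ||
          (!((f x).getD i false) && !((g x).getD i false)) := by
    funext x
    rw [Bool.eq_iff_iff]
    simp only [decide_eq_true_eq, Bool.and_eq_true, List.all_eq_true, List.mem_range]
    constructor
    · rintro h
      rw [h]
      exact ⟨rfl, fun i _ => by cases (g x).getD i false <;> rfl⟩
    · rintro ⟨h1, h2⟩
      refine List.ext_getElem h1 fun i hi hi' => ?_
      have := h2 i hi
      rw [List.getD_eq_getElem _ _ hi, List.getD_eq_getElem _ _ hi'] at this
      revert this
      cases (f x)[i] <;> cases (g x)[i] <;> simp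
  rw [e]
  exact h

/-- **Reachability in exponential space.** -/
theorem inESPACE_of_reach {M : List Bool × ℕ → ℕ} {E B : (List Bool × ℕ) × List Bool × List Bool → Bool}
    (hM : PF M) (hE : PF E) (hB : PF B) :
    InESPACE {x : List Bool | ∃ u v : List Bool, u.length = M (x, 2 ^ x.length) ∧
      v.length = M (x, 2 ^ x.length) ∧ B ((x, 2 ^ x.length), u, v) = true ∧
      Relation.ReflTransGen (fun a b => a.length = M (x, 2 ^ x.length) ∧
        b.length = M (x, 2 ^ x.length) ∧ E ((x, 2 ^ x.length), a, b) = true) u v} := by
  have h := inESPACE_of_qbf (nv := fun y => 2 * M y + M y * (M y + 1))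
    (q := fun p => qq (M p.1) p.2)
    (φ := fun p => ph (M p.1) (fun a b => E (p.1, a, b)) (fun a b => B (p.1, a, b)) p.2)
    (by fun_prop) ?_ ?_
  · convert h using 1
    ext x
    exact (QVal_savitch (M (x, 2 ^ x.length)) (fun a b => E ((x, 2 ^ x.length), a, b))
      (fun a b => B ((x, 2 ^ x.length), a, b))).symm
  · have e : (fun p : (List Bool × ℕ) × ℕ => qq (M p.1) p.2) =
        fun p => decide (p.2 < 2 * M p.1) || decide ((p.2 - 2 * M p.1) % (M p.1 + 1) < M p.1) := by
      funext p
      rw [qq, Bool.decide_or]
    rw [e]
    fun_prop
  · unfold ph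
    simp only [pr_find]
    unfold mid ctl
    have := @eqL_PF
    fun_prop

end Pool.Agent.BPM
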