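import Pool.Agent.BPM.NatZ

/-!
# The tests for the steps of the certificate as functions of words

PROOFS: unfold and `fun_prop`, with the facts of `BPM/NatZ.lean` (`PF_dec`, `PF_supB`, `PF_ixB`); the parameters `q : Pr` are
`((N, B), (H, M))`. For speed prove the parts first.
-/

set_option autoImplicit false

namespace Pool.Agent.BPM

open Pool.Agent.BPD Pool.Agent.PF

/-- The cells with fold `B`. -/
def layL (B H : ℕ) : List (ℤ × ℤ) := (List.range (2 * H)).map fun k =>
  (if k < H then ((B : ℤ), (k : ℤ)) else (-1 - (B : ℤ), ((k - H : ℕ) : ℤ)))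

/-- The cells with fold at most `B`. -/
def iniL (B H : ℕ) : List (ℤ × ℤ) := (List.range ((2 * B + 2) * H)).map fun k =>
  (((k / H : ℕ) : ℤ) - 1 - (B : ℤ), ((k % H : ℕ) : ℤ))

/-- The number of unsupported cells. -/
def unsupB (c : Code) (q : Pr) (L : List (ℤ × ℤ)) (w : List Bool) : ℕ :=
  (L.filter fun x => decide (0 < dec q.2.2 w (ixB q.1.1 q.2.1 x)) && !supB c q w x).length

/-- Equality of Boolean values. -/
def beq' (a b : Bool) : Bool := (a && b) || (!a && !b)

/-- Consistency. -/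
def conB (q : Pr) (a b : List Bool) : Bool :=
  (List.range (4 * q.1.2 * q.2.1)).all fun k =>
    beq' (decide (dec q.2.2 a (k + 2 * q.2.1) = 0)) (decide (dec q.2.2 b k = 0)) &&
    (List.range (4 * q.1.2 * q.2.1)).all fun l =>
      beq' (decide (dec q.2.2 a (k + 2 * q.2.1) < dec q.2.2 a (l + 2 * q.2.1)))
        (decide (dec q.2.2 b k < dec q.2.2 b l))

/-- Consistency of the cuts. -/
def cutB (q : Pr) (a b : List Bool) : Bool :=
  (List.range (4 * q.1.2 * q.2.1)).all fun k => decide (dec q.2.2 b k = 0) ||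
    beq' (decide (dec q.2.2 a (k + 2 * q.2.1) ≤ dec q.2.2 a (nQ q.1.2 q.2.1)))
      (decide (dec q.2.2 b k ≤ dec q.2.2 b (nQ q.1.2 q.2.1)))

/-- Steps of the first part. -/
def r0B (c : Code) (q : Pr) (a b : List Bool) : Bool :=
  conB q a b && decide (dec q.2.2 b (nQ q.1.2 q.2.1 + 1) =
    dec q.2.2 a (nQ q.1.2 q.2.1 + 1) + unsupB c q (layL q.1.2 q.2.1) b)

/-- Steps of the periodic part. -/
def r1B (c : Code) (q : Pr) (a b : List Bool) : Bool :=
  conB q a b && (cutB q a b && decide (unsupB c q (layL q.1.2 q.2.1) b = 0))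

/-- The start. -/
def startB (c : Code) (q : Pr) (a : List Bool) : Bool :=
  decide (dec q.2.2 a (nQ q.1.2 q.2.1 + 1) = unsupB c q (iniL q.1.2 q.2.1) a)

/-- The end of the first part. -/
def endB (q : Pr) (K : ℕ) (v : List Bool) : Bool :=
  decide (dec q.2.2 v (nQ q.1.2 q.2.1 + 1) ≤ K) &&
    (((List.range (nQ q.1.2 q.2.1)).any fun k => decide (0 < dec q.2.2 v k)) &&
      (List.range (nQ q.1.2 q.2.1)).all fun k => decide (dec q.2.2 v k ≤ nQ q.1.2 q.2.1))

private theorem pf_repl {α : Type} [VEnc α] {n : α → ℕ} (hn : PF n) (b : Bool) :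
    PF fun a => List.replicate (n a) b := by
  have h : PF fun a => (List.range (n a)).map fun _ => b := by fun_prop
  have e : (fun a => List.replicate (n a) b) = fun a => (List.range (n a)).map fun _ => b := by
    funext a
    rw [List.map_const', List.length_range]
  rw [e]
  exact h

theorem PF_setB {α : Type} [VEnc α] {M k v : α → ℕ} {w : α → List Bool} (hM : PF M) (hk : PF k)
    (hv : PF v) (hw : PF w) : PF fun a => setB (M a) (k a) (v a) (w a) := by
  unfold setB
  have h1 := pf_repl hv true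
  have h2 := pf_repl (n := fun a => M a - v a) (by fun_prop) false
  fun_prop

theorem PF_nQ {α : Type} [VEnc α] {B H : α → ℕ} (hB : PF B) (hH : PF H) :
    PF fun a => nQ (B a) (H a) := by
  unfold nQ
  fun_prop

theorem PF_layL {α : Type} [VEnc α] {B H : α → ℕ} (hB : PF B) (hH : PF H) :
    PF fun a => layL (B a) (H a) := by
  unfold layL
  fun_prop

theorem PF_iniL {α : Type} [VEnc α] {B H : α → ℕ} (hB : PF B) (hH : PF H) :
    PF fun a => iniL (B a) (H a) := by
  unfold iniL
  fun_prop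

private theorem pf_beq {α : Type} [VEnc α] {f g : α → Bool} (hf : PF f) (hg : PF g) :
    PF fun x => beq' (f x) (g x) := by
  unfold beq'
  fun_prop

theorem PF_unsupB : PF fun r : (Code × Pr) × (List (ℤ × ℤ) × List Bool) =>
    unsupB r.1.1 r.1.2 r.2.1 r.2.2 := by
  unfold unsupB
  refine PF.length (PF.filter (f := fun r : (Code × Pr) × (List (ℤ × ℤ) × List Bool) => r.2.1)
    (by fun_prop) (PF.and ?_ (PF.not ?_)))
  · have h : PF fun p : ((Code × Pr) × (List (ℤ × ℤ) × List Bool)) × (ℤ × ℤ) =>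
        dec p.1.1.2.2.2 p.1.2.2 (ixB p.1.1.2.1.1 p.1.1.2.2.1 p.2) :=
      PF_dec (by fun_prop) (by fun_prop) (PF_ixB (by fun_prop) (by fun_prop) (by fun_prop))
    exact PF.ltN (by fun_prop) h
  · exact PF.comp' (f := fun p : ((Code × Pr) × (List (ℤ × ℤ) × List Bool)) × (ℤ × ℤ) =>
      ((p.1.1.1, p.1.1.2), (p.1.2.2, p.2))) PF_supB (by fun_prop)

theorem PF_conB : PF fun r : Pr × (List Bool × List Bool) => conB r.1 r.2.1 r.2.2 := by
  unfold conB
  refine PF.all (f := fun r : Pr × (List Bool × List Bool) => List.range (4 * r.1.1.2 * r.1.2.1))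
    (by fun_prop) (PF.and ?_ ?_)
  · exact pf_beq
      (PF.eqN (PF_dec (by fun_prop) (by fun_prop) (by fun_prop)) (by fun_prop))
      (PF.eqN (PF_dec (by fun_prop) (by fun_prop) (by fun_prop)) (by fun_prop))
  · refine PF.all (f := fun p : (Pr × (List Bool × List Bool)) × ℕ =>
      List.range (4 * p.1.1.1.2 * p.1.1.2.1)) (by fun_prop) ?_
    exact pf_beq
      (PF.ltN (PF_dec (by fun_prop) (by fun_prop) (by fun_prop))
        (PF_dec (by fun_prop) (by fun_prop) (by fun_prop)))
      (PF.ltN (PF_dec (by fun_prop) (by fun_prop) (by fun_prop))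
        (PF_dec (by fun_prop) (by fun_prop) (by fun_prop)))

theorem PF_cutB : PF fun r : Pr × (List Bool × List Bool) => cutB r.1 r.2.1 r.2.2 := by
  unfold cutB
  have hn : PF fun p : (Pr × (List Bool × List Bool)) × ℕ => nQ p.1.1.1.2 p.1.1.2.1 :=
    PF_nQ (by fun_prop) (by fun_prop)
  refine PF.all (f := fun r : Pr × (List Bool × List Bool) => List.range (4 * r.1.1.2 * r.1.2.1))
    (by fun_prop) (PF.or ?_ ?_)
  · exact PF.eqN (PF_dec (by fun_prop) (by fun_prop) (by fun_prop)) (by fun_prop)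
  · exact pf_beq
      (PF.leN (PF_dec (by fun_prop) (by fun_prop) (by fun_prop))
        (PF_dec (by fun_prop) (by fun_prop) hn))
      (PF.leN (PF_dec (by fun_prop) (by fun_prop) (by fun_prop))
        (PF_dec (by fun_prop) (by fun_prop) hn))

private theorem pf_con {α : Type} [VEnc α] {q : α → Pr} {a b : α → List Bool} (hq : PF q)
    (ha : PF a) (hb : PF b) : PF fun x => conB (q x) (a x) (b x) :=
  PF.comp' (f := fun x => (q x, (a x, b x))) PF_conB (by fun_prop)

private theorem pf_cut {α : Type} [VEnc α] {q : α → Pr} {a b : α → List Bool} (hq : PF q)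
    (ha : PF a) (hb : PF b) : PF fun x => cutB (q x) (a x) (b x) :=
  PF.comp' (f := fun x => (q x, (a x, b x))) PF_cutB (by fun_prop)

private theorem pf_uns {α : Type} [VEnc α] {c : α → Code} {q : α → Pr}
    {L : α → List (ℤ × ℤ)} {w : α → List Bool} (hc : PF c) (hq : PF q) (hL : PF L) (hw : PF w) :
    PF fun x => unsupB (c x) (q x) (L x) (w x) :=
  PF.comp' (f := fun x => ((c x, q x), (L x, w x))) PF_unsupB (by fun_prop)

theorem PF_r0B : PF fun r : (Code × Pr) × (List Bool × List Bool) =>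
    r0B r.1.1 r.1.2 r.2.1 r.2.2 := by
  unfold r0B
  have hn : PF fun r : (Code × Pr) × (List Bool × List Bool) =>
      nQ r.1.2.1.2 r.1.2.2.1 := PF_nQ (by fun_prop) (by fun_prop)
  have hl : PF fun r : (Code × Pr) × (List Bool × List Bool) =>
      layL r.1.2.1.2 r.1.2.2.1 := PF_layL (by fun_prop) (by fun_prop)
  refine PF.and (pf_con (by fun_prop) (by fun_prop) (by fun_prop)) (PF.eqN ?_ (PF.addN ?_ ?_))
  · exact PF_dec (by fun_prop) (by fun_prop) (PF.addN hn (by fun_prop))
  · exact PF_dec (by fun_prop) (by fun_prop) (PF.addN hn (by fun_prop))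
  · exact pf_uns (by fun_prop) (by fun_prop) hl (by fun_prop)

theorem PF_r1B : PF fun r : (Code × Pr) × (List Bool × List Bool) =>
    r1B r.1.1 r.1.2 r.2.1 r.2.2 := by
  unfold r1B
  have hl : PF fun r : (Code × Pr) × (List Bool × List Bool) =>
      layL r.1.2.1.2 r.1.2.2.1 := PF_layL (by fun_prop) (by fun_prop)
  refine PF.and (pf_con (by fun_prop) (by fun_prop) (by fun_prop))
    (PF.and (pf_cut (by fun_prop) (by fun_prop) (by fun_prop)) (PF.eqN ?_ (by fun_prop)))
  exact pf_uns (by fun_prop) (by fun_prop) hl (by fun_prop)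

theorem PF_startB : PF fun r : (Code × Pr) × List Bool => startB r.1.1 r.1.2 r.2 := by
  unfold startB
  have hn : PF fun r : (Code × Pr) × List Bool => nQ r.1.2.1.2 r.1.2.2.1 :=
    PF_nQ (by fun_prop) (by fun_prop)
  have hl : PF fun r : (Code × Pr) × List Bool => iniL r.1.2.1.2 r.1.2.2.1 :=
    PF_iniL (by fun_prop) (by fun_prop)
  exact PF.eqN (PF_dec (by fun_prop) (by fun_prop) (PF.addN hn (by fun_prop)))
    (pf_uns (by fun_prop) (by fun_prop) hl (by fun_prop))

theorem PF_endB : PF fun r : (Pr × ℕ) × List Bool => endB r.1.1 r.1.2 r.2 := by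
  unfold endB
  have hn : PF fun r : (Pr × ℕ) × List Bool => nQ r.1.1.1.2 r.1.1.2.1 :=
    PF_nQ (by fun_prop) (by fun_prop)
  have hn' : PF fun p : ((Pr × ℕ) × List Bool) × ℕ => nQ p.1.1.1.1.2 p.1.1.1.2.1 :=
    PF_nQ (by fun_prop) (by fun_prop)
  refine PF.and (PF.leN ?_ (by fun_prop)) (PF.and (PF.any (PF.range hn) ?_)
    (PF.all (PF.range hn) ?_))
  · exact PF_dec (by fun_prop) (by fun_prop) (PF.addN hn (by fun_prop))
  · exact PF.ltN (by fun_prop) (PF_dec (by fun_prop) (by fun_prop) (by fun_prop))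
  · exact PF.leN (PF_dec (by fun_prop) (by fun_prop) (by fun_prop)) hn'

end Pool.Agent.BPM
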