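import Pool.Agent.BPM.GraphP
import Pool.Agent.BPM.TestB
import Pool.Agent.BPM.ReachB

/-!
# The language of the membership theorem: definitions, exponential space

`c` is the code of the family, `K` the number (at most `T`), `T = 2 ^ |x|`.

PROOFS. The `PF` statements: unfold and `fun_prop`, with the facts of `BPM/TestB.lean`, `BPM/NatZ.lean`, `BPM/GraphP.lean` as
hypotheses in the context; `PF_gEc` is `PF_gE` with `α = (Code × (ℕ × ℕ)) × (List Bool × List Bool)`. `inESPACE_lang`: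
`inESPACE_of_reach` (`BPM/ReachB.lean`) with `M = fun y => gl y.2 (lT y.2)`, `E = fun r => gEc (D r.1).1 (D r.1).2 r.1.2 r.2.1 r.2.2`,
`B = fun r => gB r.1.2 (zsL (D r.1).1).length r.2.1 r.2.2`.
-/

set_option autoImplicit false

namespace Pool.Agent.BPM

open Pool.Agent.BPD Pool.Agent.PF

/-- The sites of the rules and their negatives. -/
def zsL (c : Code) : List (ℤ × ℤ) := c.flatten ++ c.flatten.map fun y => (-y.1, -y.2)

/-- The `i`-th site. -/
def yL (c : Code) (i : ℕ) : ℤ × ℤ := (zsL c).getD i (0, 0)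

/-- The `j`-th direction. -/
def pL (c : Code) (j : ℕ) : ℤ × ℤ := (-(yL c j).2, (yL c j).1)

/-- The condition for orthogonal directions. -/
def ogB (c : Code) (i j : ℕ) : Bool :=
  decide (dt (pL c j) (yL c i) ≠ 0) || unB (cr (pL c j) (yL c i)) c (pL c j)

/-- The direction `j` needs no growth. -/
def trB (c : Code) (i j : ℕ) : Bool :=
  ogB c i j && (decide (dt (pL c j) (yL c i) ≤ 0) || !stB c (pL c j))

/-- The direction `j` is admissible if there is growth. -/
def ntB (c : Code) (i j : ℕ) : Bool :=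
  ogB c i j && (unB 1 c (pL c j) && unB (-1) c (pL c j))

/-- The bound for the coordinates of the transformed rules. -/
def bT (T : ℕ) : ℕ := 2 * T * T

/-- The height of the strip. -/
def hT (T : ℕ) : ℕ := (T + 1) * (12 * (bT T * bT T * bT T) * T + 2 * bT T + 1)

/-- The number of the cells of a window. -/
def nT (T : ℕ) : ℕ := nQ (bT T) (hT T)

/-- The parameters. -/
def qT (T : ℕ) : Pr := ((nT T, bT T), (hT T, nT T + T))

/-- The length of the words. -/
def lT (T : ℕ) : ℕ := (nT T + 2) * (nT T + T)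

/-- The start of the first walk. -/
def stC (c : Code) (T j : ℕ) (w : List Bool) : Bool := startB (psiC (pL c j) c) (qT T) w

/-- The steps of the first walk. -/
def r0C (c : Code) (T j : ℕ) (u v : List Bool) : Bool := r0B (psiC (pL c j) c) (qT T) u v

/-- The steps of the second walk. -/
def r1C (c : Code) (T j : ℕ) (u v : List Bool) : Bool := r1B (psiC (pL c j) c) (qT T) u v

/-- The start of the second walk. -/
def topC (T : ℕ) (w : List Bool) : List Bool := setB (nT T + T) (nT T) (nT T) w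

/-- The end of the second walk. -/
def botC (T : ℕ) (w : List Bool) : List Bool := setB (nT T + T) (nT T) 0 w

/-- The edges. -/
def gEc (c : Code) (K T : ℕ) (x y : List Bool) : Bool :=
  gE T (lT T) (zsL c).length (trB c) (ntB c) (stC c T) (endB (qT T) K) (r0C c T) (r1C c T)
    (topC T) (botC T) x y

/-- The vertices have length `gl T (lT T)`; there is a path. -/
def Acc (c : Code) (K T : ℕ) : Prop :=
  ∃ u v : List Bool, u.length = gl T (lT T) ∧ v.length = gl T (lT T) ∧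
    gB T (zsL c).length u v = true ∧
    Relation.ReflTransGen (fun x y : List Bool => x.length = gl T (lT T) ∧
      y.length = gl T (lT T) ∧ gEc c K T x y = true) u v

theorem PF_zsL : PF zsL := by
  unfold zsL
  fun_prop

theorem PF_pL : PF (fun r : Code × ℕ => yL r.1 r.2) ∧ PF (fun r : Code × ℕ => pL r.1 r.2) := by
  have h1 : PF (fun r : Code × ℕ => yL r.1 r.2) :=
    PF.getD (PF_zsL.comp' (by fun_prop)) (by fun_prop) (by fun_prop)
  exact ⟨h1, PF.prodMk h1.snd.negZ h1.fst⟩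

private theorem PF_ogB : PF (fun r : Code × (ℕ × ℕ) => ogB r.1 r.2.1 r.2.2) := by
  have hy : PF (fun r : Code × (ℕ × ℕ) => yL r.1 r.2.1) :=
    PF.comp' (f := fun r : Code × (ℕ × ℕ) => (r.1, r.2.1)) PF_pL.1 (by fun_prop)
  have hp : PF (fun r : Code × (ℕ × ℕ) => pL r.1 r.2.2) :=
    PF.comp' (f := fun r : Code × (ℕ × ℕ) => (r.1, r.2.2)) PF_pL.2 (by fun_prop)
  have hdt : PF (fun r : Code × (ℕ × ℕ) => dt (pL r.1 r.2.2) (yL r.1 r.2.1)) :=
    (hp.fst.mulZ hy.fst).addZ (hp.snd.mulZ hy.snd)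
  have hcr : PF (fun r : Code × (ℕ × ℕ) => cr (pL r.1 r.2.2) (yL r.1 r.2.1)) :=
    (hp.fst.mulZ hy.snd).subZ (hp.snd.mulZ hy.fst)
  have hun : PF (fun r : Code × (ℕ × ℕ) =>
      unB (cr (pL r.1 r.2.2) (yL r.1 r.2.1)) r.1 (pL r.1 r.2.2)) :=
    PF.comp' (f := fun r : Code × (ℕ × ℕ) =>
      (cr (pL r.1 r.2.2) (yL r.1 r.2.1), (r.1, pL r.1 r.2.2))) PF_unB
      (hcr.prodMk (PF.prodMk (by fun_prop) hp))
  exact PF.or (PF.decNot (hdt.eqZ (PF.const' 0))) hun

theorem PF_trB : PF (fun r : Code × (ℕ × ℕ) => trB r.1 r.2.1 r.2.2) ∧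
    PF (fun r : Code × (ℕ × ℕ) => ntB r.1 r.2.1 r.2.2) := by
  have hy : PF (fun r : Code × (ℕ × ℕ) => yL r.1 r.2.1) :=
    PF.comp' (f := fun r : Code × (ℕ × ℕ) => (r.1, r.2.1)) PF_pL.1 (by fun_prop)
  have hp : PF (fun r : Code × (ℕ × ℕ) => pL r.1 r.2.2) :=
    PF.comp' (f := fun r : Code × (ℕ × ℕ) => (r.1, r.2.2)) PF_pL.2 (by fun_prop)
  have hdt : PF (fun r : Code × (ℕ × ℕ) => dt (pL r.1 r.2.2) (yL r.1 r.2.1)) :=
    (hp.fst.mulZ hy.fst).addZ (hp.snd.mulZ hy.snd)
  have hst : PF (fun r : Code × (ℕ × ℕ) => stB r.1 (pL r.1 r.2.2)) :=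
    PF.comp' (f := fun r : Code × (ℕ × ℕ) => (r.1, pL r.1 r.2.2)) PF_stB
      (PF.prodMk (by fun_prop) hp)
  have hun : ∀ s : ℤ, PF (fun r : Code × (ℕ × ℕ) => unB s r.1 (pL r.1 r.2.2)) := fun s =>
    PF.comp' (f := fun r : Code × (ℕ × ℕ) => (s, (r.1, pL r.1 r.2.2))) PF_unB
      ((PF.const' s).prodMk (PF.prodMk (by fun_prop) hp))
  exact ⟨PF_ogB.and (PF.or (hdt.leZ (PF.const' 0)) hst.not),
    PF_ogB.and ((hun 1).and (hun (-1)))⟩

private theorem PF_bT : PF bT := by
  unfold bT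
  fun_prop

private theorem PF_hT : PF hT := by
  have h := PF_bT
  unfold hT
  fun_prop

theorem PF_qT : PF qT ∧ PF lT ∧ PF nT := by
  have h0 := PF_bT
  have h1 := PF_hT
  have h2 : PF nT := PF_nQ PF_bT PF_hT
  refine ⟨?_, ?_, h2⟩
  · unfold qT
    fun_prop
  · unfold lT
    fun_prop

private theorem PF_psC {α : Type} [VEnc α] {c : α → Code} {j : α → ℕ} (hc : PF c) (hj : PF j) :
    PF fun a => psiC (pL (c a) (j a)) (c a) :=
  PF.comp' (f := fun a => (pL (c a) (j a), c a)) PF_psiC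
    (PF.prodMk (PF.comp' (f := fun a => (c a, j a)) PF_pL.2 (PF.prodMk hc hj)) hc)

private theorem PF_q {α : Type} [VEnc α] {T : α → ℕ} (hT : PF T) : PF fun a => qT (T a) :=
  PF_qT.1.comp' hT

private theorem PF_stC {α : Type} [VEnc α] {c : α → Code} {T j : α → ℕ} {w : α → List Bool}
    (hc : PF c) (hT : PF T) (hj : PF j) (hw : PF w) : PF fun a => stC (c a) (T a) (j a) (w a) :=
  PF.comp' (f := fun a => ((psiC (pL (c a) (j a)) (c a), qT (T a)), w a)) PF_startB
    (PF.prodMk (PF.prodMk (PF_psC hc hj) (PF_q hT)) hw)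

private theorem PF_r0C {α : Type} [VEnc α] {c : α → Code} {T j : α → ℕ} {u v : α → List Bool}
    (hc : PF c) (hT : PF T) (hj : PF j) (hu : PF u) (hv : PF v) :
    PF fun a => r0C (c a) (T a) (j a) (u a) (v a) :=
  PF.comp' (f := fun a => ((psiC (pL (c a) (j a)) (c a), qT (T a)), (u a, v a))) PF_r0B
    (PF.prodMk (PF.prodMk (PF_psC hc hj) (PF_q hT)) (PF.prodMk hu hv))

private theorem PF_r1C {α : Type} [VEnc α] {c : α → Code} {T j : α → ℕ} {u v : α → List Bool}
    (hc : PF c) (hT : PF T) (hj : PF j) (hu : PF u) (hv : PF v) :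
    PF fun a => r1C (c a) (T a) (j a) (u a) (v a) :=
  PF.comp' (f := fun a => ((psiC (pL (c a) (j a)) (c a), qT (T a)), (u a, v a))) PF_r1B
    (PF.prodMk (PF.prodMk (PF_psC hc hj) (PF_q hT)) (PF.prodMk hu hv))

theorem PF_gEc : PF fun r : (Code × (ℕ × ℕ)) × (List Bool × List Bool) =>
    gEc r.1.1 r.1.2.1 r.1.2.2 r.2.1 r.2.2 := by
  have hl : PF fun a : (Code × (ℕ × ℕ)) × (List Bool × List Bool) => lT a.1.2.2 :=
    PF_qT.2.1.comp' (by fun_prop)
  have hn : PF fun a : (Code × (ℕ × ℕ)) × (List Bool × List Bool) => (zsL a.1.1).length :=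
    PF.length (PF_zsL.comp' (by fun_prop))
  have hN : PF fun p : ((Code × (ℕ × ℕ)) × (List Bool × List Bool)) × List Bool =>
      nT p.1.1.2.2 := PF_qT.2.2.comp' (by fun_prop)
  have hM : PF fun p : ((Code × (ℕ × ℕ)) × (List Bool × List Bool)) × List Bool =>
      nT p.1.1.2.2 + p.1.1.2.2 := by
    have h := hN
    fun_prop
  exact PF_gE (α := (Code × (ℕ × ℕ)) × (List Bool × List Bool))
    (T := fun a => a.1.2.2) (l := fun a => lT a.1.2.2) (n := fun a => (zsL a.1.1).length)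
    (tr := fun p => trB p.1.1.1 p.2.1 p.2.2) (nt := fun p => ntB p.1.1.1 p.2.1 p.2.2)
    (st := fun p => stC p.1.1.1 p.1.1.2.2 p.2.1 p.2.2)
    (en := fun p => endB (qT p.1.1.2.2) p.1.1.2.1 p.2)
    (r0 := fun p => r0C p.1.1.1 p.1.1.2.2 p.2.1 p.2.2.1 p.2.2.2)
    (r1 := fun p => r1C p.1.1.1 p.1.1.2.2 p.2.1 p.2.2.1 p.2.2.2)
    (top := fun p => topC p.1.1.2.2 p.2) (bot := fun p => botC p.1.1.2.2 p.2)
    (x := fun a => a.2.1) (y := fun a => a.2.2)
    (by fun_prop) hl hn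
    (PF.comp' (f := fun p : ((Code × (ℕ × ℕ)) × (List Bool × List Bool)) × (ℕ × ℕ) =>
      (p.1.1.1, p.2)) PF_trB.1 (by fun_prop))
    (PF.comp' (f := fun p : ((Code × (ℕ × ℕ)) × (List Bool × List Bool)) × (ℕ × ℕ) =>
      (p.1.1.1, p.2)) PF_trB.2 (by fun_prop))
    (PF_stC (by fun_prop) (by fun_prop) (by fun_prop) (by fun_prop))
    (PF.comp' (f := fun p : ((Code × (ℕ × ℕ)) × (List Bool × List Bool)) × List Bool =>
      ((qT p.1.1.2.2, p.1.1.2.1), p.2)) PF_endB
      (PF.prodMk (PF.prodMk (PF_q (by fun_prop)) (by fun_prop)) (by fun_prop)))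
    (PF_r0C (by fun_prop) (by fun_prop) (by fun_prop) (by fun_prop) (by fun_prop))
    (PF_r1C (by fun_prop) (by fun_prop) (by fun_prop) (by fun_prop) (by fun_prop))
    (PF_setB hM hN hN (by fun_prop)) (PF_setB hM hN (PF.const' 0) (by fun_prop))
    (by fun_prop) (by fun_prop)

theorem inESPACE_lang {D : List Bool × ℕ → Code × ℕ} (hD : PF D) :
    InESPACE {x : List Bool | Acc (D (x, 2 ^ x.length)).1 (D (x, 2 ^ x.length)).2
      (2 ^ x.length)} := by
  have hlT := PF_qT.2.1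
  have hM : PF fun y : List Bool × ℕ => gl y.2 (lT y.2) := by
    unfold gl
    fun_prop
  have hE : PF fun r : (List Bool × ℕ) × List Bool × List Bool =>
      gEc (D r.1).1 (D r.1).2 r.1.2 r.2.1 r.2.2 :=
    PF.comp' (f := fun r : (List Bool × ℕ) × List Bool × List Bool =>
      (((D r.1).1, ((D r.1).2, r.1.2)), (r.2.1, r.2.2))) PF_gEc (by fun_prop)
  have hB : PF fun r : (List Bool × ℕ) × List Bool × List Bool =>
      gB r.1.2 (zsL (D r.1).1).length r.2.1 r.2.2 :=
    PF_gB (by fun_prop) (PF.length (PF_zsL.comp' (by fun_prop))) (by fun_prop) (by fun_prop)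
  exact inESPACE_of_reach hM hE hB

end Pool.Agent.BPM
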