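import Pool.Agent.BPM.Defs
import Pool.Agent.BPD.CloA

/-!
# The coordinates along and above the line of a direction

Everything with `V = Upsi p U`, `e = (0, 1)`: `dt x e = x.2`, so `halfZ e = {x | x.2 < 0}`. The
map `psi p` is additive and injective for `p ≠ 0`, and `(psi p x).2 = dt x p`.

PROOF of `admP_psi_mp`. Let `Z` be given for `U`; take `Z' = psi p '' Z`. `encard` of an image is at
most the `encard`. Disjoint: clear. `psi p x ∈ clo V (halfZ e ∪ Z')` for all
`x ∈ clo U (halfZ p ∪ Z)` (`clo_least` with `P = {x | psi p x ∈ ..}`, `clo_rule` with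
`X.image (psi p)`), and `psi p` is injective, so the set for `V` is infinite.
-/

set_option autoImplicit false

namespace Pool.Agent.BPM

open Pool.Agent.BPD Set

theorem psi_add (p x y : ℤ × ℤ) : psi p (x + y) = psi p x + psi p y := by
  unfold psi cr dt
  ext
  · simp only [Prod.fst_add, Prod.snd_add]
    ring
  · simp only [Prod.fst_add, Prod.snd_add]
    ring

theorem psi_inj {p : ℤ × ℤ} (hp : p ≠ 0) : Function.Injective (psi p) := by
  intro x y h
  obtain ⟨p1, p2⟩ := p
  obtain ⟨x1, x2⟩ := x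
  obtain ⟨y1, y2⟩ := y
  simp only [psi, cr, dt, Prod.mk.injEq] at h
  obtain ⟨h1, h2⟩ := h
  have hpos : 0 < p1 * p1 + p2 * p2 := by
    have h0 : p1 ≠ 0 ∨ p2 ≠ 0 := by
      by_contra hcon
      push Not at hcon
      exact hp (Prod.ext hcon.1 hcon.2)
    rcases h0 with h0 | h0
    · have := mul_self_pos.2 h0
      nlinarith [mul_self_nonneg p2]
    · have := mul_self_pos.2 h0
      nlinarith [mul_self_nonneg p1]
  have e1 : (p1 * p1 + p2 * p2) * (x1 - y1) = 0 := by
    linear_combination p1 * h2 - p2 * h1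
  have e2 : (p1 * p1 + p2 * p2) * (x2 - y2) = 0 := by
    linear_combination p1 * h1 + p2 * h2
  have f1 : x1 - y1 = 0 := (mul_eq_zero.1 e1).resolve_left hpos.ne'
  have f2 : x2 - y2 = 0 := (mul_eq_zero.1 e2).resolve_left hpos.ne'
  ext
  · exact sub_eq_zero.1 f1
  · exact sub_eq_zero.1 f2

/-- The scalar product with the upward direction is the second coordinate. -/
private theorem psi_dt_e (x : ℤ × ℤ) : dt x (0, 1) = x.2 := by
  unfold dt
  simp only [mul_zero, mul_one, zero_add]

/-- The image of the half plane of `p`. -/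
private theorem psi_mem_half {p x : ℤ × ℤ} : psi p x ∈ halfZ (0, 1) ↔ x ∈ halfZ p := by
  change dt (psi p x) (0, 1) < 0 ↔ dt x p < 0
  rw [psi_dt_e]
  exact Iff.rfl

theorem admP_psi_mp {U : Fam} {p : ℤ × ℤ} (hp : p ≠ 0) {K : ℕ} (h : AdmP U p K) :
    AdmP (Upsi p U) (0, 1) K := by
  obtain ⟨Z, hZ, hd, hinf⟩ := h
  refine ⟨psi p '' Z, (encard_image_le _ _).trans hZ, ?_, ?_⟩
  · rw [Set.disjoint_left]
    rintro _ ⟨z, hz, rfl⟩ hh
    exact Set.disjoint_left.1 hd hz (psi_mem_half.1 hh)
  · have key : clo U (halfZ p ∪ Z) ⊆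
        {x | psi p x ∈ clo (Upsi p U) (halfZ (0, 1) ∪ psi p '' Z)} := by
      apply clo_least
      · rintro x (hx | hx)
        · exact subset_clo _ _ (Or.inl (psi_mem_half.2 hx))
        · exact subset_clo _ _ (Or.inr ⟨x, hx, rfl⟩)
      · intro X hX x hx
        have hX' : X.image (psi p) ∈ Upsi p U := Finset.mem_image_of_mem _ hX
        refine clo_rule hX' fun y hy => ?_
        obtain ⟨z, hz, rfl⟩ := Finset.mem_image.1 hy
        rw [← psi_add]
        exact hx z hz
    refine (hinf.image (psi_inj hp).injOn).mono ?_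
    rintro _ ⟨x, ⟨hx1, hx2⟩, rfl⟩
    exact ⟨key hx1, fun hh => hx2 (psi_mem_half.1 hh)⟩

end Pool.Agent.BPM
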