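import Pool.Agent.BPM.Dirs
import Pool.Agent.BPM.Psi

/-!
# Properties of the transformed family

PROOFS. `bd_psi`: the coordinates of `psi (perp z) y` are `cr (perp z) y = - dt z y` and
`dt y (perp z) = - y.1 z.2 + y.2 z.1`; the coordinates of `z` are at most `B` (`Dr`). `st_psi`:
`dt (psi p y) (0, 1) = dt y p`. `nsc_psi`: let `w ≠ 0`, and `w' = w.1 • perp p + w.2 • p` (real vector),
nonzero as `p ≠ 0`. `nrm w' ∈ S1`, so there is a stable `v ∈ semi (nrm w')` (`U` is not supercritical);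
`0 < ⟨v, w'⟩` (`nrm_pos`, the product is symmetric). Take the direction `(⟨v, perp p⟩, ⟨v, p⟩)`:
its product with `w` is `⟨v, w'⟩ > 0`; and for `y` with `0 ≤ ⟨y, v⟩` its product with `psi p y` is
`cr p y ⟨v, perp p⟩ + dt y p ⟨v, p⟩ = (p.1² + p.2²) ⟨y, v⟩ ≥ 0` (`ring`), with `stable_iff`.
-/

set_option autoImplicit false

namespace Pool.Agent.BPM

open Pool.Agent.BPD Set

private theorem psiN_abs {B : ℕ} {a b c d : ℤ} (ha : |a| ≤ B) (hb : |b| ≤ B) (hc : |c| ≤ B)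
    (hd : |d| ≤ B) : |a * b + c * d| ≤ ((2 * B * B : ℕ) : ℤ) := by
  have h1 : |a * b| ≤ (B : ℤ) * B := by
    rw [abs_mul]
    exact mul_le_mul ha hb (abs_nonneg _) (by positivity)
  have h2 : |c * d| ≤ (B : ℤ) * B := by
    rw [abs_mul]
    exact mul_le_mul hc hd (abs_nonneg _) (by positivity)
  have h3 := abs_add_le (a * b) (c * d)
  push_cast
  linarith

theorem bd_psi {B : ℕ} {U : Fam} (h : Bd B U) {z : ℤ × ℤ} (hz : Dr U z) :
    Bd (2 * B * B) (Upsi (perp z) U) := by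
  have hz' : |z.1| ≤ B ∧ |z.2| ≤ B := by
    obtain ⟨X, hX, h1 | h1⟩ := hz
    · exact h X hX z h1
    · have h2 := h X hX _ h1
      rwa [Prod.fst_neg, Prod.snd_neg, abs_neg, abs_neg] at h2
  intro Y hY y' hy'
  unfold Upsi at hY
  rw [Finset.mem_image] at hY
  obtain ⟨X, hX, rfl⟩ := hY
  rw [Finset.mem_image] at hy'
  obtain ⟨y, hy, rfl⟩ := hy'
  obtain ⟨h1, h2⟩ := h X hX y hy
  have e1 : (psi (perp z) y).1 = -z.2 * y.2 + -z.1 * y.1 := by
    simp only [psi, perp, cr]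
    ring
  have e2 : (psi (perp z) y).2 = y.1 * -z.2 + y.2 * z.1 := by
    simp only [psi, perp, dt]
  rw [e1, e2]
  have h3 : |(-z.2)| ≤ (B : ℤ) := by
    rw [abs_neg]
    exact hz'.2
  have h4 : |(-z.1)| ≤ (B : ℤ) := by
    rw [abs_neg]
    exact hz'.1
  exact ⟨psiN_abs h3 h2 h4 h1, psiN_abs h1 h3 h2 hz'.1⟩

theorem st_psi {U : Fam} {p : ℤ × ℤ} (h : St U p) : St (Upsi p U) (0, 1) := by
  intro Y hY
  unfold Upsi at hY
  rw [Finset.mem_image] at hY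
  obtain ⟨X, hX, rfl⟩ := hY
  obtain ⟨y, hy, h1⟩ := h X hX
  refine ⟨psi p y, Finset.mem_image_of_mem _ hy, ?_⟩
  have e : dt (psi p y) (0, 1) = dt y p := by
    simp [psi, dt]
  rw [e]
  exact h1

theorem nsc_psi {U : Fam} {p : ℤ × ℤ} (hp : p ≠ 0) (h : ¬ Supercritical U) : NSC (Upsi p U) := by
  intro w hw
  have hp2 : 0 < (p.1 : ℝ) ^ 2 + (p.2 : ℝ) ^ 2 := by
    have h1 : p.1 ≠ 0 ∨ p.2 ≠ 0 := by
      by_contra hcon
      push Not at hcon
      exact hp (Prod.ext hcon.1 hcon.2)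
    rcases h1 with h1 | h1
    · have : (p.1 : ℝ) ≠ 0 := by exact_mod_cast h1
      positivity
    · have : (p.2 : ℝ) ≠ 0 := by exact_mod_cast h1
      positivity
  have hw2 : 0 < w.1 ^ 2 + w.2 ^ 2 := by
    have h1 : w.1 ≠ 0 ∨ w.2 ≠ 0 := by
      by_contra hcon
      push Not at hcon
      exact hw (Prod.ext hcon.1 hcon.2)
    rcases h1 with h1 | h1 <;> positivity
  have hw' : ((w.2 * p.1 - w.1 * p.2, w.1 * p.1 + w.2 * p.2) : ℝ × ℝ) ≠ 0 := by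
    intro h0
    have e1 : w.2 * p.1 - w.1 * p.2 = 0 := congrArg Prod.fst h0
    have e2 : w.1 * p.1 + w.2 * p.2 = 0 := congrArg Prod.snd h0
    have e3 : (w.1 ^ 2 + w.2 ^ 2) * ((p.1 : ℝ) ^ 2 + (p.2 : ℝ) ^ 2) =
        (w.2 * p.1 - w.1 * p.2) ^ 2 + (w.1 * p.1 + w.2 * p.2) ^ 2 := by ring
    rw [e1, e2] at e3
    have := mul_pos hw2 hp2
    rw [e3] at this
    norm_num at this
  unfold Supercritical at h
  push Not at h
  obtain ⟨u, hu, hst⟩ := h _ (nrm_mem hw')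
  have h1 := (nrm_pos hw' u).1 hu.2
  refine ⟨(u.2 * p.1 - u.1 * p.2, u.1 * p.1 + u.2 * p.2), ?_, ?_⟩
  · have e : (u.2 * p.1 - u.1 * p.2) * w.1 + (u.1 * p.1 + u.2 * p.2) * w.2 =
        u.1 * (w.2 * p.1 - w.1 * p.2) + u.2 * (w.1 * p.1 + w.2 * p.2) := by ring
    rw [e]
    exact h1
  · intro Y hY
    unfold Upsi at hY
    rw [Finset.mem_image] at hY
    obtain ⟨X, hX, rfl⟩ := hY
    obtain ⟨y, hy, h2⟩ := stable_iff.1 hst X hX
    refine ⟨psi p y, Finset.mem_image_of_mem _ hy, ?_⟩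
    have e : ((psi p y).1 : ℝ) * (u.2 * p.1 - u.1 * p.2) +
        ((psi p y).2 : ℝ) * (u.1 * p.1 + u.2 * p.2) =
        ((p.1 : ℝ) ^ 2 + (p.2 : ℝ) ^ 2) * ((y.1 : ℝ) * u.1 + (y.2 : ℝ) * u.2) := by
      simp only [psi, dt, cr]
      push_cast
      ring
    rw [e]
    exact mul_nonneg hp2.le h2

end Pool.Agent.BPM
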