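import Pool.Agent.BPM.Psi

/-!
# The coordinates along and above the line of a direction: back

Everything with `V = Upsi p U`, `e = (0, 1)`: `dt x e = x.2`, so `halfZ e = {x | x.2 < 0}`. The map
`psi p` is additive (`psi_add`) and injective (`psi_inj`) for `p ≠ 0`, and `(psi p x).2 = dt x p`.

PROOF. Let `Z'` be given for `V`, `C = clo V (halfZ e ∪ Z')`, `n = p.1² + p.2² > 0`. The infinite set
`C \ halfZ e` has infinitely many elements in one class modulo `n` (both coordinates; finitely many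
classes, `Set.Infinite` and `ZMod n × ZMod n` or `Set.infinite_iUnion`-type pigeonhole). Two elements of
one class differ by `(n a, n b) = psi p (..)`: `psi p` is onto `n ℤ²`, as
`psi p (b * p.1 - a * p.2, b * p.2 + a * p.1) = (n a, n b)` (check the formula by `ring`). Let `v₀` be an
element of this class, `g = ` the gcd of `p.1` and `p.2`; there is `x₀` with `dt x₀ p = g * (v₀.2 / g)`
(Bezout: the values of `dt · p` are exactly the multiples of `g`). Let `v = v₀ - psi p x₀`, so
`0 ≤ v.2 < g`. For all `x`: `(psi p x + v).2 = dt x p + v.2 < 0` iff `dt x p < 0` (`dt x p` is a multiple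
of `g`). Let `Z = {x | psi p x + v ∈ Z'}`. `Z.encard ≤ Z'.encard` (injective map). `Z` is disjoint from
`halfZ p`. By `clo_least` with `P = {y | ∀ x, psi p x + v = y → x ∈ clo U (halfZ p ∪ Z)}`:
`C ⊆ P` (for a rule `X.image (psi p)`: if `psi p x + v = y` then `psi p (x + z) + v = y + psi p z`). The
elements `y` of `C \ halfZ e` in the class of `v₀` are of the form `psi p x + v` (`y - v₀ ∈ n ℤ²`), with
`x ∈ clo U (halfZ p ∪ Z)`, `x ∉ halfZ p`; different `y` give different `x`. So this set is infinite.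
-/

set_option autoImplicit false

namespace Pool.Agent.BPM

open Pool.Agent.BPD Set

/-- Pigeonhole modulo `n`. -/
private theorem psiR_pig {S : Set (ℤ × ℤ)} (hS : S.Infinite) {n : ℤ} (hn : 0 < n) :
    ∃ w ∈ S, {y | y ∈ S ∧ n ∣ y.1 - w.1 ∧ n ∣ y.2 - w.2}.Infinite := by
  by_contra hcon
  push Not at hcon
  obtain ⟨m, rfl⟩ := Int.eq_ofNat_of_zero_le hn.le
  have hm : m ≠ 0 := by
    rintro rfl
    exact lt_irrefl _ hn
  have : NeZero m := ⟨hm⟩
  let f : ℤ × ℤ → ZMod m × ZMod m := fun y => ((y.1 : ZMod m), (y.2 : ZMod m))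
  have hfin : ∀ c : ZMod m × ZMod m, {y | y ∈ S ∧ f y = c}.Finite := by
    intro c
    by_cases hc : ∃ w ∈ S, f w = c
    · obtain ⟨w, hw, hwc⟩ := hc
      refine (hcon w hw).subset ?_
      rintro y ⟨hy, hyc⟩
      have h1 : f w = f y := hwc.trans hyc.symm
      have h2 := (Prod.mk.inj h1).1
      have h3 := (Prod.mk.inj h1).2
      exact ⟨hy, (ZMod.intCast_eq_intCast_iff_dvd_sub _ _ _).1 h2,
        (ZMod.intCast_eq_intCast_iff_dvd_sub _ _ _).1 h3⟩
    · refine Set.finite_empty.subset ?_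
      rintro y ⟨hy, hyc⟩
      exact hc ⟨y, hy, hyc⟩
  refine hS ((Set.finite_iUnion hfin).subset ?_)
  intro y hy
  exact Set.mem_iUnion.2 ⟨f y, hy, rfl⟩

/-- Multiples of `n` are in the image. -/
private theorem psiR_onto (p : ℤ × ℤ) (a b : ℤ) :
    psi p (b * p.1 - a * p.2, b * p.2 + a * p.1) =
      ((p.1 * p.1 + p.2 * p.2) * a, (p.1 * p.1 + p.2 * p.2) * b) := by
  unfold psi cr dt
  ext
  · simp only
    ring
  · simp only
    ring

theorem admP_psi_mpr {U : Fam} {p : ℤ × ℤ} (hp : p ≠ 0) {K : ℕ} (h : AdmP (Upsi p U) (0, 1) K) :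
    AdmP U p K := by
  obtain ⟨Z', hZ', hd, hinf⟩ := h
  have hn : 0 < p.1 * p.1 + p.2 * p.2 := by
    have h0 : p.1 ≠ 0 ∨ p.2 ≠ 0 := by
      by_contra hcon
      push Not at hcon
      exact hp (Prod.ext hcon.1 hcon.2)
    rcases h0 with h0 | h0
    · have := mul_self_pos.2 h0
      nlinarith [mul_self_nonneg p.2]
    · have := mul_self_pos.2 h0
      nlinarith [mul_self_nonneg p.1]
  obtain ⟨w, -, hwinf⟩ := psiR_pig hinf hn
  have hg : (0 : ℤ) < Int.gcd p.1 p.2 := by
    have h1 : Int.gcd p.1 p.2 ≠ 0 := by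
      intro h0
      rw [Int.gcd_eq_zero_iff] at h0
      exact hp (Prod.ext h0.1 h0.2)
    exact_mod_cast Nat.pos_of_ne_zero h1
  have hbez := Int.gcd_eq_gcd_ab p.1 p.2
  generalize hgg : ((Int.gcd p.1 p.2 : ℕ) : ℤ) = g at hg hbez
  have hg1 : g ∣ p.1 := hgg ▸ Int.gcd_dvd_left ..
  have hg2 : g ∣ p.2 := hgg ▸ Int.gcd_dvd_right ..
  generalize Int.gcdA p.1 p.2 = α at hbez
  generalize Int.gcdB p.1 p.2 = β at hbez
  let q : ℤ := w.2 / g
  let x₀ : ℤ × ℤ := (q * α, q * β)
  let v : ℤ × ℤ := (w.1 - (psi p x₀).1, w.2 - (psi p x₀).2)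
  have hw : psi p x₀ + v = w := by
    ext
    · simp only [Prod.fst_add, v]
      ring
    · simp only [Prod.snd_add, v]
      ring
  have hx0 : (psi p x₀).2 = g * q := by
    simp only [psi, dt, x₀]
    linear_combination (-q) * hbez
  have hv2 : v.2 = w.2 % g := by
    have h1 := Int.emod_add_mul_ediv w.2 g
    have h2 : v.2 = w.2 - (psi p x₀).2 := rfl
    rw [h2, hx0]
    simp only [q]
    linarith
  have hv0 : 0 ≤ v.2 := hv2 ▸ Int.emod_nonneg _ hg.ne'
  have hvg : v.2 < g := hv2 ▸ Int.emod_lt_of_pos _ hg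
  have hdvd : ∀ x : ℤ × ℤ, g ∣ dt x p := by
    intro x
    unfold dt
    exact dvd_add (hg1.mul_left _) (hg2.mul_left _)
  have hhalf : ∀ x : ℤ × ℤ, psi p x + v ∈ halfZ (0, 1) ↔ x ∈ halfZ p := by
    intro x
    have e1 : dt (psi p x + v) (0, 1) = dt x p + v.2 := by
      simp only [dt, psi, Prod.fst_add, Prod.snd_add, mul_zero, mul_one, zero_add]
    change dt (psi p x + v) (0, 1) < 0 ↔ dt x p < 0
    rw [e1]
    constructor
    · intro h
      linarith
    · intro h
      obtain ⟨k, hk⟩ := hdvd x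
      have hk1 : k ≤ -1 := by
        by_contra hcon
        push Not at hcon
        have : 0 ≤ k := by linarith
        have h2 : 0 ≤ g * k := mul_nonneg hg.le this
        linarith
      have h3 : g * k ≤ g * (-1) := mul_le_mul_of_nonneg_left hk1 hg.le
      linarith
  have hinj : Function.Injective fun x => psi p x + v := by
    intro x y hxy
    exact psi_inj hp (add_right_cancel hxy)
  refine ⟨{x | psi p x + v ∈ Z'}, ?_, ?_, ?_⟩
  · rw [← hinj.encard_image]
    refine (encard_le_encard ?_).trans hZ'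
    rintro _ ⟨x, hx, rfl⟩
    exact hx
  · rw [Set.disjoint_left]
    intro x hx hh
    exact Set.disjoint_left.1 hd hx ((hhalf x).2 hh)
  · have key : clo (Upsi p U) (halfZ (0, 1) ∪ Z') ⊆
        {y | ∀ x, psi p x + v = y → x ∈ clo U (halfZ p ∪ {x | psi p x + v ∈ Z'})} := by
      apply clo_least
      · rintro y hy x rfl
        rcases hy with hy | hy
        · exact subset_clo _ _ (Or.inl ((hhalf x).1 hy))
        · exact subset_clo _ _ (Or.inr hy)
      · rintro X hX y hy x rfl
        obtain ⟨X', hX', rfl⟩ := Finset.mem_image.1 hX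
        refine clo_rule hX' fun z hz => ?_
        refine hy _ (Finset.mem_image_of_mem _ hz) (x + z) ?_
        rw [psi_add]
        exact add_right_comm _ _ _
    intro hfin
    refine hwinf ((hfin.image fun x => psi p x + v).subset ?_)
    rintro y ⟨⟨hy1, hy2⟩, ⟨a, ha⟩, ⟨b, hb⟩⟩
    let z : ℤ × ℤ := (b * p.1 - a * p.2, b * p.2 + a * p.1)
    have hz : psi p z = ((p.1 * p.1 + p.2 * p.2) * a, (p.1 * p.1 + p.2 * p.2) * b) :=
      psiR_onto p a b
    have hxy : psi p (x₀ + z) + v = y := by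
      rw [psi_add, add_right_comm, hw, hz]
      ext
      · simp only [Prod.fst_add]
        linarith
      · simp only [Prod.snd_add]
        linarith
    refine ⟨x₀ + z, ⟨key hy1 _ hxy, fun hh => hy2 ?_⟩, hxy⟩
    rw [← hxy]
    exact (hhalf _).2 hh

end Pool.Agent.BPM
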