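import Pool.Agent.BPM.NatZ

/-!
# The meaning of the tests: directions and support

PROOFS. `X ∈ fam c ↔ ∃ L ∈ c, L.toFinset = X` (`fam`, `List.mem_toFinset`, `List.mem_map`); quantifiers over the elements of
`L.toFinset` are quantifiers over `L` (`List.mem_toFinset`). `stB_iff`, `unB_iff`: unfold, `List.all_eq_true`, `List.any_eq_true`,
`decide_eq_true_eq`, `Bool.or_eq_true`, `Bool.and_eq_true`. `fam_psiC`: ext; `List.toFinset_map`-like:
`(X.map (psi p)).toFinset = X.toFinset.image (psi p)`. `supB_iff`: for a cell `x` with fold at most `B` and `0 ≤ x.2 < H` the cells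
`x + y` of the strip have fold at most `2 B ≤ N` (`fold_add_le`) and row `< H ≤ N`, so `ixB_eq` applies.
-/

set_option autoImplicit false

namespace Pool.Agent.BPM

open Pool.Agent.BPD Pool.Agent.PF

private theorem exists_fam {c : Code} {P : Finset (ℤ × ℤ) → Prop} :
    (∃ X ∈ fam c, P X) ↔ ∃ L ∈ c, P L.toFinset := by
  unfold fam
  constructor
  · rintro ⟨X, hX, h⟩
    rw [List.mem_toFinset, List.mem_map] at hX
    obtain ⟨L, hL, rfl⟩ := hX
    exact ⟨L, hL, h⟩
  · rintro ⟨L, hL, h⟩
    exact ⟨L.toFinset, List.mem_toFinset.2 (List.mem_map.2 ⟨L, hL, rfl⟩), h⟩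

private theorem forall_fam {c : Code} {P : Finset (ℤ × ℤ) → Prop} :
    (∀ X ∈ fam c, P X) ↔ ∀ L ∈ c, P L.toFinset := by
  unfold fam
  constructor
  · intro h L hL
    exact h _ (List.mem_toFinset.2 (List.mem_map.2 ⟨L, hL, rfl⟩))
  · intro h X hX
    rw [List.mem_toFinset, List.mem_map] at hX
    obtain ⟨L, hL, rfl⟩ := hX
    exact h L hL

theorem stB_iff (c : Code) (p : ℤ × ℤ) : stB c p = true ↔ St (fam c) p := by
  unfold St stB
  rw [forall_fam, List.all_eq_true]
  refine forall₂_congr fun L _ => ?_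
  simp only [List.any_eq_true, decide_eq_true_eq, List.mem_toFinset]

theorem unB_iff (s : ℤ) (c : Code) (p : ℤ × ℤ) : unB s c p = true ↔ Un s (fam c) p := by
  unfold Un unB
  rw [exists_fam, List.any_eq_true]
  refine exists_congr fun L => and_congr_right fun _ => ?_
  simp only [List.all_eq_true, Bool.or_eq_true, Bool.and_eq_true, decide_eq_true_eq,
    List.mem_toFinset]

theorem fam_psiC (p : ℤ × ℤ) (c : Code) : fam (psiC p c) = Upsi p (fam c) := by
  ext X
  unfold fam psiC Upsi
  simp only [List.mem_toFinset, List.mem_map, Finset.mem_image, exists_exists_and_eq_and]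
  refine exists_congr fun L => and_congr_right fun _ => ?_
  have h : (L.map (psi p)).toFinset = L.toFinset.image fun x => psi p x := by
    ext y
    simp only [List.mem_toFinset, List.mem_map, Finset.mem_image]
  rw [h]

private theorem fold_le_two {c d : ℤ} {B : ℕ} (h : fold c ≤ B) (hd : |d| ≤ B) :
    fold (c + d) ≤ 2 * B := by
  rw [abs_le] at hd
  unfold fold at *
  split_ifs at * <;> omega

theorem supB_iff {c : Code} {N B H M : ℕ} (hb : Bd B (fam c)) (hN : 2 * B ≤ N) (hN' : H ≤ N)
    (w : List Bool) {x : ℤ × ℤ} (hx : fold x.1 ≤ B) (hx' : 0 ≤ x.2) (hx'' : x.2 < H) :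
    supB c ((N, B), (H, M)) w x = true ↔ Sup (fam c) H (dec M w) x := by
  unfold Sup supB
  rw [exists_fam, List.any_eq_true]
  refine exists_congr fun L => and_congr_right fun hL => ?_
  simp only [List.all_eq_true, Bool.or_eq_true, Bool.and_eq_true, decide_eq_true_eq,
    List.mem_toFinset]
  have hbL : ∀ y ∈ L, |y.1| ≤ B ∧ |y.2| ≤ B := by
    intro y hy
    refine hb L.toFinset ?_ y (List.mem_toFinset.2 hy)
    unfold fam
    exact List.mem_toFinset.2 (List.mem_map.2 ⟨L, hL, rfl⟩)
  have hx0 : ixB N H x = ix H 0 x := ixB_eq (by omega) (by omega)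
  refine forall₂_congr fun y hy => ?_
  by_cases h1 : (x + y).2 < 0
  · simp only [h1, true_or]
  · by_cases h2 : (x + y).2 < (H : ℤ)
    · have h3 : fold (x + y).1 ≤ N := by
        have := fold_le_two hx (hbL y hy).1
        rw [Prod.fst_add]
        omega
      have h4 : ixB N H (x + y) = ix H 0 (x + y) := ixB_eq h3 (by omega)
      simp only [h1, h2, h4, hx0, false_or, true_and]
    · simp only [h1, h2, false_or, false_and]

end Pool.Agent.BPM
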