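import Pool.Agent.BPM.Defs

/-!
# Windows of the folded strip: elementary facts

PROOFS. `fold`, `side`, `unf`, `ix`, `InW`, `nQ` are explicit; case distinction on the sign of the column and
`omega`; for products with `H` (a variable) use `Nat.div_add_mod`/`nlinarith` or: for `x.2.toNat < H` the
pair (`q`, `r`) is determined by `q * H + r` (`Nat.add_mul_div_right`, `Nat.mod_eq_of_lt`).
`exists_cell`: for `k < nQ B H` let `r = k % H`, `q = k / H` (`< 2 (2 B + 1)`), `x = (unf (i + q / 2) (q % 2), r)`.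
`ix_shift`: for `i + 1 ≤ fold x.1`: `fold x.1 - i = (fold x.1 - (i + 1)) + 1`. `ix_lt4`:
`fold x.1 - (i + 1) < 2 B` if `x` is in the windows `i` and `i + 1`. `ix_nbr`: if `fold x.1 = i + B` and `|y.1| ≤ B` then
`x.1 + y.1` is on the same side as `x.1` or ... : for `side x.1 = 0`: `x.1 = i + B`, `x.1 + y.1 ≥ i ≥ 0`, so the fold of
`x.1 + y.1` is `i + B + y.1` and the side is `0`; for the window `0` the cell `unf B 0 = B` and
`B + y.1 ≥ 0`: `ix H 0 = ((B + y.1) * 2 + 0) * H + ..` is the same number. For `side = 1`: `x.1 = -1 - (i + B)`,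
`x.1 + y.1 ≤ -1`, fold `i + B - y.1`.
-/

set_option autoImplicit false

namespace Pool.Agent.BPM

open Pool.Agent.BPD Set

private theorem win_lt {q r m H : ℕ} (hq : q < m) (hr : r < H) : q * H + r < m * H := by
  have h1 : q * H + H ≤ m * H := by
    rw [← Nat.succ_mul]
    exact Nat.mul_le_mul_right H hq
  omega

private theorem win_inj {q r q' r' H : ℕ} (hr : r < H) (hr' : r' < H)
    (h : q * H + r = q' * H + r') : q = q' ∧ r = r' := by
  have h1 : q = q' := by
    rcases lt_trichotomy q q' with h2 | h2 | h2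
    · have h3 := win_lt (r := r) h2 hr
      omega
    · exact h2
    · have h3 := win_lt (r := r') h2 hr'
      omega
  subst h1
  exact ⟨rfl, by omega⟩

theorem fold_unf (n s : ℕ) : fold (unf n s) = n := by
  unfold fold unf
  split_ifs <;> omega

theorem side_unf (n s : ℕ) (hs : s < 2) : side (unf n s) = s := by
  unfold side unf
  by_cases h0 : s = 0
  · rw [if_pos h0, if_pos (Int.natCast_nonneg n), h0]
  · rw [if_neg h0, if_neg (show ¬ (0 : ℤ) ≤ -1 - (n : ℤ) by omega)]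
    omega

theorem unf_fold (c : ℤ) : unf (fold c) (side c) = c := by
  unfold unf fold side
  by_cases h0 : 0 ≤ c
  · rw [if_pos h0, if_pos h0, if_pos rfl]
    omega
  · rw [if_neg h0, if_neg h0, if_neg one_ne_zero]
    omega

theorem side_lt (c : ℤ) : side c < 2 := by
  unfold side
  split_ifs <;> omega

/-- The fold changes at most by `|d|`. -/
theorem fold_add_le (c d : ℤ) (B : ℕ) (hd : |d| ≤ B) : fold (c + d) ≤ fold c + B := by
  rw [abs_le] at hd
  unfold fold
  split_ifs <;> omega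

theorem le_fold_add (c d : ℤ) (B : ℕ) (hd : |d| ≤ B) : fold c ≤ fold (c + d) + B := by
  rw [abs_le] at hd
  unfold fold
  split_ifs <;> omega

theorem ix_lt {B H i : ℕ} {x : ℤ × ℤ} (hx : InW B H i x) : ix H i x < nQ B H := by
  obtain ⟨h1, h2, h3, h4⟩ := hx
  have h5 := side_lt x.1
  exact win_lt (by omega) (by omega)

theorem ix_inj {B H i : ℕ} {x y : ℤ × ℤ} (hx : InW B H i x) (hy : InW B H i y)
    (h : ix H i x = ix H i y) : x = y := by
  obtain ⟨h1, h2, h3, h4⟩ := hx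
  obtain ⟨g1, g2, g3, g4⟩ := hy
  obtain ⟨e1, e2⟩ := win_inj (by omega) (by omega) h
  have h5 := side_lt x.1
  have g5 := side_lt y.1
  have e3 : fold x.1 = fold y.1 := by omega
  have e4 : side x.1 = side y.1 := by omega
  refine Prod.ext ?_ (by omega)
  rw [← unf_fold x.1, ← unf_fold y.1, e3, e4]

theorem exists_cell {B H : ℕ} (i : ℕ) {k : ℕ} (hk : k < nQ B H) :
    ∃ x, InW B H i x ∧ ix H i x = k := by
  rcases Nat.eq_zero_or_pos H with h0 | h0
  · subst h0
    simp [nQ] at hk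
  have h1 : k / H < 2 * (2 * B + 1) := by
    rw [Nat.div_lt_iff_lt_mul h0]
    exact hk
  have h2 : k % H < H := Nat.mod_lt _ h0
  have h5 : k / H * H + k % H = k := by
    rw [mul_comm]
    exact Nat.div_add_mod k H
  revert h1 h2 h5
  generalize k / H = q
  generalize k % H = r
  intro h1 h2 h5
  have h3 : q % 2 < 2 := Nat.mod_lt _ (by norm_num)
  refine ⟨(unf (i + q / 2) (q % 2), ((r : ℕ) : ℤ)), ⟨?_, ?_, ?_, ?_⟩, ?_⟩
  · show i ≤ fold (unf (i + q / 2) (q % 2))
    rw [fold_unf]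
    omega
  · show fold (unf (i + q / 2) (q % 2)) < i + (2 * B + 1)
    rw [fold_unf]
    omega
  · exact Int.natCast_nonneg _
  · show ((r : ℕ) : ℤ) < (H : ℤ)
    exact_mod_cast h2
  · show ((fold (unf (i + q / 2) (q % 2)) - i) * 2 +
      side (unf (i + q / 2) (q % 2))) * H + (((r : ℕ) : ℤ)).toNat = k
    rw [fold_unf, side_unf _ _ h3, Int.toNat_natCast]
    have h4 : (i + q / 2 - i) * 2 + q % 2 = q := by omega
    rw [h4]
    exact h5

theorem ix_shift {B H i : ℕ} {x : ℤ × ℤ} (hx : InW B H i x) (hx' : InW B H (i + 1) x) :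
    ix H i x = ix H (i + 1) x + 2 * H := by
  have h1 := hx'.1
  unfold ix
  have h2 : fold x.1 - i = fold x.1 - (i + 1) + 1 := by omega
  rw [h2]
  ring

theorem ix_lt4 {B H i : ℕ} {x : ℤ × ℤ} (hx : InW B H i x) (hx' : InW B H (i + 1) x) :
    ix H (i + 1) x < 4 * B * H := by
  have h1 := hx.2.1
  have h2 := hx'.1
  obtain ⟨-, -, h3, h4⟩ := hx
  have h5 := side_lt x.1
  exact win_lt (by omega) (by omega)

theorem exists_cell2 {B H : ℕ} (i : ℕ) {k : ℕ} (hk : k < 4 * B * H) :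
    ∃ x, InW B H i x ∧ InW B H (i + 1) x ∧ ix H (i + 1) x = k ∧ ix H i x = k + 2 * H := by
  have hk' : k < nQ B H := by
    refine lt_of_lt_of_le hk ?_
    unfold nQ
    exact Nat.mul_le_mul_right H (by omega)
  obtain ⟨x, hx, hk1⟩ := exists_cell (B := B) (i + 1) hk'
  have h1 : ((fold x.1 - (i + 1)) * 2 + side x.1) * H < 4 * B * H := by
    refine lt_of_le_of_lt ?_ hk
    rw [← hk1]
    exact Nat.le_add_right _ _
  have h2 : (fold x.1 - (i + 1)) * 2 + side x.1 < 4 * B := lt_of_mul_lt_mul_right h1 (Nat.zero_le H)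
  have h3 := hx.1
  have hx' : InW B H i x := ⟨by omega, by omega, hx.2.2.1, hx.2.2.2⟩
  refine ⟨x, hx', hx, hk1, ?_⟩
  rw [ix_shift hx' hx, hk1]

/-- The neighbours of a cell of the middle layer: the window `i` looks like the window `0`. -/
theorem ix_nbr {B H i : ℕ} {x y : ℤ × ℤ} (hx : fold x.1 = i + B) (hy : |y.1| ≤ B) :
    ix H 0 ((unf B (side x.1), x.2) + y) = ix H i (x + y) ∧ i ≤ fold (x + y).1 ∧
      fold (x + y).1 < i + (2 * B + 1) := by
  rw [abs_le] at hy
  have h1 : fold (unf B (side x.1) + y.1) + i = fold (x.1 + y.1) ∧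
      side (unf B (side x.1) + y.1) = side (x.1 + y.1) ∧
      fold (x.1 + y.1) < i + (2 * B + 1) := by
    rcases le_or_gt 0 x.1 with h0 | h0
    · have e1 : side x.1 = 0 := if_pos h0
      have e2 : fold x.1 = x.1.toNat := if_pos h0
      have e3 : unf B 0 = (B : ℤ) := if_pos rfl
      rw [e1, e3]
      unfold fold side
      rw [if_pos (show (0 : ℤ) ≤ (B : ℤ) + y.1 by omega), if_pos (show 0 ≤ x.1 + y.1 by omega),
        if_pos (show (0 : ℤ) ≤ (B : ℤ) + y.1 by omega), if_pos (show 0 ≤ x.1 + y.1 by omega)]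
      omega
    · have e1 : side x.1 = 1 := if_neg (by omega)
      have e2 : fold x.1 = (-1 - x.1).toNat := if_neg (by omega)
      have e3 : unf B 1 = -1 - (B : ℤ) := if_neg (by norm_num)
      rw [e1, e3]
      unfold fold side
      rw [if_neg (show ¬ (0 : ℤ) ≤ -1 - (B : ℤ) + y.1 by omega),
        if_neg (show ¬ 0 ≤ x.1 + y.1 by omega),
        if_neg (show ¬ (0 : ℤ) ≤ -1 - (B : ℤ) + y.1 by omega),
        if_neg (show ¬ 0 ≤ x.1 + y.1 by omega)]
      omega
  obtain ⟨h2, h3, h4⟩ := h1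
  refine ⟨?_, ?_, h4⟩
  · show ((fold (unf B (side x.1) + y.1) - 0) * 2 + side (unf B (side x.1) + y.1)) * H +
      (x.2 + y.2).toNat = ((fold (x.1 + y.1) - i) * 2 + side (x.1 + y.1)) * H + (x.2 + y.2).toNat
    rw [h3, ← h2, Nat.add_sub_cancel, Nat.sub_zero]
  · show i ≤ fold (x.1 + y.1)
    omega

theorem mem_lay {B H : ℕ} {x : ℤ × ℤ} : x ∈ lay B H ↔ fold x.1 = B ∧ 0 ≤ x.2 ∧ x.2 < H := by
  unfold lay
  rw [Finset.mem_product, Finset.mem_insert, Finset.mem_singleton, Finset.mem_Ico]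
  have h1 : (x.1 = (B : ℤ) ∨ x.1 = -1 - (B : ℤ)) ↔ fold x.1 = B := by
    unfold fold
    split_ifs <;> omega
  rw [h1]

theorem mem_ini {B H : ℕ} {x : ℤ × ℤ} : x ∈ ini B H ↔ fold x.1 ≤ B ∧ 0 ≤ x.2 ∧ x.2 < H := by
  unfold ini
  rw [Finset.mem_product, Finset.mem_Icc, Finset.mem_Ico]
  have h1 : (-1 - (B : ℤ) ≤ x.1 ∧ x.1 ≤ (B : ℤ)) ↔ fold x.1 ≤ B := by
    unfold fold
    split_ifs <;> omega
  rw [h1]

/-- The finite set of the cells of the window `i`. -/
noncomputable def win (B H i : ℕ) : Finset (ℤ × ℤ) :=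
  (Finset.Icc (-1 - ((i : ℤ) + 2 * B)) (i + 2 * B) ×ˢ Finset.Ico (0 : ℤ) H).filter
    fun x => i ≤ fold x.1

theorem mem_win {B H i : ℕ} {x : ℤ × ℤ} : x ∈ win B H i ↔ InW B H i x := by
  unfold win InW
  rw [Finset.mem_filter, Finset.mem_product, Finset.mem_Icc, Finset.mem_Ico]
  have h1 : (-1 - ((i : ℤ) + 2 * B) ≤ x.1 ∧ x.1 ≤ (i : ℤ) + 2 * B) ↔
      fold x.1 < i + (2 * B + 1) := by
    unfold fold
    split_ifs <;> omega
  rw [h1]
  tauto

end Pool.Agent.BPM
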