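import Pool.Agent.BPM.TestB
import Pool.Agent.BPM.SpecA
import Pool.Agent.BPM.Win

/-!
# The meaning of the tests: steps

PROOFS. `layL_spec`, `iniL_spec`: the lists have no repetition and the same elements as the finite
sets (`mem_lay`, `mem_ini`,
`List.nodup_range`, `List.Nodup.map_on`; `k = (k / H) * H + k % H`). `unsupB_eq`: the number of
elements of a filtered list
without repetition is the cardinality of the filtered finite set (`List.toFinset_card_of_nodup`,
`List.toFinset_filter`), the
conditions agree by `ixB_eq` and `supB_iff`. The others: unfold, `decide_eq_true_eq`,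
`List.all_eq_true`, `List.mem_range`,
`beq'_iff`.
-/

set_option autoImplicit false

namespace Pool.Agent.BPM

open Pool.Agent.BPD Pool.Agent.PF

theorem beq'_iff (a b : Bool) : beq' a b = true ↔ (a = true ↔ b = true) := by
  cases a <;> cases b <;> simp [beq']

theorem layL_spec (B H : ℕ) : (layL B H).Nodup ∧ (layL B H).toFinset = lay B H := by
  refine ⟨?_, ?_⟩
  · refine List.Nodup.map_on ?_ List.nodup_range
    intro x hx y hy h
    rw [List.mem_range] at hx hy
    by_cases h1 : x < H <;> by_cases h2 : y < H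
    · rw [if_pos h1, if_pos h2, Prod.mk.injEq] at h
      omega
    · rw [if_pos h1, if_neg h2, Prod.mk.injEq] at h
      omega
    · rw [if_neg h1, if_pos h2, Prod.mk.injEq] at h
      omega
    · rw [if_neg h1, if_neg h2, Prod.mk.injEq] at h
      omega
  · ext ⟨u, v⟩
    simp only [layL, lay, List.mem_toFinset, List.mem_map, List.mem_range, Finset.mem_product,
      Finset.mem_insert, Finset.mem_singleton, Finset.mem_Ico]
    constructor
    · rintro ⟨k, hk, h⟩
      by_cases h1 : k < H
      · rw [if_pos h1, Prod.mk.injEq] at h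
        omega
      · rw [if_neg h1, Prod.mk.injEq] at h
        omega
    · rintro ⟨h1 | h1, h2, h3⟩
      · refine ⟨v.toNat, by omega, ?_⟩
        rw [if_pos (by omega), Prod.mk.injEq]
        omega
      · refine ⟨v.toNat + H, by omega, ?_⟩
        rw [if_neg (by omega), Prod.mk.injEq]
        omega

theorem iniL_spec (B H : ℕ) : (iniL B H).Nodup ∧ (iniL B H).toFinset = ini B H := by
  refine ⟨?_, ?_⟩
  · refine List.Nodup.map_on ?_ List.nodup_range
    intro x _ y _ h
    rw [Prod.mk.injEq] at h
    have h1 : x / H = y / H := by omega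
    have h2 : x % H = y % H := by omega
    rw [← Nat.div_add_mod x H, ← Nat.div_add_mod y H, h1, h2]
  · ext ⟨u, v⟩
    simp only [iniL, ini, List.mem_toFinset, List.mem_map, List.mem_range, Finset.mem_product,
      Finset.mem_Icc, Finset.mem_Ico, Prod.mk.injEq]
    constructor
    · rintro ⟨k, hk, h1, h2⟩
      have hH : 0 < H := by
        rcases Nat.eq_zero_or_pos H with h | h
        · rw [h, Nat.mul_zero] at hk
          exact absurd hk (Nat.not_lt_zero _)
        · exact h
      have h3 : k / H < 2 * B + 2 := (Nat.div_lt_iff_lt_mul hH).2 hk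
      have h4 : k % H < H := Nat.mod_lt k hH
      generalize k / H = q at h1 h3
      generalize k % H = r at h2 h4
      omega
    · rintro ⟨⟨h1, h2⟩, h3, h4⟩
      have hH : 0 < H := by omega
      have h5 : (u + 1 + B).toNat + 1 ≤ 2 * B + 2 := by omega
      have h6 : v.toNat < H := by omega
      have h7 : ((u + 1 + B).toNat * H + v.toNat) / H = (u + 1 + B).toNat := by
        rw [Nat.add_comm, Nat.add_mul_div_right _ _ hH, Nat.div_eq_of_lt h6, Nat.zero_add]
      have h8 : ((u + 1 + B).toNat * H + v.toNat) % H = v.toNat := by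
        rw [Nat.add_comm, Nat.add_mul_mod_self_right, Nat.mod_eq_of_lt h6]
      refine ⟨(u + 1 + B).toNat * H + v.toNat, ?_, ?_, ?_⟩
      · calc (u + 1 + B).toNat * H + v.toNat < (u + 1 + B).toNat * H + H := by omega
          _ = ((u + 1 + B).toNat + 1) * H := by ring
          _ ≤ (2 * B + 2) * H := Nat.mul_le_mul_right H h5
      · rw [h7]
        omega
      · rw [h8]
        omega

theorem unsupB_eq {c : Code} {N B H M : ℕ} (hb : Bd B (fam c)) (hN : 2 * B ≤ N) (hN' : H ≤ N)
    (w : List Bool) {L : List (ℤ × ℤ)} (hL : L.Nodup)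
    (hL' : ∀ x ∈ L, fold x.1 ≤ B ∧ 0 ≤ x.2 ∧ x.2 < H) :
    unsupB c ((N, B), (H, M)) L w = unsup (fam c) H L.toFinset (dec M w) := by
  classical
  unfold unsupB unsup
  rw [← List.toFinset_card_of_nodup (hL.filter _), List.toFinset_filter]
  refine congrArg Finset.card (Finset.filter_congr fun x hx => ?_)
  obtain ⟨h1, h2, h3⟩ := hL' x (List.mem_toFinset.1 hx)
  have h4 : ixB N H x = ix H 0 x := ixB_eq (by omega) (by omega)
  have h5 := supB_iff hb hN hN' w (M := M) h1 h2 h3
  rw [Bool.and_eq_true, decide_eq_true_eq, Bool.not_eq_true', ← Bool.not_eq_true, h5]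
  exact and_congr_left fun _ => by rw [h4]

theorem conB_iff (N B H M : ℕ) (a b : List Bool) :
    conB ((N, B), (H, M)) a b = true ↔ Con B H (dec M a) (dec M b) := by
  simp only [conB, Con, List.all_eq_true, List.mem_range, Bool.and_eq_true, beq'_iff,
    decide_eq_true_eq]
  exact ⟨fun h => ⟨fun k hk => (h k hk).1, fun k hk => (h k hk).2⟩,
    fun h k hk => ⟨h.1 k hk, h.2 k hk⟩⟩

theorem cutB_iff (N B H M : ℕ) (a b : List Bool) :
    cutB ((N, B), (H, M)) a b = true ↔ Cut B H (dec M a) (dec M b) := by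
  simp only [cutB, Cut, List.all_eq_true, List.mem_range, Bool.or_eq_true, beq'_iff,
    decide_eq_true_eq]
  exact forall_congr' fun k => imp_congr_right fun _ => or_iff_not_imp_left

private theorem unsupB_lay {c : Code} {N B H M : ℕ} (hb : Bd B (fam c)) (hN : 2 * B ≤ N)
    (hN' : H ≤ N) (w : List Bool) :
    unsupB c ((N, B), (H, M)) (layL B H) w = unsup (fam c) H (lay B H) (dec M w) := by
  rw [unsupB_eq hb hN hN' w (layL_spec B H).1, (layL_spec B H).2]
  intro x hx
  have h1 : x ∈ lay B H := by
    rw [← (layL_spec B H).2]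
    exact List.mem_toFinset.2 hx
  exact ⟨(mem_lay.1 h1).1.le, (mem_lay.1 h1).2⟩

private theorem unsupB_ini {c : Code} {N B H M : ℕ} (hb : Bd B (fam c)) (hN : 2 * B ≤ N)
    (hN' : H ≤ N) (w : List Bool) :
    unsupB c ((N, B), (H, M)) (iniL B H) w = unsup (fam c) H (ini B H) (dec M w) := by
  rw [unsupB_eq hb hN hN' w (iniL_spec B H).1, (iniL_spec B H).2]
  intro x hx
  have h1 : x ∈ ini B H := by
    rw [← (iniL_spec B H).2]
    exact List.mem_toFinset.2 hx
  exact mem_ini.1 h1

theorem r0B_iff {c : Code} {N B H M : ℕ} (hb : Bd B (fam c)) (hN : 2 * B ≤ N) (hN' : H ≤ N)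
    (a b : List Bool) :
    r0B c ((N, B), (H, M)) a b = true ↔ R0 (fam c) B H (dec M a) (dec M b) := by
  unfold r0B R0
  rw [Bool.and_eq_true, conB_iff, decide_eq_true_eq, unsupB_lay hb hN hN']

theorem r1B_iff {c : Code} {N B H M : ℕ} (hb : Bd B (fam c)) (hN : 2 * B ≤ N) (hN' : H ≤ N)
    (a b : List Bool) :
    r1B c ((N, B), (H, M)) a b = true ↔ R1 (fam c) B H (dec M a) (dec M b) := by
  unfold r1B R1
  rw [Bool.and_eq_true, Bool.and_eq_true, conB_iff, cutB_iff, decide_eq_true_eq,
    unsupB_lay hb hN hN']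

theorem startB_iff {c : Code} {N B H M : ℕ} (hb : Bd B (fam c)) (hN : 2 * B ≤ N) (hN' : H ≤ N)
    (a : List Bool) : startB c ((N, B), (H, M)) a = true ↔
      dec M a (nQ B H + 1) = unsup (fam c) H (ini B H) (dec M a) := by
  unfold startB
  rw [decide_eq_true_eq, unsupB_ini hb hN hN']

theorem endB_iff (N B H M K : ℕ) (v : List Bool) : endB ((N, B), (H, M)) K v = true ↔
    dec M v (nQ B H + 1) ≤ K ∧ (∃ k < nQ B H, 0 < dec M v k) ∧
      (∀ k < nQ B H, dec M v k ≤ nQ B H) := by
  simp only [endB, Bool.and_eq_true, decide_eq_true_eq, List.any_eq_true, List.all_eq_true,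
    List.mem_range]

end Pool.Agent.BPM
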