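import Pool.Agent.BPM.LangG
import Pool.Agent.BPM.SpecB
import Pool.Agent.BPM.CertB
import Pool.Agent.BPM.CertM
import Pool.Agent.BPM.PsiN
import Pool.Agent.BPM.PsiR

/-!
# The questions of the graph and the conditions of the finite criterion

PROOFS. `gQ_iff`: let `p = pL c j = perp (yL c j)` (`p ≠ 0` by `h0`). `dt`, `cr`: same expressions. By `unB_iff`, `stB_iff` the
tests `trB`, `ntB` say `R ∧ (dt p y ≤ 0 ∨ ¬ St)`, `R ∧ Un 1 ∧ Un (-1)` with `R : dt p y = 0 → Un (cr p y)`. If `¬ St U p`: both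
sides are equivalent to `R`. If `St U p`: the remaining part of `gQ` is `Cert (Upsi p U) (bT T) (hT T) K (nT T + T)` by
`cert_iff_bits` (`fam_psiC`, `startB_iff`, `endB_iff`, `r0B_iff`, `r1B_iff`; `lw = lT`, `bd_psi` with `B = T` for
`Bd (bT T)`; `2 * bT T ≤ nT T`, `hT T ≤ nT T`: `nQ B H = 2 (2 B + 1) H`, `1 ≤ H`; the chains agree by `Relation.ReflTransGen`
congruence, `simp only` with the `iff`s), which is `AdmP (Upsi p U) (0, 1) K` (`admP_iff_cert`, `st_psi`, `nsc_psi`;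
the bound for the height by `K ≤ T`, `Nat.mul_le_mul`, `pow_succ`), which is `AdmP U p K` (`admP_psi_mp`, `admP_psi_mpr`).

`dr_iff`: `Dr (fam c) z ↔ ∃ i < (zsL c).length, yL c i = z` (`List.mem_flatten`, `List.getD_eq_getElem`, `List.mem_iff_getElem`).
-/

set_option autoImplicit false

namespace Pool.Agent.BPM

open Pool.Agent.BPD Pool.Agent.PF

private theorem mem_zsL (c : Code) (z : ℤ × ℤ) :
    z ∈ zsL c ↔ ∃ X ∈ c, z ∈ X ∨ -z ∈ X := by
  unfold zsL
  rw [List.mem_append, List.mem_flatten, List.mem_map]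
  constructor
  · rintro (⟨X, hX, hz⟩ | ⟨y, hy, rfl⟩)
    · exact ⟨X, hX, Or.inl hz⟩
    · obtain ⟨X, hX, hz⟩ := List.mem_flatten.1 hy
      refine ⟨X, hX, Or.inr ?_⟩
      have e : -((-y.1, -y.2) : ℤ × ℤ) = y := by
        ext <;> simp
      rw [e]
      exact hz
  · rintro ⟨X, hX, hz | hz⟩
    · exact Or.inl ⟨X, hX, hz⟩
    · refine Or.inr ⟨-z, List.mem_flatten.2 ⟨X, hX, hz⟩, ?_⟩
      ext <;> simp

private theorem mem_fam' (c : Code) (Y : Finset (ℤ × ℤ)) :
    Y ∈ fam c ↔ ∃ X ∈ c, X.toFinset = Y := by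
  unfold fam
  rw [List.mem_toFinset, List.mem_map]

theorem dr_iff (c : Code) (z : ℤ × ℤ) :
    Dr (fam c) z ↔ ∃ i < (zsL c).length, yL c i = z := by
  have h1 : Dr (fam c) z ↔ z ∈ zsL c := by
    rw [mem_zsL]
    constructor
    · rintro ⟨Y, hY, h⟩
      obtain ⟨X, hX, rfl⟩ := (mem_fam' c Y).1 hY
      exact ⟨X, hX, by simpa only [List.mem_toFinset] using h⟩
    · rintro ⟨X, hX, h⟩
      exact ⟨X.toFinset, (mem_fam' c _).2 ⟨X, hX, rfl⟩, by simpa only [List.mem_toFinset] using h⟩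
  rw [h1, List.mem_iff_getElem]
  constructor
  · rintro ⟨i, hi, h⟩
    exact ⟨i, hi, by rw [yL, List.getD_eq_getElem _ _ hi, h]⟩
  · rintro ⟨i, hi, h⟩
    exact ⟨i, hi, by rw [← h, yL, List.getD_eq_getElem _ _ hi]⟩

/-- The condition for the site `y` and the direction `z` in `FinChk`. -/
def Cnd (U : Fam) (K : ℕ) (y z : ℤ × ℤ) : Prop :=
  (0 < dt (perp z) y → ¬ St U (perp z) ∨
    (Un 1 U (perp z) ∧ Un (-1) U (perp z) ∧ AdmP U (perp z) K)) ∧
  (dt (perp z) y = 0 → Un (cr (perp z) y) U (perp z))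

private theorem pL_eq (c : Code) (j : ℕ) : pL c j = perp (yL c j) := rfl

private theorem ogB_iff (c : Code) (i j : ℕ) : ogB c i j = true ↔
    (dt (perp (yL c j)) (yL c i) = 0 →
      Un (cr (perp (yL c j)) (yL c i)) (fam c) (perp (yL c j))) := by
  unfold ogB
  rw [Bool.or_eq_true, decide_eq_true_eq, unB_iff, pL_eq]
  constructor
  · rintro (h | h) h'
    · exact absurd h' h
    · exact h
  · intro h
    by_cases h' : dt (perp (yL c j)) (yL c i) = 0
    · exact Or.inr (h h')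
    · exact Or.inl h'

private theorem trB_iff (c : Code) (i j : ℕ) : trB c i j = true ↔
    (dt (perp (yL c j)) (yL c i) = 0 →
      Un (cr (perp (yL c j)) (yL c i)) (fam c) (perp (yL c j))) ∧
    (dt (perp (yL c j)) (yL c i) ≤ 0 ∨ ¬ St (fam c) (perp (yL c j))) := by
  unfold trB
  rw [Bool.and_eq_true, Bool.or_eq_true, ogB_iff, decide_eq_true_eq, ← stB_iff, pL_eq,
    Bool.not_eq_true', Bool.not_eq_true]

private theorem ntB_iff (c : Code) (i j : ℕ) : ntB c i j = true ↔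
    (dt (perp (yL c j)) (yL c i) = 0 →
      Un (cr (perp (yL c j)) (yL c i)) (fam c) (perp (yL c j))) ∧
    (Un 1 (fam c) (perp (yL c j)) ∧ Un (-1) (fam c) (perp (yL c j))) := by
  unfold ntB
  rw [Bool.and_eq_true, Bool.and_eq_true, ogB_iff, unB_iff, unB_iff, pL_eq]

private theorem hT_pos (T : ℕ) : 1 ≤ hT T := by
  unfold hT
  exact Nat.mul_pos (Nat.succ_pos _) (Nat.succ_pos _)

private theorem nT_ge (T : ℕ) : 2 * bT T ≤ nT T ∧ hT T ≤ nT T := by
  have h := hT_pos T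
  unfold nT nQ
  constructor
  · calc 2 * bT T ≤ 2 * (2 * bT T + 1) * 1 := by omega
      _ ≤ 2 * (2 * bT T + 1) * hT T := Nat.mul_le_mul_left _ h
  · calc hT T = 1 * hT T := (Nat.one_mul _).symm
      _ ≤ 2 * (2 * bT T + 1) * hT T := Nat.mul_le_mul_right _ (by omega)

private theorem ht_ge {K T : ℕ} (hK : K ≤ T) :
    (K + 1) * (12 * bT T ^ 3 * K + 2 * bT T + 1) ≤ hT T := by
  unfold hT
  have e : bT T * bT T * bT T = bT T ^ 3 := by ring
  rw [e]
  gcongr

private theorem cert_gQ {d : Code} {K T : ℕ} (hK : K ≤ T) (hb : Bd (bT T) (fam d)) :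
    (∃ u v : List Bool, u.length = lT T ∧ v.length = lT T ∧ startB d (qT T) u = true ∧
      endB (qT T) K v = true ∧
      Relation.ReflTransGen (fun x y : List Bool => r0B d (qT T) x y = true ∧
        y.length = lT T) u v ∧
      Relation.ReflTransGen (fun x y : List Bool => r1B d (qT T) x y = true ∧
        y.length = lT T) (topC T v) (botC T v)) ↔
      Cert (fam d) (bT T) (hT T) K (nT T + T) := by
  have hcb := cert_iff_bits (U := fam d) (B := bT T) (H := hT T) (K := K) (M := nT T + T) hb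
    (Nat.add_le_add_left hK _)
  rw [hcb]
  simp only [qT, startB_iff hb (nT_ge T).1 (nT_ge T).2, endB_iff,
    r0B_iff hb (nT_ge T).1 (nT_ge T).2, r1B_iff hb (nT_ge T).1 (nT_ge T).2, and_assoc]
  rfl

theorem gQ_iff {c : Code} {K T : ℕ} (hT : 1 ≤ T) (hK : K ≤ T) (hB : Bd T (fam c))
    (h0 : ∀ X ∈ fam c, ((0 : ℤ), (0 : ℤ)) ∉ X) (hc : Critical (fam c)) {i j : ℕ}
    (hj : j < (zsL c).length) :
    gQ (lT T) (trB c) (ntB c) (stC c T) (endB (qT T) K) (r0C c T) (r1C c T) (topC T) (botC T) i j ↔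
      Cnd (fam c) K (yL c i) (yL c j) := by
  have hd : Dr (fam c) (yL c j) := (dr_iff c _).2 ⟨j, hj, rfl⟩
  have hz : yL c j ≠ 0 := by
    intro e
    obtain ⟨X, hX, h | h⟩ := hd
    · rw [e] at h
      exact h0 X hX h
    · rw [e, neg_zero] at h
      exact h0 X hX h
  have hp : perp (yL c j) ≠ 0 := by
    intro e
    apply hz
    have e1 := congrArg Prod.fst e
    have e2 := congrArg Prod.snd e
    simp only [perp, Prod.fst_zero, Prod.snd_zero, neg_eq_zero] at e1 e2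
    ext
    · exact e2
    · exact e1
  have hbd : Bd (bT T) (Upsi (perp (yL c j)) (fam c)) := bd_psi hB hd
  unfold gQ Cnd
  rw [trB_iff, ntB_iff]
  set P := perp (yL c j) with hP
  by_cases hS : St (fam c) P
  · have hcert : (∃ u v : List Bool, u.length = lT T ∧ v.length = lT T ∧ stC c T j u = true ∧
        endB (qT T) K v = true ∧
        Relation.ReflTransGen (fun x y : List Bool => r0C c T j x y = true ∧
          y.length = lT T) u v ∧
        Relation.ReflTransGen (fun x y : List Bool => r1C c T j x y = true ∧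
          y.length = lT T) (topC T v) (botC T v)) ↔ AdmP (fam c) P K := by
      have h1 := cert_gQ (d := psiC (pL c j) c) hK (by rw [fam_psiC]; exact hbd)
      rw [fam_psiC, pL_eq, ← hP] at h1
      refine h1.trans ((admP_iff_cert hbd (st_psi hS) (nsc_psi hp hc.1) (ht_ge hK)
        (Nat.add_le_add_left hK _)).symm.trans ⟨admP_psi_mpr hp, admP_psi_mp hp⟩)
    rw [hcert]
    constructor
    · rintro (⟨h1, h2⟩ | ⟨⟨h1, h2⟩, h3⟩)
      · exact ⟨fun h => absurd (h2.resolve_right (not_not.2 hS)) (not_le.2 h), h1⟩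
      · exact ⟨fun _ => Or.inr ⟨h2.1, h2.2, h3⟩, h1⟩
    · rintro ⟨h1, h2⟩
      by_cases h : 0 < dt P (yL c i)
      · obtain ⟨h3, h4, h5⟩ := (h1 h).resolve_left (not_not.2 hS)
        exact Or.inr ⟨⟨h2, h3, h4⟩, h5⟩
      · exact Or.inl ⟨h2, Or.inl (not_lt.1 h)⟩
  · constructor
    · rintro (⟨h1, -⟩ | ⟨⟨h1, -⟩, -⟩)
      · exact ⟨fun _ => Or.inl hS, h1⟩
      · exact ⟨fun _ => Or.inl hS, h1⟩
    · rintro ⟨-, h2⟩
      exact Or.inl ⟨h2, Or.inr hS⟩

end Pool.Agent.BPM
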