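import Pool.Agent.BPM.LangQ
import Pool.Agent.BPM.DirM
import Pool.Agent.BPM.Bnd

/-!
# The language of the membership theorem: meaning

PROOFS. `acc_iff`: `graph_iff` with `dr_iff` and `gQ_iff`: `Acc ↔ FinChk (fam c) K` and `finChk_of_le`, `le_of_finChk`. (`topC` keeps
the length: `length_setB`.)

`le_iff`: for `K ≤ T` this is `acc_iff`; for `K > T`: `finChk_bound` (with `B = T`) and monotonicity (`AdmP.mono`).
`difficulty_le`: `difficulty U = n` gives `FinChk U n`, hence `FinChk U B`, hence `difficulty U ≤ B` (`finChk_bound` with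
`B = diam U / 2 ≤ diam U`: the coordinates are at most `diam U / 2`).
-/

set_option autoImplicit false

namespace Pool.Agent.BPM

open Pool.Agent.BPD Pool.Agent.PF

theorem acc_iff {c : Code} {K T : ℕ} (hT : 2 ≤ T) (hn : (zsL c).length ≤ T) (hK : K ≤ T)
    (hB : Bd T (fam c)) (h0 : ∀ X ∈ fam c, ((0 : ℤ), (0 : ℤ)) ∉ X) (hc : Critical (fam c)) :
    Acc c K T ↔ difficulty (fam c) ≤ K := by
  have ht : ∀ w : List Bool, w.length = lT T → (topC T w).length = lT T := fun w hw =>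
    length_setB (M := nT T + T) (n := nT T + 2) hw (by omega) (by omega)
  have h1 : Acc c K T ↔ ∃ i < (zsL c).length, ∀ j < (zsL c).length,
      gQ (lT T) (trB c) (ntB c) (stC c T) (endB (qT T) K) (r0C c T) (r1C c T) (topC T) (botC T) i j :=
    graph_iff T (lT T) (zsL c).length (trB c) (ntB c) (stC c T) (endB (qT T) K) (r0C c T)
      (r1C c T) (topC T) (botC T) hT hn ht
  have h2 : Acc c K T ↔ FinChk (fam c) K := by
    rw [h1]
    constructor
    · rintro ⟨i, hi, h⟩
      refine ⟨yL c i, (dr_iff c _).2 ⟨i, hi, rfl⟩, fun z hz => ?_⟩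
      obtain ⟨j, hj, rfl⟩ := (dr_iff c _).1 hz
      exact (gQ_iff (by omega) hK hB h0 hc hj).1 (h j hj)
    · rintro ⟨y, hy, h⟩
      obtain ⟨i, hi, rfl⟩ := (dr_iff c _).1 hy
      refine ⟨i, hi, fun j hj => (gQ_iff (by omega) hK hB h0 hc hj).2 ?_⟩
      exact h (yL c j) ((dr_iff c _).2 ⟨j, hj, rfl⟩)
  rw [h2]
  exact ⟨fun h => le_of_finChk h0 h, fun h => finChk_of_le hc h0 h⟩

theorem le_iff {c : Code} {K T : ℕ} (hT : 2 ≤ T) (hn : (zsL c).length ≤ T)
    (hB : Bd T (fam c)) (h0 : ∀ X ∈ fam c, ((0 : ℤ), (0 : ℤ)) ∉ X) (hc : Critical (fam c)) :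
    Acc c (min K T) T ↔ difficulty (fam c) ≤ K := by
  rcases le_total K T with h | h
  · rw [min_eq_left h]
    exact acc_iff hT hn h hB h0 hc
  · rw [min_eq_right h, acc_iff hT hn le_rfl hB h0 hc]
    refine ⟨fun h1 => h1.trans (by exact_mod_cast h), fun h1 => ?_⟩
    exact le_of_finChk h0 (finChk_bound hB h0 (finChk_of_le hc h0 h1))

theorem difficulty_le {U : Fam} (h0 : ∀ X ∈ U, ((0 : ℤ), (0 : ℤ)) ∉ X) (hc : Critical U) {n : ℕ}
    (hn : difficulty U = n) : n ≤ diam U := by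
  have hB : Bd (diam U) U := by
    intro X hX y hy
    have h1 : max y.1.natAbs y.2.natAbs ≤
        U.sup fun X => X.sup fun x => max x.1.natAbs x.2.natAbs :=
      (Finset.le_sup (f := fun x : ℤ × ℤ => max x.1.natAbs x.2.natAbs) hy).trans
        (Finset.le_sup (f := fun X : Finset (ℤ × ℤ) => X.sup fun x => max x.1.natAbs x.2.natAbs) hX)
    rw [Int.abs_eq_natAbs, Int.abs_eq_natAbs]
    unfold diam
    omega
  have h1 := le_of_finChk h0 (finChk_bound hB h0 (finChk_of_le hc h0 hn.le))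
  rw [hn] at h1
  exact_mod_cast h1

end Pool.Agent.BPM
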