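import Pool.Agent.BPM.Defs

/-!
# Stable directions next to the direction `(0, -1)`

PROOF of `exists_low`. Suppose `¬ LowA U`: there is a rule `X₀` with `0 < y.2` for all `y ∈ X₀`
(`dt y (0, -1) = - y.2`). For real `t` let `SL = {t | ∀ X ∈ U, ∃ y ∈ X, 0 ≤ - y.1 - t y.2}` (the left
directions `(-1, -t)`), `SR = {t | ∀ X ∈ U, ∃ y ∈ X, 0 ≤ y.1 - t y.2}` (the right directions
`(1, -t)`). Both are closed (finite intersections of finite unions of closed half lines), bounded above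
(`X₀`: `t ≤ |y.1| / y.2 ≤ B` for some `y ∈ X₀`), nonempty: `hn` for `w = (-1, 0)` gives a stable `v`
with `v.1 < 0`, divide by `-v.1`; for `SR` use `w = (1, 0)`. Let `t₁ = sSup SL ∈ SL`,
`t₂ = sSup SR ∈ SR` (`IsClosed.csSup_mem`).

`0 < t₁ + t₂`: otherwise take `w = (t₁, -1)` in `hn`: a stable `v` with `0 < t₁ v.1 - v.2`. If `v.1 < 0` then
`t = v.2 / v.1`... (`v = |v.1| (-1, -t)` with `-t = v.2 / |v.1|`) is in `SL` and `t > t₁`. If `v.1 > 0`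
then `v = v.1 (1, -t)`, `t ∈ SR`, `t₁ + t > 0`, so `t > - t₁ ≥ t₂`. If `v.1 = 0` then `v.2 < 0` and
`(0, -1)` is stable. Contradiction in all cases.

`t₁` is attained: for every `n` the number `t₁ + 1 / (n + 1)` is not in `SL`, so there is a rule `X_n` with
`- y.1 - (t₁ + 1 / (n + 1)) y.2 < 0` for all `y ∈ X_n`; one rule `X` occurs for infinitely many
`n`. In the limit `- y.1 - t₁ y.2 ≤ 0` for all `y ∈ X`, and there is `y ∈ X` with `0 ≤ - y.1 - t₁ y.2`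
(`t₁ ∈ SL`), so `y.1 = - t₁ y.2`, and `0 < y.2` (from the strict inequality). Put `a₁ = y.2`,
`b₁ = y.1`: `(-a₁, b₁) = a₁ (-1, - t₁)` is stable. In the same way `y.1 = t₂ y.2`, `0 < y.2` for some site;
put `a₂ = y.2`, `b₂ = - y.1`: `(a₂, b₂) = a₂ (1, -t₂)`. Finally
`a₂ b₁ + a₁ b₂ = - a₁ a₂ (t₁ + t₂) < 0`, and all numbers are at most `B`.
-/

set_option autoImplicit false

namespace Pool.Agent.BPM

open Pool.Agent.BPD Set

/-- The direction `(0, -1)` is stable. -/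
def LowA (U : Fam) : Prop := St U (0, -1)

/-- There are two stable directions below, one on each side, with `(0, -1)` between them. -/
def LowB (B : ℕ) (U : Fam) : Prop :=
  ∃ a₁ b₁ a₂ b₂ : ℤ, 0 < a₁ ∧ a₁ ≤ B ∧ |b₁| ≤ B ∧ 0 < a₂ ∧ a₂ ≤ B ∧ |b₂| ≤ B ∧
    a₂ * b₁ + a₁ * b₂ < 0 ∧ St U (-a₁, b₁) ∧ St U (a₂, b₂)

/-- A finite system of half lines: the largest solution is attained by a site. -/
private theorem low_att (U : Fam) (f g : ℤ × ℤ → ℝ) {X₀ : Finset (ℤ × ℤ)} (h0 : X₀ ∈ U)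
    (hg : ∀ y ∈ X₀, 0 < g y) (hne : ∃ t : ℝ, ∀ X ∈ U, ∃ y ∈ X, 0 ≤ f y - t * g y) :
    ∃ t₁ : ℝ, (∀ X ∈ U, ∃ y ∈ X, 0 ≤ f y - t₁ * g y) ∧
      (∀ t : ℝ, (∀ X ∈ U, ∃ y ∈ X, 0 ≤ f y - t * g y) → t ≤ t₁) ∧
      ∃ X ∈ U, ∃ y ∈ X, f y = t₁ * g y ∧ 0 < g y := by
  let S : Set ℝ := {t : ℝ | ∀ X ∈ U, ∃ y ∈ X, 0 ≤ f y - t * g y}
  have hS : S = ⋂ X ∈ U, ⋃ y ∈ X, {t : ℝ | 0 ≤ f y - t * g y} := by
    ext t
    simp only [Set.mem_iInter, Set.mem_iUnion, exists_prop]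
    exact Iff.rfl
  have hc : IsClosed S := by
    rw [hS]
    refine isClosed_biInter fun X _ => ?_
    refine isClosed_biUnion_finset fun y _ => ?_
    exact isClosed_le continuous_const (by fun_prop)
  have hb : BddAbove S := by
    refine ⟨∑ y ∈ X₀, |f y / g y|, ?_⟩
    intro t ht
    obtain ⟨y, hy, h1⟩ := ht X₀ h0
    have h2 : t ≤ f y / g y := by
      rw [le_div_iff₀ (hg y hy)]
      linarith
    calc t ≤ f y / g y := h2
      _ ≤ |f y / g y| := le_abs_self _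
      _ ≤ ∑ y ∈ X₀, |f y / g y| :=
        Finset.single_le_sum (f := fun y => |f y / g y|) (fun _ _ => abs_nonneg _) hy
  have hm : sSup S ∈ S := hc.csSup_mem hne hb
  refine ⟨sSup S, hm, fun t ht => le_csSup hb ht, ?_⟩
  by_contra hcon
  have hev : ∀ X ∈ U, ∀ᶠ t in nhdsWithin (sSup S) (Set.Ioi (sSup S)),
      ∃ y ∈ X, 0 ≤ f y - t * g y := by
    intro X hX
    obtain ⟨y, hy, h1⟩ := hm X hX
    rcases le_or_gt (g y) 0 with h2 | h2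
    · filter_upwards [self_mem_nhdsWithin] with t ht
      refine ⟨y, hy, ?_⟩
      have h3 : sSup S < t := ht
      nlinarith
    · have h3 : 0 < f y - sSup S * g y := by
        refine lt_of_le_of_ne h1 ?_
        intro h4
        exact hcon ⟨X, hX, y, hy, by linarith, h2⟩
      have h5 : ContinuousAt (fun t : ℝ => f y - t * g y) (sSup S) := by fun_prop
      have h6 : ∀ᶠ t in nhds (sSup S), 0 < f y - t * g y := h5.eventually (lt_mem_nhds h3)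
      filter_upwards [nhdsWithin_le_nhds h6] with t ht
      exact ⟨y, hy, le_of_lt ht⟩
  have hall : ∀ᶠ t in nhdsWithin (sSup S) (Set.Ioi (sSup S)), t ∈ S :=
    (Filter.eventually_all_finset U).2 hev
  have hlt : ∀ᶠ t in nhdsWithin (sSup S) (Set.Ioi (sSup S)), sSup S < t := self_mem_nhdsWithin
  obtain ⟨t, h1, h2⟩ := (hall.and hlt).exists
  exact absurd (le_csSup hb h1) (not_le.2 h2)

theorem exists_low {U : Fam} {B : ℕ} (hb : Bd B U) (hn : NSC U) : LowA U ∨ LowB B U := by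
  by_cases hA : LowA U
  · exact Or.inl hA
  right
  have hA' : ∃ X₀ ∈ U, ∀ y ∈ X₀, 0 < y.2 := by
    unfold LowA St at hA
    push Not at hA
    obtain ⟨X, hX, h1⟩ := hA
    refine ⟨X, hX, fun y hy => ?_⟩
    have h2 := h1 y hy
    simp only [dt] at h2
    omega
  obtain ⟨X₀, hX₀, h0⟩ := hA'
  have h0' : ∀ y ∈ X₀, (0 : ℝ) < (y.2 : ℝ) := fun y hy => by exact_mod_cast h0 y hy
  -- real stable vectors give solutions
  have hL : ∀ v : ℝ × ℝ, v.1 < 0 → (∀ X ∈ U, ∃ y ∈ X, 0 ≤ (y.1 : ℝ) * v.1 + (y.2 : ℝ) * v.2) →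
      ∀ X ∈ U, ∃ y ∈ X, 0 ≤ -(y.1 : ℝ) - v.2 / v.1 * (y.2 : ℝ) := by
    intro v hv hs X hX
    obtain ⟨y, hy, h1⟩ := hs X hX
    refine ⟨y, hy, ?_⟩
    have h2 : -(y.1 : ℝ) - v.2 / v.1 * (y.2 : ℝ) =
        ((y.1 : ℝ) * v.1 + (y.2 : ℝ) * v.2) / (-v.1) := by
      have hv' : v.1 ≠ 0 := hv.ne
      field_simp
      ring
    rw [h2]
    exact div_nonneg h1 (by linarith)
  have hR : ∀ v : ℝ × ℝ, 0 < v.1 → (∀ X ∈ U, ∃ y ∈ X, 0 ≤ (y.1 : ℝ) * v.1 + (y.2 : ℝ) * v.2) →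
      ∀ X ∈ U, ∃ y ∈ X, 0 ≤ (y.1 : ℝ) - -v.2 / v.1 * (y.2 : ℝ) := by
    intro v hv hs X hX
    obtain ⟨y, hy, h1⟩ := hs X hX
    refine ⟨y, hy, ?_⟩
    have h2 : (y.1 : ℝ) - -v.2 / v.1 * (y.2 : ℝ) =
        ((y.1 : ℝ) * v.1 + (y.2 : ℝ) * v.2) / v.1 := by
      have hv' : v.1 ≠ 0 := hv.ne'
      field_simp
      ring
    rw [h2]
    exact div_nonneg h1 hv.le
  obtain ⟨vl, hl1, hl2⟩ := hn (-1, 0) (by simp)
  obtain ⟨vr, hr1, hr2⟩ := hn (1, 0) (by simp)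
  have hl3 : vl.1 < 0 := by
    simp only at hl1
    linarith
  have hr3 : 0 < vr.1 := by
    simp only at hr1
    linarith
  obtain ⟨t₁, hs1, hm1, X₁, hX₁, y₁, hy₁, he1, hp1⟩ :=
    low_att U (fun y => -(y.1 : ℝ)) (fun y => (y.2 : ℝ)) hX₀ h0' ⟨_, hL vl hl3 hl2⟩
  obtain ⟨t₂, hs2, hm2, X₂, hX₂, y₂, hy₂, he2, hp2⟩ :=
    low_att U (fun y => (y.1 : ℝ)) (fun y => (y.2 : ℝ)) hX₀ h0' ⟨_, hR vr hr3 hr2⟩
  have hsum : 0 < t₁ + t₂ := by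
    by_contra hcon
    push Not at hcon
    obtain ⟨v, h1, h2⟩ := hn (t₁, -1) (by simp)
    simp only at h1
    rcases lt_trichotomy v.1 0 with h3 | h3 | h3
    · have h4 := hm1 _ (hL v h3 h2)
      rw [div_le_iff_of_neg h3] at h4
      linarith
    · obtain ⟨y, hy, h5⟩ := h2 X₀ hX₀
      have h6 := h0' y hy
      rw [h3] at h1 h5
      nlinarith
    · have h4 := hm2 _ (hR v h3 h2)
      rw [div_le_iff₀ h3] at h4
      nlinarith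
  have hp1' : 0 < y₁.2 := by exact_mod_cast hp1
  have hp2' : 0 < y₂.2 := by exact_mod_cast hp2
  refine ⟨y₁.2, y₁.1, y₂.2, -y₂.1, hp1', ?_, ?_, hp2', ?_, ?_, ?_, ?_, ?_⟩
  · exact le_trans (le_abs_self _) (hb X₁ hX₁ y₁ hy₁).2
  · exact (hb X₁ hX₁ y₁ hy₁).1
  · exact le_trans (le_abs_self _) (hb X₂ hX₂ y₂ hy₂).2
  · rw [abs_neg]
    exact (hb X₂ hX₂ y₂ hy₂).1
  · have h1 : (y₂.2 : ℝ) * (y₁.1 : ℝ) + (y₁.2 : ℝ) * (-(y₂.1 : ℝ)) < 0 := by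
      have h2 : (y₁.1 : ℝ) = -(t₁ * (y₁.2 : ℝ)) := by linarith
      rw [h2, he2]
      have h3 : 0 < (y₁.2 : ℝ) * (y₂.2 : ℝ) * (t₁ + t₂) := mul_pos (mul_pos hp1 hp2) hsum
      nlinarith
    exact_mod_cast h1
  · intro X hX
    obtain ⟨y, hy, h1⟩ := hs1 X hX
    refine ⟨y, hy, ?_⟩
    have h2 : (0 : ℝ) ≤ (y.1 : ℝ) * (-(y₁.2 : ℝ)) + (y.2 : ℝ) * (y₁.1 : ℝ) := by
      have h3 : (y₁.1 : ℝ) = -(t₁ * (y₁.2 : ℝ)) := by linarith
      rw [h3]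
      have h4 := mul_nonneg hp1.le h1
      nlinarith
    show 0 ≤ y.1 * (-y₁.2) + y.2 * y₁.1
    exact_mod_cast h2
  · intro X hX
    obtain ⟨y, hy, h1⟩ := hs2 X hX
    refine ⟨y, hy, ?_⟩
    have h2 : (0 : ℝ) ≤ (y.1 : ℝ) * (y₂.2 : ℝ) + (y.2 : ℝ) * (-(y₂.1 : ℝ)) := by
      rw [he2]
      have h4 := mul_nonneg hp2.le h1
      nlinarith
    show 0 ≤ y.1 * y₂.2 + y.2 * (-y₂.1)
    exact_mod_cast h2

end Pool.Agent.BPM
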