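import Pool.Agent.BPM.Parse
import Pool.Agent.BPM.SizeL

/-!
# Parsing with a bounded number
-/

set_option autoImplicit false

namespace Pool.Agent.BPM

open Turing Pool.Agent.PF Pool.Agent.PT Pool.Agent.BPD
open Pool.Agent

/-- The number with the given bits, at most `N`. -/
private def cv (N : ℕ) (l : List Bool) : ℕ :=
  l.reverse.foldl (fun a b => min N (if b = true then 2 * a + 1 else 2 * a)) 0

private theorem cv_eq (N : ℕ) (l : List Bool) :
    cv N l = min N (l.foldr (fun b n => Nat.bit b n) 0) := by
  unfold cv
  rw [List.foldl_reverse]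
  induction l with
  | nil => simp
  | cons b l ih =>
    rw [List.foldr_cons, List.foldr_cons, ih, Nat.bit_val]
    cases b
    · simp only [Bool.false_eq_true, if_false, Bool.toNat_false]
      omega
    · simp only [if_true, Bool.toNat_true]
      omega

private theorem cv_PF : PF fun p : List Bool × ℕ => cv p.2 p.1 := by
  unfold cv
  refine PF.foldl (g := fun (p : List Bool × ℕ) a b => min p.2 (if b = true then 2 * a + 1 else 2 * a))
    (s := fun _ => 0) (by fun_prop) ?_ (by fun_prop) ?_
  · exact PF.minN (by fun_prop) (PF.cond (by fun_prop) (by fun_prop) (by fun_prop))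
  · refine ⟨1, fun x i => ?_⟩
    rw [sz_nat, pow_one]
    have h1 : ∀ (l : List Bool) (a : ℕ), a ≤ x.2 →
        l.foldl (fun a b => min x.2 (if b = true then 2 * a + 1 else 2 * a)) a ≤ x.2 := by
      intro l
      induction l with
      | nil => intro a ha; exact ha
      | cons b l ih => intro a _; exact ih _ (min_le_left _ _)
    have h2 := h1 (x.1.reverse.take i) 0 (Nat.zero_le _)
    have h3 : sz x = sz x.1 + (2 * x.2 + 1) + 1 := by
      obtain ⟨a, b⟩ := x
      rw [sz_prod, sz_nat]
    omega

theorem exists_parse : ∃ D : List Bool × ℕ → Code × ℕ, PF D ∧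
    ∀ (c : Code) (K : ℕ), Valid c →
      D ((enc (c, K.bits) : V).code, 2 ^ ((enc (c, K.bits) : V).code).length) =
        (c, min K (2 ^ ((enc (c, K.bits) : V).code).length)) ∧
      2 * c.flatten.length ≤ 2 ^ ((enc (c, K.bits) : V).code).length ∧
      diam (fam c) ≤ 2 ^ ((enc (c, K.bits) : V).code).length := by
  refine ⟨fun p => ((parse p.1).1, cv p.2 (parse p.1).2), ?_, fun c K _ => ⟨?_, ?_, ?_⟩⟩
  · have h1 : PF fun p : List Bool × ℕ => parse p.1 :=
      PF.comp' (g := parse) (f := fun p : List Bool × ℕ => p.1) parse_PF (PF.fst PF.id')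
    have h2 : PF fun p : List Bool × ℕ => cv p.2 (parse p.1).2 :=
      PF.comp' (g := fun p : List Bool × ℕ => cv p.2 p.1)
        (f := fun p : List Bool × ℕ => ((parse p.1).2, p.2)) cv_PF
        (PF.prodMk (PF.snd h1) (PF.snd PF.id'))
    exact PF.prodMk (PF.fst h1) h2
  · simp only [parse_enc, cv_eq, foldr_bits]
    rw [min_comm]
  · have h1 : ((enc (c, K.bits) : V).code).length = (enc c : V).size + (enc K.bits : V).size + 1 :=
      V.code_length _
    have h2 : ∀ l : List (ℤ × ℤ), l.length + 1 ≤ (enc l : V).size := by
      intro l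
      induction l with
      | nil => exact le_rfl
      | cons a l ih =>
        have h3 : (enc (a :: l) : V).size = (enc a : V).size + (enc l : V).size + 1 := rfl
        rw [h3, List.length_cons]
        omega
    have h4 : ∀ d : Code, d.flatten.length + 1 ≤ (enc d : V).size := by
      intro d
      induction d with
      | nil => exact le_rfl
      | cons a d ih =>
        have h3 : (enc (a :: d) : V).size = (enc a : V).size + (enc d : V).size + 1 := rfl
        have h5 := h2 a
        rw [h3, List.flatten_cons, List.length_append]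
        omega
    have h5 := h4 c
    have h6 : c.flatten.length < 2 ^ c.flatten.length := Nat.lt_two_pow_self
    calc 2 * c.flatten.length ≤ 2 ^ (c.flatten.length + 1) := by rw [pow_succ]; omega
      _ ≤ _ := Nat.pow_le_pow_right (by norm_num) (by omega)
  · refine (diam_le c).trans (Nat.pow_le_pow_right (by norm_num) ?_)
    have h1 : ((enc (c, K.bits) : V).code).length = (enc c : V).size + (enc K.bits : V).size + 1 :=
      V.code_length _
    omega

end Pool.Agent.BPM
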