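import Pool.Agent.BPM.LangS
import Pool.Agent.BPM.ParseD
import Pool.Agent.BPM.FastOf

/-!
# The difficulty of critical families in exponential space
-/

set_option autoImplicit false

namespace Pool.Agent.BPM

open Pool.Agent.BPD Pool.Agent.PF

theorem bd_of_diam {U : Fam} {T : ℕ} (h : diam U ≤ T) : Bd T U := by
  intro X hX y hy
  have h1 : max y.1.natAbs y.2.natAbs ≤ X.sup fun x : ℤ × ℤ => max x.1.natAbs x.2.natAbs :=
    Finset.le_sup (f := fun x : ℤ × ℤ => max x.1.natAbs x.2.natAbs) hy
  have h2 : (X.sup fun x : ℤ × ℤ => max x.1.natAbs x.2.natAbs) ≤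
      U.sup fun X => X.sup fun x => max x.1.natAbs x.2.natAbs :=
    Finset.le_sup (f := fun X : Finset (ℤ × ℤ) => X.sup fun x => max x.1.natAbs x.2.natAbs) hX
  have h3 : max y.1.natAbs y.2.natAbs ≤ T := by
    unfold diam at h
    omega
  have h4 := le_max_left y.1.natAbs y.2.natAbs
  have h5 := le_max_right y.1.natAbs y.2.natAbs
  constructor
  · rw [Int.abs_eq_natAbs]
    omega
  · rw [Int.abs_eq_natAbs]
    omega

theorem valid_zero {c : Code} (hv : Valid c) : ∀ X ∈ fam c, ((0 : ℤ), (0 : ℤ)) ∉ X := by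
  intro X hX
  unfold fam at hX
  rw [List.mem_toFinset, List.mem_map] at hX
  obtain ⟨L, hL, rfl⟩ := hX
  rw [List.mem_toFinset]
  exact (hv.rules L hL).2

/-- **Membership.** The problem `difficulty ≤ K` for critical families is in ESPACE. -/
theorem exists_lang : ∃ P : Set (List Bool), InESPACE P ∧
    ∀ c : Code, Valid c → Critical (fam c) → ∀ K : ℕ,
      ((enc (c, K.bits)).code ∈ P ↔ difficulty (fam c) ≤ K) := by
  obtain ⟨D, hD, hs⟩ := exists_parse
  refine ⟨_, inESPACE_lang hD, fun c hv hc K => ?_⟩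
  obtain ⟨h1, h2, h3⟩ := hs c K hv
  have h4 : 1 ≤ ((enc (c, K.bits)).code).length := by
    have : (enc (c, K.bits)).code = true :: ((enc c).code ++ (enc K.bits).code) := rfl
    rw [this]
    simp
  have h5 : 2 ≤ 2 ^ ((enc (c, K.bits)).code).length := by
    calc 2 = 2 ^ 1 := rfl
      _ ≤ _ := Nat.pow_le_pow_right (by norm_num) h4
  have h6 : (zsL c).length ≤ 2 ^ ((enc (c, K.bits)).code).length := by
    unfold zsL
    rw [List.length_append, List.length_map]
    omega
  rw [Set.mem_ofPred_eq, h1]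
  exact le_iff h5 h6 (bd_of_diam h3) (valid_zero hv) hc

/-- If ESPACE is contained in E, the difficulty is computed in time `exp (O (size))`. -/
theorem exists_fast (hE : ∀ L : Set (List Bool), InESPACE L → InE L) : ∃ a : ℝ, FastAlg a := by
  obtain ⟨P, hP, h⟩ := exists_lang
  refine fast_of hE hP fun c hv hc n hn => ⟨difficulty_le (valid_zero hv) hc hn, fun K => ?_⟩
  have := h c hv hc K
  rw [hn, Nat.cast_le] at this
  exact this

end Pool.Agent.BPM
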