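import Pool.Agent.BPD.SDefs
import Pool.Agent.BPD.Lin
import Pool.Agent.PF.Int

/-!
# Parsing the words of the inputs
-/

set_option autoImplicit false

namespace Pool.Agent.BPM

open Turing Pool.Agent.PF Pool.Agent.PT Pool.Agent.BPD
open Pool.Agent

variable {α : Type} [VEnc α]

theorem PF_hdV {f : α → V} (hf : PF f) : PF fun x => (f x).hd := by
  obtain ⟨F, hF, h⟩ := hf
  exact ⟨fun v => (F v).hd, PT.comp PT.hd hF, fun a => by simp only [h]; rfl⟩

theorem PF_tlV {f : α → V} (hf : PF f) : PF fun x => (f x).tl := by
  obtain ⟨F, hF, h⟩ := hf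
  exact ⟨fun v => (F v).tl, PT.comp PT.tl hF, fun a => by simp only [h]; rfl⟩

/-- The Boolean of a tree. -/
def VB : V → Bool
  | .nil => false
  | .node _ _ => true

theorem VB_enc (b : Bool) : VB (enc b) = b := by cases b <;> rfl

theorem PF_VB {f : α → V} (hf : PF f) : PF fun x => VB (f x) := by
  obtain ⟨F, hF, h⟩ := hf
  refine ⟨fun v => V.ifnil (F v) .nil (.node .nil .nil), PT.ifnil hF (PT.const _) (PT.const _),
    fun a => ?_⟩
  simp only [h]
  change V.ifnil (f a) _ _ = V.bool (VB (f a))
  cases f a <;> rfl

/-- The list of a tree. -/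
def VL : V → List V
  | .nil => []
  | .node a b => a :: VL b

theorem VL_enc {β : Type} [VEnc β] (l : List β) : VL (enc l) = l.map enc := by
  induction l with
  | nil => rfl
  | cons b l ih =>
    change enc b :: VL (enc l) = _
    rw [ih]
    rfl

theorem PF_VL {f : α → V} (hf : PF f) : PF fun x => VL (f x) := by
  obtain ⟨F, hF, h⟩ := hf
  refine ⟨F, hF, fun a => ?_⟩
  rw [h]
  have key : ∀ v : V, v = V.list ((VL v).map id) := by
    intro v
    induction v with
    | nil => rfl
    | node a b _ ih =>
      change V.node a b = V.node a (V.list ((VL b).map id))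
      rw [← ih]
  exact key (f a)

/-- The natural number with the bits in a tree. -/
def VN (v : V) : Bin := Bin.mk (((VL v).map VB).foldr (fun b n => Nat.bit b n) 0)

theorem PF_bits {f : α → V} (hf : PF f) : PF fun x => (VL (f x)).map VB :=
  PF.map (g := fun _ w => VB w) (PF_VL hf) (PF_VB (PF.snd PF.id'))

theorem PF_VN {f : α → V} (hf : PF f) : PF fun x => VN (f x) := PF.ofBitsB (PF_bits hf)

theorem bits_VL (l : List Bool) : (VL (enc l)).map VB = l := by
  rw [VL_enc, List.map_map]
  have : VB ∘ (enc : Bool → V) = id := by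
    funext b
    exact VB_enc b
  rw [this, List.map_id]

theorem VN_enc (n : ℕ) : VN (enc n.bits) = Bin.mk n := by
  unfold VN
  rw [bits_VL, foldr_bits]

/-- The integer of a tree. -/
def VZ (v : V) : ℤ := if VB v.hd = true then -((VN v.tl).val : ℤ) else ((VN v.tl).val : ℤ)

theorem PF_VZ {f : α → V} (hf : PF f) : PF fun x => VZ (f x) :=
  PF.mkZ (PF_VB (PF_hdV hf)) (PF_VN (PF_tlV hf))

theorem VZ_enc (z : ℤ) : VZ (enc z) = z := by
  have e : (enc z : V) = V.node (enc (decide (z < 0))) (enc z.natAbs.bits) := rfl
  unfold VZ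
  rw [e, V.hd_node, V.tl_node, VB_enc, VN_enc]
  simp only [decide_eq_true_eq]
  split_ifs <;> omega

/-- The input of a tree. -/
def VC (v : V) : Code := (VL v).map fun w => (VL w).map fun z => (VZ z.hd, VZ z.tl)

theorem PF_VC {f : α → V} (hf : PF f) : PF fun x => VC (f x) := by
  have h1 : PF fun z : V => (VZ z.hd, VZ z.tl) :=
    PF.prodMk (PF_VZ (PF_hdV PF.id')) (PF_VZ (PF_tlV PF.id'))
  have h2 : PF fun w : V => (VL w).map fun z => (VZ z.hd, VZ z.tl) :=
    PF.map (g := fun _ z => (VZ z.hd, VZ z.tl)) (PF_VL PF.id')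
      (PF.comp' (g := fun z : V => (VZ z.hd, VZ z.tl)) h1 (PF.snd PF.id'))
  exact PF.map (g := fun _ w => (VL w).map fun z => (VZ z.hd, VZ z.tl)) (PF_VL hf)
    (PF.comp' (g := fun w : V => (VL w).map fun z => (VZ z.hd, VZ z.tl)) h2 (PF.snd PF.id'))

theorem VC_enc (c : Code) : VC (enc c) = c := by
  unfold VC
  rw [VL_enc, List.map_map]
  conv_rhs => rw [← List.map_id c]
  refine List.map_congr_left fun X _ => ?_
  change (VL (enc X)).map _ = X
  rw [VL_enc, List.map_map]
  conv_rhs => rw [← List.map_id X]
  refine List.map_congr_left fun p _ => ?_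
  obtain ⟨a, b⟩ := p
  change (VZ (enc a), VZ (enc b)) = (a, b)
  rw [VZ_enc, VZ_enc]

/-- One symbol of a word in prefix form, read from the right. -/
private def pst (s : List V) (b : Bool) : List V :=
  if b = true then V.node (s.headD .nil) (s.tail.headD .nil) :: s.tail.tail else V.nil :: s

/-- The tree of a word in prefix form. -/
def decT (x : List Bool) : V := (x.reverse.foldl pst []).headD .nil

private theorem decT_aux (v : V) : ∀ s : List V, v.code.reverse.foldl pst s = v :: s := by
  induction v with
  | nil => intro s; rfl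
  | node a b iha ihb =>
    intro s
    change (true :: (a.code ++ b.code)).reverse.foldl pst s = _
    rw [List.reverse_cons, List.reverse_append, List.foldl_append, List.foldl_append, ihb, iha]
    rfl

theorem decT_code (v : V) : decT v.code = v := by
  unfold decT
  rw [decT_aux]
  rfl

private theorem pst_size (s : List V) (b : Bool) : sz (pst s b) ≤ sz s + 4 := by
  cases b
  · change sz (V.nil :: s) ≤ _
    rw [sz_cons]
    have : sz V.nil = 1 := rfl
    omega
  · change sz (V.node (s.headD .nil) (s.tail.headD .nil) :: s.tail.tail) ≤ _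
    rcases s with _ | ⟨a, s⟩
    · decide
    · rcases s with _ | ⟨c, s⟩
      · change sz [V.node a V.nil] ≤ sz [a] + 4
        rw [sz_cons, sz_cons]
        have : sz (V.node a V.nil) = sz a + 1 + 1 := rfl
        omega
      · change sz (V.node a c :: s) ≤ sz (a :: c :: s) + 4
        rw [sz_cons, sz_cons, sz_cons]
        have : sz (V.node a c) = sz a + sz c + 1 := rfl
        omega

private theorem pst_fold (l : List Bool) : ∀ s : List V, sz (l.foldl pst s) ≤ sz s + 4 * l.length := by
  induction l with
  | nil => intro s; simp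
  | cons b l ih =>
    intro s
    have h1 := ih (pst s b)
    have h2 := pst_size s b
    rw [List.foldl_cons, List.length_cons]
    omega

private theorem pst_PF : PF fun p : List V × Bool => pst p.1 p.2 := by
  have h1 : PF fun p : List V × Bool => V.node (p.1.headD .nil) (p.1.tail.headD .nil) := by
    obtain ⟨F, hF, h⟩ : PF fun p : List V × Bool => (p.1.headD .nil, p.1.tail.headD .nil) := by
      fun_prop
    exact ⟨F, hF, fun a => h a⟩
  exact PF.cond (PF.snd PF.id') (PF.cons h1 (by fun_prop)) (by fun_prop)

theorem PF_decT {f : α → List Bool} (hf : PF f) : PF fun x => decT (f x) := by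
  refine PF.headD (PF.foldl (g := fun _ s b => pst s b) (s := fun _ => []) (by fun_prop)
    (PF.comp' (g := fun p : List V × Bool => pst p.1 p.2)
      (f := fun p : (α × List V) × Bool => (p.1.2, p.2)) pst_PF (by fun_prop)) (by fun_prop) ?_)
    (by fun_prop)
  have h1 : PF fun x => 1 + 4 * (f x).length := by fun_prop
  obtain ⟨c, hc⟩ := PF.size_le h1
  refine ⟨c, fun x i => le_trans ?_ (hc x)⟩
  refine (pst_fold _ _).trans ?_
  rw [sz_nil, sz_nat, List.length_take, List.length_reverse]
  omega

/-- The data of a word: the family and the bits of the number. -/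
def parse (x : List Bool) : Code × List Bool := (VC (decT x).hd, (VL (decT x).tl).map VB)

theorem parse_PF : PF parse :=
  PF.prodMk (PF_VC (PF_hdV (PF_decT PF.id'))) (PF_bits (PF_tlV (PF_decT PF.id')))

theorem parse_enc (c : Code) (l : List Bool) : parse ((enc (c, l) : V).code) = (c, l) := by
  unfold parse
  rw [decT_code]
  change (VC (enc c), (VL (enc l)).map VB) = _
  rw [VC_enc, bits_VL]

end Pool.Agent.BPM
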