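import Mathlib

/-!
# Reachability by halving
-/

set_option autoImplicit false

namespace Pool.Agent.BPM

/-- A shortest path visits every vertex at most once. -/
theorem exists_short {α : Type} [Fintype α] {r : α → α → Prop} {a b : α}
    (h : Relation.ReflTransGen r a b) :
    ∃ n ≤ Fintype.card α, ∃ f : ℕ → α, f 0 = a ∧ f n = b ∧ ∀ i < n, r (f i) (f (i + 1)) := by
  classical
  have hex : ∃ n, ∃ f : ℕ → α, f 0 = a ∧ f n = b ∧ ∀ i < n, r (f i) (f (i + 1)) := by
    induction h with
    | refl => exact ⟨0, fun _ => a, rfl, rfl, fun i hi => absurd hi (by omega)⟩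
    | @tail c d _ hcd ih =>
      obtain ⟨n, f, h0, h1, h2⟩ := ih
      refine ⟨n + 1, fun i => if i ≤ n then f i else d, by simp [h0], by simp, fun i hi => ?_⟩
      rcases Nat.lt_succ_iff_lt_or_eq.1 hi with hi | rfl
      · have e1 : i ≤ n := hi.le
        have e2 : i + 1 ≤ n := hi
        simp only [e1, e2, if_true]
        exact h2 i hi
      · simp only [le_refl, if_true]
        rw [if_neg (by omega), h1]
        exact hcd
  obtain ⟨n, hn, hmin⟩ : ∃ n, (∃ f : ℕ → α, f 0 = a ∧ f n = b ∧ ∀ i < n, r (f i) (f (i + 1))) ∧
      ∀ m < n, ¬ ∃ f : ℕ → α, f 0 = a ∧ f m = b ∧ ∀ i < m, r (f i) (f (i + 1)) :=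
    ⟨Nat.find hex, Nat.find_spec hex, fun m hm => Nat.find_min hex hm⟩
  obtain ⟨f, h0, h1, h2⟩ := hn
  refine ⟨n, ?_, f, h0, h1, h2⟩
  have hinj : Function.Injective fun i : Fin (n + 1) => f i := by
    have key : ∀ i j : ℕ, i < j → j ≤ n → f i ≠ f j := by
      intro i j hij hj e
      refine hmin (n - (j - i)) (by omega) ⟨fun k => if k ≤ i then f k else f (k + (j - i)),
        by simp [h0], ?_, fun k hk => ?_⟩
      · by_cases h3 : n - (j - i) ≤ i
        · have h4 : j = n := by omega
          have h5 : n - (j - i) = i := by omega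
          simp only [h5, le_refl, if_true]
          rw [e, h4, h1]
        · simp only [h3, if_false]
          rw [← h1]
          congr 1
          omega
      · by_cases h3 : k + 1 ≤ i
        · have h4 : k ≤ i := by omega
          simp only [h3, h4, if_true]
          exact h2 k (by omega)
        · by_cases h4 : k ≤ i
          · have h5 : k = i := by omega
            subst h5
            simp only [le_refl, if_true, h3, if_false]
            rw [e]
            have h6 : k + 1 + (j - k) = j + 1 := by omega
            rw [h6]
            exact h2 j (by omega)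
          · simp only [h3, h4, if_false]
            have h6 : k + 1 + (j - i) = (k + (j - i)) + 1 := by omega
            rw [h6]
            exact h2 _ (by omega)
    intro i j e
    by_contra hne
    rcases lt_or_gt_of_ne (fun h => hne (Fin.ext h)) with h3 | h3
    · exact key i j h3 (by omega) e
    · exact key j i h3 (by omega) e.symm
  have := Fintype.card_le_of_injective _ hinj
  rw [Fintype.card_fin] at this
  omega

/-- Reachability in at most `2 ^ k` steps through words of length `M`. -/
def RW (E : List Bool → List Bool → Prop) (M : ℕ) : ℕ → List Bool → List Bool → Prop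
  | 0, a, b => a = b ∨ E a b
  | k + 1, a, b => ∃ m, m.length = M ∧ RW E M k a m ∧ RW E M k m b

theorem RW_of_path {E : List Bool → List Bool → Prop} {M : ℕ} (k : ℕ) :
    ∀ (n : ℕ) (f : ℕ → List Bool), n ≤ 2 ^ k → (∀ i, (f i).length = M) →
      (∀ i < n, E (f i) (f (i + 1))) → RW E M k (f 0) (f n) := by
  induction k with
  | zero =>
    intro n f hn hf h
    rcases Nat.lt_or_ge n 1 with h1 | h1
    · have : n = 0 := by omega
      subst this
      exact Or.inl rfl
    · have : n = 1 := by simpa using le_antisymm hn h1
      subst this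
      exact Or.inr (h 0 (by omega))
  | succ k ih =>
    intro n f hn hf h
    rw [pow_succ] at hn
    refine ⟨f (min n (2 ^ k)), hf _, ih _ f (min_le_right _ _) hf fun i hi => h i (by omega), ?_⟩
    have h3 := ih (n - min n (2 ^ k)) (fun i => f (i + min n (2 ^ k))) (by omega)
      (fun i => hf _) (fun i hi => by
        have := h (i + min n (2 ^ k)) (by omega)
        have e : i + 1 + min n (2 ^ k) = i + min n (2 ^ k) + 1 := by omega
        rw [e]
        exact this)
    have e : n - min n (2 ^ k) + min n (2 ^ k) = n := by omega
    simpa only [Nat.zero_add, e] using h3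

/-- The edges between words of length `M`. -/
def EM (E : List Bool → List Bool → Prop) (M : ℕ) (a b : List Bool) : Prop :=
  a.length = M ∧ b.length = M ∧ E a b

theorem reach_of_RW {E : List Bool → List Bool → Prop} {M : ℕ} (k : ℕ) :
    ∀ a b : List Bool, a.length = M → b.length = M → RW E M k a b →
      Relation.ReflTransGen (EM E M) a b := by
  induction k with
  | zero =>
    rintro a b ha hb (rfl | h)
    · exact Relation.ReflTransGen.refl
    · exact Relation.ReflTransGen.single ⟨ha, hb, h⟩
  | succ k ih =>
    rintro a b ha hb ⟨m, hm, h1, h2⟩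
    exact (ih a m ha hm h1).trans (ih m b hm hb h2)

theorem reach_iff {E : List Bool → List Bool → Prop} {M : ℕ} {a b : List Bool} (ha : a.length = M)
    (hb : b.length = M) : Relation.ReflTransGen (EM E M) a b ↔ RW E M M a b := by
  refine ⟨fun h => ?_, reach_of_RW M a b ha hb⟩
  have h1 : ∀ c, Relation.ReflTransGen (EM E M) a c → ∀ hc : c.length = M,
      Relation.ReflTransGen (fun x y : List.Vector Bool M => E x.1 y.1) ⟨a, ha⟩ ⟨c, hc⟩ := by
    intro c h
    induction h with
    | refl => intro hc; exact Relation.ReflTransGen.refl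
    | @tail c d _ hcd ih =>
      intro hd
      exact (ih hcd.1).tail hcd.2.2
  obtain ⟨n, hn, f, h0, h2, h3⟩ := exists_short (h1 b h hb)
  rw [card_vector, Fintype.card_bool] at hn
  have h4 := RW_of_path (E := E) (M := M) M n (fun i => (f i).1) hn (fun i => (f i).2) h3
  simp only [h0, h2] at h4
  exact h4

end Pool.Agent.BPM
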