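import Pool.Agent.BPM.Defs

/-!
# From a certificate to an infinite sequence of states

`SeqC`: an infinite sequence of states `σ` of the windows `0, 1, 2, ..`; from the window `i` on it
is periodic with period `p`, with cuts `μ 0, .., μ p` in every period.

PROOF of `exists_seqC`. A relation `ReflTransGen R a c` gives a chain `s 0 = a`, .., `s n = c`
(`seqChain`). So the first part of the certificate gives `s`, `n = i`, and the number of seeds of
`s i` is the sum of the numbers of unsupported cells (`seqSum`). The second part gives `t`, `p`,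
and `0 < p` because its first and last state are different. The sequence is `σ j = s j` for `j < i`
and `σ j = t ((j - i) % p)` for `j ≥ i`; `s i`, `t 0`, `t p` are equal on the window, and `Con`,
`unsup` only use the values there. The cuts are `μ k = t k (nQ B H)`.
-/

set_option autoImplicit false

namespace Pool.Agent.BPM

open Pool.Agent.BPD Set

/-- Infinite sequences of states. -/
structure SeqC (U : Fam) (B H K : ℕ) where
  σ : ℕ → Nd
  i : ℕ
  p : ℕ
  μ : ℕ → ℕ
  pos : 0 < p
  con : ∀ j, Con B H (σ j) (σ (j + 1))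
  cnt : unsup U H (ini B H) (σ 0) + ∑ j ∈ Finset.range i, unsup U H (lay B H) (σ (j + 1)) ≤ K
  zero : ∀ j, i ≤ j → unsup U H (lay B H) (σ (j + 1)) = 0
  cut : ∀ m k, k < p → ∀ q < 4 * B * H, σ (i + m * p + (k + 1)) q ≠ 0 →
    (σ (i + m * p + k) (q + 2 * H) ≤ μ k ↔ σ (i + m * p + (k + 1)) q ≤ μ (k + 1))
  top : ∀ m, ∀ q < nQ B H, σ (i + m * p) q ≤ μ 0
  bot : μ p = 0
  ne : ∀ m, ∃ q < nQ B H, 0 < σ (i + m * p) q

/-- A chain of states. -/
private theorem seqChain {R : Nd → Nd → Prop} {a c : Nd} (h : Relation.ReflTransGen R a c) :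
    ∃ (n : ℕ) (s : ℕ → Nd), s 0 = a ∧ s n = c ∧ ∀ j < n, R (s j) (s (j + 1)) := by
  induction h with
  | refl => exact ⟨0, fun _ => a, rfl, rfl, fun j hj => absurd hj (Nat.not_lt_zero j)⟩
  | @tail b c _ hbc ih =>
    obtain ⟨n, s, h0, h1, h2⟩ := ih
    refine ⟨n + 1, fun j => if j ≤ n then s j else c, ?_, ?_, fun j hj => ?_⟩
    · simp [h0]
    · simp
    · rcases Nat.lt_succ_iff_lt_or_eq.1 hj with hj' | rfl
      · have e1 : j ≤ n := hj'.le
        have e2 : j + 1 ≤ n := hj'
        simp only [e1, e2, if_true]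
        exact h2 j hj'
      · have e2 : ¬ j + 1 ≤ j := by omega
        simp only [le_refl, e2, if_true, if_false]
        rw [h1]
        exact hbc

/-- `Con` only uses the values on the window. -/
private theorem seqCon {B H : ℕ} {a a' b b' : Nd} (ha : ∀ k < nQ B H, a k = a' k)
    (hb : ∀ k < nQ B H, b k = b' k) (h : Con B H a b) : Con B H a' b' := by
  have e : nQ B H = 4 * B * H + 2 * H := by
    unfold nQ
    ring
  refine ⟨fun k hk => ?_, fun k hk l hl => ?_⟩
  · rw [← ha (k + 2 * H) (by omega), ← hb k (by omega)]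
    exact h.1 k hk
  · rw [← ha (k + 2 * H) (by omega), ← hb k (by omega), ← ha (l + 2 * H) (by omega),
      ← hb l (by omega)]
    exact h.2 k hk l hl

/-- The number of seeds. -/
private theorem seqSum {U : Fam} {B H n : ℕ} {s : ℕ → Nd}
    (h0 : s 0 (nQ B H + 1) = unsup U H (ini B H) (s 0))
    (h : ∀ j < n, s (j + 1) (nQ B H + 1) = s j (nQ B H + 1) + unsup U H (lay B H) (s (j + 1))) :
    ∀ j ≤ n, unsup U H (ini B H) (s 0) +
      ∑ i ∈ Finset.range j, unsup U H (lay B H) (s (i + 1)) = s j (nQ B H + 1) := by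
  intro j
  induction j with
  | zero =>
    intro _
    rw [Finset.range_zero, Finset.sum_empty, add_zero, h0]
  | succ j ih =>
    intro hj
    rw [Finset.sum_range_succ, ← add_assoc, ih (by omega), h j (by omega)]

theorem exists_seqC {U : Fam} {B H K M : ℕ}
    (hcongr : ∀ (S : Finset (ℤ × ℤ)) (a b : Nd), (S = ini B H ∨ S = lay B H) →
      (∀ k < nQ B H, a k = b k) → unsup U H S a = unsup U H S b)
    (h : Cert U B H K M) : Nonempty (SeqC U B H K) := by
  obtain ⟨a, c, -, hcnt, h1, hK, ⟨k₀, hk₀, hk₀c⟩, hle, h2⟩ := h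
  obtain ⟨i, s, hs0, hsi, hs⟩ := seqChain h1
  obtain ⟨p, t, ht0, htp, ht⟩ := seqChain h2
  have hp : 0 < p := by
    rcases Nat.eq_zero_or_pos p with hp | hp
    · exfalso
      rw [hp, ht0] at htp
      have h3 := congrFun htp (nQ B H)
      rw [Function.update_self, Function.update_self] at h3
      omega
    · exact hp
  -- the states `c`, `t 0`, `t p` agree on the window
  have et0 : ∀ k < nQ B H, t 0 k = c k := fun k hk => by
    rw [ht0, Function.update_of_ne hk.ne]
  have etp : ∀ k < nQ B H, t p k = c k := fun k hk => by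
    rw [htp, Function.update_of_ne hk.ne]
  let σ : ℕ → Nd := fun j => if j < i then s j else t ((j - i) % p)
  have σ1 : ∀ j, j < i → σ j = s j := fun j hj => if_pos hj
  have σ2 : ∀ j, i ≤ j → σ j = t ((j - i) % p) := fun j hj => if_neg (not_lt.2 hj)
  have σ0 : ∀ j, j ≤ i → ∀ k < nQ B H, σ j k = s j k := by
    intro j hj k hk
    rcases hj.lt_or_eq with hj | rfl
    · rw [σ1 j hj]
    · rw [σ2 j le_rfl, Nat.sub_self, Nat.zero_mod, et0 k hk, hsi]
  have σ3 : ∀ j, i ≤ j → ∀ k < nQ B H, σ (j + 1) k = t ((j - i) % p + 1) k := by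
    intro j hj k hk
    rw [σ2 (j + 1) (by omega)]
    have e1 : j + 1 - i = (j - i) + 1 := by omega
    have e2 : (j - i) % p < p := Nat.mod_lt _ hp
    rw [e1]
    rcases Nat.lt_or_ge ((j - i) % p + 1) p with h3 | h3
    · have e3 : (j - i + 1) % p = (j - i) % p + 1 := by
        rw [Nat.add_mod, Nat.mod_eq_of_lt (by omega : 1 < p), Nat.mod_eq_of_lt h3]
      rw [e3]
    · have e4 : (j - i) % p + 1 = p := by omega
      have e3 : (j - i + 1) % p = 0 := by
        have e5 : j - i + 1 = p * ((j - i) / p) + ((j - i) % p + 1) := by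
          have := Nat.div_add_mod (j - i) p
          omega
        rw [e5, e4, Nat.mul_add_mod, Nat.mod_self]
      rw [e3, e4, et0 k hk, etp k hk]
  have σ4 : ∀ m k, k < p → σ (i + m * p + k) = t k := by
    intro m k hk
    rw [σ2 _ (by omega)]
    have e1 : i + m * p + k - i = m * p + k := by omega
    rw [e1, Nat.mul_comm, Nat.mul_add_mod, Nat.mod_eq_of_lt hk]
  have σ5 : ∀ m k, k < p → ∀ q < nQ B H, σ (i + m * p + (k + 1)) q = t (k + 1) q := by
    intro m k hk q hq
    have e1 := σ3 (i + m * p + k) (by omega) q hq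
    have e2 : (i + m * p + k - i) % p = k := by
      have e3 : i + m * p + k - i = m * p + k := by omega
      rw [e3, Nat.mul_comm, Nat.mul_add_mod, Nat.mod_eq_of_lt hk]
    rw [e2] at e1
    exact e1
  have σ6 : ∀ m, σ (i + m * p) = t 0 := fun m => σ4 m 0 hp
  have hn : nQ B H = 4 * B * H + 2 * H := by
    unfold nQ
    ring
  refine ⟨⟨σ, i, p, fun k => t k (nQ B H), hp, ?_, ?_, ?_, ?_, ?_, ?_, ?_⟩⟩
  · intro j
    rcases lt_or_ge j i with hj | hj
    · rw [σ1 j hj]
      exact seqCon (fun _ _ => rfl) (fun k hk => (σ0 (j + 1) hj k hk).symm) (hs j hj).1.1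
    · rw [σ2 j hj]
      exact seqCon (fun _ _ => rfl) (fun k hk => (σ3 j hj k hk).symm)
        (ht _ (Nat.mod_lt _ hp)).1.1
  · have e1 := seqSum (U := U) (B := B) (H := H) (n := i) (s := s) (by rw [hs0]; exact hcnt)
      (fun j hj => (hs j hj).1.2) i le_rfl
    rw [hsi] at e1
    have e2 : unsup U H (ini B H) (σ 0) = unsup U H (ini B H) (s 0) :=
      hcongr _ _ _ (Or.inl rfl) (σ0 0 (Nat.zero_le i))
    have e3 : ∑ j ∈ Finset.range i, unsup U H (lay B H) (σ (j + 1)) =
        ∑ j ∈ Finset.range i, unsup U H (lay B H) (s (j + 1)) :=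
      Finset.sum_congr rfl fun j hj =>
        hcongr _ _ _ (Or.inr rfl) (σ0 (j + 1) (Finset.mem_range.1 hj))
    rw [e2, e3, e1]
    exact hK
  · intro j hj
    rw [hcongr _ _ _ (Or.inr rfl) (σ3 j hj)]
    exact (ht _ (Nat.mod_lt _ hp)).1.2.2
  · intro m k hk q hq
    rw [σ4 m k hk, σ5 m k hk q (by omega)]
    exact (ht k hk).1.2.1 q hq
  · intro m q hq
    rw [σ6 m, et0 q hq]
    rw [ht0, Function.update_self]
    exact hle q hq
  · rw [htp, Function.update_self]
  · intro m
    exact ⟨k₀, hk₀, by rw [σ6 m, et0 k₀ hk₀]; exact hk₀c⟩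

end Pool.Agent.BPM
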