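import Pool.Agent.BPM.SndI

/-!
# Soundness: a certificate gives infinite growth
-/

set_option autoImplicit false

namespace Pool.Agent.BPM

open Pool.Agent.BPD Set

theorem admP_of_seq {U : Fam} {B H K : ℕ} (hb : Bd B U) (S : SeqC U B H K) :
    AdmP U (0, 1) K := by
  refine ⟨seeds S, seeds_le hb S, ?_, ?_⟩
  · rw [Set.disjoint_left]
    rintro x ⟨⟨h1, _, _⟩, _⟩ h2
    have h3 : x.2 < 0 := by
      have h4 : dt x (0, 1) < 0 := h2
      unfold dt at h4
      simpa using h4
    exact absurd h1 (not_le.2 h3)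
  · refine (inA_infinite S).mono ?_
    intro x hx
    refine ⟨infected hb S hx, fun h2 => ?_⟩
    have h3 : x.2 < 0 := by
      have h4 : dt x (0, 1) < 0 := h2
      unfold dt at h4
      simpa using h4
    exact absurd hx.1 (not_le.2 h3)

end Pool.Agent.BPM
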