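import Pool.Agent.BPM.Win
import Pool.Agent.BPD.CloA

/-!
# Soundness on a finite part

PROOF. The set of the `x ∈ A` with `fold x.1 < n` is finite (rows in `[0, H)`). Strong induction on the value
`g x` over this finite set (for instance: by contradiction, take a counterexample `x` with the least
`g x`, `Set.Finite.exists_minimal_wrt` or `Finset.exists_min_image`). If `x ∈ Z`: `subset_clo`. Otherwise let `X` be the
rule of `hsup`. For `y ∈ X`: if `(x + y).2 < 0` then `x + y ∈ halfZ (0, 1)`. Otherwise `x + y ∈ A` and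
`g (x + y) < g x ≤ θ`. `fold (x + y).1 < n + B` (`fold_add_le`). If `n ≤ fold (x + y).1` then `θ < g (x + y)` by
`hout`, a contradiction; so `fold (x + y).1 < n` and `x + y` is in the closure by induction. `clo_rule`.
-/

set_option autoImplicit false

namespace Pool.Agent.BPM

open Pool.Agent.BPD Set

private theorem sndFin_fold {c : ℤ} {n : ℕ} (h : fold c < n) : -(n : ℤ) ≤ c ∧ c ≤ n := by
  unfold fold at h
  split at h <;> omega

theorem sound_fin {U : Fam} {B H n : ℕ} (hb : Bd B U) {A Z : Set (ℤ × ℤ)} {g : ℤ × ℤ → ℚ} {θ : ℚ}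
    (hA : ∀ x ∈ A, 0 ≤ x.2 ∧ x.2 < H)
    (hsup : ∀ x ∈ A, fold x.1 < n → x ∉ Z → ∃ X ∈ U, ∀ y ∈ X, (x + y).2 < 0 ∨
      (x + y ∈ A ∧ g (x + y) < g x))
    (hout : ∀ x ∈ A, n ≤ fold x.1 → fold x.1 < n + (2 * B + 1) → θ < g x) :
    ∀ x ∈ A, fold x.1 < n → g x ≤ θ → x ∈ clo U (halfZ (0, 1) ∪ Z) := by
  by_contra hcon
  set T : Set (ℤ × ℤ) := {x | x ∈ A ∧ fold x.1 < n ∧ g x ≤ θ ∧ x ∉ clo U (halfZ (0, 1) ∪ Z)} with hT
  have hne : T.Nonempty := by
    by_contra hemp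
    apply hcon
    intro x hx hn hg
    by_contra hx'
    exact hemp ⟨x, hx, hn, hg, hx'⟩
  have hfin : T.Finite := by
    apply Set.Finite.subset ((Set.finite_Icc (-(n : ℤ)) n).prod (Set.finite_Icc (0 : ℤ) H))
    rintro ⟨c, r⟩ ⟨hx, hn, -, -⟩
    have h1 := hA _ hx
    have h2 := sndFin_fold hn
    exact ⟨⟨h2.1, h2.2⟩, ⟨h1.1, h1.2.le⟩⟩
  obtain ⟨x, hx, hmin⟩ := Set.exists_min_image T g hfin hne
  obtain ⟨hxA, hxn, hxg, hxc⟩ := hx
  apply hxc
  by_cases hxZ : x ∈ Z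
  · exact subset_clo _ _ (Or.inr hxZ)
  obtain ⟨X, hX, hXy⟩ := hsup x hxA hxn hxZ
  refine clo_rule hX fun y hy => ?_
  rcases hXy y hy with h | ⟨h1, h2⟩
  · refine subset_clo _ _ (Or.inl ?_)
    change dt (x + y) (0, 1) < 0
    simpa [dt] using h
  · by_contra hnc
    have hf : fold (x + y).1 ≤ fold x.1 + B := fold_add_le _ _ _ (hb X hX y hy).1
    by_cases hlt : fold (x + y).1 < n
    · have := hmin (x + y) ⟨h1, hlt, h2.le.trans hxg, hnc⟩
      exact absurd h2 (not_lt.mpr this)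
    · have h3 := hout (x + y) h1 (not_lt.mp hlt) (by omega)
      exact absurd (h2.trans_le hxg) (not_lt.mpr h3.le)

end Pool.Agent.BPM
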