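import Pool.Agent.BPM.SndO

/-!
# Global ranks: one period

PROOF. Let `J = i + m p` and let `g` with `repAll J g` be given. Let `θ` be larger than all values of
`g` on the (finitely many) cells of the strip with fold `< J + 2 B + 1`. By induction on `k ≤ p` there is `g_k`
which agrees with `g` on the cells with fold `< J + 2 B + 1`, with `repAll (J + k) g_k` and
`Rep B H (J + k) (σ (J + k)) (μ k) g_k θ`: for `k = 0` by `top` (all ranks are at most `μ 0`, all values are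
`< θ`); the step is `ext_step` with `con`, `cut` (the new function agrees with the old one on all
cells with fold `< J + k + 2 B + 1`, so `repAll` is preserved). At `k = p`: `μ p = 0`, so all infected cells of the window
`J + p` have values `> θ`.
-/

set_option autoImplicit false

namespace Pool.Agent.BPM

open Pool.Agent.BPD Set

/-- A bound for the values of `g` on the cells of the strip with small fold. -/
private theorem exists_bd (H N : ℕ) (g : ℤ × ℤ → ℚ) :
    ∃ θ : ℚ, ∀ x : ℤ × ℤ, 0 ≤ x.2 → x.2 < H → fold x.1 < N → g x < θ := by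
  obtain ⟨M, hM⟩ := ((Finset.Icc (-1 - (N : ℤ)) N ×ˢ Finset.Ico (0 : ℤ) H).image g).exists_le
  refine ⟨M + 1, fun x h1 h2 h3 => ?_⟩
  have h4 : x ∈ Finset.Icc (-1 - (N : ℤ)) N ×ˢ Finset.Ico (0 : ℤ) H := by
    rw [Finset.mem_product, Finset.mem_Icc, Finset.mem_Ico]
    refine ⟨?_, h1, h2⟩
    unfold fold at h3
    split_ifs at h3 <;> omega
  exact (hM _ (Finset.mem_image_of_mem g h4)).trans_lt (lt_add_one M)

/-- The order in the window from `repAll`. -/
private theorem rep_fst {U : Fam} {B H K : ℕ} (S : SeqC U B H K) {j : ℕ} {g : ℤ × ℤ → ℚ}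
    (hg : repAll S j g) : ∀ x y, InW B H j x → InW B H j y → 0 < S.σ j (ix H j x) →
      0 < S.σ j (ix H j y) → (S.σ j (ix H j x) < S.σ j (ix H j y) ↔ g x < g y) :=
  fun x y hx hy hpx hpy =>
    hg j le_rfl x y hx hy ((inA_iff S hx).2 hpx) ((inA_iff S hy).2 hpy)

/-- The step of the induction. -/
private theorem rep_step {U : Fam} {B H K : ℕ} (S : SeqC U B H K) {j μ μ' : ℕ}
    {g : ℤ × ℤ → ℚ} {θ : ℚ} (hg : repAll S j g)
    (hcut : ∀ q < 4 * B * H, S.σ (j + 1) q ≠ 0 → (S.σ j (q + 2 * H) ≤ μ ↔ S.σ (j + 1) q ≤ μ'))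
    (h : Rep B H j (S.σ j) μ g θ) :
    ∃ g' : ℤ × ℤ → ℚ, (∀ x, fold x.1 < j + (2 * B + 1) → g' x = g x) ∧
      repAll S (j + 1) g' ∧ Rep B H (j + 1) (S.σ (j + 1)) μ' g' θ := by
  obtain ⟨g', h1, h2⟩ := ext_step (S.con j) hcut h
  refine ⟨g', h1, ?_, h2⟩
  intro k hk x y hx hy hxA hyA
  rcases Nat.lt_or_ge j k with hjk | hjk
  · have e : k = j + 1 := by omega
    subst e
    exact h2.1 x y hx hy ((inA_iff S hx).1 hxA) ((inA_iff S hy).1 hyA)
  · rw [h1 x (by have := hx.2.1; omega), h1 y (by have := hy.2.1; omega)]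
    exact hg k hjk x y hx hy hxA hyA

theorem exists_g {U : Fam} {B H K : ℕ} (S : SeqC U B H K) (m : ℕ) {g : ℤ × ℤ → ℚ}
    (hg : repAll S (S.i + m * S.p) g) :
    ∃ (g' : ℤ × ℤ → ℚ) (θ : ℚ), repAll S (S.i + m * S.p + S.p) g' ∧
      (∀ x ∈ inA S, fold x.1 < S.i + m * S.p + (2 * B + 1) → g' x < θ) ∧
      ∀ x ∈ inA S, S.i + m * S.p + S.p ≤ fold x.1 →
        fold x.1 < S.i + m * S.p + S.p + (2 * B + 1) → θ < g' x := by
  obtain ⟨θ, hθ⟩ := exists_bd H (S.i + m * S.p + (2 * B + 1)) g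
  have key : ∀ k ≤ S.p, ∃ g' : ℤ × ℤ → ℚ,
      (∀ x, fold x.1 < S.i + m * S.p + (2 * B + 1) → g' x = g x) ∧
      repAll S (S.i + m * S.p + k) g' ∧
      Rep B H (S.i + m * S.p + k) (S.σ (S.i + m * S.p + k)) (S.μ k) g' θ := by
    intro k
    induction k with
    | zero =>
      intro _
      refine ⟨g, fun x _ => rfl, hg, rep_fst S hg, fun x hx _ => ?_⟩
      have h1 := S.top m _ (ix_lt hx)
      exact ⟨fun _ => hθ x hx.2.2.1 hx.2.2.2 hx.2.1, fun h2 => absurd h1 (not_le.2 h2)⟩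
    | succ k ih =>
      intro hk
      obtain ⟨g₁, h1, h2, h3⟩ := ih (by omega)
      obtain ⟨g₂, h4, h5, h6⟩ := rep_step S h2 (S.cut m k (by omega)) h3
      refine ⟨g₂, fun x hx => ?_, h5, h6⟩
      rw [h4 x (by omega), h1 x hx]
  obtain ⟨g', h1, h2, h3⟩ := key S.p le_rfl
  refine ⟨g', θ, h2, fun x hx hf => ?_, fun x hx hf hf' => ?_⟩
  · rw [h1 x hf]
    exact hθ x hx.1 hx.2.1 hf
  · have hw : InW B H (S.i + m * S.p + S.p) x := ⟨hf, hf', hx.1, hx.2.1⟩
    have hp := (inA_iff S hw).1 hx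
    refine (h3.2 x hw hp).2 ?_
    rw [S.bot]
    exact hp

end Pool.Agent.BPM
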