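import Pool.Agent.BPM.SndG
import Pool.Agent.BPM.SndFin

/-!
# All infected cells are in the closure

PROOF. let `x ∈ inA S`. Choose `m` with `fold x.1 < J = i + m p` and `J > i + B + ..`; take `g` with
`repAll J g` (`exists_g0`) and then `exists_g`: `g'`, `θ` with `g' x < θ`, and all infected cells of the window
`J + p` have values `> θ`. `sound_fin` with `n = J + p`, `A = inA S`, `Z = seeds S`: `hsup` by `supported` and
`repAll` for the window `wn B x ≤ J + p` (`fold x.1 < n`); `hout` by `inA_iff`. So `x ∈ clo U (halfZ ∪ seeds S)`.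
-/

set_option autoImplicit false

namespace Pool.Agent.BPM

open Pool.Agent.BPD Set

theorem infected {U : Fam} {B H K : ℕ} (hb : Bd B U) (S : SeqC U B H K) {x : ℤ × ℤ}
    (hx : x ∈ inA S) : x ∈ clo U (halfZ (0, 1) ∪ seeds S) := by
  have hJ : fold x.1 < S.i + (fold x.1 + 1) * S.p := by
    have h1 := Nat.mul_le_mul_left (fold x.1 + 1) S.pos
    omega
  obtain ⟨g, hg⟩ := exists_g0 S (S.i + (fold x.1 + 1) * S.p)
  obtain ⟨g', θ, h1, h2, h3⟩ := exists_g S (fold x.1 + 1) hg
  refine sound_fin hb (n := S.i + (fold x.1 + 1) * S.p + S.p) (A := inA S) (g := g') (θ := θ)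
    (fun z hz => ⟨hz.1, hz.2.1⟩) (fun z hz hf hs => ?_) (fun z hz hf hf' => h3 z hz hf hf')
    x hx (by omega) (h2 x hx (by omega)).le
  obtain ⟨hw, X, hX, hy⟩ := supported hb S hz hs
  have hwn : wn B z ≤ S.i + (fold x.1 + 1) * S.p + S.p := by
    unfold wn
    omega
  refine ⟨X, hX, fun y hyX => ?_⟩
  rcases hy y hyX with h4 | ⟨h4, h5, h6⟩
  · exact Or.inl h4
  · exact Or.inr ⟨h5, (h1 (wn B z) hwn (z + y) z h4 hw h5 hz).1 h6⟩

end Pool.Agent.BPM
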