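import Pool.Agent.BPM.SndSet
import Pool.Agent.BPM.ExtQ

/-!
# Global ranks for an initial segment

`repAll j g`: for all `k ≤ j` the values `g` represent the order of `S.σ k` in the window `k` (the first part of
`Rep`; by `inA_iff` the infected cells of the window `k` are the cells with positive rank).

PROOF. `exists_g0`: `repAll j g` for all `j` (no cut): `ext_step` with `μ = μ' = max` of all ranks involved... simpler: use
`ext_step` with `μ` and `μ'` larger than all ranks of the two windows and `θ` larger than all values (after each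
step a new `θ`); or prove by induction for every `j` there is `g` with `repAll j g` where the cut is chosen anew:
`Rep B H j (σ j) μ g θ` holds for `μ` at least all ranks and `θ` larger than all values of the window.
-/

set_option autoImplicit false

namespace Pool.Agent.BPM

open Pool.Agent.BPD Set

/-- The values `g` are ordered as the ranks of the states `σ k` in the windows `k ≤ j`. -/
def repAll {U : Fam} {B H K : ℕ} (S : SeqC U B H K) (j : ℕ) (g : ℤ × ℤ → ℚ) : Prop :=
  ∀ k ≤ j, ∀ x y, InW B H k x → InW B H k y → x ∈ inA S → y ∈ inA S →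
    (S.σ k (ix H k x) < S.σ k (ix H k y) ↔ g x < g y)

private theorem exists_bdO (H N : ℕ) (g : ℤ × ℤ → ℚ) :
    ∃ θ : ℚ, ∀ x : ℤ × ℤ, 0 ≤ x.2 → x.2 < H → fold x.1 < N → g x < θ := by
  obtain ⟨M, hM⟩ := ((Finset.Icc (-1 - (N : ℤ)) N ×ˢ Finset.Ico (0 : ℤ) H).image g).exists_le
  refine ⟨M + 1, fun x h1 h2 h3 => ?_⟩
  have h4 : x ∈ Finset.Icc (-1 - (N : ℤ)) N ×ˢ Finset.Ico (0 : ℤ) H := by
    rw [Finset.mem_product, Finset.mem_Icc, Finset.mem_Ico]
    refine ⟨?_, h1, h2⟩
    unfold fold at h3
    split_ifs at h3 <;> omega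
  exact (hM _ (Finset.mem_image_of_mem g h4)).trans_lt (lt_add_one M)

theorem exists_g0 {U : Fam} {B H K : ℕ} (S : SeqC U B H K) (j : ℕ) : ∃ g, repAll S j g := by
  induction j with
  | zero =>
    refine ⟨fun x => (S.σ 0 (ix H 0 x) : ℚ), ?_⟩
    intro k hk x y _ _ _ _
    have e : k = 0 := by omega
    subst e
    exact Nat.cast_lt.symm
  | succ j ih =>
    obtain ⟨g, hg⟩ := ih
    obtain ⟨θ, hθ⟩ := exists_bdO H (j + (2 * B + 1)) g
    set μ : ℕ := (Finset.range (nQ B H)).sup (S.σ j) + (Finset.range (nQ B H)).sup (S.σ (j + 1))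
      with hμ
    have h1 : ∀ k < nQ B H, S.σ j k ≤ μ := fun k hk =>
      (Finset.le_sup (f := S.σ j) (Finset.mem_range.2 hk)).trans (Nat.le_add_right _ _)
    have h2 : ∀ k < nQ B H, S.σ (j + 1) k ≤ μ := fun k hk =>
      (Finset.le_sup (f := S.σ (j + 1)) (Finset.mem_range.2 hk)).trans (Nat.le_add_left _ _)
    have hN : 4 * B * H + 2 * H = nQ B H := by
      unfold nQ
      ring
    have hrep : Rep B H j (S.σ j) μ g θ := by
      refine ⟨fun x y hx hy hpx hpy =>
        hg j le_rfl x y hx hy ((inA_iff S hx).2 hpx) ((inA_iff S hy).2 hpy), fun x hx _ => ?_⟩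
      exact ⟨fun _ => hθ x hx.2.2.1 hx.2.2.2 hx.2.1,
        fun h3 => absurd (h1 _ (ix_lt hx)) (not_le.2 h3)⟩
    obtain ⟨g', h3, h4⟩ := ext_step (μ' := μ) (S.con j)
      (fun k hk _ => ⟨fun _ => h2 k (by omega), fun _ => h1 _ (by omega)⟩) hrep
    refine ⟨g', ?_⟩
    intro k hk x y hx hy hxA hyA
    rcases Nat.lt_or_ge j k with hjk | hjk
    · have e : k = j + 1 := by omega
      subst e
      exact h4.1 x y hx hy ((inA_iff S hx).1 hxA) ((inA_iff S hy).1 hyA)
    · rw [h3 x (by have := hx.2.1; omega), h3 y (by have := hy.2.1; omega)]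
      exact hg k hjk x y hx hy hxA hyA

end Pool.Agent.BPM
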