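import Pool.Agent.BPM.SeqC
import Pool.Agent.BPM.Win

/-!
# The infected cells and the seeds of a sequence of states

PROOFS. `inA_iff`: for a cell `x` in the window `j` and in the window `j + 1`, `0 < σ j (ix H j x)` iff
`0 < σ (j + 1) (ix H (j + 1) x)` (`con`, `ix_shift`, `ix_lt4`); the windows which contain `x` are
the `j` with `j ≤ fold x.1 < j + 2 B + 1`; induction from `j` up to `fold x.1`.

`seeds_finite`: a seed of the window `0` is an element of `ini B H` counted by `unsup`; a seed with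
`fold x.1 = j + 1 + B` corresponds to the element `(unf B (side x.1), x.2)` of `lay B H` counted by
`unsup U H (lay B H) (σ (j + 1))`; there are none for `j ≥ i` (`zero`). So the number of seeds is at
most `K` (`cnt`): `Set.encard` of a union over `j < i` and the part with fold `≤ B`.

`supported`: let `x` be infected, not a seed. If `fold x.1 ≤ B` then `Sup U H (σ 0) x` gives the rule, and `x + y`
is in the window `0` if it is in the strip (`fold_add_le`). If `fold x.1 = j + 1 + B`: `Sup` at the cell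
`(unf B (side x.1), x.2)`, and `ix_nbr` translates (for the window `j + 1`).
-/

set_option autoImplicit false

namespace Pool.Agent.BPM

open Pool.Agent.BPD Set

/-- The infected cells. -/
def inA {U : Fam} {B H K : ℕ} (S : SeqC U B H K) : Set (ℤ × ℤ) :=
  {x | 0 ≤ x.2 ∧ x.2 < H ∧ 0 < S.σ (fold x.1) (ix H (fold x.1) x)}

/-- The window in which the support of `x` is checked. -/
def wn (B : ℕ) (x : ℤ × ℤ) : ℕ := fold x.1 - B

/-- The seeds. -/
def seeds {U : Fam} {B H K : ℕ} (S : SeqC U B H K) : Set (ℤ × ℤ) :=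
  {x | x ∈ inA S ∧ ((fold x.1 ≤ B ∧ ¬ Sup U H (S.σ 0) x) ∨
    (B < fold x.1 ∧ ¬ Sup U H (S.σ (wn B x)) (unf B (side x.1), x.2)))}

private theorem inA_aux {U : Fam} {B H K : ℕ} (S : SeqC U B H K) (d : ℕ) :
    ∀ (j : ℕ) (x : ℤ × ℤ), InW B H j x → j + d = fold x.1 →
      (0 < S.σ j (ix H j x) ↔ 0 < S.σ (fold x.1) (ix H (fold x.1) x)) := by
  induction d with
  | zero =>
    intro j x _ h
    rw [← h, Nat.add_zero]
  | succ d ih =>
    intro j x hx h
    obtain ⟨h1, h2, h3, h4⟩ := hx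
    have hx' : InW B H (j + 1) x := ⟨by omega, by omega, h3, h4⟩
    have e := ih (j + 1) x hx' (by omega)
    rw [← e, ix_shift ⟨h1, h2, h3, h4⟩ hx']
    have hc := (S.con j).1 (ix H (j + 1) x) (ix_lt4 ⟨h1, h2, h3, h4⟩ hx')
    omega

theorem inA_iff {U : Fam} {B H K : ℕ} (S : SeqC U B H K) {j : ℕ} {x : ℤ × ℤ}
    (hx : InW B H j x) : x ∈ inA S ↔ 0 < S.σ j (ix H j x) := by
  have e := inA_aux S (fold x.1 - j) j x hx (by have := hx.1; omega)
  rw [e]
  exact ⟨fun h => h.2.2, fun h => ⟨hx.2.2.1, hx.2.2.2, h⟩⟩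

private theorem ix_mid {B H i : ℕ} {x : ℤ × ℤ} (hx : fold x.1 = i + B) :
    ix H 0 (unf B (side x.1), x.2) = ix H i x := by
  have h := (ix_nbr (H := H) (y := 0) hx (by simp)).1
  rwa [add_zero, add_zero] at h

theorem seeds_le {U : Fam} {B H K : ℕ} (hb : Bd B U) (S : SeqC U B H K) :
    (seeds S).encard ≤ K := by
  classical
  have _ := hb
  set P : Nd → ℤ × ℤ → Prop := fun a x => 0 < a (ix H 0 x) ∧ ¬ Sup U H a x with hP
  set g : ℕ → ℤ × ℤ → ℤ × ℤ := fun j z => (unf (j + 1 + B) (side z.1), z.2) with hg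
  set F : Finset (ℤ × ℤ) := (ini B H).filter (P (S.σ 0)) ∪
    (Finset.range S.i).biUnion fun j => ((lay B H).filter (P (S.σ (j + 1)))).image (g j) with hF
  have hsub : seeds S ⊆ (F : Set (ℤ × ℤ)) := by
    intro x hx
    obtain ⟨hxA, hx⟩ := hx
    have hxA' := hxA
    obtain ⟨h0, hH, _⟩ := hxA'
    rw [hF, Finset.mem_coe, Finset.mem_union]
    rcases hx with ⟨hB, hs⟩ | ⟨hB, hs⟩
    · left
      rw [Finset.mem_filter]
      have hw : InW B H 0 x := ⟨by omega, by omega, h0, hH⟩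
      exact ⟨mem_ini.2 ⟨hB, h0, hH⟩, (inA_iff S hw).1 hxA, hs⟩
    · right
      obtain ⟨j, hj⟩ : ∃ j, fold x.1 = j + 1 + B := ⟨fold x.1 - (1 + B), by omega⟩
      have hwn : wn B x = j + 1 := by unfold wn; omega
      rw [hwn] at hs
      have hw : InW B H (j + 1) x := ⟨by omega, by omega, h0, hH⟩
      have hz : (unf B (side x.1), x.2) ∈ (lay B H).filter (P (S.σ (j + 1))) := by
        rw [Finset.mem_filter]
        refine ⟨mem_lay.2 ⟨fold_unf _ _, h0, hH⟩, ?_, hs⟩
        rw [ix_mid hj]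
        exact (inA_iff S hw).1 hxA
      rw [Finset.mem_biUnion]
      refine ⟨j, ?_, ?_⟩
      · rw [Finset.mem_range]
        by_contra hji
        have h1 := S.zero j (by omega)
        unfold unsup at h1
        rw [Finset.card_eq_zero] at h1
        have h2 : (unf B (side x.1), x.2) ∈ (∅ : Finset (ℤ × ℤ)) := by
          rw [← h1]
          exact hz
        simp at h2
      · rw [Finset.mem_image]
        refine ⟨_, hz, ?_⟩
        simp only [hg]
        rw [side_unf _ _ (side_lt _), ← hj, unf_fold]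
  have hcard : F.card ≤ K := by
    refine le_trans (Finset.card_union_le _ _) ?_
    refine le_trans (Nat.add_le_add_left Finset.card_biUnion_le _) ?_
    refine le_trans (Nat.add_le_add_left (Finset.sum_le_sum fun j _ => Finset.card_image_le) _) ?_
    have h := S.cnt
    unfold unsup at h
    exact h
  calc (seeds S).encard ≤ (F : Set (ℤ × ℤ)).encard := Set.encard_le_encard hsub
    _ = (F.card : ℕ∞) := Set.encard_coe_eq_coe_finsetCard F
    _ ≤ K := by exact_mod_cast hcard

/-- Infected cells outside `seeds` are supported in the window `wn B x`. -/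
theorem supported {U : Fam} {B H K : ℕ} (hb : Bd B U) (S : SeqC U B H K) {x : ℤ × ℤ}
    (hx : x ∈ inA S) (hs : x ∉ seeds S) : InW B H (wn B x) x ∧
      ∃ X ∈ U, ∀ y ∈ X, (x + y).2 < 0 ∨ (InW B H (wn B x) (x + y) ∧ x + y ∈ inA S ∧
        S.σ (wn B x) (ix H (wn B x) (x + y)) < S.σ (wn B x) (ix H (wn B x) x)) := by
  have hx0 := hx
  obtain ⟨h0, hH, _⟩ := hx0
  rcases Nat.lt_or_ge B (fold x.1) with hB | hB
  · obtain ⟨i, hi⟩ : ∃ i, fold x.1 = i + B := ⟨fold x.1 - B, by omega⟩
    have hwn : wn B x = i := by unfold wn; omega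
    have hS : Sup U H (S.σ (wn B x)) (unf B (side x.1), x.2) := by
      by_contra h
      exact hs ⟨hx, Or.inr ⟨hB, h⟩⟩
    rw [hwn] at hS ⊢
    refine ⟨⟨by omega, by omega, h0, hH⟩, ?_⟩
    obtain ⟨X, hX, hS⟩ := hS
    refine ⟨X, hX, fun y hy => ?_⟩
    obtain ⟨e, l1, l2⟩ := ix_nbr (H := H) hi (hb X hX y hy).1
    have e2 : ((unf B (side x.1), x.2) + y).2 = (x + y).2 := rfl
    have h := hS y hy
    rw [e, e2, ix_mid hi] at h
    rcases h with h | ⟨h1, h2, h3⟩
    · exact Or.inl h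
    · rcases lt_or_ge (x + y).2 0 with h4 | h4
      · exact Or.inl h4
      · have hw : InW B H i (x + y) := ⟨l1, l2, h4, h1⟩
        exact Or.inr ⟨hw, (inA_iff S hw).2 h2, h3⟩
  · have hwn : wn B x = 0 := by unfold wn; omega
    have hS : Sup U H (S.σ 0) x := by
      by_contra h
      exact hs ⟨hx, Or.inl ⟨hB, h⟩⟩
    rw [hwn]
    refine ⟨⟨by omega, by omega, h0, hH⟩, ?_⟩
    obtain ⟨X, hX, hS⟩ := hS
    refine ⟨X, hX, fun y hy => ?_⟩
    have l := fold_add_le x.1 y.1 B (hb X hX y hy).1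
    have e2 : (x + y).1 = x.1 + y.1 := rfl
    rcases hS y hy with h | ⟨h1, h2, h3⟩
    · exact Or.inl h
    · rcases lt_or_ge (x + y).2 0 with h4 | h4
      · exact Or.inl h4
      · have hw : InW B H 0 (x + y) := ⟨by omega, by rw [e2]; omega, h4, h1⟩
        exact Or.inr ⟨hw, (inA_iff S hw).2 h2, h3⟩

theorem inA_infinite {U : Fam} {B H K : ℕ} (S : SeqC U B H K) : (inA S).Infinite := by
  intro hfin
  obtain ⟨b, hb⟩ := (hfin.image fun x => fold x.1).bddAbove
  obtain ⟨q, hq, hpos⟩ := S.ne (b + 1)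
  obtain ⟨x, hx, hxq⟩ := exists_cell (S.i + (b + 1) * S.p) hq
  rw [← hxq] at hpos
  have hA : x ∈ inA S := (inA_iff S hx).2 hpos
  have h1 : fold x.1 ≤ b := hb ⟨x, hA, rfl⟩
  have h2 := hx.1
  have h3 : (b + 1) * 1 ≤ (b + 1) * S.p := Nat.mul_le_mul_left _ S.pos
  omega

end Pool.Agent.BPM
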