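import Pool.Agent.BPD.Heights
import Pool.Agent.BPD.ETime

/-!
# Machines with a main loop: heights of the stacks
-/

set_option autoImplicit false
set_option backward.isDefEq.respectTransparency false

namespace Pool.Agent.BPM

open Turing Pool.Agent.PF Pool.Agent.PT Pool.Agent.BPD
open Function (update)

/-- One step raises the heights of the stacks by at most `b`. -/
def Slow {K : Type} [DecidableEq K] {Γ : K → Type} {Λ σ : Type} (M : Λ → TM2.Stmt Γ Λ σ) (b : ℕ) : Prop :=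
  ∀ q q', TM2.step M q = some q' → ∀ k, (q'.stk k).length ≤ (q.stk k).length + b

/-- `b` is reached from `a`, and the heights of the stacks are at most `B` on the way. -/
def Seg {K : Type} [DecidableEq K] {Γ : K → Type} {Λ σ : Type} (M : Λ → TM2.Stmt Γ Λ σ) (B : ℕ)
    (a b : TM2.Cfg Γ Λ σ) : Prop :=
  ∃ n, RN (TM2.step M) n a b ∧ ∀ m ≤ n, ∀ c, RN (TM2.step M) m a c → ∀ k, (c.stk k).length ≤ B

section seg

variable {K : Type} [DecidableEq K] {Γ : K → Type} {Λ σ : Type} {M : Λ → TM2.Stmt Γ Λ σ}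

theorem RN.det {τ : Type*} {f : τ → Option τ} {n m : ℕ} {a b c : τ} (h1 : RN f n a b)
    (h2 : RN f (n + m) a c) : RN f m b c := by
  unfold RN at *
  rw [Nat.add_comm, Function.iterate_add_apply, h1] at h2
  exact h2

theorem Seg.trans {B : ℕ} {a b c : TM2.Cfg Γ Λ σ} (h1 : Seg M B a b) (h2 : Seg M B b c) :
    Seg M B a c := by
  obtain ⟨n, hn, h⟩ := h1
  obtain ⟨n', hn', h'⟩ := h2
  refine ⟨n + n', Pool.Agent.PT.RN.trans hn hn', fun m hm d hd k => ?_⟩
  rcases le_total m n with hmn | hmn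
  · exact h m hmn d hd k
  · obtain ⟨e, rfl⟩ := Nat.exists_eq_add_of_le hmn
    exact h' e (by omega) d (RN.det hn hd) k

theorem Seg.mono {B B' : ℕ} {a b : TM2.Cfg Γ Λ σ} (h : Seg M B a b) (hB : B ≤ B') : Seg M B' a b := by
  obtain ⟨n, hn, h⟩ := h
  exact ⟨n, hn, fun m hm c hc k => (h m hm c hc k).trans hB⟩

theorem RN_height {b : ℕ} (hM : Slow M b) {a : TM2.Cfg Γ Λ σ} (n : ℕ) (c : TM2.Cfg Γ Λ σ)
    (h : RN (TM2.step M) n a c) (k : K) : (c.stk k).length ≤ (a.stk k).length + n * b := by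
  induction n generalizing c with
  | zero =>
    have : a = c := Option.some.inj h
    rw [this]
    omega
  | succ n ih =>
    unfold RN at h ih
    rw [Function.iterate_succ_apply'] at h
    cases hX : (flip bind (TM2.step M))^[n] (some a) with
    | none =>
      rw [hX] at h
      exact absurd h (by simp [flip])
    | some q₀ =>
      rw [hX] at h
      have hs : TM2.step M q₀ = some c := h
      have h1 := ih q₀ hX
      have h2 := hM q₀ c hs k
      have e : (n + 1) * b = n * b + b := by ring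
      omega

theorem Seg.of_RN {b : ℕ} (hM : Slow M b) {a c : TM2.Cfg Γ Λ σ} {n B : ℕ}
    (h : RN (TM2.step M) n a c) (hB : ∀ k, (a.stk k).length ≤ B) : Seg M (B + n * b) a c := by
  refine ⟨n, h, fun m hm d hd k => ?_⟩
  have h1 := RN_height hM m d hd k
  have h2 := hB k
  have h3 : m * b ≤ n * b := Nat.mul_le_mul_right _ hm
  omega

end seg

/-- The machines run the program from `s` to `s'` with heights at most `B + T b`. -/
def HR {A : Type} (B T : ℕ) (p : Prog A) (s s' : Store A) : Prop :=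
  ∀ (Γ₀ Γ₁ : Type) (N : ℕ), p.Bdd (N + 2) → ∀ (Λ : Type) (M : Λ → SSt (A := A) (Γ₀ := Γ₀) (Γ₁ := Γ₁) (N := N) Λ)
    (b : ℕ), Slow M b → ∀ (ι : Lab p → Λ) (ex : Λ), (∀ l, M (ι l) = code p ι ex l) →
    ∀ (v : SV A Γ₀), ∃ v' : SV A Γ₀,
      Seg M (B + T * b) ⟨some (ι (entry p)), v, stk s [] []⟩ ⟨some ex, v', stk s' [] []⟩

section hr

variable {A : Type}

theorem HR.of_runs {B T : ℕ} {p : Prog A} {s s' : Store A} (h : Runs p s s' T)
    (hB : ∀ i, (s i).length ≤ B) : HR B T p s s' := by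
  intro Γ₀ Γ₁ N hb Λ M b hM ι ex hι v
  obtain ⟨t, ht, he⟩ := h
  obtain ⟨v', hv'⟩ := sim he hb M ι ex hι v [] []
  refine ⟨v', (Seg.of_RN hM hv' (B := B) ?_).mono ?_⟩
  · rintro (_ | _ | i)
    · simp [stk]
    · simp [stk]
    · exact hB i
  · have : t * b ≤ T * b := Nat.mul_le_mul_right _ ht
    omega

theorem HR.seq {B T : ℕ} {p q : Prog A} {s s' s'' : Store A} (h1 : HR B T p s s')
    (h2 : HR B T q s' s'') : HR B T (Prog.seq p q) s s'' := by
  intro Γ₀ Γ₁ N hb Λ M b hM ι ex hι v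
  obtain ⟨v', hv'⟩ := h1 Γ₀ Γ₁ N hb.1 Λ M b hM (fun l => ι (Sum.inl l)) (ι (Sum.inr (entry q)))
    (fun l => hι (Sum.inl l)) v
  obtain ⟨v'', hv''⟩ := h2 Γ₀ Γ₁ N hb.2 Λ M b hM (fun l => ι (Sum.inr l)) ex
    (fun l => hι (Sum.inr l)) v'
  exact ⟨v'', hv'.trans hv''⟩

theorem HR.loopNil {B T : ℕ} {r : ℕ} {p : A → Prog A} {s : Store A} (h : s r = []) (hT : 1 ≤ T)
    (hB : ∀ i, (s i).length ≤ B) : HR B T (Prog.loop r p) s s :=
  HR.of_runs ((Runs.loopNil h).mono hT) hB

theorem HR.loopCons {B T : ℕ} {r : ℕ} {p : A → Prog A} {s s' s'' : Store A} {a : A} {l : List A}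
    (h : s r = a :: l) (hT : 1 ≤ T) (hB : ∀ i, (s i).length ≤ B)
    (h1 : HR B T (p a) (update s r l) s') (h2 : HR B T (Prog.loop r p) s' s'') :
    HR B T (Prog.loop r p) s s'' := by
  intro Γ₀ Γ₁ N hb Λ M b hM ι ex hι v
  obtain ⟨v', hv'⟩ := h1 Γ₀ Γ₁ N (hb.2 a) Λ M b hM (fun l => ι (Sum.inr ⟨a, l⟩)) (ι (Sum.inl ()))
    (fun l => hι (Sum.inr ⟨a, l⟩)) (some (Sum.inr a))
  obtain ⟨v'', hv''⟩ := h2 Γ₀ Γ₁ N hb Λ M b hM ι ex hι v'
  have h0 : RN (TM2.step M) 1 (⟨some (ι (entry (Prog.loop r p))), v, stk s [] []⟩ :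
      TM2.Cfg (SΓ A Γ₀ Γ₁ N) Λ (SV A Γ₀))
      ⟨some (ι (Sum.inr ⟨a, entry (p a)⟩)), some (Sum.inr a), stk (update s r l) [] []⟩ := by
    refine RN.one ?_
    have := hι (Sum.inl ())
    simp only [TM2.step, entry, this, code, TM2.stepAux]
    rw [stk_reg s _ _ hb.1, update_stk s _ _ hb.1, h]
    simp only [List.head?_cons, Option.map_some, List.tail_cons]
  refine ⟨v'', Seg.trans ?_ (hv'.trans hv'')⟩
  refine (Seg.of_RN hM h0 (B := B) ?_).mono ?_
  · rintro (_ | _ | i)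
    · simp [stk]
    · simp [stk]
    · exact hB i
  · have : 1 * b ≤ T * b := Nat.mul_le_mul_right _ hT
    omega

/-- A loop with stores `S 0, …, S n`. -/
theorem HR.loop {B T : ℕ} {r : ℕ} {p : A → Prog A} (S : ℕ → Store A) (n : ℕ) (hT : 1 ≤ T)
    (hB : ∀ i ≤ n, ∀ k, (S i k).length ≤ B)
    (h1 : ∀ i < n, ∃ a l, S i r = a :: l ∧ HR B T (p a) (update (S i) r l) (S (i + 1)))
    (h2 : S n r = []) : HR B T (Prog.loop r p) (S 0) (S n) := by
  have key : ∀ j ≤ n, HR B T (Prog.loop r p) (S (n - j)) (S n) := by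
    intro j
    induction j with
    | zero =>
      intro _
      exact HR.loopNil h2 hT (hB n le_rfl)
    | succ j ih =>
      intro hj
      obtain ⟨a, l, e, h⟩ := h1 (n - (j + 1)) (by omega)
      refine HR.loopCons e hT (hB _ (by omega)) h ?_
      have e2 : n - (j + 1) + 1 = n - j := by omega
      rw [e2]
      exact ih (by omega)
  have := key n le_rfl
  rwa [Nat.sub_self] at this

end hr

theorem slow_tm (tm : FinTM2) : Slow tm.m (bsz tm) := by
  rintro ⟨l, v, S⟩ q' h k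
  rcases l with _ | l
  · exact absurd h (by simp [TM2.step])
  · obtain ⟨d, h1, h2, h3⟩ := msteps_pos tm.m (tm.m l) v S
    have e : TM2.stepAux (tm.m l) v S = q' := Option.some.inj h
    rw [e] at h3
    have h4 : ∀ (e : ℕ) (c : MCfg tm.Γ tm.Λ tm.σ),
        (((mstep tm.m)^[e] c).S k).length ≤ (c.S k).length + e := by
      intro e c
      induction e with
      | zero => exact le_rfl
      | succ e ih =>
        rw [Function.iterate_succ_apply']
        have := mstep_height tm.m ((mstep tm.m)^[e] c) k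
        omega
    have h5 := h4 d ⟨some (tm.m l), v, S⟩
    rw [h3] at h5
    change (q'.stk k).length ≤ (S k).length + d at h5
    have h6 : d ≤ bsz tm := by
      refine h2.trans ?_
      let _ := tm.ΛFin
      exact ssize_le_bigsize tm.m l
    change (q'.stk k).length ≤ (S k).length + bsz tm
    omega

end Pool.Agent.BPM
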