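import Pool.Agent.BPM.SpaceA

/-!
# Machines with a main loop: from programs to machines
-/

set_option autoImplicit false
set_option backward.isDefEq.respectTransparency false

namespace Pool.Agent.BPM

open Turing Pool.Agent.PF Pool.Agent.PT Pool.Agent.BPD
open Function (update)

/-- Every reachable configuration is on the way to the final configuration. -/
theorem Seg.reach {tm : FinTM2} {B : ℕ} {w : List (tm.Γ tm.k₀)} {y : List (tm.Γ tm.k₁)}
    (h : Seg tm.m B (initList tm w) (haltList tm y)) (q : tm.Cfg) (hq : Reach tm w q) (k : tm.K) :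
    (q.stk k).length ≤ B := by
  obtain ⟨n, hn, hB⟩ := h
  obtain ⟨m, hm⟩ := hq
  have hmn : m ≤ n := by
    by_contra hlt
    obtain ⟨d, rfl⟩ : ∃ d, m = d + 1 + n := ⟨m - n - 1, by omega⟩
    have hn' : (flip bind tm.step)^[n] (some (initList tm w)) = some (haltList tm y) := hn
    rw [Function.iterate_add_apply, hn', Function.iterate_succ_apply] at hm
    have h1 : flip bind tm.step (some (haltList tm y)) = none := rfl
    rw [h1, bind_iter_none] at hm
    exact absurd hm (by simp)
  exact hB m hmn q hm k

/-- A machine for a program which runs with bounded heights. -/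
theorem space_of_prog {α : Type} (ea : α → List Bool) (ans : α → Bool) (p : Prog Bool)
    (B T : α → ℕ) (h : ∀ x, HR (B x) (T x) p (single 0 (ea x)) (single 1 [ans x]))
    (hB : ∀ x, (ea x).length ≤ B x) (hB1 : ∀ x, 1 ≤ B x) :
    ∃ (tm : FinTM2) (e₀ : tm.Γ tm.k₀ ≃ Bool) (e₁ : tm.Γ tm.k₁ ≃ Bool) (C : ℕ), ∀ x,
      Nonempty (TM2Outputs tm ((ea x).map e₀.symm) (some ([ans x].map e₁.symm))) ∧
      ∀ q : tm.Cfg, Reach tm ((ea x).map e₀.symm) q → ∀ k,
        (q.stk k).length ≤ C * (B x + T x + 1) := by
  obtain ⟨n, hn⟩ := p.exists_bdd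
  set N := n + 3 with hN
  set p' : Prog Bool := Prog.seq (mv 1 0) (Prog.seq p (mv 1 2)) with hp'
  have hb : p'.Bdd (N + 2) := by
    refine ⟨⟨by omega, fun a => ?_⟩, hn.mono (by omega), ⟨by omega, fun a => ?_⟩⟩
    · change 0 < N + 2; omega
    · change 2 < N + 2; omega
  have hrun : ∀ x, HR (B x) (T x + (2 * B x + 3)) p' (single 1 (ea x).reverse)
      (single 2 [ans x]) := by
    intro x
    have h1 := runs_mv 1 0 (by decide) (ea x).reverse (single 1 (ea x).reverse) (by simp [single])
    have h3 := runs_mv 1 2 (by decide) [ans x] (single 1 [ans x]) (by simp [single])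
    have e1 : single 0 (ea x) = update (update (single 1 (ea x).reverse) 1 []) 0
        ((ea x).reverse.reverse ++ (single 1 (ea x).reverse) 0) := by
      funext i
      by_cases hi : i = 0
      · subst hi; simp [single]
      · by_cases hi1 : i = 1
        · subst hi1; simp [single]
        · simp [single, hi]
    have e2 : single 2 [ans x] = update (update (single 1 [ans x]) 1 []) 2
        ([ans x].reverse ++ (single 1 [ans x]) 2) := by
      funext i
      by_cases hi : i = 2
      · subst hi; simp [single]
      · by_cases hi1 : i = 1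
        · subst hi1; simp [single]
        · simp [single, hi]
    have hlen := hB x
    have hone := hB1 x
    refine HR.seq (HR.of_runs (h1.conv e1 (by simp; omega)) ?_)
      (HR.seq ?_ (HR.of_runs (h3.conv e2 (by simp; omega)) ?_))
    · intro i
      by_cases hi : i = 1
      · subst hi; simpa [single] using hlen
      · simp [single, hi]
    · intro Γ₀ Γ₁ N hb Λ M b hM ι ex hι v
      obtain ⟨v', hv'⟩ := h x Γ₀ Γ₁ N hb Λ M b hM ι ex hι v
      refine ⟨v', hv'.mono ?_⟩
      have : T x * b ≤ (T x + (2 * B x + 3)) * b := Nat.mul_le_mul_right _ (by omega)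
      omega
    · intro i
      by_cases hi : i = 1
      · subst hi; simpa [single] using hone
      · simp [single, hi]
  have hseg : ∀ x, Seg (mach (Γ₁ := Bool) N p' id id false).m
      ((B x + (2 * B x + T x + 4) * bsz (mach (Γ₁ := Bool) N p' id id false)))
      (initList (mach (Γ₁ := Bool) N p' id id false) (ea x))
      (haltList (mach (Γ₁ := Bool) N p' id id false) [ans x]) := by
    intro x
    set b := bsz (mach (Γ₁ := Bool) N p' id id false) with hbdef
    have hM : Slow (mach (Γ₁ := Bool) N p' id id false).m b := slow_tm _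
    have hlen := hB x
    have hone := hB1 x
    rw [initList_mach, haltList_mach]
    obtain ⟨v1, h1⟩ := phase1 (N := N) (Γ₁ := Bool) p' id id false (by omega) (ea x) none (fun _ => [])
    rw [List.map_id] at h1
    have e1 : update (fun _ => []) 1 ((ea x).reverse ++ (fun _ => [] : Store Bool) 1) =
      single 1 (ea x).reverse := by simp [single]
    rw [e1] at h1
    obtain ⟨v2, h2⟩ := hrun x Bool Bool N hb _ (mcode p' id id false) b hM
      (fun l => some (some l)) (some none) (fun l => rfl) v1
    have h3 := phase3 (N := N) (Γ₀ := Bool) p' id id false (by omega) [ans x] [] v2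
      (single 2 [ans x]) (by simp [single])
    have e3 : (stk (update (single 2 [ans x]) 2 []) [] (([ans x].map id).reverse ++ [])
      : ∀ k : SK N, List (SΓ Bool Bool Bool N k)) = stk (fun _ => []) [] [ans x] := by
      congr 1
      · simp [single]
    rw [e3] at h3
    have g1 : Seg (mcode p' id id false) (B x + (2 * B x + T x + 4) * b) _ _ :=
      (Seg.of_RN hM h1 (B := B x) (by
        rintro (_ | _ | i)
        · simpa [stk] using hlen
        · simp [stk]
        · simp [stk])).mono (by
          have : ((ea x).length + 1) * b ≤ (2 * B x + T x + 4) * b :=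
            Nat.mul_le_mul_right _ (by omega)
          omega)
    have g2 : Seg (mcode p' id id false) (B x + (2 * B x + T x + 4) * b) _ _ :=
      h2.mono (by
          have : (T x + (2 * B x + 3)) * b ≤ (2 * B x + T x + 4) * b :=
            Nat.mul_le_mul_right _ (by omega)
          omega)
    have g3 : Seg (mcode p' id id false) (B x + (2 * B x + T x + 4) * b) _ _ :=
      (Seg.of_RN hM h3 (B := B x) (by
        rintro (_ | _ | i)
        · simp [stk]
        · simp [stk]
        · by_cases hi : i.val = 2
          · simpa [stk, single, hi] using hone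
          · simp [stk, single, hi])).mono (by
          have : ([ans x].length + 1) * b ≤ (2 * B x + T x + 4) * b :=
            Nat.mul_le_mul_right _ (by simp)
          omega)
    exact g1.trans (g2.trans g3)
  refine ⟨mach N p' id id false, Equiv.refl _, Equiv.refl _,
    1 + 4 * bsz (mach (Γ₁ := Bool) N p' id id false), fun x => ?_⟩
  have e1 : List.map (Equiv.refl ((mach (Γ₁ := Bool) N p' id id false).Γ
      (mach (Γ₁ := Bool) N p' id id false).k₀)).symm (ea x) = ea x := by simp
  have e2 : List.map (Equiv.refl ((mach (Γ₁ := Bool) N p' id id false).Γ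
      (mach (Γ₁ := Bool) N p' id id false).k₁)).symm [ans x] = [ans x] := by simp
  constructor
  · obtain ⟨m, hm, -⟩ := hseg x
    refine ⟨⟨m, ?_⟩⟩
    erw [e2, e1]
    exact hm
  · intro q hq k
    erw [e1] at hq
    refine (Seg.reach (hseg x) q hq k).trans ?_
    nlinarith [Nat.zero_le (B x * bsz (mach (Γ₁ := Bool) N p' id id false)),
      Nat.zero_le (T x * bsz (mach (Γ₁ := Bool) N p' id id false))]

end Pool.Agent.BPM
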