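import Pool.Agent.BPM.SpaceB
import Pool.Agent.BPD.RawIn

/-!
# Machines with a main loop: loops of functions on trees
-/

set_option autoImplicit false

namespace Pool.Agent.BPM

open Turing Pool.Agent.PF Pool.Agent.PT Pool.Agent.BPD
open Function (update)

/-- The stores of the main loop. -/
private def st (f l : List Bool) : Store Bool := update (update (fun _ => []) 1 l) 0 f

private theorem st_zero (f l : List Bool) : st f l 0 = f := by simp [st]

private theorem st_one (f l : List Bool) : st f l 1 = l := by simp [st]

private theorem st_other (f l : List Bool) {i : ℕ} (hi : 1 < i) : st f l i = [] := by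
  have h0 : i ≠ 0 := by omega
  have h1 : i ≠ 1 := by omega
  simp [st, h0, h1]

private theorem st_ext {s : Store Bool} {f l : List Bool} (h0 : s 0 = f) (h1 : s 1 = l)
    (h : ∀ i, 1 < i → s i = []) : s = st f l := by
  funext i
  rcases i with _ | _ | i
  · rw [h0, st_zero]
  · rw [h1, st_one]
  · rw [h _ (by omega), st_other _ _ (by omega)]

private theorem st_upd_zero (f g l : List Bool) : update (st f l) 0 g = st g l := by
  refine st_ext (by simp) (by simp [st]) fun i hi => ?_
  have h0 : i ≠ 0 := by omega
  have h1 : i ≠ 1 := by omega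
  simp [st, h0, h1]

private theorem st_upd_one (f l m : List Bool) : update (st f l) 1 m = st f m := by
  refine st_ext (by simp [st]) (by simp) fun i hi => ?_
  have h0 : i ≠ 0 := by omega
  have h1 : i ≠ 1 := by omega
  simp [st, h0, h1]

/-- The flag of a state: the loop goes on. -/
def fl : V → Bool
  | .node (.node _ _) _ => true
  | _ => false

/-- The mark on register 0. -/
private def mk (b : Bool) : List Bool := if b then [true] else []

/-- Set the register 0 according to the flag of the state in register 1. -/
private def test : Prog Bool :=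
  Prog.pop 1 Prog.skip fun a => Prog.pop 1 (Prog.push 1 a) fun c =>
    Prog.seq (Prog.push 1 c) (Prog.seq (Prog.push 1 a) (if a && c then Prog.push 0 true else Prog.skip))

private theorem test_two (a c : Bool) (l : List Bool) :
    Runs test (st [] (a :: c :: l)) (st (mk (a && c)) (a :: c :: l)) 5 := by
  have h1 : Runs (Prog.push 1 c) (update (update (st [] (a :: c :: l)) 1 (c :: l)) 1 l)
      (st [] (c :: l)) 1 := by
    refine (Runs.push 1 c _).conv ?_ le_rfl
    simp only [st_upd_one, st_one]
  have h2 : Runs (Prog.push 1 a) (st [] (c :: l)) (st [] (a :: c :: l)) 1 := by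
    refine (Runs.push 1 a _).conv ?_ le_rfl
    simp only [st_upd_one, st_one]
  have h3 : Runs (if a && c then Prog.push 0 true else Prog.skip) (st [] (a :: c :: l))
      (st (mk (a && c)) (a :: c :: l)) 1 := by
    rcases h : (a && c) with _ | _
    · exact (Runs.skip _).conv (by simp [mk]) le_rfl
    · refine (Runs.push 0 true _).conv ?_ le_rfl
      simp only [st_upd_zero, st_zero, mk]
      simp
  exact (Runs.popCons (l := c :: l) (by rw [st_one]) (Runs.popCons (a := c) (l := l) (by simp)
    (h1.seq (h2.seq h3)))).mono (by omega)

private theorem test_runs (v : V) : Runs test (st [] v.code) (st (mk (fl v)) v.code) 5 := by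
  rcases v with _ | ⟨a, b⟩
  · have h1 : Runs (Prog.push 1 false) (update (st [] (V.nil).code) 1 [])
        (st (mk (fl V.nil)) (V.nil).code) 1 := by
      refine (Runs.push 1 false _).conv ?_ le_rfl
      rw [st_upd_one, st_upd_one]
      simp [st_one, V.code, fl, mk]
    exact (Runs.popCons (l := []) (by rw [st_one]; rfl) (Runs.popNil (by simp) h1)).mono (by omega)
  · rcases a with _ | ⟨c, d⟩
    · exact test_two true false b.code
    · have := test_two true true (c.code ++ d.code ++ b.code)
      have e : (V.node (V.node c d) b).code = true :: true :: (c.code ++ d.code ++ b.code) := by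
        simp [V.code]
      rw [e]
      exact this

/-- The register 0 is copied to the register 1, then `I` is applied. -/
private def pre (raw pI : Prog Bool) : Prog Bool :=
  Prog.seq raw (Prog.seq (mv 0 2) (Prog.seq (mv 2 1) (Prog.seq pI test)))

/-- The answer. -/
private def post (pA : Prog Bool) : Prog Bool :=
  Prog.seq pA (Prog.pop 1 Prog.skip fun a => Prog.seq (clear 1) (Prog.push 1 a))

private theorem single_eq (l : List Bool) : single 1 l = st [] l := by
  refine st_ext (by simp [single]) (by simp [single]) fun i hi => ?_
  have h1 : i ≠ 1 := by omega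
  simp [single, h1]

private theorem pre_runs {raw pI : Prog Bool} {x : List Bool} {w : List Bool} {v : V} {t T : ℕ}
    (h1 : Runs raw (single 0 x) (single 0 w) t) (h2 : Runs pI (st [] w) (st [] v.code) T) :
    Runs (pre raw pI) (single 0 x) (st (mk (fl v)) v.code) (t + (4 * w.length + T + 7)) := by
  have h3 := runs_mv 0 2 (by decide) w (single 0 w) (by simp [single])
  have e2 : update (update (single 0 w) 0 []) 2 (w.reverse ++ (single 0 w) 2) =
      single 2 w.reverse := by
    funext i
    by_cases h0 : i = 0
    · subst h0
      simp [single]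
    · by_cases h1 : i = 2
      · subst h1
        simp [single]
      · simp [single, h0, h1]
  rw [e2] at h3
  have h4 := runs_mv 2 1 (by decide) w.reverse (single 2 w.reverse) (by simp [single])
  have e3 : update (update (single 2 w.reverse) 2 []) 1
      (w.reverse.reverse ++ (single 2 w.reverse) 1) = st [] w := by
    refine st_ext (by simp [single]) (by simp [single]) fun i hi => ?_
    have h1 : i ≠ 1 := by omega
    by_cases h2 : i = 2
    · subst h2
      simp
    · simp [single, h1, h2]
  rw [e3, List.length_reverse] at h4
  exact (h1.seq (h3.seq (h4.seq (h2.seq (test_runs v))))).mono (by omega)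

private theorem post_runs {pA : Prog Bool} {v : V} {b : Bool} {T : ℕ}
    (h : Runs pA (st [] v.code) (st [] (V.bool b).code) T) :
    Runs (post pA) (st [] v.code) (single 1 [b]) (T + 7) := by
  obtain ⟨l, hl, e⟩ : ∃ l : List Bool, l.length ≤ 2 ∧ (V.bool b).code = b :: l := by
    cases b
    · exact ⟨[], by simp, rfl⟩
    · exact ⟨[false, false], by simp, rfl⟩
  rw [e] at h
  have h2 := runs_clear 1 l (st [] l) (st_one _ _)
  rw [st_upd_one] at h2
  have h3 : Runs (Prog.push 1 b) (st [] []) (single 1 [b]) 1 := by
    refine (Runs.push 1 b _).conv ?_ le_rfl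
    rw [single_eq, st_upd_one, st_one]
  have h4 := Runs.popCons (p₀ := Prog.skip) (p₁ := fun a => Prog.seq (clear 1) (Prog.push 1 a))
    (s := st [] (b :: l)) (a := b) (l := l) (s' := single 1 [b]) (T := 2 * l.length + 1 + 1)
    (st_one _ _) (by rw [st_upd_one]; exact h2.seq h3)
  exact (h.seq h4).mono (by omega)

private theorem runsBy_st {F : V → V} {τ : V → ℕ} {p : ℕ → Prog Bool}
    (hp : ∀ (b : ℕ) (s : Store Bool) (v : V) (rest : List Bool),
      s b = v.code ++ rest → (∀ i, b < i → s i = []) →
      Runs (p b) s (update s b ((F v).code ++ rest)) (τ v)) (v : V) :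
    Runs (p 1) (st [] v.code) (st [] (F v).code) (τ v) := by
  have := hp 1 (st [] v.code) v [] (by rw [st_one, List.append_nil])
    (fun i hi => st_other _ _ hi)
  rwa [List.append_nil, st_upd_one] at this

/-- **A machine with a main loop.** The state `v` is changed by `G` as long as the flag `fl v` is
true. -/
theorem space_of_loopV {I G A : V → V} {τI τG τA : V → ℕ} (hI : RunsBy I τI) (hG : RunsBy G τG)
    (hA : RunsBy A τA) (ans : List Bool → Bool) (n B T : List Bool → ℕ)
    (h1 : ∀ x, ∀ i < n x, fl (G^[i] (I (enc x))) = true)
    (h2 : ∀ x, fl (G^[n x] (I (enc x))) = false)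
    (h3 : ∀ x, A (G^[n x] (I (enc x))) = V.bool (ans x))
    (hB : ∀ x, ∀ i ≤ n x, (G^[i] (I (enc x))).size ≤ B x)
    (hTI : ∀ x, τI (enc x) ≤ T x) (hTG : ∀ x, ∀ i < n x, τG (G^[i] (I (enc x))) ≤ T x)
    (hTA : ∀ x, τA (G^[n x] (I (enc x))) ≤ T x) :
    ∃ (tm : FinTM2) (e₀ : tm.Γ tm.k₀ ≃ Bool) (e₁ : tm.Γ tm.k₁ ≃ Bool) (C : ℕ), ∀ x,
      Nonempty (TM2Outputs tm (x.map e₀.symm) (some ([ans x].map e₁.symm))) ∧
      ∀ q : tm.Cfg, Reach tm (x.map e₀.symm) q → ∀ k,
        (q.stk k).length ≤ C * (x.length + B x + T x + 1) := by
  obtain ⟨raw, C₀, hraw⟩ := raw_prog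
  obtain ⟨pI, hpI⟩ := hI
  obtain ⟨pG, hpG⟩ := hG
  obtain ⟨pA, hpA⟩ := hA
  have hmk : ∀ b, (mk b).length ≤ 1 := by
    intro b
    cases b <;> simp [mk]
  have hst : ∀ (f l : List Bool) (N : ℕ), f.length ≤ N → l.length ≤ N → ∀ k, (st f l k).length ≤ N := by
    intro f l N hf hl k
    rcases k with _ | _ | k
    · rwa [st_zero]
    · rwa [st_one]
    · rw [st_other _ _ (by omega)]
      simp
  have hcode : ∀ x : List Bool, (enc x : V).code.length ≤ 4 * x.length + 1 := by
    intro x
    rw [V.code_length]
    exact size_enc_le x
  have key : ∀ x : List Bool, HR (x.length + B x + 1) (C₀ * (x.length + 1) + (16 * x.length + T x + 11))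
      (Prog.seq (pre raw (pI 1)) (Prog.seq (Prog.loop 0 fun _ => Prog.seq (pG 1) test) (post (pA 1))))
      (single 0 x) (single 1 [ans x]) := by
    intro x
    set v : ℕ → V := fun i => G^[i] (I (enc x)) with hv
    have hlen := hcode x
    refine HR.seq (s' := st (mk (fl (v 0))) (v 0).code) ?_ (HR.seq (s' := st [] (v (n x)).code) ?_ ?_)
    · refine HR.of_runs ((pre_runs (hraw x) (runsBy_st hpI (enc x))).mono ?_) ?_
      · have := hTI x
        omega
      · intro i
        by_cases hi : i = 0
        · subst hi
          simp only [single, Function.update_self]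
          omega
        · simp [single, hi]
    · have e : st [] (v (n x)).code = st (mk (fl (v (n x)))) (v (n x)).code := by
        have : fl (v (n x)) = false := h2 x
        rw [this]
        rfl
      rw [e]
      refine HR.loop (fun i => st (mk (fl (v i))) (v i).code) (n x) (by omega) ?_ ?_ ?_
      · intro i hi
        refine hst _ _ _ ((hmk _).trans (by omega)) ?_
        rw [V.code_length]
        have : (v i).size ≤ B x := hB x i hi
        omega
      · intro i hi
        have hf : fl (v i) = true := h1 x i hi
        refine ⟨true, [], ?_, ?_⟩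
        · change st (mk (fl (v i))) (v i).code 0 = _
          rw [st_zero, hf]
          rfl
        · change HR _ _ _ (update (st (mk (fl (v i))) (v i).code) 0 []) (st (mk (fl (v (i + 1))))
            (v (i + 1)).code)
          rw [st_upd_zero]
          have e2 : v (i + 1) = G (v i) := Function.iterate_succ_apply' _ _ _
          rw [e2]
          refine HR.of_runs (((runsBy_st hpG (v i)).seq (test_runs _)).mono ?_) ?_
          · have : τG (v i) ≤ T x := hTG x i hi
            omega
          · refine hst _ _ _ (by simp) ?_
            rw [V.code_length]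
            have : (v i).size ≤ B x := hB x i hi.le
            omega
      · change st (mk (fl (v (n x)))) (v (n x)).code 0 = _
        have : fl (v (n x)) = false := h2 x
        rw [st_zero, this]
        rfl
    · have h4 := runsBy_st hpA (v (n x))
      have h5 : A (v (n x)) = V.bool (ans x) := h3 x
      rw [h5] at h4
      refine HR.of_runs ((post_runs h4).mono ?_) ?_
      · have : τA (v (n x)) ≤ T x := hTA x
        omega
      · refine hst _ _ _ (by simp) ?_
        rw [V.code_length]
        have : (v (n x)).size ≤ B x := hB x _ le_rfl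
        omega
  obtain ⟨tm, e₀, e₁, C, hC⟩ := space_of_prog (fun x : List Bool => x) ans _
    (fun x => x.length + B x + 1) (fun x => C₀ * (x.length + 1) + (16 * x.length + T x + 11))
    key (fun x => by omega) (fun x => by omega)
  refine ⟨tm, e₀, e₁, C * (C₀ + 20), fun x => ⟨(hC x).1, fun q hq k => ?_⟩⟩
  refine ((hC x).2 q hq k).trans ?_
  rw [mul_assoc]
  refine Nat.mul_le_mul_left _ ?_
  nlinarith [Nat.zero_le (C₀ * B x), Nat.zero_le (C₀ * T x)]

end Pool.Agent.BPM
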