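import Pool.Agent.BPM.SpaceC

/-!
# Loops of polynomial time functions in exponential space
-/

set_option autoImplicit false

namespace Pool.Agent.BPM

open Turing Pool.Agent.PF Pool.Agent.PT Pool.Agent.BPD
open Pool.Agent

/-- The tree of the state `(x, 2 ^ |x|)` is computed in exponential time. -/
theorem exists_init {S : Type} [VEnc S] {f : List Bool × ℕ → S} (hf : PF f) :
    ∃ (I : V → V) (τ : V → ℕ) (c : ℕ), RunsBy I τ ∧
      (∀ x : List Bool, I (enc x) = enc (f (x, 2 ^ x.length))) ∧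
      ∀ x : List Bool, τ (enc x) ≤ 2 ^ (c * (x.length + 1)) := by
  have h1 : PF fun x : List Bool => (x.length, x) := by fun_prop
  obtain ⟨F₁, ⟨a, hF₁⟩, hF₁'⟩ := h1
  obtain ⟨b, hF₂⟩ := gen_tw 1
  have h3 : PF fun p : ℕ × List Bool => f (p.2, p.1 / 4) :=
    PF.comp' (g := f) hf (PF.prodMk (PF.snd PF.id') (PF.divN (PF.fst PF.id') (PF.const' 4)))
  obtain ⟨F₃, ⟨c, hF₃⟩, hF₃'⟩ := h3
  have hmid : ∀ x : List Bool, (V.node (V.una (MDF.tw 1 (F₁ (enc x)).hd.spine)) (F₁ (enc x)).tl) =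
      enc (4 * 2 ^ x.length, x) := by
    intro x
    rw [hF₁']
    change V.node (V.una (MDF.tw 1 (V.una x.length).spine)) (enc x) = _
    rw [V.spine_una, MDF.tw_succ, MDF.tw_zero, pow_add]
    change _ = V.node (V.una (4 * 2 ^ x.length)) (enc x)
    congr 2
    ring
  refine ⟨_, _, 4 * (a + b + c) + 1 + 6, hF₃.comp (hF₂.comp hF₁), fun x => ?_, fun x => ?_⟩
  · rw [hmid, hF₃']
    change enc (f (x, 4 * 2 ^ x.length / 4)) = _
    rw [Nat.mul_div_cancel_left _ (by norm_num)]
  · have hn : x.length + 1 ≤ 2 ^ x.length := Nat.lt_two_pow_self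
    have hs := size_enc_le x
    have hsz1 : (F₁ (enc x)).size = (2 * x.length + 1) + (enc x : V).size + 1 := by
      rw [hF₁']
      change (V.una x.length).size + _ + 1 = _
      rw [V.size_una]
    have hsp : (F₁ (enc x)).hd.spine = x.length := by
      rw [hF₁']
      change (V.una x.length).spine = _
      rw [V.spine_una]
    have hsz2 : (enc (4 * 2 ^ x.length, x) : V).size =
        (2 * (4 * 2 ^ x.length) + 1) + (enc x : V).size + 1 := by
      change (V.una (4 * 2 ^ x.length)).size + _ + 1 = _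
      rw [V.size_una]
    simp only [hmid]
    rw [hsz1, hsp, hsz2, MDF.tw_succ, MDF.tw_zero]
    set n := x.length with hn'
    set s := (enc x : V).size
    have hB : 16 * 2 ^ n ≤ 2 ^ (4 * (n + 1)) := by
      have : 16 * 2 ^ n = 2 ^ (n + 4) := by rw [pow_add]; ring
      rw [this]
      exact Nat.pow_le_pow_right (by norm_num) (by omega)
    have h22 : 2 ^ (n + 2) = 4 * 2 ^ n := by rw [pow_add]; ring
    have key : ∀ (y d : ℕ), y ≤ 16 * 2 ^ n → d ≤ a + b + c →
        y ^ d ≤ 2 ^ ((4 * (a + b + c) + 1) * (n + 1)) := by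
      intro y d hy hd
      calc y ^ d ≤ (2 ^ (4 * (n + 1))) ^ d := Nat.pow_le_pow_left (hy.trans hB) d
        _ = 2 ^ (4 * (n + 1) * d) := by rw [← pow_mul]
        _ ≤ _ := by
          refine Nat.pow_le_pow_right (by norm_num) ?_
          calc 4 * (n + 1) * d ≤ 4 * (n + 1) * (a + b + c) := Nat.mul_le_mul_left _ hd
            _ ≤ (4 * (a + b + c) + 1) * (n + 1) := by nlinarith
    have k1 := key (s + 2) a (by omega) (by omega)
    have k2 := key (2 ^ (n + 2) + ((2 * n + 1) + s + 1) + 2) b (by omega) (by omega)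
    have k3 := key ((2 * (4 * 2 ^ n) + 1) + s + 1 + 2) c (by omega) (by omega)
    have k5 : 1 ≤ 2 ^ ((4 * (a + b + c) + 1) * (n + 1)) := Nat.one_le_two_pow
    have k6 : 2 ^ ((4 * (a + b + c) + 1 + 6) * (n + 1)) =
        2 ^ ((4 * (a + b + c) + 1) * (n + 1)) * 2 ^ (6 * (n + 1)) := by
      rw [← pow_add]
      congr 1
      ring
    have k7 : 64 ≤ 2 ^ (6 * (n + 1)) := by
      calc 64 = 2 ^ 6 := by norm_num
        _ ≤ _ := Nat.pow_le_pow_right (by norm_num) (by omega)
    rw [k6]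
    nlinarith [Nat.mul_le_mul_left (2 ^ ((4 * (a + b + c) + 1) * (n + 1))) k7]

/-- **Loops in exponential space.** -/
theorem inESPACE_of_loop {S : Type} [VEnc S] {L : Set (List Bool)} {init : List Bool × ℕ → S}
    {step : S → S} {run ans : S → Bool} (hi : PF init) (hs : PF step) (hr : PF run) (ha : PF ans)
    (c : ℕ) (h : ∀ x : List Bool, ∃ n, (∀ i < n, run (step^[i] (init (x, 2 ^ x.length))) = true) ∧
      run (step^[n] (init (x, 2 ^ x.length))) = false ∧
      (ans (step^[n] (init (x, 2 ^ x.length))) = true ↔ x ∈ L) ∧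
      ∀ i ≤ n, sz (step^[i] (init (x, 2 ^ x.length))) ≤ 2 ^ (c * (x.length + 1))) :
    InESPACE L := by
  classical
  choose n hn1 hn2 hn3 hn4 using h
  have hi' : PF fun p : List Bool × ℕ => (run (init p), init p) := by fun_prop
  obtain ⟨I, τ, cI, hI, hI', hτ⟩ := exists_init hi'
  have hs' : PF fun p : Bool × S => (run (step p.2), step p.2) := by fun_prop
  obtain ⟨G, ⟨cG, hG⟩, hG'⟩ := hs'
  have ha' : PF fun p : Bool × S => ans p.2 := by fun_prop
  obtain ⟨A, ⟨cA, hA⟩, hA'⟩ := ha'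
  have hit : ∀ (x : List Bool) (i : ℕ), G^[i] (I (enc x)) =
      enc (run (step^[i] (init (x, 2 ^ x.length))), step^[i] (init (x, 2 ^ x.length))) := by
    intro x i
    induction i with
    | zero => exact hI' x
    | succ i ih =>
      rw [Function.iterate_succ_apply', ih, hG', Function.iterate_succ_apply']
  have hfl : ∀ (b : Bool) (s : S), fl (enc (b, s)) = b := by
    intro b s
    cases b <;> rfl
  have hsz : ∀ (b : Bool) (s : S), (enc (b, s) : V).size ≤ sz s + 4 := by
    intro b s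
    have : (enc (b, s) : V).size = (V.bool b).size + sz s + 1 := rfl
    rw [this]
    have : (V.bool b).size ≤ 3 := by cases b <;> simp [V.bool, V.size]
    omega
  obtain ⟨tm, e₀, e₁, C, hC⟩ := space_of_loopV hI hG hA (fun x => decide (x ∈ L)) n
    (fun x => 2 ^ (c * (x.length + 1)) + 4)
    (fun x => 2 ^ (cI * (x.length + 1)) + (2 ^ (c * (x.length + 1)) + 6) ^ (cG + cA))
    (fun x i hi => by rw [hit, hfl]; exact hn1 x i hi)
    (fun x => by rw [hit, hfl]; exact hn2 x)
    (fun x => by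
      rw [hit, hA']
      have : ans (step^[n x] (init (x, 2 ^ x.length))) = decide (x ∈ L) := by
        rw [Bool.eq_iff_iff, hn3 x, decide_eq_true_iff]
      change enc (ans (step^[n x] (init (x, 2 ^ x.length)))) = _
      rw [this]
      rfl)
    (fun x i hi => by
      rw [hit]
      exact (hsz _ _).trans (Nat.add_le_add_right (hn4 x i hi) 4))
    (fun x => (hτ x).trans (Nat.le_add_right _ _))
    (fun x i hi => by
      rw [hit]
      refine le_trans ?_ (Nat.le_add_left _ _)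
      have h1 := (hsz (run (step^[i] (init (x, 2 ^ x.length)))) (step^[i] (init (x, 2 ^ x.length)))).trans
        (Nat.add_le_add_right (hn4 x i hi.le) 4)
      exact (Nat.pow_le_pow_left (by omega) cG).trans
        (Nat.pow_le_pow_right (by omega) (Nat.le_add_right _ _)))
    (fun x => by
      rw [hit]
      refine le_trans ?_ (Nat.le_add_left _ _)
      have h1 := (hsz (run (step^[n x] (init (x, 2 ^ x.length)))) (step^[n x] (init (x, 2 ^ x.length)))).trans
        (Nat.add_le_add_right (hn4 x (n x) le_rfl) 4)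
      exact (Nat.pow_le_pow_left (by omega) cA).trans
        (Nat.pow_le_pow_right (by omega) (Nat.le_add_left _ _)))
  refine ⟨tm, e₀, e₁, (c + 4) * (cG + cA + 1) + cI + C + 4, fun x => ⟨(hC x).1, fun q hq k => ?_⟩⟩
  refine ((hC x).2 q hq k).trans ?_
  set m := x.length + 1 with hm
  set d := cG + cA with hd
  have hm1 : 1 ≤ m := by omega
  have hmono : ∀ {a b : ℕ}, a ≤ b → 2 ^ (a * m) ≤ 2 ^ (b * m) := fun h =>
    Nat.pow_le_pow_right (by norm_num) (Nat.mul_le_mul_right _ h)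
  have h8 : 8 ≤ 2 ^ (3 * m) := by
    calc 8 = 2 ^ 3 := by norm_num
      _ ≤ _ := Nat.pow_le_pow_right (by norm_num) (by omega)
  have hpos : ∀ a : ℕ, 1 ≤ 2 ^ (a * m) := fun a => Nat.one_le_two_pow
  have h1 : (2 ^ (c * m) + 6) ^ d ≤ 2 ^ ((c + 3) * (d + 1) * m) := by
    have e : 2 ^ (c * m) + 6 ≤ 2 ^ ((c + 3) * m) := by
      have : 2 ^ ((c + 3) * m) = 2 ^ (c * m) * 2 ^ (3 * m) := by rw [← pow_add]; congr 1; ring
      rw [this]
      have h9 := hpos c
      nlinarith [Nat.mul_le_mul_left (2 ^ (c * m)) h8]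
    calc (2 ^ (c * m) + 6) ^ d ≤ (2 ^ ((c + 3) * m)) ^ d := Nat.pow_le_pow_left e d
      _ = 2 ^ ((c + 3) * d * m) := by rw [← pow_mul]; congr 1; ring
      _ ≤ _ := hmono (Nat.mul_le_mul_left _ (by omega))
  set K := (c + 3) * (d + 1) + cI + 1 with hK
  have h2 : (c + 3) * 1 ≤ (c + 3) * (d + 1) := Nat.mul_le_mul_left _ (by omega)
  have k1 : (2 ^ (c * m) + 6) ^ d ≤ 2 ^ (K * m) := h1.trans (hmono (by omega))
  have k2 : 2 ^ (c * m) ≤ 2 ^ (K * m) := hmono (by omega)
  have k3 : 2 ^ (cI * m) ≤ 2 ^ (K * m) := hmono (by omega)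
  have k4 : m ≤ 2 ^ (K * m) := by
    refine Nat.lt_two_pow_self.le.trans ?_
    have := hmono (a := 1) (b := K) (by omega)
    rwa [one_mul] at this
  have k5 : C ≤ 2 ^ (C * m) :=
    Nat.lt_two_pow_self.le.trans (Nat.pow_le_pow_right (by norm_num) (Nat.le_mul_of_pos_right _ hm1))
  have k6 : x.length + (2 ^ (c * m) + 4) + (2 ^ (cI * m) + (2 ^ (c * m) + 6) ^ d) + 1 ≤
      2 ^ (K * m) * 2 ^ (3 * m) := by
    have := hpos K
    nlinarith [Nat.mul_le_mul_left (2 ^ (K * m)) h8]
  calc C * (x.length + (2 ^ (c * m) + 4) + (2 ^ (cI * m) + (2 ^ (c * m) + 6) ^ d) + 1)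
      ≤ 2 ^ (C * m) * (2 ^ (K * m) * 2 ^ (3 * m)) := Nat.mul_le_mul k5 k6
    _ = 2 ^ ((K + 3 + C) * m) := by rw [← pow_add, ← pow_add]; congr 1; ring
    _ ≤ _ := hmono (by rw [hK]; nlinarith)

end Pool.Agent.BPM
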