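import Pool.Agent.BPM.Parse
import Pool.Agent.BPD.ETime
import Pool.Agent.BPD.Univ
import Pool.Agent.BPD.TMcd

/-!
# Machines with binary output
-/

set_option autoImplicit false

namespace Pool.Agent.BPM

open Turing Pool.Agent.PF Pool.Agent.PT Pool.Agent.BPD
open Pool.Agent
open Function (update)

private def ust (u y : List Bool) : Store Bool := update (single 0 u) 2 y

private theorem ust_upd (u v y : List Bool) : update (ust u y) 0 v = ust v y := by
  unfold ust single
  rw [Function.update_comm (by decide), Function.update_idem]

private theorem ust_zero (u y : List Bool) : ust u y 0 = u := by simp [ust, single]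

private theorem ust_push (u y : List Bool) (b : Bool) :
    Runs (Prog.push 2 b) (ust u y) (ust u (b :: y)) 1 := by
  refine (Runs.push 2 b _).conv ?_ le_rfl
  simp [ust]

/-- The body of the loop. -/
private def ubody (a : Bool) : Prog Bool :=
  if a = true then Prog.pop 0 Prog.skip fun b =>
    if b = true then Prog.pop 0 Prog.skip fun _ => Prog.pop 0 Prog.skip fun _ => Prog.push 2 true
    else Prog.push 2 false
  else Prog.skip

private theorem unpack_loop (l : List Bool) : ∀ y : List Bool,
    Runs (Prog.loop 0 ubody) (ust (enc l : V).code y) (ust [] (l.reverse ++ y)) (6 * l.length + 3) := by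
  induction l with
  | nil =>
    intro y
    have h1 : Runs (ubody false) (update (ust [false] y) 0 []) (ust [] y) 1 := by
      rw [ust_upd]
      exact Runs.skip _
    exact (Runs.loopCons (a := false) (l := []) (ust_zero _ _) h1
      (Runs.loopNil (ust_zero _ _))).mono (by simp)
  | cons a l ih =>
    intro y
    have h0 := ih (a :: y)
    rw [List.reverse_cons, List.append_assoc, List.singleton_append, List.length_cons]
    cases a with
    | false =>
      have e : (enc (false :: l) : V).code = true :: false :: (enc l : V).code := rfl
      rw [e]
      have h1 : Runs (ubody true) (update (ust (true :: false :: (enc l : V).code) y) 0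
          (false :: (enc l : V).code)) (ust (enc l : V).code (false :: y)) 2 := by
        rw [ust_upd]
        refine Runs.popCons (ust_zero _ _) ?_
        rw [ust_upd]
        exact ust_push _ _ _
      exact (Runs.loopCons (ust_zero _ _) h1 h0).mono (by omega)
    | true =>
      have e : (enc (true :: l) : V).code = true :: true :: false :: false :: (enc l : V).code := rfl
      rw [e]
      have h1 : Runs (ubody true) (update (ust (true :: true :: false :: false ::
          (enc l : V).code) y) 0 (true :: false :: false :: (enc l : V).code))
          (ust (enc l : V).code (true :: y)) 4 := by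
        rw [ust_upd]
        refine Runs.popCons (ust_zero _ _) ?_
        rw [ust_upd]
        refine Runs.popCons (ust_zero _ _) ?_
        rw [ust_upd]
        refine Runs.popCons (ust_zero _ _) ?_
        rw [ust_upd]
        exact ust_push _ _ _
      exact (Runs.loopCons (ust_zero _ _) h1 h0).mono (by omega)

/-- The program which writes a list. -/
private def unpack : Prog Bool := Prog.seq (Prog.loop 0 ubody) (mv 2 1)

private theorem unpack_runs (l : List Bool) :
    Runs unpack (single 0 (enc l : V).code) (single 1 l) (8 * l.length + 4) := by
  have h1 := unpack_loop l []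
  have e : ust (enc l : V).code [] = single 0 (enc l : V).code := by
    unfold ust
    rw [Function.update_eq_self_iff]
    simp [single]
  rw [e, List.append_nil] at h1
  have h2 := runs_mv 2 1 (by decide) l.reverse (ust [] l.reverse) (by simp [ust])
  refine (h1.seq h2).conv ?_ (by rw [List.length_reverse]; omega)
  funext i
  by_cases h0 : i = 1
  · subst h0
    simp [ust, single]
  · by_cases h2 : i = 2
    · subst h2
      simp [single]
    · by_cases h3 : i = 0
      · subst h3
        simp [ust, single]
      · simp [ust, single, h0, h2, h3]

/-- **A machine with binary output** from a function on trees. -/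
theorem outputs_bits {α : Type} (inp : α → V) (out : α → List Bool) {F : V → V} {τ : V → ℕ}
    (hF : RunsBy F τ) (h : ∀ x, F (inp x) = enc (out x)) :
    ∃ (tm : FinTM2) (e₀ : tm.Γ tm.k₀ ≃ Bool) (e₁ : tm.Γ tm.k₁ ≃ Bool) (C : ℕ), ∀ x,
      Nonempty (TM2OutputsInTime tm ((inp x).code.map e₀.symm) (some ((out x).map e₁.symm))
        (C * ((inp x).size + τ (inp x) + 1))) := by
  obtain ⟨p, hp⟩ := id hF
  have hlen : ∀ x, (out x).length ≤ (inp x).size + τ (inp x) := by
    intro x
    have h1 := hF.size_le (inp x)
    rw [h x] at h1
    have h2 : ∀ l : List Bool, l.length ≤ (enc l : V).size := by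
      intro l
      induction l with
      | nil => simp
      | cons a l ih =>
        have : (enc (a :: l) : V).size = (V.bool a).size + (enc l : V).size + 1 := rfl
        rw [this, List.length_cons]
        omega
    exact (h2 _).trans h1
  obtain ⟨tm, e₀, e₁, C, hC⟩ := outputs_of_prog (fun x => (inp x).code) (fun l : List Bool => l)
    out (Prog.seq (p 0) unpack) id id false out (fun x => List.map_id _)
    (fun x => τ (inp x) + (8 * (out x).length + 4)) (fun x => by
      rw [List.map_id]
      have h1 := hp 0 (single 0 (inp x).code) (inp x) [] (by simp [single])
        (fun i hi => by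
          have : i ≠ 0 := by omega
          simp [single, this])
      have e1 : update (single 0 (inp x).code) 0 ((F (inp x)).code ++ []) =
          single 0 (enc (out x) : V).code := by
        rw [h x]
        simp [single]
      rw [e1] at h1
      exact h1.seq (unpack_runs (out x)))
  refine ⟨tm, e₀, e₁, 20 * C, fun x => ?_⟩
  obtain ⟨h1⟩ := hC x
  refine ⟨⟨h1.1, h1.2.trans ?_⟩⟩
  have h2 := hlen x
  rw [mul_comm 20 C, mul_assoc]
  refine Nat.mul_le_mul_left _ ?_
  rw [V.code_length]
  omega

end Pool.Agent.BPM
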