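import Pool.Agent.BPM.Win

/-!
# The number of the cells of a window

PROOF. The map `x ↦ ix H i x` is a bijection of `win B H i` with `Finset.range (nQ B H)`: `mem_win`, `ix_lt`, `ix_inj`,
`exists_cell` (`Finset.card_bij` or `Finset.card_nbij'`).
-/

set_option autoImplicit false

namespace Pool.Agent.BPM

open Pool.Agent.BPD Set

/-- The number of the cells of a window. -/
theorem card_win (B H i : ℕ) : (win B H i).card = nQ B H := by
  rw [← Finset.card_range (nQ B H)]
  refine Finset.card_bij (fun x _ => ix H i x) (fun x hx => ?_) (fun x hx y hy h => ?_)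
    (fun k hk => ?_)
  · exact Finset.mem_range.2 (ix_lt (mem_win.1 hx))
  · exact ix_inj (mem_win.1 hx) (mem_win.1 hy) h
  · obtain ⟨x, hx, he⟩ := exists_cell i (Finset.mem_range.1 hk)
    exact ⟨x, mem_win.2 hx, he⟩

end Pool.Agent.BPM
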